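import Pool.Agent.Y791.BF.Tasks
import Pool.Agent.Y791.BS.Emb

/-!
# Finitely many algebraic elements over a finitely generated field in a completion (helper748)
-/

set_option autoImplicit false

open IsDedekindDomain NumberField

namespace Pool.Agent.Y791.BF.EmbFG

theorem main (hF : S_FrobRes) : S_EmbFG := by
  classical
  intro k _ _ hk Z n0
  haveI := hk
  let k1 : IntermediateField k (AlgebraicClosure k) :=
    IntermediateField.adjoin k (Z : Set (AlgebraicClosure k))
  haveI hfin : FiniteDimensional k k1 :=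
    IntermediateField.finiteDimensional_adjoin fun x _ => Algebra.IsIntegral.isIntegral x
  haveI : CharZero k1 := inferInstance
  haveI : Algebra.EssFiniteType k k1 := inferInstance
  have hE1 : Algebra.EssFiniteType ℚ k1 := Algebra.EssFiniteType.comp ℚ k k1
  have hZ1 : ∀ z ∈ Z, z ∈ k1 := fun z hz => IntermediateField.subset_adjoin k _ hz
  let t : {z // z ∈ Z} → k1 := fun z => ⟨z.1, hZ1 z.1 z.2⟩
  obtain ⟨p, hp, B, χ, i1, res, hn0, -, -, hres1, hres2, hY⟩ :=
    hF k1 hE1 ∅ ((Finset.univ.image t) ∪ (Finset.univ.image fun z => (t z)⁻¹)) 1 n0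
  have hY1 : ∀ z, ‖i1.φ (t z)‖ ≤ 1 := by
    intro z
    obtain ⟨-, h, -⟩ := hY (t z) (Finset.mem_union_left _ (Finset.mem_image_of_mem _ (Finset.mem_univ z)))
    exact h
  have hY2 : ∀ z, ‖i1.φ (t z)⁻¹‖ ≤ 1 := by
    intro z
    obtain ⟨-, h, -⟩ := hY (t z)⁻¹ (Finset.mem_union_right _
      (Finset.mem_image.2 ⟨z, Finset.mem_univ z, rfl⟩))
    exact h
  let i : PlF k := ⟨i1.L, i1.v, i1.φ.comp (algebraMap k k1)⟩
  let ι1 : AlgebraicClosure k →ₐ[k1] AlgebraicClosure i1.Lv := IsAlgClosed.lift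
  have hι1 : ∀ x : k1, ι1 (algebraMap k1 (AlgebraicClosure k) x) =
      algebraMap i1.Lv (AlgebraicClosure i1.Lv) (i1.φ x) := by
    intro x
    rw [AlgHom.commutes, IsScalarTower.algebraMap_apply k1 i1.Lv (AlgebraicClosure i1.Lv)]
    rfl
  let ι : AlgebraicClosure k →ₐ[k] AlgebraicClosure i.Lv :=
    { ι1.toRingHom with
      commutes' := by
        intro c
        change ι1 (algebraMap k (AlgebraicClosure k) c) = _
        rw [IsScalarTower.algebraMap_apply k i.Lv (AlgebraicClosure i.Lv) c,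
          IsScalarTower.algebraMap_apply k k1 (AlgebraicClosure k) c, hι1]
        rfl }
  refine ⟨p, hp, i, ι, hn0, ?_, ?_, ?_⟩
  · have h1 : res ((p : ℕ) : ball1 i1.Lv) = 0 := by
      rw [map_natCast]
      exact CharP.cast_eq_zero _ p
    have h2 := (hres2 _).1 h1
    have h3 : ((((p : ℕ) : ball1 i1.Lv)) : i1.Lv) = (p : i1.Lv) := by
      norm_cast
    rw [h3] at h2
    exact h2
  · intro y hy
    obtain ⟨n, hn⟩ := Pool.Agent.Y791.BS.Emb.prime_field (hres1 (⟨y, hy⟩ : ball1 i1.Lv))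
    refine ⟨n, ?_⟩
    have h1 : res ((⟨y, hy⟩ : ball1 i1.Lv) - (n : ball1 i1.Lv)) = 0 := by
      rw [map_sub, map_natCast, hn, sub_self]
    have h2 := (hres2 _).1 h1
    have h3 : (((⟨y, hy⟩ : ball1 i1.Lv) - (n : ball1 i1.Lv) : ball1 i1.Lv) : i1.Lv) =
        y - (n : i1.Lv) := by
      push_cast
      rfl
    rw [h3] at h2
    exact h2
  · intro z hz
    refine ⟨i1.φ (t ⟨z, hz⟩), ?_, ?_⟩
    · exact (hι1 (t ⟨z, hz⟩)).symm
    · intro hz0
      have ht0 : t ⟨z, hz⟩ ≠ 0 := by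
        intro h
        apply hz0
        exact congrArg Subtype.val h
      have h1 := hY1 ⟨z, hz⟩
      have h2 := hY2 ⟨z, hz⟩
      rw [map_inv₀, norm_inv] at h2
      have h0 : 0 < ‖i1.φ (t ⟨z, hz⟩)‖ := by
        rw [norm_pos_iff]
        intro h
        exact ht0 ((map_eq_zero _).1 h)
      apply le_antisymm h1
      rw [inv_le_one₀ h0] at h2
      exact h2

end Pool.Agent.Y791.BF.EmbFG
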