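import Pool.Agent.Y791.BF.Defs
import Pool.Agent.Y791.BS.Emb
import Pool.Agent.W858.SG.Emb2

/-!
# Frobenius elements in residue form (helper319)
-/

set_option autoImplicit false

open IsDedekindDomain NumberField

namespace Pool.Agent.Y791.BF.FrobRes

open Pool.Agent.W401.Cheb Pool.Agent.W858.SF Pool.Agent.W858.SG Pool.Agent.Y791.BS.Emb

/-- the residue map of the completion at the kernel of a homomorphism -/
theorem exists_res {L : Type} [Field L] [NumberField L] (v : HeightOneSpectrum (𝓞 L)) {A : Type}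
    [Field A] (f : 𝓞 L →+* A) (hf : ∀ x, x ∈ v.asIdeal ↔ f x = 0) :
    ∃ res : ball1 (v.adicCompletion L) →+* A,
      (∀ y, res y = 0 ↔ ‖(y : v.adicCompletion L)‖ < 1) ∧
      (∀ (r : 𝓞 L) (y : ball1 (v.adicCompletion L)),
        ‖(y : v.adicCompletion L) - algebraMap L (v.adicCompletion L) (algebraMap (𝓞 L) L r)‖ < 1 →
        res y = f r) ∧
      (∀ y : ball1 (v.adicCompletion L), ∃ r : 𝓞 L,
        ‖(y : v.adicCompletion L) -
          algebraMap L (v.adicCompletion L) (algebraMap (𝓞 L) L r)‖ < 1) := by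
  obtain ⟨θ, hθs, hθ⟩ := exists_residue_map v
  have hmax : v.asIdeal.IsMaximal := v.isMaximal
  let _ : Field (𝓞 L ⧸ v.asIdeal) := Ideal.Quotient.field v.asIdeal
  have hθi : Function.Injective θ := θ.injective
  let e : (𝓞 L ⧸ v.asIdeal) ≃+* IsLocalRing.ResidueField (vv v).valuationSubring :=
    RingEquiv.ofBijective θ ⟨hθi, hθs⟩
  let fb : (𝓞 L ⧸ v.asIdeal) →+* A := Ideal.Quotient.lift v.asIdeal f fun a ha => (hf a).1 ha
  have hfbi : Function.Injective fb := fb.injective
  let i : ball1 (v.adicCompletion L) →+* (vv v).valuationSubring :=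
    { toFun := fun y => ⟨y, (vv_le_one v _).2 y.2⟩
      map_one' := Subtype.ext rfl
      map_mul' := fun y z => Subtype.ext rfl
      map_zero' := Subtype.ext rfl
      map_add' := fun y z => Subtype.ext rfl }
  let res : ball1 (v.adicCompletion L) →+* A :=
    fb.comp ((e.symm : _ →+* _).comp ((IsLocalRing.residue (vv v).valuationSubring).comp i))
  have hres : ∀ y, res y = fb (e.symm (IsLocalRing.residue _ (i y))) := fun y => rfl
  refine ⟨res, fun y => ?_, fun r y hr => ?_, fun y => ?_⟩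
  · rw [hres, map_eq_zero_iff _ hfbi, map_eq_zero_iff _ e.symm.injective,
      IsLocalRing.residue_eq_zero_iff, mem_max, vv_lt_one]
    rfl
  · rw [hres, hθ r (i y) ((vv_lt_one v _).2 hr)]
    have h1 : e.symm (θ (Ideal.Quotient.mk v.asIdeal r)) = Ideal.Quotient.mk v.asIdeal r :=
      e.symm_apply_apply _
    rw [h1, Ideal.Quotient.lift_mk]
  · obtain ⟨r, hr⟩ := exists_int_close v (i y)
    exact ⟨r, (vv_lt_one v _).1 hr⟩

/-- the local ring at the kernel of `φ` and the reduction -/
theorem exists_local {F : Type} [Field F] [NumberField F] {A : Type} [Field A] (φ : 𝓞 F →+* A) :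
    ∃ (O : Subring F) (ψ : O →+* A),
      (∀ x : F, x ∈ O ↔ ∃ a b : 𝓞 F, φ b ≠ 0 ∧ x * algebraMap (𝓞 F) F b = algebraMap (𝓞 F) F a) ∧
      (∀ (x : F) (hx : x ∈ O) (a b : 𝓞 F), x * algebraMap (𝓞 F) F b = algebraMap (𝓞 F) F a →
        ψ ⟨x, hx⟩ * φ b = φ a) := by
  classical
  let O : Subring F :=
    { carrier := {x | ∃ a b : 𝓞 F, φ b ≠ 0 ∧ x * algebraMap (𝓞 F) F b = algebraMap (𝓞 F) F a}
      mul_mem' := by
        rintro x y ⟨a, b, hb, hx⟩ ⟨c, d, hd, hy⟩
        refine ⟨a * c, b * d, by rw [map_mul]; exact mul_ne_zero hb hd, ?_⟩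
        rw [map_mul, map_mul, ← hx, ← hy]
        ring
      one_mem' := ⟨1, 1, by rw [map_one]; exact one_ne_zero, by simp⟩
      add_mem' := by
        rintro x y ⟨a, b, hb, hx⟩ ⟨c, d, hd, hy⟩
        refine ⟨a * d + c * b, b * d, by rw [map_mul]; exact mul_ne_zero hb hd, ?_⟩
        rw [map_add, map_mul, map_mul, map_mul, ← hx, ← hy]
        ring
      zero_mem' := ⟨0, 1, by rw [map_one]; exact one_ne_zero, by simp⟩
      neg_mem' := by
        rintro x ⟨a, b, hb, hx⟩
        refine ⟨-a, b, hb, ?_⟩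
        rw [map_neg, ← hx]
        ring }
  have hO : ∀ x : F, x ∈ O ↔ ∃ a b : 𝓞 F, φ b ≠ 0 ∧
    x * algebraMap (𝓞 F) F b = algebraMap (𝓞 F) F a := fun x => Iff.rfl
  choose na hna using fun x : O => (hO x).1 x.2
  choose nb hnb using hna
  -- the value does not depend on the fraction
  have key : ∀ (x : O) (a b : 𝓞 F), (x : F) * algebraMap (𝓞 F) F b = algebraMap (𝓞 F) F a →
      φ (na x) / φ (nb x) * φ b = φ a := by
    intro x a b hx
    obtain ⟨h1, h2⟩ := hnb x
    have h3 : na x * b = a * nb x := by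
      apply FaithfulSMul.algebraMap_injective (𝓞 F) F
      rw [map_mul, map_mul, ← hx, ← h2]
      ring
    have h4 := congrArg φ h3
    rw [map_mul, map_mul] at h4
    rw [div_mul_eq_mul_div, h4, mul_div_cancel_right₀ _ h1]
  let ψ : O →+* A :=
    { toFun := fun x => φ (na x) / φ (nb x)
      map_one' := by
        have := key 1 1 1 (by simp)
        rw [map_one, mul_one] at this
        exact this
      map_mul' := by
        intro x y
        obtain ⟨h1, h2⟩ := hnb x
        obtain ⟨h3, h4⟩ := hnb y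
        have := key (x * y) (na x * na y) (nb x * nb y) (by
          rw [map_mul, map_mul, ← h2, ← h4]
          push_cast
          ring)
        rw [map_mul, map_mul] at this
        field_simp
        field_simp at this
        linear_combination this
      map_zero' := by
        have := key 0 0 1 (by simp)
        rw [map_one, mul_one, map_zero] at this
        exact this
      map_add' := by
        intro x y
        obtain ⟨h1, h2⟩ := hnb x
        obtain ⟨h3, h4⟩ := hnb y
        have := key (x + y) (na x * nb y + na y * nb x) (nb x * nb y) (by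
          rw [map_mul, map_add, map_mul, map_mul, ← h2, ← h4]
          push_cast
          ring)
        rw [map_mul, map_add, map_mul, map_mul] at this
        field_simp
        field_simp at this
        linear_combination this }
  exact ⟨O, ψ, hO, fun x hx a b h => key ⟨x, hx⟩ a b h⟩

/-- **Frobenius elements in residue form**, with the place of a fixed subfield. -/
theorem frob_local {F : Type} [Field F] [NumberField F] [IsGalois ℚ F] (τ : F ≃ₐ[ℚ] F)
    (L : IntermediateField ℚ F) (hτ : ∀ x ∈ L, τ x = x) (W : Finset F)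
    (q : HeightOneSpectrum (𝓞 L) → Prop) (hq : AE q) (n0 : ℕ) :
    ∃ (p : ℕ) (_ : Fact p.Prime) (O : Subring F) (ψ : O →+* AlgebraicClosure (ZMod p))
      (v : HeightOneSpectrum (𝓞 L))
      (res : ball1 (v.adicCompletion L) →+* AlgebraicClosure (ZMod p)),
      n0 < p ∧ (∀ w ∈ W, w ∈ O) ∧
      (∀ x (hx : x ∈ O), ∃ h : τ x ∈ O, ψ ⟨τ x, h⟩ = ψ ⟨x, hx⟩ ^ p) ∧
      (∀ y, res y ^ p = res y) ∧ (∀ y, res y = 0 ↔ ‖(y : v.adicCompletion L)‖ < 1) ∧ q v ∧
      (∀ (x : L) (y : ball1 (v.adicCompletion L)),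
        ‖(y : v.adicCompletion L) - algebraMap L (v.adicCompletion L) x‖ < 1 →
        ∃ h : (x : F) ∈ O, ψ ⟨x, h⟩ = res y) := by
  classical
  -- denominators
  have hden : ∀ w : F, ∃ (a b : 𝓞 F), b ≠ 0 ∧
      w * algebraMap (𝓞 F) F b = algebraMap (𝓞 F) F a := by
    intro w
    obtain ⟨a, b, hb, hw⟩ := IsFractionRing.div_surjective (A := 𝓞 F) w
    have hb0 : b ≠ 0 := nonZeroDivisors.ne_zero hb
    have hb1 : algebraMap (𝓞 F) F b ≠ 0 := fun h => hb0
      (FaithfulSMul.algebraMap_injective (𝓞 F) F (by rw [map_zero]; exact h))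
    refine ⟨a, b, hb0, ?_⟩
    rw [← hw]
    exact div_mul_cancel₀ _ hb1
  choose an bn hbn0 hbn using hden
  obtain ⟨N, hN0, hN⟩ := hq
  let iO : 𝓞 L →+* 𝓞 F := RingOfIntegers.mapRingHom (algebraMap L F)
  have hiO : ∀ x : 𝓞 L, ((iO x : 𝓞 F) : F) = ((x : L) : F) := fun x => rfl
  have hiOinj : Function.Injective iO := by
    intro x y hxy
    have h1 := congrArg (fun z : 𝓞 F => (z : F)) hxy
    have h2 : ((x : L) : F) = ((y : L) : F) := h1
    exact RingOfIntegers.coe_injective (Subtype.ext h2)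
  obtain ⟨m, hm, hm'⟩ := Pool.Agent.W723.SecC.nz F (iO N * ∏ w ∈ W, bn w)
    (mul_ne_zero (fun h => hN0 (hiOinj (by rw [h, map_zero])))
      (Finset.prod_ne_zero_iff.2 fun w _ => hbn0 w))
  obtain ⟨p, ⟨hp, hxp⟩, hpgt⟩ := (infinite_frob F τ).exists_gt (max m n0)
  have hpm : ¬ p ∣ m := fun hd => by
    have h1 := Nat.le_of_dvd hm hd
    have h2 := le_max_left m n0
    omega
  have hFact : Fact p.Prime := ⟨hp⟩
  obtain ⟨φ, hφ⟩ : ∃ φ : 𝓞 F →+* AlgebraicClosure (ZMod p), HasFrob p φ τ := by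
    unfold xp at hxp
    rw [dif_pos hp] at hxp
    by_contra h
    push Not at h
    apply hxp
    rw [Nat.card_eq_zero]
    left
    exact ⟨fun x => h x.1 x.2⟩
  have hφE := hm' _ φ (by
    rw [Ne, CharP.cast_eq_zero_iff (AlgebraicClosure (ZMod p)) p]
    exact hpm)
  rw [map_mul, map_prod] at hφE
  have hφN : φ (iO N) ≠ 0 := left_ne_zero_of_mul hφE
  have hφW : ∀ w ∈ W, φ (bn w) ≠ 0 := Finset.prod_ne_zero_iff.1 (right_ne_zero_of_mul hφE)
  have hφi : ∀ x : 𝓞 L, φ (iO x) ^ p = φ (iO x) := by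
    intro x
    have h1 := hφ (iO x)
    have h2 : τ • (iO x) = iO x := by
      apply RingOfIntegers.coe_injective
      change τ ((iO x : 𝓞 F) : F) = _
      rw [hiO, hτ _ (x : L).2]
      rfl
    rw [h2] at h1
    exact h1.symm
  -- the place
  set P : Ideal (𝓞 L) := RingHom.ker (φ.comp iO) with hP
  have hPprime : P.IsPrime := RingHom.ker_isPrime _
  have hP0 : P ≠ ⊥ := by
    intro h0
    have hpP : ((p : ℕ) : 𝓞 L) ∈ P := by
      rw [hP, RingHom.mem_ker, map_natCast]
      exact CharP.cast_eq_zero _ p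
    rw [h0, Ideal.mem_bot] at hpP
    have : p = 0 := by exact_mod_cast hpP
    exact hp.ne_zero this
  let v : HeightOneSpectrum (𝓞 L) := ⟨P, hPprime, hP0⟩
  have hmemv : ∀ x : 𝓞 L, x ∈ v.asIdeal ↔ (φ.comp iO) x = 0 := fun x => RingHom.mem_ker
  obtain ⟨res, hres0, hresr, hresex⟩ := exists_res v (φ.comp iO) hmemv
  obtain ⟨O, ψ, hO, hψ⟩ := exists_local φ
  refine ⟨p, hFact, O, ψ, v, res, (le_max_right m n0).trans_lt hpgt, ?_, ?_, ?_, hres0, ?_, ?_⟩
  · intro w hw
    exact (hO w).2 ⟨an w, bn w, hφW w hw, hbn w⟩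
  · intro x hx
    obtain ⟨a, b, hb, hab⟩ := (hO x).1 hx
    have hb' : φ (τ • b) ≠ 0 := by
      rw [hφ b]
      exact pow_ne_zero _ hb
    have hab' : τ x * algebraMap (𝓞 F) F (τ • b) = algebraMap (𝓞 F) F (τ • a) := by
      change τ x * τ (algebraMap (𝓞 F) F b) = τ (algebraMap (𝓞 F) F a)
      rw [← map_mul, hab]
    have h : τ x ∈ O := (hO _).2 ⟨_, _, hb', hab'⟩
    refine ⟨h, ?_⟩
    have h1 := hψ (τ x) h _ _ hab'
    have h2 := hψ x hx a b hab
    rw [hφ a, hφ b, ← h2, mul_pow] at h1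
    exact mul_right_cancel₀ (pow_ne_zero _ hb) h1
  · intro y
    obtain ⟨r, hr⟩ := hresex y
    rw [hresr r y hr]
    exact hφi r
  · refine hN v ?_
    rw [hmemv]
    exact hφN
  · intro x y hxy
    obtain ⟨r, hr⟩ := hresex y
    rw [hresr r y hr]
    have h1 : vv v (algebraMap L (v.adicCompletion L) (x - algebraMap (𝓞 L) L r)) < 1 := by
      rw [vv_lt_one]
      have e : algebraMap L (v.adicCompletion L) (x - algebraMap (𝓞 L) L r) =
          ((y : v.adicCompletion L) - algebraMap L (v.adicCompletion L) (algebraMap (𝓞 L) L r)) -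
          ((y : v.adicCompletion L) - algebraMap L (v.adicCompletion L) x) := by
        rw [map_sub]
        ring
      rw [e]
      exact Pool.Agent.TH954.usub_lt hr hxy
    rw [vv_algebraMap] at h1
    have h2 : v.valuation L x ≤ 1 := by
      have e : x = (x - algebraMap (𝓞 L) L r) + algebraMap (𝓞 L) L r := by ring
      rw [e]
      exact (Valuation.map_add _ _ _).trans (max_le h1.le (v.valuation_le_one r))
    obtain ⟨n, ⟨d, hd⟩, hnd⟩ := v.exists_primeCompl_mul_eq_of_integer x h2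
    have hd' : φ (iO d) ≠ 0 := fun h0 => hd ((hmemv d).2 h0)
    have hnd' : (x : F) * algebraMap (𝓞 F) F (iO d) = algebraMap (𝓞 F) F (iO n) := by
      have h3 := congrArg (algebraMap L F) hnd
      rw [map_mul] at h3
      exact h3
    have hxO : (x : F) ∈ O := (hO _).2 ⟨_, _, hd', hnd'⟩
    refine ⟨hxO, ?_⟩
    have h3 := hψ x hxO _ _ hnd'
    have h4 : n - r * d ∈ v.asIdeal := by
      rw [← HeightOneSpectrum.valuation_lt_one_iff_mem (K := L)]
      have e : algebraMap (𝓞 L) L (n - r * d) =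
          (x - algebraMap (𝓞 L) L r) * algebraMap (𝓞 L) L d := by
        rw [map_sub, map_mul, ← hnd]
        ring
      change v.valuation L (algebraMap (𝓞 L) L (n - r * d)) < 1
      rw [e, map_mul]
      exact (mul_le_of_le_one_right' (v.valuation_le_one d)).trans_lt h1
    rw [hmemv, map_sub, sub_eq_zero, map_mul] at h4
    have h5 : ψ ⟨x, hxO⟩ * φ (iO d) = (φ.comp iO) r * φ (iO d) := by
      rw [h3]
      exact h4
    exact mul_right_cancel₀ hd' h5

end Pool.Agent.Y791.BF.FrobRes
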