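import Pool.Agent.Y791.BF.Defs
import Pool.Agent.W858.SG.Spec
import Pool.Agent.W858.SG.Dens2

/-!
# Specialisation of a finitely generated field with a Galois automorphism (helper319)
-/

set_option autoImplicit false

open IsDedekindDomain NumberField

namespace Pool.Agent.Y791.BF.FrobRes

open Polynomial WithZero Pool.Agent.W858.SF Pool.Agent.W858.SG

/-- the map from the polynomial ring on the elements of `Y` -/
noncomputable def evY {k : Type} [Field k] (Y : Finset k) : MvPolynomial Y ℤ →+* k :=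
  MvPolynomial.eval₂Hom (Int.castRingHom k) (fun y : Y => (y : k))

theorem adjoin_mem {R : Type} [CommRing R] [alg : Algebra ℤ R] (G : Set R)
    (hG : Algebra.adjoin ℤ G = ⊤) (S : Subring R) (h : ∀ r ∈ G, r ∈ S) (r : R) : r ∈ S := by
  obtain rfl : alg = Ring.toIntAlgebra R := Subsingleton.elim _ _
  have h8 : Algebra.adjoin ℤ G ≤ subalgebraOfSubring S := by
    rw [Algebra.adjoin_le_iff]
    intro r hr
    exact h r hr
  have h9 : r ∈ Algebra.adjoin ℤ G := by
    rw [hG]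
    exact Algebra.mem_top
  exact h8 h9

theorem spec_aux {m : ℕ} {Q k : Type} [Field Q] [Algebra (MvPolynomial (Fin m) ℚ) Q]
    [IsFractionRing (MvPolynomial (Fin m) ℚ) Q] [Field k] [CharZero k] [Algebra Q k]
    [Algebra (MvPolynomial (Fin m) ℚ) k] [IsScalarTower (MvPolynomial (Fin m) ℚ) Q k]
    [FiniteDimensional Q k] (Z : Finset (AlgebraicClosure k)) (Y : Finset k)
    (σ : AlgebraicClosure k ≃ₐ[k] AlgebraicClosure k) :
    ∃ (F : Type) (_ : Field F) (_ : NumberField F) (_ : IsGalois ℚ F) (τ : F ≃ₐ[ℚ] F)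
      (L : IntermediateField ℚ F) (B : Subring (AlgebraicClosure k)) (Φ : B →+* F) (P : k → L),
      (∀ x ∈ L, τ x = x) ∧
      (∀ z ∈ Z, z ∈ B ∧ (z ≠ 0 → z⁻¹ ∈ B)) ∧
      (∀ b (hb : b ∈ B), ∃ h : σ b ∈ B, Φ ⟨σ b, h⟩ = τ (Φ ⟨b, hb⟩)) ∧
      (∀ c ∈ Y, ∃ hc : algebraMap k (AlgebraicClosure k) c ∈ B, Φ ⟨_, hc⟩ = (P c : F)) ∧
      AE fun v : HeightOneSpectrum (𝓞 L) => (∀ c ∈ Y, v.valuation L (P c) ≤ 1) ∧
        ∃ ψ : k →+* v.adicCompletion L,
          ∀ c ∈ Y, vv v (ψ c - algebraMap L (v.adicCompletion L) (P c)) ≤ exp (-2) := by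
  classical
  have hczQ : CharZero Q := charZero_of_injective_algebraMap
    (IsFractionRing.injective (MvPolynomial (Fin m) ℚ) Q)
  have halg : Algebra.IsAlgebraic Q (AlgebraicClosure k) := Algebra.IsAlgebraic.trans Q k _
  obtain ⟨α, hgen, hα⟩ := Pool.Agent.H298R2.Kuyk.exists_prim (MvPolynomial (Fin m) ℚ) Q k
  let R := MvPolynomial Y ℤ
  let _ : Algebra R k := (evY Y).toAlgebra
  have hRX : ∀ y : Y, algebraMap R k (MvPolynomial.X y) = (y : k) := fun y =>
    MvPolynomial.eval₂Hom_X' _ _ _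
  let G : Finset R := Finset.univ.image fun y : Y => (MvPolynomial.X y : MvPolynomial Y ℤ)
  have hG : Algebra.adjoin ℤ (G : Set R) = ⊤ := by
    have h1 : (G : Set R) = Set.range (MvPolynomial.X : Y → MvPolynomial Y ℤ) := by
      simp [G]
    rw [h1]
    exact MvPolynomial.adjoin_range_X
  have hDNex : ∀ r : R, ∃ (D : MvPolynomial (Fin m) ℚ) (N : (MvPolynomial (Fin m) ℚ)[X]),
      D ≠ 0 ∧ algebraMap _ k D * algebraMap R k r = aeval α N := by
    intro r
    obtain ⟨p, -, hp⟩ := H33.V4.exists_rep (Q := Q) α hgen (algebraMap R k r)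
    obtain ⟨D, hD, hDp⟩ := IsLocalization.integerNormalization_spec
      (nonZeroDivisors (MvPolynomial (Fin m) ℚ)) p
    refine ⟨D, IsLocalization.integerNormalization (nonZeroDivisors (MvPolynomial (Fin m) ℚ)) p,
      nonZeroDivisors.ne_zero hD, ?_⟩
    rw [← aeval_map_algebraMap Q, hDp, Algebra.smul_def, map_mul, hp]
    congr 1
    rw [IsScalarTower.algebraMap_apply (MvPolynomial (Fin m) ℚ) Q k,
      IsScalarTower.algebraMap_apply (MvPolynomial (Fin m) ℚ) Q Q[X]]
    simp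
  choose D N hD hDN using hDNex
  obtain ⟨E, hfdE, hgalE, hSE⟩ := Pool.Agent.H298R2.Kuyk.exists_galois (Q := Q)
    (F := AlgebraicClosure k) ({algebraMap k (AlgebraicClosure k) α} ∪ (Z : Set (AlgebraicClosure k)))
    ((Set.finite_singleton _).union Z.finite_toSet)
    (fun x _ => (Algebra.IsAlgebraic.isAlgebraic x).isIntegral)
  have hkE : ∀ x : k, algebraMap k (AlgebraicClosure k) x ∈ E := by
    intro x
    have h1 : IntermediateField.adjoin Q {α} ≤
        E.comap (IsScalarTower.toAlgHom Q k (AlgebraicClosure k)) := by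
      rw [IntermediateField.adjoin_simple_le_iff]
      exact hSE (Or.inl rfl)
    rw [hgen] at h1
    exact h1 (IntermediateField.mem_top (x := x))
  let jk : k →+* E := (algebraMap k (AlgebraicClosure k)).codRestrict E hkE
  have hjk : ∀ x, ((jk x : E) : AlgebraicClosure k) = algebraMap k (AlgebraicClosure k) x :=
    fun _ => rfl
  have hjkinj : Function.Injective jk := jk.injective
  have hjkMP : ∀ p : MvPolynomial (Fin m) ℚ, jk (algebraMap _ k p) = algebraMap _ E p := by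
    intro p
    apply Subtype.ext
    rw [hjk, ← IsScalarTower.algebraMap_apply]
    rfl
  let zE : Z → E := fun z => ⟨z, hSE (Or.inr z.2)⟩
  set h := minpoly (MvPolynomial (Fin m) ℚ) α with hh
  have hmin := minpoly.isIntegrallyClosed_eq_field_fractions' (R := MvPolynomial (Fin m) ℚ) Q hα
  have hderiv : aeval α (derivative h) ≠ 0 := by
    have h1 : IsIntegral Q α := hα.tower_top
    have h2 : (minpoly Q α).Separable := (minpoly.irreducible h1).separable
    have h3 := h2.aeval_derivative_ne_zero (minpoly.aeval Q α)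
    rw [hmin, derivative_map, aeval_map_algebraMap] at h3
    exact h3
  obtain ⟨W0, hW0⟩ : ∃ W0 : Finset E, W0 = ({jk α, jk (aeval α (derivative h))} ∪
      G.image (fun r => jk (algebraMap R k r)) ∪ Finset.univ.image zE) := ⟨_, rfl⟩
  have mα : jk α ∈ W0 := by
    rw [hW0]
    simp
  have mh : jk (aeval α (derivative h)) ∈ W0 := by
    rw [hW0]
    simp
  have mG : ∀ r ∈ G, jk (algebraMap R k r) ∈ W0 := by
    intro r hr
    rw [hW0]
    simp only [Finset.mem_union, Finset.mem_image]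
    exact Or.inl (Or.inr ⟨r, hr, rfl⟩)
  have mz : ∀ z, zE z ∈ W0 := by
    intro z
    rw [hW0]
    simp only [Finset.mem_union, Finset.mem_image]
    exact Or.inr ⟨z, Finset.mem_univ _, rfl⟩
  obtain ⟨a, ha, F', i1, i2, hfd', hgal', ψ, B, hR, hB, Φ, hW, hΦ, hΦψ⟩ :=
    Pool.Agent.H298R2.Kuyk.spec_mv Pool.Agent.H391R2.T4.hilb_rat (Q := Q) (E := E)
      (W0 ∪ W0.image (fun x => x⁻¹)) (∏ r ∈ G, D r) (Finset.prod_ne_zero_iff.2 fun r _ => hD r)
  have hcz : CharZero F' := algebraRat.charZero F'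
  obtain rfl : i2 = DivisionRing.toRatAlgebra := Subsingleton.elim _ _
  have hnf : NumberField F' := ⟨⟩
  have hWB : ∀ x ∈ W0, x ∈ B := fun x hx => hW (Finset.mem_union_left _ hx)
  have hWBi : ∀ x ∈ W0, x⁻¹ ∈ B := fun x hx => hW (Finset.mem_union_right _
    (Finset.mem_image_of_mem _ hx))
  have hne : ∀ (x : E) (hx : x ∈ W0), x ≠ 0 → Φ ⟨x, hWB x hx⟩ ≠ 0 := by
    intro x hx hx0 h0
    have h1 : (⟨x, hWB x hx⟩ : B) * ⟨x⁻¹, hWBi x hx⟩ = 1 := by
      apply Subtype.ext
      exact mul_inv_cancel₀ hx0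
    have h2 := congrArg Φ h1
    rw [map_mul, h0, zero_mul, map_one] at h2
    exact zero_ne_one h2
  have hjkR : ∀ r : R, jk (algebraMap R k r) ∈ B := by
    intro r
    exact adjoin_mem (G : Set R) hG (B.comap (jk.comp (algebraMap R k)))
      (fun r hr => hWB _ (mG r hr)) r
  let ρ : R →+* B := (jk.comp (algebraMap R k)).codRestrict B hjkR
  have hρ : ∀ r, ((ρ r : B) : E) = jk (algebraMap R k r) := fun _ => rfl
  let μ : MvPolynomial (Fin m) ℚ →+* B := (algebraMap (MvPolynomial (Fin m) ℚ) E).codRestrict B hR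
  have hμ : ∀ p, ((μ p : B) : E) = algebraMap _ E p := fun _ => rfl
  let αB : B := ⟨jk α, hWB _ mα⟩
  have hΦμ : ∀ p, Φ (μ p) = algebraMap ℚ F' (MvPolynomial.eval a p) := hΦ
  -- polynomials in `α`
  have hpolyα : ∀ p : (MvPolynomial (Fin m) ℚ)[X],
      (((p.map μ).eval αB : B) : E) = jk (aeval α p) := by
    intro p
    have h1 : (((p.map μ).eval αB : B) : E) = B.subtype (eval₂ μ αB p) := by
      rw [eval_map]
      rfl
    rw [h1, hom_eval₂, aeval_def, hom_eval₂]
    have h2 : B.subtype.comp μ = jk.comp (algebraMap (MvPolynomial (Fin m) ℚ) k) :=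
      RingHom.ext fun p => (hjkMP p).symm
    rw [h2]
    rfl
  let L : IntermediateField ℚ F' := IntermediateField.adjoin ℚ {Φ αB}
  have hβL : Φ αB ∈ L := IntermediateField.mem_adjoin_simple_self _ _
  have hnL : NumberField L := inferInstance
  let c : Fin m → L := fun i => ((a i : ℚ) : L)
  have hspL : ∀ p, ((spL c p : L) : F') = Φ (μ p) := by
    intro p
    rw [hΦμ]
    have h1 : (algebraMap L F').comp (spL c) = (algebraMap ℚ F').comp (MvPolynomial.eval a) := by
      apply MvPolynomial.ringHom_ext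
      · intro r
        simp [spL]
      · intro i
        simp [spL, c]
    exact RingHom.congr_fun h1 p
  have hpolyL : ∀ p : (MvPolynomial (Fin m) ℚ)[X],
      (((p.map (spL c)).eval (⟨Φ αB, hβL⟩ : L) : L) : F') = Φ ((p.map μ).eval αB) := by
    intro p
    have h1 : (((p.map (spL c)).eval (⟨Φ αB, hβL⟩ : L) : L) : F') =
        algebraMap L F' (eval₂ (spL c) (⟨Φ αB, hβL⟩ : L) p) := by
      rw [eval_map]
      rfl
    rw [h1, hom_eval₂, eval_map, hom_eval₂]
    have h2 : (algebraMap L F').comp (spL c) = Φ.comp μ := RingHom.ext fun p => hspL p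
    rw [h2]
    rfl
  have hDP : ∀ r ∈ G, μ (D r) * ρ r = ((N r).map μ).eval αB := by
    intro r hr
    apply Subtype.ext
    rw [hpolyα, ← hDN r, map_mul, hjkMP]
    rfl
  have hevD : ∀ r ∈ G, MvPolynomial.eval a (D r) ≠ 0 := by
    rw [map_prod] at ha
    exact Finset.prod_ne_zero_iff.1 ha
  have hΦD : ∀ r ∈ G, Φ (μ (D r)) ≠ 0 := by
    intro r hr
    rw [hΦμ, Ne, map_eq_zero_iff _ (algebraMap ℚ F').injective]
    exact hevD r hr
  have hPL : ∀ r : R, Φ (ρ r) ∈ L := by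
    intro r0
    refine adjoin_mem (G : Set R) hG (L.toSubfield.toSubring.comap (Φ.comp ρ)) ?_ r0
    · intro r hr
      have h9 := congrArg Φ (hDP r hr)
      rw [map_mul, ← hpolyL, ← hspL] at h9
      have h10 : Φ (ρ r) = (((N r).map (spL c)).eval (⟨Φ αB, hβL⟩ : L) : L) / (spL c (D r) : L) := by
        rw [eq_div_iff (by
          rw [hspL]
          exact hΦD r hr), ← h9, mul_comm]
      change Φ (ρ r) ∈ L
      rw [h10]
      exact div_mem (SetLike.coe_mem _) (SetLike.coe_mem _)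
  let P : R →+* L := (Φ.comp ρ).codRestrict L hPL
  have hP : ∀ r, ((P r : L) : F') = Φ (ρ r) := fun _ => rfl
  -- the automorphism
  let σE : E ≃ₐ[Q] E := (σ.restrictScalars Q).restrictNormal E
  have hσE : ∀ x : E, ((σE x : E) : AlgebraicClosure k) = σ x := fun x =>
    AlgEquiv.restrictNormal_commutes (σ.restrictScalars Q) E x
  have hσjk : ∀ y, σE (jk y) = jk y := by
    intro y
    apply Subtype.ext
    rw [hσE, hjk, AlgEquiv.commutes]
  have hτΦ : ∀ (b b' : B), σE b = b' → ψ σE (Φ b) = Φ b' := by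
    intro b b' hb
    rw [← hΦψ]
    congr 1
    exact Subtype.ext hb
  have hτα : ψ σE (Φ αB) = Φ αB := hτΦ _ _ (hσjk α)
  have hτL : ∀ x ∈ L, ψ σE x = x := by
    have h1 : L ≤ IntermediateField.fixedField (Subgroup.zpowers (ψ σE)) := by
      change IntermediateField.adjoin ℚ {Φ αB} ≤ _
      rw [IntermediateField.adjoin_simple_le_iff, IntermediateField.mem_fixedField_iff]
      intro g hg
      obtain ⟨n, rfl⟩ := Subgroup.mem_zpowers_iff.1 hg
      have h2 : ψ σE ∈ MulAction.stabilizer (F' ≃ₐ[ℚ] F') (Φ αB) := hτα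
      exact zpow_mem h2 n
    intro x hx
    have h2 := h1 hx
    rw [IntermediateField.mem_fixedField_iff] at h2
    exact h2 _ (Subgroup.mem_zpowers _)
  -- the embedding
  have hβ : ((minpoly (MvPolynomial (Fin m) ℚ) α).map (spL c)).eval (⟨Φ αB, hβL⟩ : L) = 0 := by
    apply Subtype.ext
    rw [hpolyL]
    have h1 : (h.map μ).eval αB = 0 := by
      apply Subtype.ext
      rw [hpolyα, minpoly.aeval, map_zero]
      rfl
    rw [h1, map_zero]
    rfl
  have hβ' : ((derivative (minpoly (MvPolynomial (Fin m) ℚ) α)).map (spL c)).eval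
      (⟨Φ αB, hβL⟩ : L) ≠ 0 := by
    intro h0
    have h1 := congrArg (algebraMap L F') h0
    rw [map_zero] at h1
    have h2 : Φ (((derivative h).map μ).eval αB) = 0 := by
      rw [← hpolyL]
      exact h1
    have h3 : ((derivative h).map μ).eval αB = ⟨jk (aeval α (derivative h)), hWB _ mh⟩ := by
      apply Subtype.ext
      rw [hpolyα]
    rw [h3] at h2
    exact hne _ mh (by
      rw [Ne, map_eq_zero_iff _ hjkinj]
      exact hderiv) h2
  have hDP' : ∀ r ∈ G, spL c (D r) ≠ 0 ∧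
      spL c (D r) * P r = ((N r).map (spL c)).eval (⟨Φ αB, hβL⟩ : L) := by
    intro r hr
    refine ⟨?_, ?_⟩
    · intro h0
      apply hΦD r hr
      rw [← hspL, h0]
      rfl
    · apply Subtype.ext
      rw [hpolyL, ← hDP r hr, map_mul, ← hspL]
      rfl
  have hemb := exists_emb (Q := Q) α hα hgen P G hG D N (fun r _ => hDN r) c _ hβ hβ' hDP'
  -- the subring of the algebraic closure
  let Bk : Subring (AlgebraicClosure k) := B.map (algebraMap E (AlgebraicClosure k))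
  have hBk : ∀ b : AlgebraicClosure k, b ∈ Bk ↔ ∃ hb : b ∈ E, (⟨b, hb⟩ : E) ∈ B := by
    intro b
    constructor
    · rintro ⟨x, hx, rfl⟩
      exact ⟨x.2, hx⟩
    · rintro ⟨hb, hx⟩
      exact ⟨⟨b, hb⟩, hx, rfl⟩
  choose hE1 hE2 using fun b : Bk => (hBk b).1 b.2
  let Φk : Bk →+* F' :=
    { toFun := fun b => Φ ⟨⟨b, hE1 b⟩, hE2 b⟩
      map_one' := (congrArg Φ (Subtype.ext (Subtype.ext rfl))).trans (map_one Φ)
      map_mul' := fun x y =>
        (congrArg Φ (Subtype.ext (Subtype.ext rfl))).trans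
          (map_mul Φ ⟨⟨x, hE1 x⟩, hE2 x⟩ ⟨⟨y, hE1 y⟩, hE2 y⟩)
      map_zero' := (congrArg Φ (Subtype.ext (Subtype.ext rfl))).trans (map_zero Φ)
      map_add' := fun x y =>
        (congrArg Φ (Subtype.ext (Subtype.ext rfl))).trans
          (map_add Φ ⟨⟨x, hE1 x⟩, hE2 x⟩ ⟨⟨y, hE1 y⟩, hE2 y⟩) }
  have hΦk : ∀ (b : E) (hb : b ∈ B) (h : (b : AlgebraicClosure k) ∈ Bk),
      Φk ⟨b, h⟩ = Φ ⟨b, hb⟩ := fun b hb h => rfl
  obtain ⟨Pf, hPf⟩ : ∃ Pf : k → L, ∀ x (hx : x ∈ Y), Pf x = P (MvPolynomial.X ⟨x, hx⟩) :=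
    ⟨fun x => if hx : x ∈ Y then P (MvPolynomial.X ⟨x, hx⟩) else 0, fun x hx => dif_pos hx⟩
  refine ⟨F', i1, hnf, hgal', ψ σE, L, Bk, Φk, Pf, hτL, ?_, ?_, ?_, ?_⟩
  · intro z hz
    refine ⟨(hBk z).2 ⟨hSE (Or.inr hz), hWB _ (mz ⟨z, hz⟩)⟩, fun _ => ?_⟩
    exact (hBk z⁻¹).2 ⟨inv_mem (hSE (Or.inr hz)), hWBi _ (mz ⟨z, hz⟩)⟩
  · intro b hb
    obtain ⟨hb1, hb2⟩ := (hBk b).1 hb
    have h1 : σE ⟨b, hb1⟩ ∈ B := hB σE ⟨⟨b, hb1⟩, hb2⟩
    have h2 : ((σE ⟨b, hb1⟩ : E) : AlgebraicClosure k) = σ b := hσE _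
    have h3 : σ b ∈ Bk := by
      rw [← h2]
      exact (hBk _).2 ⟨SetLike.coe_mem _, h1⟩
    refine ⟨h3, ?_⟩
    have h4 : Φk ⟨σ b, h3⟩ = Φ ⟨σE ⟨b, hb1⟩, h1⟩ :=
      congrArg Φ (Subtype.ext (Subtype.ext h2.symm))
    rw [h4]
    exact hΦψ σE ⟨⟨b, hb1⟩, hb2⟩
  · intro x hx
    have h1 : jk x ∈ B := by
      have := hjkR (MvPolynomial.X ⟨x, hx⟩)
      rwa [hRX] at this
    have h2 : algebraMap k (AlgebraicClosure k) x ∈ Bk := (hBk _).2 ⟨hkE x, h1⟩
    refine ⟨h2, ?_⟩
    rw [hPf x hx, hP]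
    refine congrArg Φ (Subtype.ext (Subtype.ext ?_))
    change algebraMap k (AlgebraicClosure k) x =
      algebraMap k (AlgebraicClosure k) (algebraMap R k (MvPolynomial.X ⟨x, hx⟩))
    rw [hRX]
  · refine hemb.mono ?_
    rintro v ⟨h1, ψv, h2⟩
    refine ⟨fun x hx => ?_, ψv, fun x hx => ?_⟩
    · rw [hPf x hx]
      exact h1 _
    · rw [hPf x hx]
      have h3 := h2 (MvPolynomial.X ⟨x, hx⟩)
      rw [hRX] at h3
      exact h3

theorem ess_of {A K : Type} [Field A] [Field K] [Algebra A K] [Algebra.EssFiniteType ℤ K] :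
    Algebra.EssFiniteType A K := Algebra.EssFiniteType.of_comp ℤ A K

theorem spec_fg (k : Type) [Field k] [CharZero k] (hk : Algebra.EssFiniteType ℚ k)
    (Z : Finset (AlgebraicClosure k)) (Y : Finset k)
    (σ : AlgebraicClosure k ≃ₐ[k] AlgebraicClosure k) :
    ∃ (F : Type) (_ : Field F) (_ : NumberField F) (_ : IsGalois ℚ F) (τ : F ≃ₐ[ℚ] F)
      (L : IntermediateField ℚ F) (B : Subring (AlgebraicClosure k)) (Φ : B →+* F) (P : k → L),
      (∀ x ∈ L, τ x = x) ∧
      (∀ z ∈ Z, z ∈ B ∧ (z ≠ 0 → z⁻¹ ∈ B)) ∧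
      (∀ b (hb : b ∈ B), ∃ h : σ b ∈ B, Φ ⟨σ b, h⟩ = τ (Φ ⟨b, hb⟩)) ∧
      (∀ c ∈ Y, ∃ hc : algebraMap k (AlgebraicClosure k) c ∈ B, Φ ⟨_, hc⟩ = (P c : F)) ∧
      AE fun v : HeightOneSpectrum (𝓞 L) => (∀ c ∈ Y, v.valuation L (P c) ≤ 1) ∧
        ∃ ψ : k →+* v.adicCompletion L,
          ∀ c ∈ Y, vv v (ψ c - algebraMap L (v.adicCompletion L) (P c)) ≤ exp (-2) := by
  classical
  have e0 : Algebra.EssFiniteType ℤ ℚ := Algebra.EssFiniteType.of_isLocalization ℚ
    (nonZeroDivisors ℤ)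
  have e2 : Algebra.EssFiniteType ℤ k := Algebra.EssFiniteType.comp ℤ ℚ k
  obtain ⟨s, hs⟩ := IntermediateField.fg_top ℚ k
  have halg0 : Algebra.IsAlgebraic (Algebra.adjoin ℚ (s : Set k)) k := by
    rw [← IntermediateField.isAlgebraic_adjoin_iff_top, hs, Algebra.isAlgebraic_iff_isIntegral]
    exact Algebra.isIntegral_of_surjective IntermediateField.topEquiv.surjective
  obtain ⟨t, hts, ht⟩ := exists_isTranscendenceBasis_subset (R := ℚ) (s : Set k)
  lift t to Finset k using s.finite_toSet.subset hts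
  let m := t.card
  let e : Fin m ≃ t := t.equivFin.symm
  let x : Fin m → k := fun i => (e i : k)
  have hx : IsTranscendenceBasis ℚ x := (isTranscendenceBasis_equiv e).2 ht
  let _ : Algebra (MvPolynomial (Fin m) ℚ) k := (MvPolynomial.aeval x).toRingHom.toAlgebra
  have hinj : Function.Injective (algebraMap (MvPolynomial (Fin m) ℚ) k) := hx.1
  let _ : Algebra (FractionRing (MvPolynomial (Fin m) ℚ)) k :=
    (IsFractionRing.lift (K := FractionRing (MvPolynomial (Fin m) ℚ)) hinj).toAlgebra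
  have htow : IsScalarTower (MvPolynomial (Fin m) ℚ) (FractionRing (MvPolynomial (Fin m) ℚ)) k :=
    IsScalarTower.of_algebraMap_eq fun p => (IsFractionRing.lift_algebraMap hinj p).symm
  have hta : Algebra.IsAlgebraic (FractionRing (MvPolynomial (Fin m) ℚ)) k := by
    refine ⟨fun y => ?_⟩
    obtain ⟨p, hp, hpy⟩ := hx.isAlgebraic.isAlgebraic y
    have h1 : IsAlgebraic (MvPolynomial (Fin m) ℚ) y := by
      refine ⟨p.map hx.1.aevalEquiv.symm.toRingEquiv.toRingHom, ?_, ?_⟩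
      · exact (Polynomial.map_ne_zero_iff
          hx.1.aevalEquiv.symm.toRingEquiv.injective).2 hp
      · rw [aeval_def, eval₂_map]
        rw [aeval_def] at hpy
        have h2 : (algebraMap (MvPolynomial (Fin m) ℚ) k).comp
            hx.1.aevalEquiv.symm.toRingEquiv.toRingHom =
            algebraMap (Algebra.adjoin ℚ (Set.range x)) k := by
          ext1 z
          obtain ⟨p, rfl⟩ := hx.1.aevalEquiv.surjective z
          rw [hx.1.algebraMap_aevalEquiv]
          change MvPolynomial.aeval x (hx.1.aevalEquiv.symm (hx.1.aevalEquiv p)) = _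
          rw [AlgEquiv.symm_apply_apply]
        rw [h2]
        exact hpy
    exact h1.extendScalars (IsFractionRing.injective _ _)
  have e4 : Algebra.EssFiniteType (FractionRing (MvPolynomial (Fin m) ℚ)) k := ess_of
  have hfin : FiniteDimensional (FractionRing (MvPolynomial (Fin m) ℚ)) k :=
    Algebra.finite_of_essFiniteType_of_isAlgebraic
  exact spec_aux (m := m) (Q := FractionRing (MvPolynomial (Fin m) ℚ)) Z Y σ

end Pool.Agent.Y791.BF.FrobRes
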