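import Pool.Agent.Y791.BF.Tasks
import Pool.Agent.Y791.BF.FrobResAux1
import Pool.Agent.Y791.BF.FrobResAux2

/-!
# Chebotarev's theorem for finitely generated fields, residue form (helper319)
-/

set_option autoImplicit false

open IsDedekindDomain NumberField

namespace Pool.Agent.Y791.BF.FrobRes

open WithZero Pool.Agent.W858.SF Pool.Agent.W858.SG Pool.Agent.Y791.BS.Emb

theorem main : S_FrobRes := by
  intro k _ _ hk Z Y σ n0
  classical
  obtain ⟨F, _, _, _, τ, L, B0, Φ, P, hτ, hZ, hσ, hY, hAE⟩ := spec_fg k hk Z Y σ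
  -- the elements that have to be integral
  have hΦex : ∀ z : AlgebraicClosure k, ∃ w : F, ∀ h : z ∈ B0, Φ ⟨z, h⟩ = w := by
    intro z
    by_cases h : z ∈ B0
    · exact ⟨Φ ⟨z, h⟩, fun _ => rfl⟩
    · exact ⟨0, fun h' => absurd h' h⟩
  choose w hw using hΦex
  obtain ⟨p, hp, O, ψ, v, res, hn0, hW, hfrob, hres1, hres0, hq, hresL⟩ :=
    frob_local τ L hτ (Z.image w ∪ Z.image fun z => w z⁻¹) _ hAE n0
  obtain ⟨hq1, ψv, hq2⟩ := hq
  let i : PlF k := @PlF.mk k _ L _ inferInstance v ψv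
  -- the subring
  let B : Subring (AlgebraicClosure k) := (O.comap Φ).map B0.subtype
  have hB : ∀ b : AlgebraicClosure k, b ∈ B ↔ ∃ hb : b ∈ B0, Φ ⟨b, hb⟩ ∈ O := by
    intro b
    constructor
    · rintro ⟨x, hx, rfl⟩
      exact ⟨x.2, hx⟩
    · rintro ⟨hb, hx⟩
      exact ⟨⟨b, hb⟩, hx, rfl⟩
  choose hB1 hB2 using fun b : B => (hB b).1 b.2
  let χ : B →+* AlgebraicClosure (ZMod p) :=
    { toFun := fun b => ψ ⟨Φ ⟨b, hB1 b⟩, hB2 b⟩
      map_one' := (congrArg ψ (Subtype.ext (map_one Φ))).trans (map_one ψ)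
      map_mul' := fun x y => (congrArg ψ (Subtype.ext
        (map_mul Φ ⟨x, hB1 x⟩ ⟨y, hB1 y⟩))).trans (map_mul ψ _ _)
      map_zero' := (congrArg ψ (Subtype.ext (map_zero Φ))).trans (map_zero ψ)
      map_add' := fun x y => (congrArg ψ (Subtype.ext
        (map_add Φ ⟨x, hB1 x⟩ ⟨y, hB1 y⟩))).trans (map_add ψ _ _) }
  have hχ : ∀ (b : AlgebraicClosure k) (hb : b ∈ B) (h0 : b ∈ B0) (h1 : Φ ⟨b, h0⟩ ∈ O),
      χ ⟨b, hb⟩ = ψ ⟨Φ ⟨b, h0⟩, h1⟩ := fun b hb h0 h1 => rfl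
  refine ⟨p, hp, B, χ, i, res, hn0, ?_, ?_, hres1, hres0, ?_⟩
  · intro z hz
    obtain ⟨h1, h2⟩ := hZ z hz
    refine ⟨(hB z).2 ⟨h1, ?_⟩, fun hz0 => (hB _).2 ⟨h2 hz0, ?_⟩⟩
    · rw [hw z h1]
      exact hW _ (Finset.mem_union_left _ (Finset.mem_image_of_mem _ hz))
    · rw [hw _ (h2 hz0)]
      exact hW _ (Finset.mem_union_right _ (Finset.mem_image_of_mem (fun z => w z⁻¹) hz))
  · intro b hb
    obtain ⟨h0, h1⟩ := (hB b).1 hb
    obtain ⟨h2, h3⟩ := hσ b h0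
    obtain ⟨h4, h5⟩ := hfrob _ h1
    have h6 : Φ ⟨σ b, h2⟩ ∈ O := by
      rw [h3]
      exact h4
    have h7 : σ b ∈ B := (hB _).2 ⟨h2, h6⟩
    refine ⟨h7, ?_⟩
    rw [hχ _ h7 h2 h6, hχ _ hb h0 h1, ← h5]
    congr 1
    exact Subtype.ext h3
  · intro c hc
    obtain ⟨h0, h1⟩ := hY c hc
    have h2 : vv v (ψv c - algebraMap L (v.adicCompletion L) (P c)) < 1 := by
      refine (hq2 c hc).trans_lt ?_
      rw [← exp_zero, exp_lt_exp]
      omega
    have h3 : vv v (ψv c) ≤ 1 := by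
      have e : ψv c = (ψv c - algebraMap L (v.adicCompletion L) (P c)) +
        algebraMap L (v.adicCompletion L) (P c) := by ring
      rw [e]
      refine (Valuation.map_add _ _ _).trans (max_le h2.le ?_)
      rw [vv_algebraMap]
      exact hq1 c hc
    have h4 : ‖ψv c‖ ≤ 1 := (vv_le_one v _).1 h3
    obtain ⟨h5, h6⟩ := hresL (P c) ⟨ψv c, h4⟩ ((vv_lt_one v _).1 h2)
    have h7 : Φ ⟨algebraMap k (AlgebraicClosure k) c, h0⟩ ∈ O := by
      rw [h1]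
      exact h5
    have h8 : algebraMap k (AlgebraicClosure k) c ∈ B := (hB _).2 ⟨h0, h7⟩
    refine ⟨h8, h4, ?_⟩
    rw [hχ _ h8 h0 h7]
    refine h6.symm.trans ?_
    congr 1
    exact Subtype.ext h1.symm

end Pool.Agent.Y791.BF.FrobRes
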