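import Pool.Agent.Y791.BF.Defs

/-!
# Statements of independent pieces (not results)
-/

set_option autoImplicit false

open IsDedekindDomain NumberField WeierstrassCurve

namespace Pool.Agent.Y791.BF

open Pool.Agent.TH942 Pool.Agent.TH954

/-- Chebotarev's theorem for finitely generated fields, residue form, with an embedding of the field
in the completion of a number field. -/
def S_FrobRes : Prop :=
  ∀ (k : Type) [Field k] [CharZero k], Algebra.EssFiniteType ℚ k →
  ∀ (Z : Finset (AlgebraicClosure k)) (Y : Finset k)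
    (σ : AlgebraicClosure k ≃ₐ[k] AlgebraicClosure k) (n0 : ℕ),
  ∃ (p : ℕ) (_ : Fact p.Prime) (B : Subring (AlgebraicClosure k))
    (χ : B →+* AlgebraicClosure (ZMod p)) (i : PlF k)
    (res : ball1 i.Lv →+* AlgebraicClosure (ZMod p)),
    n0 < p ∧
    (∀ z ∈ Z, z ∈ B ∧ (z ≠ 0 → z⁻¹ ∈ B)) ∧
    (∀ b (hb : b ∈ B), ∃ h : σ b ∈ B, χ ⟨σ b, h⟩ = χ ⟨b, hb⟩ ^ p) ∧
    (∀ y, res y ^ p = res y) ∧ (∀ y, res y = 0 ↔ ‖(y : i.Lv)‖ < 1) ∧
    (∀ c ∈ Y, ∃ (hc : algebraMap k (AlgebraicClosure k) c ∈ B) (h : ‖i.φ c‖ ≤ 1),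
      res ⟨i.φ c, h⟩ = χ ⟨_, hc⟩)

/-- Finitely many algebraic elements over a finitely generated field lie in a completion with prime
residue field, and the nonzero ones are units there. -/
def S_EmbFG : Prop :=
  ∀ (k : Type) [Field k] [CharZero k], Algebra.EssFiniteType ℚ k →
  ∀ (Z : Finset (AlgebraicClosure k)) (n0 : ℕ),
  ∃ (p : ℕ) (_ : Fact p.Prime) (i : PlF k) (ι : AlgebraicClosure k →ₐ[k] AlgebraicClosure i.Lv),
    n0 < p ∧ ‖(p : i.Lv)‖ < 1 ∧ (∀ y : i.Lv, ‖y‖ ≤ 1 → ∃ n : ℕ, ‖y - n‖ < 1) ∧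
    ∀ z ∈ Z, ∃ y : i.Lv, algebraMap i.Lv (AlgebraicClosure i.Lv) y = ι z ∧ (z ≠ 0 → ‖y‖ = 1)

/-- the obstruction for finitely generated fields -/
def S_ObsFG : Prop :=
  ∀ (k : Type) [Field k] [CharZero k], Algebra.EssFiniteType ℚ k →
    Obs k (fun i : PlF k => i.Lv)

open scoped Classical in
/-- A point of an elliptic curve over the algebraic closure of a local field which is divisible by
all `n` in the points over a finite extension is zero. -/
def S_Inter2 : Prop :=
  ∀ (L : Type) [NontriviallyNormedField L] [IsUltrametricDist L] [ProperSpace L] [CharZero L]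
    (k : Type) [Field k] [Algebra k (AlgebraicClosure L)] (a b : k),
    4 * a ^ 3 + 27 * b ^ 2 ≠ 0 → ∀ (z : AlgebraicClosure L),
    (∀ σ : AlgebraicClosure L ≃ₐ[L] AlgebraicClosure L, σ z = z →
      σ (algebraMap k (AlgebraicClosure L) a) = algebraMap k (AlgebraicClosure L) a ∧
      σ (algebraMap k (AlgebraicClosure L) b) = algebraMap k (AlgebraicClosure L) b) →
    ∀ (D : ((sw a b).baseChange (AlgebraicClosure L)).toAffine.Point),
      (∀ n : ℕ, 1 ≤ n → ∃ R : ((sw a b).baseChange (AlgebraicClosure L)).toAffine.Point,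
        n • R = D ∧ ∀ σ : AlgebraicClosure L ≃ₐ[L] AlgebraicClosure L, σ z = z →
          ∀ x y h, R = .some x y h → σ x = x ∧ σ y = y) →
      D = 0

end Pool.Agent.Y791.BF
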