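import Pool.Agent.Y791.BS.Good
import Pool.Agent.Y791.BS.Kum
import Pool.Agent.Y791.BF.Tasks

/-!
# Embeddings of the algebraic closure of `K(T)`, `K` finitely generated
-/

set_option autoImplicit false
set_option linter.unusedSectionVars false

open Polynomial IsDedekindDomain NumberField Topology WithZero

namespace Pool.Agent.Y791.BF

open Pool.Agent.TH954 Pool.Agent.Y791.BS

/-- finitely generated fields are countable -/
lemma countable_fg (K : Type) [Field K] [CharZero K] [Algebra.EssFiniteType ℚ K] :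
    Countable K := by
  obtain ⟨s, hs⟩ := IntermediateField.fg_top ℚ K
  have h1 := IntermediateField.cardinalMk_adjoin_le (F := ℚ) (s : Set K)
  rw [hs] at h1
  have h2 : Cardinal.mk (⊤ : IntermediateField ℚ K) ≤ Cardinal.aleph0 := by
    refine h1.trans ?_
    simp
  have h3 : Cardinal.mk K ≤ Cardinal.aleph0 := by
    refine le_trans (le_of_eq ?_) h2
    exact (Cardinal.mk_congr IntermediateField.topEquiv.toEquiv).symm
  exact Cardinal.mk_le_aleph0_iff.1 h3

/-- the algebra over the rational numbers -/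
lemma ess_ratFunc (K : Type) [Field K] [CharZero K] [Algebra.EssFiniteType ℚ K]
    [CharZero (RatFunc K)] : Algebra.EssFiniteType ℚ (RatFunc K) := by
  have h1 : Algebra.EssFiniteType K[X] (RatFunc K) :=
    Algebra.EssFiniteType.of_isLocalization (RatFunc K) (nonZeroDivisors K[X])
  have h2 : Algebra.EssFiniteType K K[X] := inferInstance
  have h3 : Algebra.EssFiniteType K (RatFunc K) := Algebra.EssFiniteType.comp K K[X] (RatFunc K)
  exact Algebra.EssFiniteType.comp ℚ K (RatFunc K)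

variable {K : Type} [Field K] [CharZero K]

/-- a small natural number -/
lemma exists_small_nat {L : Type} [Field L] [NumberField L] (v : HeightOneSpectrum (𝓞 L)) :
    ∃ q : ℕ, q ≠ 0 ∧ ‖(q : v.adicCompletion L)‖ < 1 := by
  refine ⟨Ideal.absNorm v.asIdeal, ?_, ?_⟩
  · rw [Ne, Ideal.absNorm_eq_zero_iff]
    exact v.ne_bot
  · have h1 := (FinitePlace.norm_lt_one_iff_mem L v (Ideal.absNorm v.asIdeal : 𝓞 L)).2
      (Ideal.absNorm_mem v.asIdeal)
    rwa [map_natCast, map_natCast] at h1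

/-- there are small transcendental elements -/
lemma exists_transcendental' [Algebra.EssFiniteType ℚ K] (i : PlF K) {d : ℝ} (hd : 0 < d) :
    ∃ ε : i.Lv, Transcendental K ε ∧ ‖ε‖ < d := by
  have : Countable K := countable_fg K
  obtain ⟨y, hy⟩ : ∃ y : i.Lv, Transcendental K y := by
    by_contra hcon
    push Not at hcon
    apply Pool.Agent.W858.SF.uncountable_compl i.L i.v
    have h3 := Algebraic.countable K i.Lv
    have h4 : {x : i.Lv | IsAlgebraic K x} = Set.univ :=
      Set.eq_univ_of_forall (fun y => not_not.1 (hcon y))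
    rw [h4] at h3
    exact Set.countable_univ_iff.1 h3
  obtain ⟨q, hq0, hq1⟩ := exists_small_nat i.v
  obtain ⟨s, hs⟩ := exists_pow_lt_of_lt_one (div_pos hd (by positivity : 0 < ‖y‖ + 1)) hq1
  have e : algebraMap K i.Lv ((q : K) ^ s) = (q : i.Lv) ^ s := by
    rw [map_pow, map_natCast]
  refine ⟨algebraMap K i.Lv ((q : K) ^ s) * y, ?_, ?_⟩
  · intro halg
    apply hy
    have h1 : algebraMap K i.Lv ((q : K) ^ s) ≠ 0 :=
      (_root_.map_ne_zero _).2 (pow_ne_zero _ (Nat.cast_ne_zero.2 hq0))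
    have h2 : y = (algebraMap K i.Lv ((q : K) ^ s)⁻¹) *
        (algebraMap K i.Lv ((q : K) ^ s) * y) := by
      rw [map_inv₀]
      field_simp
    rw [h2]
    exact (isAlgebraic_algebraMap _).mul halg
  · rw [e, norm_mul, norm_pow]
    have h0 := norm_nonneg y
    rw [lt_div_iff₀ (by positivity)] at hs
    refine lt_of_le_of_lt ?_ hs
    exact mul_le_mul_of_nonneg_left (by linarith) (by positivity)

/-- the embedding of the rational functions given by a transcendental element -/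
noncomputable def embF {L : Type} [Field L] [Algebra K L] {τ : L} (h : Transcendental K τ) :
    RatFunc K →ₐ[K] L :=
  RatFunc.liftAlgHom (Polynomial.aeval τ)
    (nonZeroDivisors_le_comap_nonZeroDivisors_of_injective _ (transcendental_iff_injective.1 h))

lemma embF_algebraMap {L : Type} [Field L] [Algebra K L] {τ : L} (h : Transcendental K τ)
    (p : Polynomial K) : embF h (algebraMap (Polynomial K) (RatFunc K) p) =
      Polynomial.aeval τ p := by
  have := RatFunc.liftAlgHom_apply_div (φ := (Polynomial.aeval τ : Polynomial K →ₐ[K] _))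
    (nonZeroDivisors_le_comap_nonZeroDivisors_of_injective _ (transcendental_iff_injective.1 h)) p 1
  simpa [embF] using this

/-- extension of embeddings -/
lemma exists_ιF (fr : Frame K) (i : PlF (RatFunc K))
    (ι₀ : AlgebraicClosure K →+* AlgebraicClosure i.Lv)
    (h0 : ∀ c : K, ι₀ (algebraMap K (AlgebraicClosure K) c) =
      algebraMap i.Lv (AlgebraicClosure i.Lv) (i.φ (algebraMap K (RatFunc K) c)))
    (σ : i.Lv) (hσ : σ ^ 2 = i.φ RatFunc.X) :
    ∃ ι : Kb K →ₐ[RatFunc K] AlgebraicClosure i.Lv,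
      (∀ z, ι (fr.e z) = ι₀ z) ∧
      ι fr.S = algebraMap i.Lv (AlgebraicClosure i.Lv) σ := by
  have hcomm : ∀ r : RatFunc K,
      algebraMap (RatFunc K) (AlgebraicClosure i.Lv) r =
      algebraMap i.Lv (AlgebraicClosure i.Lv) (i.φ r) :=
    fun r => IsScalarTower.algebraMap_apply (RatFunc K) i.Lv _ r
  obtain ⟨ι, h1, h2, h3⟩ := fr.exists_hom
    (algebraMap (RatFunc K) (AlgebraicClosure i.Lv)) ι₀ (fun c => by
      rw [hcomm, h0]) (algebraMap _ _ σ) (by
      rw [hcomm, ← hσ, map_pow])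
  exact ⟨{ ι with commutes' := h1 }, h2, h3⟩

/-- finitely many constants, one of which is near `S`, in a completion -/
theorem exists_goodF (hEmb : S_EmbFG) [Algebra.EssFiniteType ℚ K] (fr : Frame K)
    (Z : Finset (AlgebraicClosure K)) (c : AlgebraicClosure K) (hc : c ∈ Z) :
    ∃ (i : PlF (RatFunc K)) (ι : Kb K →ₐ[RatFunc K] AlgebraicClosure i.Lv) (cv ε : i.Lv),
      (∀ z ∈ Z, ∃ y : i.Lv,
        algebraMap i.Lv (AlgebraicClosure i.Lv) y = ι (fr.e z) ∧ (z ≠ 0 → ‖y‖ = 1)) ∧
      algebraMap i.Lv (AlgebraicClosure i.Lv) cv = ι (fr.e c) ∧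
      algebraMap i.Lv (AlgebraicClosure i.Lv) (cv + ε) = ι fr.S ∧
      ε ≠ 0 ∧ ‖ε‖ < 1 ∧ ∀ w : i.Lv, w ≠ 0 → ∃ n : ℤ, ‖w‖ = ‖ε‖ ^ n := by
  obtain ⟨p, _, iK, ι₀, -, -, -, hv⟩ := hEmb K inferInstance Z 0
  have hu := ultra iK.v
  obtain ⟨cv, hcv, -⟩ := hv c hc
  obtain ⟨π, hπ0, hπ1, hπ⟩ := exists_unif iK.v
  have hπ0' : algebraMap iK.L iK.Lv π ≠ 0 := (_root_.map_ne_zero _).2 hπ0
  have hcalg : IsAlgebraic K cv := by
    have h1 : IsAlgebraic K (ι₀ c) := (Algebra.IsAlgebraic.isAlgebraic (R := K) c).algHom ι₀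
    rw [← hcv] at h1
    exact (isAlgebraic_algebraMap_iff
      (algebraMap iK.Lv (AlgebraicClosure iK.Lv)).injective).1 h1
  -- a transcendental element near `c + π`
  obtain ⟨y, hy, hyn⟩ : ∃ y : iK.Lv,
      Transcendental K (cv + (algebraMap iK.L iK.Lv π + y)) ∧
      ‖y‖ < ‖algebraMap iK.L iK.Lv π‖ := by
    by_cases h1 : Transcendental K (cv + algebraMap iK.L iK.Lv π)
    · refine ⟨0, by rwa [add_zero], ?_⟩
      rw [norm_zero]
      exact norm_pos_iff.2 hπ0'
    · obtain ⟨y, hy, hyn⟩ := exists_transcendental' iK (norm_pos_iff.2 hπ0')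
      refine ⟨y, fun h => hy ?_, hyn⟩
      have e : y = (cv + (algebraMap iK.L iK.Lv π + y)) - (cv + algebraMap iK.L iK.Lv π) := by
        ring
      rw [e]
      exact h.sub (not_not.1 h1)
  set ε : iK.Lv := algebraMap iK.L iK.Lv π + y with hε
  have hεn : ‖ε‖ = ‖algebraMap iK.L iK.Lv π‖ := by
    rw [hε, IsUltrametricDist.norm_add_eq_max_of_norm_ne_norm hyn.ne']
    exact max_eq_left hyn.le
  have hε0 : ε ≠ 0 := by
    rw [← norm_ne_zero_iff, hεn, norm_ne_zero_iff]
    exact hπ0'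
  have hτ : Transcendental K ((cv + ε) ^ 2) := hy.pow (by norm_num)
  have hX : (cv + ε) ^ 2 = embF hτ RatFunc.X := by
    rw [← RatFunc.algebraMap_X, embF_algebraMap, aeval_X]
  obtain ⟨ι, h1, h2⟩ := exists_ιF fr ⟨iK.L, iK.v, (embF hτ : RatFunc K →+* iK.Lv)⟩
    (ι₀ : AlgebraicClosure K →+* AlgebraicClosure iK.Lv) (fun c => by
      have e1 : (embF hτ : RatFunc K →+* iK.Lv) (algebraMap K (RatFunc K) c) =
          algebraMap K iK.Lv c := (embF hτ).commutes c
      change ι₀ (algebraMap K (AlgebraicClosure K) c) = algebraMap iK.Lv (AlgebraicClosure iK.Lv)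
        ((embF hτ : RatFunc K →+* iK.Lv) (algebraMap K (RatFunc K) c))
      rw [e1, ι₀.commutes]
      rfl) (cv + ε) hX
  refine ⟨⟨iK.L, iK.v, (embF hτ : RatFunc K →+* iK.Lv)⟩, ι, cv, ε, ?_, ?_, h2.symm, hε0, ?_, ?_⟩
  · intro z hz
    obtain ⟨y, hy1, hy2⟩ := hv z hz
    exact ⟨y, hy1.trans (h1 z).symm, hy2⟩
  · exact hcv.trans (h1 c).symm
  · exact hεn.trans_lt hπ1
  · intro w hw
    obtain ⟨n, hn⟩ := hπ w hw
    exact ⟨n, by rw [hn]; exact congrArg (· ^ n) hεn.symm⟩

end Pool.Agent.Y791.BF
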