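import Pool.Agent.Y791.BF.Tasks2
import Pool.Agent.Y791.BF.GBir
import Pool.Agent.Y791.BS.Fin
import Pool.Agent.TH954.SUni

/-!
# Birational sections of curves over twisted superelliptic curves
-/

set_option autoImplicit false
set_option linter.unusedSectionVars false

open Polynomial IsDedekindDomain NumberField

namespace Pool.Agent.Y791.BF

open Pool.Agent.TH954 Pool.Agent.Y791.BS

/-- an element without roots of a certain degree -/
lemma exists_nonpow (hEmb : S_EmbFG) (k : Type) [Field k] [CharZero k]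
    (hk : Algebra.EssFiniteType ℚ k) :
    ∃ (N : ℕ) (r : k), 0 < N ∧ r ≠ 0 ∧ ∀ c : k, c ^ N ≠ r := by
  obtain ⟨p, -, i, -, -⟩ := hEmb k hk ∅ 0
  obtain ⟨q, hq0, hq1⟩ := exists_small_nat i.v
  obtain ⟨π, hπ0, hπ1, hπ⟩ := exists_unif i.v
  have hch : CharZero i.Lv := charZero_compl i.v
  have hqL : (q : i.Lv) ≠ 0 := Nat.cast_ne_zero.2 hq0
  obtain ⟨e, he⟩ := hπ _ hqL
  have hπn : 0 < ‖algebraMap i.L (i.v.adicCompletion i.L) π‖ :=
    norm_pos_iff.2 ((_root_.map_ne_zero _).2 hπ0)
  have he0 : 0 < e := by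
    by_contra hcon
    have h1 : 1 ≤ ‖algebraMap i.L (i.v.adicCompletion i.L) π‖ ^ e :=
      one_le_zpow_of_nonpos₀ hπn hπ1.le (not_lt.1 hcon)
    rw [← he] at h1
    exact absurd hq1 (not_lt.2 h1)
  refine ⟨e.toNat + 1, q, Nat.succ_pos _, Nat.cast_ne_zero.2 hq0, fun c hc => ?_⟩
  have h1 : (i.φ c) ^ (e.toNat + 1) = (q : i.Lv) := by
    rw [← map_pow, hc, map_natCast]
  have hc0 : i.φ c ≠ 0 := by
    intro h0
    rw [h0, zero_pow (Nat.succ_ne_zero _)] at h1
    exact hqL h1.symm
  obtain ⟨n, hn⟩ := hπ _ hc0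
  have h2 := congrArg norm h1
  rw [norm_pow] at h2
  have h3 : ‖algebraMap i.L (i.v.adicCompletion i.L) π‖ ^ (n * ((e.toNat + 1 : ℕ) : ℤ)) =
      ‖algebraMap i.L (i.v.adicCompletion i.L) π‖ ^ e := by
    rw [zpow_mul, zpow_natCast, ← he]
    exact (congrArg (· ^ (e.toNat + 1)) hn.symm).trans h2
  have h4 := zpow_right_injective₀ hπn hπ1.ne h3
  have h5 : ((e.toNat : ℕ) : ℤ) = e := Int.toNat_of_nonneg he0.le
  push_cast at h4
  rw [h5] at h4
  have hn0 : 0 < n := by
    by_contra hcon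
    nlinarith
  nlinarith

open scoped Classical in
/-- the point of a section of a curve over the field of rational functions -/
theorem super_base (hEmb : S_EmbFG) (hObs : S_ObsFG) (hS : S_Super) {K : Type} [Field K]
    [CharZero K] (hK : Algebra.EssFiniteType ℚ K) (f : K[X]) (hf : f.Separable)
    (hdeg : 2 ≤ f.natDegree) (m : ℕ) (hm : 2 ≤ m) (hmd : ¬ (m = 2 ∧ f.natDegree = 2))
    {F Ω B : Type} [Field F] [Field Ω] [Field B] [Algebra (RatFunc K) F] [Algebra F Ω]
    [Algebra (RatFunc K) Ω] [Algebra (RatFunc K) B] [IsScalarTower (RatFunc K) F Ω]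
    [IsAlgClosure F Ω] [IsAlgClosure (RatFunc K) B]
    (hF : ∃ t : F, Transcendental (RatFunc K) t ∧
      Algebra.IsAlgebraic (IntermediateField.adjoin (RatFunc K) {t}) F)
    (x y : F) (hx : Transcendental (RatFunc K) x)
    (hxy : algebraMap (RatFunc K) F RatFunc.X * y ^ m =
      aeval x (f.map (algebraMap K (RatFunc K))))
    (s : GalSection (RatFunc K) F Ω B)
    (hloc : ∀ i : PlF (RatFunc K), s.GeometricOver i.Lv (AlgebraicClosure i.Lv)) :
    ∃! O : ValuationSubring F, s.ArisesFrom O := by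
  have hchk : CharZero (RatFunc K) :=
    charZero_of_injective_algebraMap (algebraMap K (RatFunc K)).injective
  have hΩ1 : IsAlgClosed Ω := IsAlgClosure.isAlgClosed F
  have hΩ2 : Algebra.IsAlgebraic F Ω := IsAlgClosure.isAlgebraic
  have hcF : CharZero F :=
    charZero_of_injective_algebraMap (algebraMap (RatFunc K) F).injective
  have hcΩ : CharZero Ω := charZero_of_injective_algebraMap (algebraMap F Ω).injective
  set A := toSAct s with hA
  have hAF : ∀ (τ : Kb K ≃ₐ[RatFunc K] Kb K) (x : F),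
      A.s τ (algebraMap F Ω x) = algebraMap F Ω x :=
    fun τ x => (s.s ((eqv (RatFunc K) B).autCongr τ)).commutes x
  choose pl hpl using fun i : PlF (RatFunc K) => toSAct_geo s (hloc i)
  set g : (RatFunc K)[X] := f.map (algebraMap K (RatFunc K)) with hg
  have hxΩ : Transcendental (RatFunc K) (algebraMap F Ω x) := by
    intro h
    exact hx ((isAlgebraic_algebraMap_iff (algebraMap F Ω).injective).1 h)
  have hxyΩ : algebraMap (RatFunc K) Ω RatFunc.X * (algebraMap F Ω y) ^ m =
      aeval (algebraMap F Ω x) g := by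
    rw [aeval_algebraMap_apply, ← hxy, map_mul, map_pow,
      ← IsScalarTower.algebraMap_apply (RatFunc K) F Ω]
  have hval : ∀ i, algebraMap F Ω x ∈ (pl i).W →
      (pl i).val (aeval (algebraMap F Ω x) g) 0 :=
    hS K hK Ω A pl hpl f hf hdeg m hm hmd _ _ (fun τ => hAF τ x) (fun τ => hAF τ y) hxΩ hxyΩ
  -- the function
  have hg0 : g ≠ 0 := (Polynomial.map_ne_zero_iff (algebraMap K (RatFunc K)).injective).2
    hf.ne_zero
  obtain ⟨e, he⟩ : ∃ e : RatFunc K, g.eval e ≠ 0 := by
    by_contra hcon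
    push Not at hcon
    exact hg0 (Polynomial.funext (fun r => by rw [hcon r, eval_zero]))
  have hxe : x - algebraMap (RatFunc K) F e ≠ 0 := by
    intro h0
    apply hx
    rw [sub_eq_zero.1 h0]
    exact isAlgebraic_algebraMap e
  have hfx0 : aeval x g ≠ 0 := fun h0 => hx ⟨g, hg0, h0⟩
  set t : F := aeval x g / (x - algebraMap (RatFunc K) F e) ^ (g.natDegree + 1) with ht
  have ht0 : t ≠ 0 := div_ne_zero hfx0 (pow_ne_zero _ hxe)
  have htΩ : algebraMap F Ω t = aeval (algebraMap F Ω x) g /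
      (algebraMap F Ω x - algebraMap (RatFunc K) Ω e) ^ (g.natDegree + 1) := by
    rw [ht, map_div₀, map_pow, map_sub, aeval_algebraMap_apply,
      ← IsScalarTower.algebraMap_apply (RatFunc K) F Ω]
  have htv : ∀ i, (pl i).val (algebraMap F Ω t) 0 := by
    intro i
    rw [htΩ]
    exact val_quot g e he (hval i)
  have hess := ess_ratFunc K
  obtain ⟨N, r, hN0, hr0, hroot⟩ := exists_nonpow hEmb (RatFunc K) hess
  have hcL : ∀ i : PlF (RatFunc K), CharZero i.Lv := fun i => charZero_compl i.v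
  obtain ⟨O, hO1, -, hO3⟩ := geometric_of_zero (hObs (RatFunc K) hess)
    hN0 hr0 hroot hF s pl hpl t ht0 htv
  exact ⟨O, hO1, hO3⟩

end Pool.Agent.Y791.BF
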