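import Pool.Agent.Y791.BF.ObsFGAux1
import Pool.Agent.TH954.SMove
import Pool.Agent.Y791.BS.Obs1

/-!
# Power residue obstruction over finitely generated fields (helper809)
-/

set_option autoImplicit false

open IsDedekindDomain NumberField

namespace Pool.Agent.Y791.BF.ObsFG

open Pool.Agent.TH954

/-- powers in a cyclotomic extension of prime conductor -/
lemma pow_descent {F A : Type} [Field F] [Field A] [Algebra F A] {l : ℕ} (hl : l.Prime) {ζ : A}
    (hζ : IsPrimitiveRoot ζ l) {x : F} {w : A}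
    (hw : w ∈ IntermediateField.adjoin F ({ζ} : Set A)) (hx : w ^ l = algebraMap F A x) :
    ∃ w' : F, w' ^ l = x := by
  by_contra hcon
  push Not at hcon
  have hirr : Irreducible (Polynomial.X ^ l - Polynomial.C x) :=
    X_pow_sub_C_irreducible_of_prime hl hcon
  have hint : IsIntegral F ζ := by
    refine IsIntegral.of_pow hl.pos ?_
    rw [hζ.pow_eq_one]
    exact isIntegral_one
  have hfd : FiniteDimensional F (IntermediateField.adjoin F ({ζ} : Set A)) :=
    IntermediateField.adjoin.finiteDimensional hint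
  have h1 : Module.finrank F (IntermediateField.adjoin F ({ζ} : Set A)) ≤ l - 1 := by
    rw [IntermediateField.adjoin.finrank hint]
    have h2 : minpoly F ζ ∣ Polynomial.cyclotomic l F := by
      apply minpoly.dvd
      rw [Polynomial.aeval_def, Polynomial.eval₂_eq_eval_map, Polynomial.map_cyclotomic]
      exact hζ.isRoot_cyclotomic hl.pos
    have h3 := Polynomial.natDegree_le_of_dvd h2 (Polynomial.cyclotomic_ne_zero l F)
    rwa [Polynomial.natDegree_cyclotomic, Nat.totient_prime hl] at h3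
  have h2 := minpoly.natDegree_le (A := F)
    (⟨w, hw⟩ : IntermediateField.adjoin F ({ζ} : Set A))
  have h3 : Polynomial.X ^ l - Polynomial.C x =
      minpoly F (⟨w, hw⟩ : IntermediateField.adjoin F ({ζ} : Set A)) := by
    refine minpoly.eq_of_irreducible_of_monic hirr ?_ (Polynomial.monic_X_pow_sub_C x hl.ne_zero)
    rw [map_sub, map_pow, Polynomial.aeval_X, Polynomial.aeval_C]
    apply Subtype.ext
    change w ^ l - algebraMap F A x = 0
    rw [hx, sub_self]
  rw [← h3, Polynomial.natDegree_X_pow_sub_C] at h2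
  have := hl.pos
  omega

/-- roots of monic polynomials are integral -/
lemma root_le {L : Type} [NormedField L] [IsUltrametricDist L] {m : Polynomial L} (hm : m.Monic)
    (hc : ∀ j, ‖m.coeff j‖ ≤ 1) {y : L} (hy : m.eval y = 0) : ‖y‖ ≤ 1 := by
  by_contra hcon
  rw [not_le] at hcon
  rw [Polynomial.eval_eq_sum_range, Finset.sum_range_succ] at hy
  have hlead : m.coeff m.natDegree = 1 := hm
  rw [hlead, one_mul] at hy
  by_cases hd : m.natDegree = 0
  · rw [hd] at hy
    simp at hy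
  · have h1 : ‖y ^ m.natDegree‖ ≤ ‖y‖ ^ (m.natDegree - 1) := by
      have h2 : y ^ m.natDegree = -∑ i ∈ Finset.range m.natDegree, m.coeff i * y ^ i := by
        linear_combination hy
      rw [h2, norm_neg]
      refine IsUltrametricDist.norm_sum_le_of_forall_le_of_nonneg (by positivity)
        (fun i hi => ?_)
      rw [norm_mul, norm_pow]
      have h3 : ‖y‖ ^ i ≤ ‖y‖ ^ (m.natDegree - 1) :=
        pow_le_pow_right₀ hcon.le (by have := Finset.mem_range.1 hi; omega)
      calc ‖m.coeff i‖ * ‖y‖ ^ i ≤ 1 * ‖y‖ ^ i :=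
            mul_le_mul_of_nonneg_right (hc i) (by positivity)
        _ ≤ _ := by rw [one_mul]; exact h3
    rw [norm_pow] at h1
    have h4 : ‖y‖ ^ (m.natDegree - 1) < ‖y‖ ^ m.natDegree := pow_lt_pow_right₀ hcon (by omega)
    linarith

theorem main (hF : S_FrobRes) (hE : S_EmbFG) : S_ObsFG := by
  intro k _ _ hk T hT hne
  classical
  obtain ⟨N, a, e, hN, hpair⟩ := pairs_step hE hk T ((T ×ˢ T).filter (fun z => z.1 ≠ z.2))
    (fun z hz => by
      obtain ⟨h1, h2⟩ := Finset.mem_filter.1 hz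
      obtain ⟨h3, h4⟩ := Finset.mem_product.1 h1
      exact ⟨h3, h4, h2⟩)
  obtain ⟨l, hlT, hl⟩ := Nat.exists_infinite_primes (T.card + e + 2)
  have hTl : T.card < l := by omega
  have hel : e < l := by omega
  have : NeZero l := ⟨hl.ne_zero⟩
  have : NeZero (l : AlgebraicClosure k) := ⟨by exact_mod_cast hl.ne_zero⟩
  obtain ⟨ζ, hζ⟩ := HasEnoughRootsOfUnity.exists_primitiveRoot (AlgebraicClosure k) l
  set F0 : IntermediateField k (AlgebraicClosure k) :=
    IntermediateField.adjoin k (T : Set (AlgebraicClosure k)) with hF0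
  set F : IntermediateField k (AlgebraicClosure k) :=
    IntermediateField.adjoin k ((T : Set (AlgebraicClosure k)) ∪ {ζ}) with hFdef
  have hFF : ∀ x, x ∈ F → x ∈ IntermediateField.adjoin F0 ({ζ} : Set (AlgebraicClosure k)) := by
    intro x hx
    rw [hFdef, ← IntermediateField.adjoin_adjoin_left] at hx
    exact hx
  have hTF0 : ∀ θ ∈ T, θ ∈ F0 := fun θ hθ => IntermediateField.subset_adjoin k _ hθ
  have hTF : ∀ θ ∈ T, θ ∈ F := fun θ hθ => IntermediateField.subset_adjoin k _ (Or.inl hθ)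
  have hζF : ζ ∈ F := IntermediateField.subset_adjoin k _ (Or.inr rfl)
  have hna : ∀ θ ∈ T, θ - (a : AlgebraicClosure k) ≠ 0 := by
    intro θ hθ h0
    obtain ⟨σ, hσ⟩ := hne θ hθ
    apply hσ
    rw [sub_eq_zero.1 h0, map_natCast]
  have hG : ∀ θ ∈ T, ∀ θ' ∈ T, θ ≠ θ' → ∀ w ∈ F,
      θ - (a : AlgebraicClosure k) ≠ w ^ l * (θ' - (a : AlgebraicClosure k)) := by
    intro θ hθ θ' hθ' hne' w hw heq
    obtain ⟨w', hw'⟩ := pow_descent (F := F0) hl hζ
      (x := ⟨(θ - (a : AlgebraicClosure k)) / (θ' - (a : AlgebraicClosure k)),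
        div_mem (sub_mem (hTF0 θ hθ) (natCast_mem F0 a))
          (sub_mem (hTF0 θ' hθ') (natCast_mem F0 a))⟩) (hFF w hw) (by
        change w ^ l = (θ - (a : AlgebraicClosure k)) / (θ' - (a : AlgebraicClosure k))
        rw [heq, mul_div_assoc, div_self (hna θ' hθ'), mul_one])
    refine hpair a (Nat.ModEq.refl a) l hel (θ, θ') (Finset.mem_filter.2
      ⟨Finset.mem_product.2 ⟨hθ, hθ'⟩, hne'⟩) w' w'.2 ?_
    have h1 : (w' : AlgebraicClosure k) ^ l =
        (θ - (a : AlgebraicClosure k)) / (θ' - (a : AlgebraicClosure k)) :=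
      congrArg (fun x : F0 => (x : AlgebraicClosure k)) hw'
    change θ - (a : AlgebraicClosure k) = (w' : AlgebraicClosure k) ^ l *
      (θ' - (a : AlgebraicClosure k))
    rw [h1, div_mul_cancel₀ _ (hna θ' hθ')]
  have hFσ : ∀ (σ : AlgebraicClosure k ≃ₐ[k] AlgebraicClosure k), ∀ x ∈ F, σ x ∈ F := by
    intro σ x hx
    have h1 : F ≤ F.comap (σ : AlgebraicClosure k →ₐ[k] AlgebraicClosure k) := by
      rw [hFdef, IntermediateField.adjoin_le_iff]
      rintro t (ht | ht)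
      · exact hTF _ (hT σ t ht)
      · rw [Set.mem_singleton_iff] at ht
        subst ht
        have h3 : (σ t) ^ l = 1 := by rw [← map_pow, hζ.pow_eq_one, map_one]
        obtain ⟨j, -, hj⟩ := hζ.eq_pow_of_pow_eq_one h3
        change σ t ∈ F
        rw [← hj]
        exact pow_mem hζF j
    exact h1 hx
  refine ⟨l, (a : k), hl.one_le, fun c hc => ?_⟩
  set cA : AlgebraicClosure k := algebraMap k (AlgebraicClosure k) c with hcA
  have hcA0 : cA ≠ 0 := (_root_.map_ne_zero _).2 hc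
  have hρex : ∀ θ, ∃ r : AlgebraicClosure k,
      r ^ l = cA ^ (l - 1) * (θ - (a : AlgebraicClosure k)) := fun θ =>
    IsAlgClosed.exists_pow_nat_eq _ hl.pos
  choose ρ hρ using hρex
  have hρF : ∀ θ ∈ T, ρ θ ∉ F := by
    intro θ hθ hmem
    obtain ⟨σ, hσ⟩ := hne θ hθ
    have hmem' := hFσ σ _ hmem
    have e2 : σ (ρ θ) ^ l = cA ^ (l - 1) * (σ θ - (a : AlgebraicClosure k)) := by
      rw [← map_pow, hρ, map_mul, map_pow, map_sub, map_natCast, hcA, σ.commutes]
    have hw0 : σ (ρ θ) ≠ 0 := by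
      intro h0
      rw [h0, zero_pow hl.ne_zero] at e2
      exact mul_ne_zero (pow_ne_zero _ hcA0) (hna _ (hT σ θ hθ)) e2.symm
    refine hG θ hθ (σ θ) (hT σ θ hθ) (Ne.symm hσ) (ρ θ / σ (ρ θ)) (div_mem hmem hmem') ?_
    rw [div_pow, hρ, div_mul_eq_mul_div, eq_div_iff (pow_ne_zero _ hw0), e2]
    ring
  have hρl : ∀ θ ∈ T, ρ θ ^ l ∈ F := by
    intro θ hθ
    rw [hρ]
    exact mul_mem (pow_mem (F.algebraMap_mem _) _) (sub_mem (hTF θ hθ) (natCast_mem F a))
  obtain ⟨σ, hσF, hσρ⟩ := exists_move F hl hζ hζF T hTl ρ hρl hρF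
  have hρ0 : ∀ θ ∈ T, ρ θ ≠ 0 := fun θ hθ h0 => hρF θ hθ (by rw [h0]; exact F.zero_mem)
  -- the polynomial
  obtain ⟨q, hqm, hq⟩ := Pool.Agent.Y791.BS.exists_int_poly (R := k) (k := k) T hT
    (fun θ _ => Algebra.IsIntegral.isIntegral θ)
  -- the prime
  obtain ⟨p, hp, B, χ, i, res, hpl, hZ, hfrob, hresp, hres0, hY⟩ := hF k hk
    (insert ζ (insert cA (T ∪ T.image ρ ∪ T.image (fun θ => σ (ρ θ) - ρ θ))))
    (insert c ((Finset.range (q.natDegree + 1)).image q.coeff)) σ l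
  have hpp : p.Prime := hp.out
  obtain ⟨hζB, -⟩ := hZ ζ (Finset.mem_insert_self _ _)
  obtain ⟨hcB, hcB'⟩ := hZ cA (Finset.mem_insert_of_mem (Finset.mem_insert_self _ _))
  have hTB : ∀ θ ∈ T, θ ∈ B := fun θ hθ => (hZ θ (Finset.mem_insert_of_mem
    (Finset.mem_insert_of_mem (Finset.mem_union_left _ (Finset.mem_union_left _ hθ))))).1
  have hρB : ∀ θ ∈ T, ρ θ ∈ B ∧ (ρ θ ≠ 0 → (ρ θ)⁻¹ ∈ B) := fun θ hθ =>
    hZ _ (Finset.mem_insert_of_mem (Finset.mem_insert_of_mem (Finset.mem_union_left _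
      (Finset.mem_union_right _ (Finset.mem_image_of_mem ρ hθ)))))
  have hdB : ∀ θ ∈ T, σ (ρ θ) - ρ θ ∈ B ∧ (σ (ρ θ) - ρ θ ≠ 0 → (σ (ρ θ) - ρ θ)⁻¹ ∈ B) :=
    fun θ hθ => hZ _ (Finset.mem_insert_of_mem (Finset.mem_insert_of_mem
      (Finset.mem_union_right _ (Finset.mem_image_of_mem (fun θ => σ (ρ θ) - ρ θ) hθ))))
  have hunit : ∀ (x : AlgebraicClosure k) (hx : x ∈ B), x ≠ 0 → x⁻¹ ∈ B → χ ⟨x, hx⟩ ≠ 0 := by
    intro x hx hx0 hx' h0
    have h1 : (⟨x, hx⟩ : B) * ⟨x⁻¹, hx'⟩ = 1 := Subtype.ext (mul_inv_cancel₀ hx0)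
    have h2 := congrArg χ h1
    rw [map_mul, h0, zero_mul, map_one] at h2
    exact zero_ne_one h2
  obtain ⟨hc', hc1, hcres⟩ := hY c (Finset.mem_insert_self _ _)
  set cB : B := ⟨algebraMap k (AlgebraicClosure k) c, hc'⟩ with hcBdef
  have hχc : χ cB ≠ 0 := hunit _ hc' hcA0 (hcB' hcA0)
  have hcn : ‖i.φ c‖ = 1 := by
    refine le_antisymm hc1 ?_
    by_contra hlt
    push Not at hlt
    have h1 := (hres0 ⟨i.φ c, hc1⟩).2 hlt
    rw [hcres] at h1
    exact hχc h1
  refine ⟨i, fun ι θ hθ z hz => ?_⟩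
  have hinj := (algebraMap i.Lv (AlgebraicClosure i.Lv)).injective
  set y : i.Lv := (a : i.Lv) + i.φ c * z ^ l with hy
  have hyι : algebraMap i.Lv (AlgebraicClosure i.Lv) y = ι θ := by
    have h1 : ι (θ - algebraMap k (AlgebraicClosure k) (a : k)) =
        algebraMap i.Lv (AlgebraicClosure i.Lv) (i.φ c * z ^ l) := hz
    rw [hy, map_add, ← h1, map_natCast, map_sub, map_natCast, map_natCast]
    ring
  have hqy : Polynomial.eval₂ i.φ y q = 0 := by
    apply hinj
    rw [Polynomial.hom_eval₂, map_zero, hyι]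
    have e1 : (algebraMap i.Lv (AlgebraicClosure i.Lv)).comp i.φ =
        (ι : AlgebraicClosure k →+* AlgebraicClosure i.Lv).comp
          (algebraMap k (AlgebraicClosure k)) := by
      apply RingHom.ext
      intro x
      exact (ι.commutes x).symm
    rw [e1]
    change Polynomial.eval₂ _ ((ι : AlgebraicClosure k →+* AlgebraicClosure i.Lv) θ) _ = 0
    rw [← Polynomial.hom_eval₂, Polynomial.eval₂_eq_eval_map, hq, Polynomial.eval_prod,
      Finset.prod_eq_zero hθ (by simp), map_zero]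
  -- the polynomial over B
  set qB : Polynomial B := ∏ θ ∈ T.attach, (Polynomial.X - Polynomial.C (⟨θ.1, hTB θ.1 θ.2⟩ : B))
    with hqB
  have hqBmap : qB.map B.subtype = q.map (algebraMap k (AlgebraicClosure k)) := by
    rw [hq, hqB, Polynomial.map_prod, ← Finset.prod_attach T]
    refine Finset.prod_congr rfl (fun θ _ => ?_)
    rw [Polynomial.map_sub, Polynomial.map_X, Polynomial.map_C]
    rfl
  have hqBc : ∀ j, ((qB.coeff j : B) : AlgebraicClosure k) =
      algebraMap k (AlgebraicClosure k) (q.coeff j) := by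
    intro j
    rw [← Polynomial.coeff_map (algebraMap k (AlgebraicClosure k)), ← hqBmap,
      Polynomial.coeff_map]
    rfl
  have hcoef : ∀ j, ∃ h : ‖i.φ (q.coeff j)‖ ≤ 1, res ⟨i.φ (q.coeff j), h⟩ = χ (qB.coeff j) := by
    intro j
    by_cases hj : j < q.natDegree + 1
    · obtain ⟨h1, h2, h3⟩ := hY (q.coeff j) (Finset.mem_insert_of_mem
        (Finset.mem_image_of_mem _ (Finset.mem_range.2 hj)))
      refine ⟨h2, h3.trans (congrArg χ ?_)⟩
      exact Subtype.ext (hqBc j).symm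
    · have h1 : q.coeff j = 0 := Polynomial.coeff_eq_zero_of_natDegree_lt (by omega)
      have h2 : qB.coeff j = 0 := by
        apply Subtype.ext
        rw [hqBc, h1, map_zero]
        rfl
      have h3 : i.φ (q.coeff j) = 0 := by rw [h1, map_zero]
      refine ⟨by rw [h3, norm_zero]; exact zero_le_one, ?_⟩
      rw [h2, map_zero]
      have h4 : (⟨i.φ (q.coeff j), by
          change ‖i.φ (q.coeff j)‖ ≤ 1
          rw [h3, norm_zero]; exact zero_le_one⟩ : ball1 i.Lv) = 0 :=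
        Subtype.ext h3
      rw [h4, map_zero]
  choose hcle hcχ using hcoef
  have hyle : ‖y‖ ≤ 1 := by
    refine root_le (m := q.map i.φ) (hqm.map _) (fun j => ?_) ?_
    · rw [Polynomial.coeff_map]
      exact hcle j
    · rw [Polynomial.eval_map]
      exact hqy
  have hale : ‖(a : i.Lv)‖ ≤ 1 := IsUltrametricDist.norm_natCast_le_one i.Lv a
  have hzle : ‖z‖ ≤ 1 := by
    have h1 : ‖i.φ c * z ^ l‖ ≤ 1 := by
      have e1 : i.φ c * z ^ l = y + -(a : i.Lv) := by rw [hy]; ring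
      rw [e1]
      exact (IsUltrametricDist.norm_add_le_max _ _).trans (max_le hyle (by rwa [norm_neg]))
    rw [norm_mul, hcn, one_mul, norm_pow] at h1
    exact (pow_le_one_iff_of_nonneg (norm_nonneg _) hl.ne_zero).1 h1
  set yB : ball1 i.Lv := ⟨y, hyle⟩ with hyB
  set zB : ball1 i.Lv := ⟨z, hzle⟩ with hzB
  have hroot : Polynomial.eval₂ χ (res yB) qB = 0 := by
    rw [Polynomial.eval₂_eq_sum_range' χ (n := max qB.natDegree q.natDegree + 1) (by
      have := le_max_left qB.natDegree q.natDegree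
      omega)]
    have e1 : ∀ j, χ (qB.coeff j) * res yB ^ j = res (⟨i.φ (q.coeff j), hcle j⟩ * yB ^ j) := by
      intro j
      rw [map_mul, map_pow, hcχ]
    simp only [e1]
    rw [← map_sum, ← map_zero res]
    congr 1
    apply Subtype.ext
    rw [Polynomial.eval₂_eq_sum_range' i.φ (n := max qB.natDegree q.natDegree + 1) (by
      have := le_max_right qB.natDegree q.natDegree
      omega)] at hqy
    rw [AddSubmonoidClass.coe_finsetSum]
    exact hqy
  obtain ⟨θ', hθ', hyθ⟩ : ∃ θ', ∃ h : θ' ∈ T, res yB = χ ⟨θ', hTB θ' h⟩ := by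
    rw [hqB, Polynomial.eval₂_finsetProd, Finset.prod_eq_zero_iff] at hroot
    obtain ⟨θ', -, h1⟩ := hroot
    refine ⟨θ'.1, θ'.2, ?_⟩
    rw [Polynomial.eval₂_sub, Polynomial.eval₂_X, Polynomial.eval₂_C, sub_eq_zero] at h1
    exact h1
  have hyres : res yB = (a : AlgebraicClosure (ZMod p)) + χ cB * res zB ^ l := by
    have e1 : yB = (a : ball1 i.Lv) + ⟨i.φ c, hc1⟩ * zB ^ l := by
      apply Subtype.ext
      change y = _
      rw [hy]
      push_cast
      rfl
    rw [e1, map_add, map_natCast, map_mul, map_pow, hcres]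
  obtain ⟨hρ1, hρ2⟩ := hρB θ' hθ'
  have hρne := hρ0 θ' hθ'
  set ρB : B := ⟨ρ θ', hρ1⟩ with hρBdef
  have hχρ : χ ρB ≠ 0 := hunit _ hρ1 hρne (hρ2 hρne)
  have hρB2 : ρB ^ l = cB ^ (l - 1) * (⟨θ', hTB θ' hθ'⟩ - (a : B)) := by
    apply Subtype.ext
    change ρ θ' ^ l = _
    rw [hρ]
    push_cast
    rfl
  set r : AlgebraicClosure (ZMod p) := res zB with hr
  have h3 : χ ρB ^ l = (χ cB * r) ^ l := by
    rw [← map_pow, hρB2, map_mul, map_sub, map_pow, map_natCast, ← hyθ, hyres, add_sub_cancel_left,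
      ← mul_assoc, ← pow_succ, Nat.sub_add_cancel hl.one_le, mul_pow]
  have hw0 : χ cB * r ≠ 0 := by
    intro h0
    rw [h0, zero_pow hl.ne_zero] at h3
    exact hχρ (pow_eq_zero_iff hl.ne_zero |>.1 h3)
  set ζB : B := ⟨ζ, hζB⟩ with hζBdef
  have hξ : IsPrimitiveRoot (χ ζB) l := by
    have : Fact l.Prime := ⟨hl⟩
    have h1 : (χ ζB) ^ l = 1 := by
      rw [← map_pow, ← map_one χ]
      congr 1
      exact Subtype.ext hζ.pow_eq_one
    have h2 : χ ζB ≠ 1 := by
      intro h2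
      have h4 : ∑ j ∈ Finset.range l, ζB ^ j = 0 := by
        apply Subtype.ext
        rw [AddSubmonoidClass.coe_finsetSum]
        exact hζ.geom_sum_eq_zero hl.one_lt
      have h5 := congrArg χ h4
      rw [map_sum, map_zero] at h5
      simp only [map_pow, h2, one_pow, Finset.sum_const, Finset.card_range, nsmul_eq_mul,
        mul_one] at h5
      rw [CharP.cast_eq_zero_iff (AlgebraicClosure (ZMod p)) p] at h5
      exact absurd (Nat.le_of_dvd hl.pos h5) (by omega)
    exact IsPrimitiveRoot.iff_orderOf.2 (orderOf_eq_prime h1 h2)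
  have hratio : (χ ρB / (χ cB * r)) ^ l = 1 := by
    rw [div_pow, h3, div_self (pow_ne_zero _ hw0)]
  obtain ⟨j, -, hj⟩ := hξ.eq_pow_of_pow_eq_one hratio
  have hρeq : χ ρB = χ ζB ^ j * (χ cB * r) := by
    rw [hj, div_mul_cancel₀ _ hw0]
  -- Frobenius
  obtain ⟨hσρB, hσρ2⟩ := hfrob (ρ θ') hρ1
  have hζp : χ ζB ^ p = χ ζB := by
    obtain ⟨h1, h2⟩ := hfrob ζ hζB
    rw [← h2]
    congr 1
    exact Subtype.ext (hσF ζ hζF)
  have hcp : χ cB ^ p = χ cB := by
    obtain ⟨h1, h2⟩ := hfrob (algebraMap k (AlgebraicClosure k) c) hc'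
    rw [← h2]
    congr 1
    exact Subtype.ext (σ.commutes c)
  have hρp : χ ρB ^ p = χ ρB := by
    rw [hρeq, mul_pow, mul_pow, ← pow_mul, mul_comm j p, pow_mul, hζp, hcp, hr, hresp]
  have hdiff : χ ⟨σ (ρ θ') - ρ θ', (hdB θ' hθ').1⟩ = 0 := by
    have e1 : (⟨σ (ρ θ') - ρ θ', (hdB θ' hθ').1⟩ : B) = ⟨σ (ρ θ'), hσρB⟩ - ρB :=
      Subtype.ext rfl
    rw [e1, map_sub, hσρ2, hρp, sub_self]
  have hne0 : σ (ρ θ') - ρ θ' ≠ 0 := sub_ne_zero.2 (hσρ θ' hθ')
  exact hunit _ (hdB θ' hθ').1 hne0 ((hdB θ' hθ').2 hne0) hdiff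

end Pool.Agent.Y791.BF.ObsFG
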