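import Pool.Agent.Y791.BF.Hyp

/-!
# Values of points of hyperelliptic curves over a level and of their conjugates (2)
-/

set_option autoImplicit false
set_option linter.unusedSectionVars false

open Polynomial WeierstrassCurve IsDedekindDomain NumberField

namespace Pool.Agent.Y791.BF

open Pool.Agent.TH942 Pool.Agent.TH954 Pool.Agent.Y791.BS

section split

variable (hEmb : S_EmbFG) (hUnr : S_Unr) (hInter : S_Inter2)
    {k : Type} [Field k] [CharZero k] {M : Type} [Field M] [CharZero M] [IsAlgClosed M]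
    [Algebra k M] (A : SAct k M) (pl : ∀ i : PlF k, Plc k M (AlgebraicClosure i.Lv))
    (hpl : ∀ i, GeoPlc A (pl i)) (E : Lvl k)
    (γ : AlgebraicClosure k ≃ₐ[k] AlgebraicClosure k) (hγ : ∀ w, E.IsCst w → γ w = w)

/-- moving a root to infinity -/
lemma move (E : Lvl k) (A : SAct k M) {R : Finset E.K} {c : E.K} {l n : ℕ} (hn : l * n = R.card)
    {x y : M} (hθ : ∀ t ∈ R, x ≠ jc A E t) (hxy : y ^ l = jc A E c * ∏ t ∈ R, (x - jc A E t))
    {t1 : E.K} (ht1 : t1 ∈ R) [DecidableEq E.K] :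
    (y * ((x - jc A E t1)⁻¹) ^ n) ^ l = jc A E (c * ∏ t ∈ R.erase t1, (t1 - t)) *
      ∏ s ∈ (R.erase t1).image (fun t => (t - t1)⁻¹), ((x - jc A E t1)⁻¹ - jc A E s) := by
  have hinj : Set.InjOn (fun t : E.K => (t - t1)⁻¹) (R.erase t1 : Finset E.K) := by
    intro a _ b _ hab
    have h1 := inv_injective hab
    exact sub_left_injective h1
  have hx1 : x - jc A E t1 ≠ 0 := sub_ne_zero.2 (hθ t1 ht1)
  have hprod : ∏ t ∈ R, (x - jc A E t) =
      (x - jc A E t1) * ∏ t ∈ R.erase t1, (x - jc A E t) :=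
    (Finset.mul_prod_erase R (fun t => x - jc A E t) ht1).symm
  have hcard : R.card = (R.erase t1).card + 1 := (Finset.card_erase_add_one ht1).symm
  have e0 : jc A E (∏ t ∈ R.erase t1, (t1 - t)) = ∏ t ∈ R.erase t1, jc A E (t1 - t) := by
    simp only [jc, map_prod]
  have e1 : ∀ t ∈ R.erase t1, jc A E (t1 - t) * ((x - jc A E t1)⁻¹ - jc A E (t - t1)⁻¹) =
      (x - jc A E t) * (x - jc A E t1)⁻¹ := by
    intro t ht
    rw [Finset.mem_erase] at ht
    have h1 : jc A E t - jc A E t1 ≠ 0 := by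
      rw [← jc_sub]
      exact jc_ne A E (sub_ne_zero.2 ht.1)
    rw [jc_inv, jc_sub, jc_sub]
    field_simp
    ring
  have e2 : (∏ t ∈ R.erase t1, jc A E (t1 - t)) *
      ∏ t ∈ R.erase t1, ((x - jc A E t1)⁻¹ - jc A E (t - t1)⁻¹) =
      (∏ t ∈ R.erase t1, (x - jc A E t)) * ((x - jc A E t1)⁻¹) ^ (R.erase t1).card := by
    rw [← Finset.prod_mul_distrib, Finset.prod_congr rfl e1, Finset.prod_mul_distrib,
      Finset.prod_const]
  rw [Finset.prod_image hinj, mul_pow, hxy, ← pow_mul, mul_comm n l, hn, hprod, hcard, jc_mul, e0,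
    mul_assoc (jc A E c) (∏ t ∈ R.erase t1, jc A E (t1 - t)), e2, pow_succ]
  field_simp

include hEmb hUnr hInter hpl hγ in
/-- the case of a polynomial with all its roots in the field of constants -/
theorem split_case (hT : S_TypesL) (R : Finset E.K) (c : E.K) (hc : c ≠ 0)
    (h3 : 3 ≤ R.card) {x y : M} (hx : E.Fixed A x) (hy : E.Fixed A y)
    (hθ : ∀ t ∈ R, x ≠ jc A E t) (hxy : y ^ 2 = jc A E c * ∏ t ∈ R, (x - jc A E t)) :
    (∀ i, (x ∈ (pl i).W → ∃ c, (pl i).val x c ∧ (pl i).val (A.s γ x) c) ∧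
    (x ∉ (pl i).W → A.s γ x ∉ (pl i).W) ∧
    (A.s γ x = x → A.s γ y = -y → x ∈ (pl i).W → (pl i).val y 0)) ∧
    (¬ (A.s γ x = x ∧ A.s γ y = y) → ∃ t : M, t ≠ 0 ∧ ∀ i, (pl i).val t 0) := by
  classical
  by_cases hpar : 2 ∣ R.card
  swap
  · exact odd_case hEmb hUnr hInter A pl hpl E γ hγ hT R c hc hpar h3 hx hy hθ hxy
  obtain ⟨n, hn⟩ := hpar
  have hn1 : 2 ≤ n := by omega
  obtain ⟨t1, ht1⟩ : R.Nonempty := Finset.card_pos.1 (by omega)
  have hxt : x - jc A E t1 ≠ 0 := sub_ne_zero.2 (hθ t1 ht1)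
  set x1 : M := (x - jc A E t1)⁻¹ with hx1d
  set y1 : M := y * x1 ^ n with hy1d
  set R1 : Finset E.K := (R.erase t1).image (fun t => (t - t1)⁻¹) with hR1
  have hx10 : x1 ≠ 0 := inv_ne_zero hxt
  have hinj : Set.InjOn (fun t : E.K => (t - t1)⁻¹) (R.erase t1 : Finset E.K) := by
    intro a _ b _ hab
    have h1 := inv_injective hab
    exact sub_left_injective h1
  have hcard : R1.card = R.card - 1 := by
    rw [hR1, Finset.card_image_of_injOn hinj, Finset.card_erase_of_mem ht1]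
  have hx1 : E.Fixed A x1 := Fixed.inv (Fixed.sub hx (fixed_jc A E t1))
  have hy1 : E.Fixed A y1 := Fixed.mul hy (Fixed.pow hx1 n)
  have hc1 : c * ∏ t ∈ R.erase t1, (t1 - t) ≠ 0 := by
    refine mul_ne_zero hc (Finset.prod_ne_zero_iff.2 (fun t ht => ?_))
    rw [Finset.mem_erase] at ht
    exact sub_ne_zero.2 ht.1.symm
  have hθ1 : ∀ s ∈ R1, x1 ≠ jc A E s := by
    intro s hs h
    rw [hR1, Finset.mem_image] at hs
    obtain ⟨t, ht, rfl⟩ := hs
    rw [Finset.mem_erase] at ht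
    rw [hx1d, jc_inv, inv_inj, jc_sub, sub_left_inj] at h
    exact hθ t ht.2 h
  have hxy1 := move E A hn.symm hθ hxy ht1
  obtain ⟨k123, k0⟩ := odd_case hEmb hUnr hInter A pl hpl E γ hγ hT R1 _ hc1
    (by rw [hcard]; omega) (by rw [hcard]; omega) hx1 hy1 hθ1 hxy1
  have hsx1 : A.s γ x1 = (A.s γ x - jc A E t1)⁻¹ := by
    rw [hx1d, map_inv₀, map_sub, s_jc A E γ hγ]
  have hsxt : A.s γ x - jc A E t1 ≠ 0 := by
    rw [← s_jc A E γ hγ t1, ← map_sub]
    exact (map_ne_zero_iff _ (A.s γ).injective).2 hxt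
  refine ⟨fun i => ?_, fun hne => k0 (fun hh => hne ?_)⟩
  swap
  · obtain ⟨e1, e2⟩ := hh
    have hsx : A.s γ x = x := by
      rw [hsx1, hx1d, inv_inj] at e1
      exact sub_left_injective e1
    refine ⟨hsx, ?_⟩
    rw [hy1d, map_mul, map_pow, hsx1, hsx] at e2
    exact mul_right_cancel₀ (pow_ne_zero n hx10) e2
  obtain ⟨k1, k2, k3⟩ := k123 i
  have hback : ∀ {z : M} {v : AlgebraicClosure i.Lv}, (pl i).val (z - jc A E t1) v →
      (pl i).val z (v + (pl i).iot A.j (E.cst t1)) := by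
    intro z v h
    have h1 := h.add (val_jc A pl E i t1)
    rwa [sub_add_cancel] at h1
  have hmem : ∀ {z : M}, z - jc A E t1 ∈ (pl i).W ↔ z ∈ (pl i).W := by
    intro z
    constructor
    · intro h
      have h1 := add_mem h (jc_mem A pl E i t1)
      rwa [sub_add_cancel] at h1
    · intro h
      exact sub_mem h (jc_mem A pl E i t1)
  refine ⟨fun hxW => ?_, fun hxW => ?_, fun hsx hsy hxW => ?_⟩
  · by_cases hW : x1 ∈ (pl i).W
    · obtain ⟨c', v1, v2⟩ := k1 hW
      have hc' : c' ≠ 0 := by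
        rintro rfl
        exact Plc.notMem_of_val_inv hxt v1 (hmem.2 hxW)
      have v3 := v1.inv hc'
      have v4 := v2.inv hc'
      rw [hx1d, inv_inv] at v3
      rw [hsx1, inv_inv] at v4
      exact ⟨_, hback v3, hback v4⟩
    · have v3 := Plc.val_inv_of_notMem hW
      have v4 := Plc.val_inv_of_notMem (k2 hW)
      rw [hx1d, inv_inv] at v3
      rw [hsx1, inv_inv] at v4
      exact ⟨_, hback v3, hback v4⟩
  · have h1 : x - jc A E t1 ∉ (pl i).W := fun h => hxW (hmem.1 h)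
    have v1 := Plc.val_inv_of_notMem h1
    obtain ⟨c', v1', v2⟩ := k1 v1.mem
    have hc' : c' = 0 := v1'.unique v1
    rw [hc', hsx1] at v2
    have h2 := Plc.notMem_of_val_inv hsxt v2
    exact fun h => h2 (hmem.2 h)
  · have hsy1 : A.s γ y1 = -y1 := by
      rw [hy1d, map_mul, map_pow, hsy, hsx1, hsx]
      ring
    by_cases hW : x1 ∈ (pl i).W
    · have v1 := k3 (by rw [hsx1, hsx]) hsy1 hW
      obtain ⟨c', hc'⟩ := Plc.val_of_mem (pow_mem (hmem.2 hxW) n)
      have v2 := v1.mul hc'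
      rw [zero_mul] at v2
      have e : y1 * (x - jc A E t1) ^ n = y := by
        rw [hy1d, hx1d, inv_pow, mul_assoc, inv_mul_cancel₀ (pow_ne_zero _ hxt), mul_one]
      rwa [e] at v2
    · have v3 := Plc.val_inv_of_notMem hW
      rw [hx1d, inv_inv] at v3
      have hrest : (jc A E c * ∏ t ∈ R.erase t1, (x - jc A E t)) ∈ (pl i).W :=
        mul_mem (jc_mem A pl E i c) (prod_mem (fun t _ => sub_mem hxW (jc_mem A pl E i t)))
      obtain ⟨c', hc'⟩ := Plc.val_of_mem hrest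
      have v4 := hc'.mul v3
      rw [mul_zero] at v4
      have e : jc A E c * (∏ t ∈ R.erase t1, (x - jc A E t)) * (x - jc A E t1) = y ^ 2 := by
        rw [hxy, ← Finset.mul_prod_erase R (fun t => x - jc A E t) ht1]
        ring
      rw [e] at v4
      have hyW : y ∈ (pl i).W := Plc.mem_of_pow_mem two_pos v4.mem
      obtain ⟨cy, hcy⟩ := Plc.val_of_mem hyW
      have h10 := (hcy.pow 2).unique v4
      rw [sq_eq_zero_iff] at h10
      rwa [h10] at hcy

end split

/-- points of hyperelliptic curves over a level, all statements -/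
theorem dgen (hEmb : S_EmbFG) (hUnr : S_Unr) (hInter : S_Inter2) (hExt : S_LvlExt)
    (hT : S_TypesL) (k : Type) [Field k] [CharZero k] (M : Type) [Field M] [CharZero M]
    [IsAlgClosed M] [Algebra k M] (A : SAct k M)
    (pl : ∀ i : PlF k, Plc k M (AlgebraicClosure i.Lv)) (hpl : ∀ i, GeoPlc A (pl i))
    (E : Lvl k) (γ : AlgebraicClosure k ≃ₐ[k] AlgebraicClosure k)
    (hγ : ∀ w, E.IsCst w → γ w = w) (f : E.K[X]) (hf : f.Separable) (hdeg : 3 ≤ f.natDegree)
    (x y : M) (hx : E.Fixed A x) (hy : E.Fixed A y) (hy0 : y ≠ 0)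
    (hxy : y ^ 2 = eval₂ ((A.j : AlgebraicClosure k →+* M).comp E.cst) x f) :
    (∀ i, (x ∈ (pl i).W → ∃ c, (pl i).val x c ∧ (pl i).val (A.s γ x) c) ∧
    (x ∉ (pl i).W → A.s γ x ∉ (pl i).W) ∧
    (A.s γ x = x → A.s γ y = -y → x ∈ (pl i).W → (pl i).val y 0)) ∧
    (¬ (A.s γ x = x ∧ A.s γ y = y) → ∃ t : M, t ≠ 0 ∧ ∀ i, (pl i).val t 0) := by
  classical
  have hf0 : f ≠ 0 := hf.ne_zero
  obtain ⟨E', j, hj1, hj2, hs1, hcst1, -, hfix⟩ := hExt k E f hf0
  have hγ' : ∀ w, E'.IsCst w → γ w = w := fun w hw => hγ w (hcst1 w hw)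
  set R : Finset E'.K := (f.map j).roots.toFinset with hR
  have hsepj : (f.map j).Separable := hf.map
  have hnd : (f.map j).roots.Nodup := nodup_roots hsepj
  have hcard : R.card = f.natDegree := by
    rw [hR, Multiset.toFinset_card_of_nodup hnd, ← hs1.natDegree_eq_card_roots,
      natDegree_map]
  set c : E'.K := (f.map j).leadingCoeff with hc
  have hc0 : c ≠ 0 := by
    rw [hc, Ne, leadingCoeff_eq_zero]
    exact (Polynomial.map_ne_zero_iff j.injective).2 hf0
  have hfac : f.map j = C c * ∏ t ∈ R, (X - C t) := by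
    conv_lhs => rw [hs1.eq_prod_roots]
    rw [hR, Finset.prod, Multiset.toFinset_val, hnd.dedup]
  have hxy' : y ^ 2 = jc A E' c * ∏ t ∈ R, (x - jc A E' t) := by
    have e1 : ((A.j : AlgebraicClosure k →+* M).comp E.cst) =
        ((A.j : AlgebraicClosure k →+* M).comp E'.cst).comp j := by
      apply RingHom.ext
      intro a
      change A.j (E.cst a) = A.j (E'.cst (j a))
      rw [hj1]
    rw [hxy, e1, ← eval₂_map, hfac, eval₂_mul, eval₂_C, eval₂_finsetProd]
    simp only [eval₂_sub, eval₂_X, eval₂_C]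
    rfl
  have hθ : ∀ t ∈ R, x ≠ jc A E' t := by
    intro t ht h
    apply hy0
    have h1 : ∏ t ∈ R, (x - jc A E' t) = 0 := Finset.prod_eq_zero ht (by rw [h, sub_self])
    rw [h1, mul_zero] at hxy'
    exact pow_eq_zero_iff two_ne_zero |>.1 hxy'
  exact split_case hEmb hUnr hInter A pl hpl E' γ hγ' hT R c hc0
    (by rw [hcard]; exact hdeg) (fun τ hτ => hx τ (hfix τ hτ)) (fun τ hτ => hy τ (hfix τ hτ))
    hθ hxy'

/-- points of hyperelliptic curves over a level -/
theorem dthm (hEmb : S_EmbFG) (hUnr : S_Unr) (hInter : S_Inter2) (hExt : S_LvlExt)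
    (hT : S_TypesL) : S_Dthm := by
  intro k _ _ M _ _ _ _ A pl hpl E γ ω hγ f hf hdeg x y hx hy hy0 hxy i
  exact (dgen hEmb hUnr hInter hExt hT k M A pl hpl E γ hγ.1 f hf hdeg x y hx hy hy0 hxy).1 i

end Pool.Agent.Y791.BF
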