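import Pool.Agent.Y791.BF.Tasks2

/-!
# Fields of rational functions in an algebraic closure: extension of constants and roots of the
variable
-/

set_option autoImplicit false
set_option linter.unusedSectionVars false

open Polynomial IsDedekindDomain NumberField

namespace Pool.Agent.Y791.BF.Level

open Pool.Agent.TH954 Pool.Agent.Y791.BS Pool.Agent.Y791.BF

/-- homomorphisms of a field of rational functions -/
lemma exists_lift {K Ω : Type} [Field K] [Field Ω] (f : K →+* Ω) (s : Ω)
    (h : Function.Injective (Polynomial.eval₂RingHom f s)) :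
    ∃ φ : RatFunc K →+* Ω, (∀ c, φ (algebraMap K (RatFunc K) c) = f c) ∧ φ RatFunc.X = s := by
  refine ⟨RatFunc.liftRingHom _
    (nonZeroDivisors_le_comap_nonZeroDivisors_of_injective _ h), ?_, ?_⟩
  · intro c
    have e : algebraMap K (RatFunc K) c = algebraMap K[X] (RatFunc K) (C c) := by
      rw [RatFunc.algebraMap_C, RatFunc.algebraMap_eq_C]
    rw [e, RatFunc.liftRingHom_algebraMap]
    change eval₂ _ _ (C c) = _
    rw [eval₂_C]
  · have e : (RatFunc.X : RatFunc K) = algebraMap K[X] (RatFunc K) X := RatFunc.algebraMap_X.symm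
    rw [e, RatFunc.liftRingHom_algebraMap]
    change eval₂ _ _ X = _
    rw [eval₂_X]

/-- the image of the variable is transcendental -/
lemma inj_of_hom {K Ω : Type} [Field K] [Field Ω] (φ : RatFunc K →+* Ω) :
    Function.Injective (Polynomial.eval₂RingHom (φ.comp (algebraMap K (RatFunc K)))
      (φ RatFunc.X)) := by
  have e : Polynomial.eval₂RingHom (φ.comp (algebraMap K (RatFunc K))) (φ RatFunc.X) =
      φ.comp (algebraMap K[X] (RatFunc K)) := by
    apply Polynomial.ringHom_ext
    · intro c
      change eval₂ _ _ (C c) = φ (algebraMap K[X] (RatFunc K) (C c))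
      rw [eval₂_C, RatFunc.algebraMap_C, RingHom.comp_apply, RatFunc.algebraMap_eq_C]
    · change eval₂ _ _ X = φ (algebraMap K[X] (RatFunc K) X)
      rw [eval₂_X, RatFunc.algebraMap_X]
  rw [e]
  exact φ.injective.comp (RatFunc.algebraMap_injective K)

/-- transcendental elements are transcendental over algebraic extensions -/
lemma inj_ext {K K' Ω : Type} [Field K] [Field K'] [Field Ω] [Algebra K K']
    [Algebra.IsAlgebraic K K'] (f : K' →+* Ω) (s : Ω)
    (h : Function.Injective (Polynomial.eval₂RingHom (f.comp (algebraMap K K')) s)) :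
    Function.Injective (Polynomial.eval₂RingHom f s) := by
  let : Algebra K' Ω := f.toAlgebra
  let : Algebra K Ω := (f.comp (algebraMap K K')).toAlgebra
  have : IsScalarTower K K' Ω := IsScalarTower.of_algebraMap_eq (fun _ => rfl)
  have h2 : Transcendental K s := transcendental_iff_injective.2 h
  have h4 : Transcendental K' s := fun h => h2 (h.restrictScalars K)
  exact transcendental_iff_injective.1 h4

/-- homomorphisms which agree on a generator -/
lemma hom_ext_of_prim {K K' Ω : Type} [Field K] [Field K'] [Field Ω] [Algebra K K'] (β : K')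
    (hβ : IntermediateField.adjoin K {β} = ⊤) (f g : K' →+* Ω)
    (h0 : ∀ c, f (algebraMap K K' c) = g (algebraMap K K' c)) (h1 : f β = g β) : f = g := by
  let F : IntermediateField K K' := (RingHom.eqLocusField f g).toIntermediateField h0
  have h2 : IntermediateField.adjoin K {β} ≤ F := by
    rw [IntermediateField.adjoin_simple_le_iff]
    exact h1
  rw [hβ] at h2
  ext x
  exact h2 (IntermediateField.mem_top (x := x))

/-- finitely many algebraic elements are fixed when one element is fixed -/
lemma exists_gen {k : Type} [Field k] [CharZero k] (Z : Set (AlgebraicClosure k)) (hZ : Z.Finite) :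
    ∃ α : AlgebraicClosure k, ∀ τ : AlgebraicClosure k ≃ₐ[k] AlgebraicClosure k,
      τ α = α → ∀ z ∈ Z, τ z = z := by
  classical
  have := hZ.to_subtype
  have hfin : FiniteDimensional k (IntermediateField.adjoin k Z) :=
    IntermediateField.finiteDimensional_adjoin
      (fun x _ => (Algebra.IsAlgebraic.isAlgebraic x).isIntegral)
  obtain ⟨α, hα⟩ := Field.exists_primitive_element k (IntermediateField.adjoin k Z)
  refine ⟨α, fun τ hτ z hz => ?_⟩
  have h := hom_ext_of_prim α hα
    ((τ : AlgebraicClosure k →+* AlgebraicClosure k).comp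
      (algebraMap (IntermediateField.adjoin k Z) (AlgebraicClosure k)))
    (algebraMap (IntermediateField.adjoin k Z) (AlgebraicClosure k))
    (fun c => by
      change τ (algebraMap k (AlgebraicClosure k) c) = algebraMap k (AlgebraicClosure k) c
      exact τ.commutes c) hτ
  exact congrArg (fun f : IntermediateField.adjoin k Z →+* AlgebraicClosure k =>
    f ⟨z, IntermediateField.subset_adjoin k Z hz⟩) h

/-- inclusion of fields of rational functions -/
lemma exists_incl {K K' : Type} [Field K] [Field K'] (f : K →+* K') (n : ℕ) (hn : 0 < n) :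
    ∃ φ : RatFunc K →+* RatFunc K',
      (∀ c, φ (algebraMap K (RatFunc K) c) = algebraMap K' (RatFunc K') (f c)) ∧
      φ RatFunc.X = RatFunc.X ^ n := by
  have hinj : Function.Injective (Polynomial.eval₂RingHom
      ((algebraMap K' (RatFunc K')).comp f) (RatFunc.X ^ n)) := by
    let : Algebra K K' := f.toAlgebra
    have h1 : Transcendental K' (RatFunc.X : RatFunc K') := RatFunc.transcendental_X
    have h2 : Transcendental K (RatFunc.X ^ n : RatFunc K') := by
      refine Transcendental.pow ?_ hn
      exact h1.restrictScalars f.injective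
    exact transcendental_iff_injective.1 h2
  exact exists_lift _ _ hinj

variable {k : Type} [Field k]

/-- the extension of the constants of a level -/
theorem ext_aux [CharZero k] (E : Lvl k) (g : E.K[X]) (K2 : Type) [Field K2] [CharZero K2]
    [Algebra E.K K2] [FiniteDimensional E.K K2] (hs : (g.map (algebraMap E.K K2)).Splits) :
    ∃ (E' : Lvl k) (j : E.K →+* E'.K), (∀ c, E'.cst (j c) = E.cst c) ∧ E'.S = E.S ∧
      (g.map j).Splits ∧ (∀ w, E'.IsCst w → E.IsCst w) ∧ (∀ w, E.IsCst w → E'.IsCst w) ∧
      ∀ τ : AlgebraicClosure k ≃ₐ[k] AlgebraicClosure k,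
        (∀ c, τ (E'.κ c) = E'.κ c) → ∀ c, τ (E.κ c) = E.κ c := by
  classical
  -- the embedding of the constants
  obtain ⟨j2, hj2⟩ : ∃ j2 : K2 →+* AlgebraicClosure k,
      ∀ c, j2 (algebraMap E.K K2 c) = E.cst c := by
    let : Algebra E.K (AlgebraicClosure k) := E.cst.toAlgebra
    let j : K2 →ₐ[E.K] AlgebraicClosure k := IsAlgClosed.lift
    exact ⟨j, fun c => j.commutes c⟩
  have hcomp : j2.comp (algebraMap E.K K2) = E.cst := RingHom.ext hj2
  have hinj : Function.Injective (Polynomial.eval₂RingHom j2 E.S) := by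
    apply inj_ext (K := E.K)
    rw [hcomp]
    exact inj_of_hom E.κ
  obtain ⟨κ2, hκC, hκX⟩ := exists_lift j2 E.S hinj
  obtain ⟨inc, hiC, hiX⟩ := exists_incl (algebraMap E.K K2) 1 one_pos
  rw [pow_one] at hiX
  have hκi : κ2.comp inc = E.κ := by
    apply ratFunc_hom_ext
    · intro c
      rw [RingHom.comp_apply, hiC, hκC, hj2]
      rfl
    · rw [RingHom.comp_apply, hiX, hκX]
      rfl
  have hκi' : ∀ c, κ2 (inc c) = E.κ c := fun c => by rw [← hκi]; rfl
  obtain ⟨β, hβ⟩ := Field.exists_primitive_element E.K K2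
  obtain ⟨α2, hα2⟩ := exists_gen (k := k) {E.α, j2 β} (by simp)
  have hess : Algebra.EssFiniteType ℚ K2 := by
    have h1 : Algebra.EssFiniteType ℚ E.K := E.ess
    exact Algebra.EssFiniteType.comp ℚ E.K K2
  let E' : Lvl k :=
    { K := K2
      ess := hess
      κ := κ2
      m := inc.comp E.m
      hκ := fun c => by
        rw [RingHom.comp_apply, hκi']
        exact E.hκ c
      α := α2
      hα := fun τ hτ c => by
        have h1 : τ E.α = E.α := hα2 τ hτ _ (by simp)
        have h2 : τ (j2 β) = j2 β := hα2 τ hτ _ (by simp)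
        have h3 := E.hα τ h1
        have h4 : (τ : AlgebraicClosure k →+* AlgebraicClosure k).comp j2 = j2 := by
          apply hom_ext_of_prim β hβ
          · intro c
            rw [RingHom.comp_apply, hj2]
            exact h3 _
          · exact h2
        have h5 : (τ : AlgebraicClosure k →+* AlgebraicClosure k).comp κ2 = κ2 := by
          apply ratFunc_hom_ext
          · intro c
            rw [RingHom.comp_apply, hκC]
            exact congrArg (fun f : K2 →+* AlgebraicClosure k => f c) h4
          · rw [RingHom.comp_apply, hκX]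
            exact h3 _
        exact congrArg (fun f : RatFunc K2 →+* AlgebraicClosure k => f c) h5 }
  have hcst : ∀ c : K2, E'.cst c = j2 c := fun c => hκC c
  have hcst' : E'.cst = j2 := RingHom.ext hcst
  refine ⟨E', algebraMap E.K K2, fun c => ?_, ?_, hs, fun w => ?_, fun w => ?_, ?_⟩
  · exact (hcst _).trans (hj2 c)
  · exact hκX
  · rintro ⟨p, hp0, hp⟩
    rw [hcst'] at hp
    let : Algebra K2 (AlgebraicClosure k) := j2.toAlgebra
    let : Algebra E.K (AlgebraicClosure k) := E.cst.toAlgebra
    have : IsScalarTower E.K K2 (AlgebraicClosure k) :=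
      IsScalarTower.of_algebraMap_eq (fun c => (hj2 c).symm)
    have h1 : IsAlgebraic K2 w := ⟨p, hp0, hp⟩
    obtain ⟨q, hq0, hq⟩ := h1.restrictScalars E.K
    exact ⟨q, hq0, hq⟩
  · rintro ⟨p, hp0, hp⟩
    refine ⟨p.map (algebraMap E.K K2), ?_, ?_⟩
    · exact (Polynomial.map_ne_zero_iff (algebraMap E.K K2).injective).2 hp0
    · change eval₂ E'.cst w (p.map (algebraMap E.K K2)) = 0
      rw [hcst', eval₂_map, hcomp]
      exact hp
  · intro τ hτ c
    rw [← hκi' c]
    exact hτ _

theorem ext : S_LvlExt := by
  intro k _ _ E g hg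
  have hc : CharZero g.SplittingField :=
    charZero_of_injective_algebraMap (algebraMap E.K g.SplittingField).injective
  exact ext_aux E g g.SplittingField (IsSplittingField.splits _ g)

section init

variable {K : Type} [Field K]

/-- roots of the variable are transcendental over the constants -/
lemma root_inj {Ω : Type} [Field Ω] (φ : RatFunc K →+* Ω) {σ : Ω} {m : ℕ}
    (hσ : σ ^ m = φ RatFunc.X) :
    Function.Injective (Polynomial.eval₂RingHom (φ.comp (algebraMap K (RatFunc K))) σ) := by
  let : Algebra (RatFunc K) Ω := φ.toAlgebra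
  let : Algebra K Ω := (φ.comp (algebraMap K (RatFunc K))).toAlgebra
  have t2 : IsScalarTower K (RatFunc K) Ω := IsScalarTower.of_algebraMap_eq (fun c => rfl)
  have h1 : Transcendental K (RatFunc.X : RatFunc K) := RatFunc.transcendental_X
  have h2 : Transcendental K σ := by
    intro h
    apply h1
    have h3 : IsAlgebraic K (algebraMap (RatFunc K) Ω RatFunc.X) := by
      change IsAlgebraic K (φ RatFunc.X)
      rw [← hσ]
      exact h.pow m
    exact (isAlgebraic_algebraMap_iff (algebraMap (RatFunc K) Ω).injective).1 h3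
  exact transcendental_iff_injective.1 h2

/-- extension of homomorphisms -/
lemma exists_hom (e : AlgebraicClosure K →ₐ[K] Kb K) (S : Kb K) (m : ℕ) (hm : 0 < m)
    (hS : S ^ m = algebraMap (RatFunc K) (Kb K) RatFunc.X) {Ω : Type} [Field Ω] [IsAlgClosed Ω]
    (φ : RatFunc K →+* Ω) (ι₀ : AlgebraicClosure K →+* Ω)
    (h0 : ∀ c : K, ι₀ (algebraMap K _ c) = φ (algebraMap K _ c)) (σ : Ω)
    (hσ : σ ^ m = φ RatFunc.X) :
    ∃ ι : Kb K →+* Ω, (∀ r, ι (algebraMap (RatFunc K) (Kb K) r) = φ r) ∧
      (∀ z, ι (e z) = ι₀ z) ∧ ι S = σ := by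
  have he : ∀ c : K, e (algebraMap K _ c) = algebraMap (RatFunc K) (Kb K) (algebraMap K _ c) := by
    intro c
    rw [e.commutes]
    exact IsScalarTower.algebraMap_apply K (RatFunc K) (Kb K) c
  obtain ⟨β, β_C, β_X⟩ := exists_lift ι₀ σ (by
    apply inj_ext (K := K)
    have h1 : ι₀.comp (algebraMap K (AlgebraicClosure K)) = φ.comp (algebraMap K (RatFunc K)) :=
      RingHom.ext h0
    rw [h1]
    exact root_inj φ hσ)
  obtain ⟨a, a_C, a_X⟩ := exists_lift (e : AlgebraicClosure K →+* Kb K) S (by
    apply inj_ext (K := K)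
    have h1 : (e : AlgebraicClosure K →+* Kb K).comp (algebraMap K (AlgebraicClosure K)) =
        (algebraMap (RatFunc K) (Kb K)).comp (algebraMap K (RatFunc K)) :=
      RingHom.ext he
    rw [h1]
    exact root_inj _ hS)
  obtain ⟨κ, κ1, κ2⟩ := exists_incl (algebraMap K (AlgebraicClosure K)) m hm
  have hακ : a.comp κ = algebraMap (RatFunc K) (Kb K) := by
    apply ratFunc_hom_ext
    · intro c
      rw [RingHom.comp_apply, κ1, a_C]
      exact he c
    · rw [RingHom.comp_apply, κ2, map_pow, a_X, hS]
  have hβκ : β.comp κ = φ := by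
    apply ratFunc_hom_ext
    · intro c
      rw [RingHom.comp_apply, κ1, β_C, h0]
    · rw [RingHom.comp_apply, κ2, map_pow, β_X, hσ]
  let : Algebra (RatFunc (AlgebraicClosure K)) (Kb K) := a.toAlgebra
  let : Algebra (RatFunc (AlgebraicClosure K)) Ω := β.toAlgebra
  let : Algebra (RatFunc K) (RatFunc (AlgebraicClosure K)) := κ.toAlgebra
  have t3 : IsScalarTower (RatFunc K) (RatFunc (AlgebraicClosure K)) (Kb K) :=
    IsScalarTower.of_algebraMap_eq' hακ.symm
  have halg : Algebra.IsAlgebraic (RatFunc (AlgebraicClosure K)) (Kb K) :=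
    Algebra.IsAlgebraic.tower_top (K := RatFunc K) (RatFunc (AlgebraicClosure K))
  let ι : Kb K →ₐ[RatFunc (AlgebraicClosure K)] Ω := IsAlgClosed.lift
  have hι : ∀ r, ι (a r) = β r := fun r => ι.commutes r
  refine ⟨ι, fun r => ?_, fun z => ?_, ?_⟩
  · have h1 : algebraMap (RatFunc K) (Kb K) r = a (κ r) := by
      rw [← hακ]
      rfl
    rw [h1]
    change ι (a (κ r)) = _
    rw [hι, ← hβκ]
    rfl
  · have h1 := hι (algebraMap _ _ z)
    rw [a_C, β_C] at h1
    exact h1
  · have h1 := hι RatFunc.X
    rw [a_X, β_X] at h1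
    exact h1

theorem init_aux [CharZero K] (m : ℕ) (hm : 0 < m) (K1 : Type) [Field K1] [CharZero K1]
    [Algebra K K1] [FiniteDimensional K K1] (hess : Algebra.EssFiniteType ℚ K1) (ω : K1)
    (hω : IsPrimitiveRoot ω m) :
    ∃ (E : Lvl (RatFunc K)) (j : K →+* E.K) (ω : E.K) (γ : Kb K ≃ₐ[RatFunc K] Kb K),
      (∀ c, E.cst (j c) = algebraMap (RatFunc K) (Kb K) (cc c)) ∧
      E.S ^ m = algebraMap (RatFunc K) (Kb K) RatFunc.X ∧ IsPrimitiveRoot ω m ∧ E.IsTw γ ω := by
  classical
  have hchz : CharZero (RatFunc K) :=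
    charZero_of_injective_algebraMap (algebraMap K (RatFunc K)).injective
  obtain ⟨S, hS⟩ := IsAlgClosed.exists_pow_nat_eq (algebraMap (RatFunc K) (Kb K) RatFunc.X) hm
  let e : AlgebraicClosure K →ₐ[K] Kb K := IsAlgClosed.lift
  let e1 : K1 →ₐ[K] Kb K := IsAlgClosed.lift
  have he1 : ∀ c : K, e1 (algebraMap K K1 c) =
      algebraMap (RatFunc K) (Kb K) (algebraMap K (RatFunc K) c) := by
    intro c
    rw [e1.commutes]
    exact IsScalarTower.algebraMap_apply K (RatFunc K) (Kb K) c
  obtain ⟨κ, hκC, hκX⟩ := exists_lift (e1 : K1 →+* Kb K) S (by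
    apply inj_ext (K := K)
    have h1 : (e1 : K1 →+* Kb K).comp (algebraMap K K1) =
        (algebraMap (RatFunc K) (Kb K)).comp (algebraMap K (RatFunc K)) :=
      RingHom.ext he1
    rw [h1]
    exact root_inj _ hS)
  obtain ⟨inc, hiC, hiX⟩ := exists_incl (algebraMap K K1) m hm
  have hκi : κ.comp inc = algebraMap (RatFunc K) (Kb K) := by
    apply ratFunc_hom_ext
    · intro c
      rw [RingHom.comp_apply, hiC, hκC]
      exact he1 c
    · rw [RingHom.comp_apply, hiX, map_pow, hκX, hS]
  obtain ⟨β, hβ⟩ := Field.exists_primitive_element K K1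
  obtain ⟨α, hα⟩ := exists_gen (k := RatFunc K) {S, e1 β} (by simp)
  let E : Lvl (RatFunc K) :=
    { K := K1
      ess := hess
      κ := κ
      m := inc
      hκ := fun c => by
        rw [← hκi]
        rfl
      α := α
      hα := fun τ hτ c => by
        have h1 : τ S = S := hα τ hτ _ (by simp)
        have h2 : τ (e1 β) = e1 β := hα τ hτ _ (by simp)
        have h4 : (τ : Kb K →+* Kb K).comp (e1 : K1 →+* Kb K) = e1 := by
          apply hom_ext_of_prim β hβ
          · intro c
            change τ (e1 _) = e1 _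
            rw [he1]
            exact τ.commutes _
          · exact h2
        have h5 : (τ : Kb K →+* Kb K).comp κ = κ := by
          apply ratFunc_hom_ext
          · intro c
            rw [RingHom.comp_apply, hκC]
            exact congrArg (fun f : K1 →+* Kb K => f c) h4
          · rw [RingHom.comp_apply, hκX]
            exact h1
        exact congrArg (fun f : RatFunc K1 →+* Kb K => f c) h5 }
  have hcst : E.cst = (e1 : K1 →+* Kb K) := RingHom.ext hκC
  have hES : E.S = S := hκX
  obtain ⟨ι, h1, h2, h3⟩ := exists_hom e S m hm hS (algebraMap (RatFunc K) (Kb K))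
    (e : AlgebraicClosure K →+* Kb K) (fun c => by
      change e (algebraMap K _ c) = _
      rw [e.commutes]
      exact IsScalarTower.algebraMap_apply K (RatFunc K) (Kb K) c) (e1 ω * S) (by
      rw [mul_pow, hS, ← map_pow, hω.pow_eq_one, map_one, one_mul])
  let γ : Kb K →ₐ[RatFunc K] Kb K := { ι with commutes' := h1 }
  refine ⟨E, algebraMap K K1, ω,
    AlgEquiv.ofBijective γ (Algebra.IsAlgebraic.algHom_bijective γ), fun c => ?_, ?_, hω, ?_, ?_⟩
  · rw [hcst]
    exact he1 c
  · rw [hES, hS]
  · rintro w ⟨p, hp0, hp⟩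
    rw [hcst] at hp
    let : Algebra K1 (Kb K) := (e1 : K1 →+* Kb K).toAlgebra
    have : IsScalarTower K K1 (Kb K) :=
      IsScalarTower.of_algebraMap_eq (fun c => (e1.commutes c).symm)
    have h4 : IsAlgebraic K1 w := ⟨p, hp0, hp⟩
    have h5 : IsAlgebraic K w := h4.restrictScalars K
    obtain ⟨z, rfl⟩ : ∃ z, e z = w := by
      have hs : ((minpoly K w).map (algebraMap K (AlgebraicClosure K))).Splits :=
        IsAlgClosed.splits _
      have h0 : (minpoly K w).map (algebraMap K (AlgebraicClosure K)) ≠ 0 :=
        (Polynomial.map_ne_zero_iff (algebraMap K (AlgebraicClosure K)).injective).2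
          (minpoly.ne_zero h5.isIntegral)
      refine hs.mem_range_of_isRoot (i := (e : AlgebraicClosure K →+* Kb K)) (x := w) h0 ?_
      rw [Polynomial.IsRoot.def, Polynomial.eval_map, Polynomial.eval₂_map]
      have e1 : (e : AlgebraicClosure K →+* Kb K).comp (algebraMap K (AlgebraicClosure K)) =
          algebraMap K (Kb K) := e.comp_algebraMap
      rw [e1]
      exact minpoly.aeval K w
    exact h2 z
  · rw [hES, hcst]
    exact h3

theorem init : S_LvlInit := by
  intro K _ _ hess m hm
  have hm0 : NeZero m := ⟨by omega⟩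
  have hmK : NeZero (m : K) := NeZero.charZero
  have hc : CharZero (CyclotomicField m K) :=
    charZero_of_injective_algebraMap (algebraMap K (CyclotomicField m K)).injective
  have hf : FiniteDimensional K (CyclotomicField m K) :=
    IsCyclotomicExtension.finiteDimensional {m} K (CyclotomicField m K)
  have hess1 : Algebra.EssFiniteType ℚ (CyclotomicField m K) :=
    Algebra.EssFiniteType.comp ℚ K (CyclotomicField m K)
  exact init_aux m hm (CyclotomicField m K) hess1 _
    (IsCyclotomicExtension.zeta_spec m K (CyclotomicField m K))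

end init

end Pool.Agent.Y791.BF.Level
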