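import Pool.Agent.Y791.BF.SupL
import Pool.Agent.Y791.BF.Final

/-!
# Birational sections of isotrivial curves
-/

set_option autoImplicit false
set_option linter.unusedSectionVars false

open Polynomial IsDedekindDomain NumberField

namespace Pool.Agent.Y791.BF

open Pool.Agent.TH954 Pool.Agent.Y791.BS

section zero

variable {K : Type} [Field K] [CharZero K]
variable {I : Type*} {L : I → Type} [∀ i, Field (L i)] [∀ i, Algebra K (L i)] [∀ i, CharZero (L i)]
variable {F Ω B : Type} [Field F] [Field Ω] [Field B]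
  [Algebra K F] [Algebra F Ω] [Algebra K Ω] [Algebra K B] [IsScalarTower K F Ω]
  [IsAlgClosure F Ω] [IsAlgClosure K B]

/-- If a nonzero element of `Ω` vanishes at all the local places of a section, the section is
geometric. -/
theorem geometric_of_zero' (hobs : Obs K L) {N : ℕ} (hN0 : 0 < N) {r : K} (hr0 : r ≠ 0)
    (hroot : ∀ c : K, c ^ N ≠ r)
    (hF : ∃ t : F, Transcendental K t ∧
      Algebra.IsAlgebraic (IntermediateField.adjoin K {t}) F)
    (s : GalSection K F Ω B)
    (pl : ∀ v : I, Plc K Ω (AlgebraicClosure (L v)))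
    (hpl : ∀ v, GeoPlc (toSAct s) (pl v))
    (t : Ω) (ht0 : t ≠ 0) (htv : ∀ v, (pl v).val t 0) :
    ∃! O : ValuationSubring F, s.ArisesFrom O := by
  have hΩ1 : IsAlgClosed Ω := IsAlgClosure.isAlgClosed F
  have hΩ2 : Algebra.IsAlgebraic F Ω := IsAlgClosure.isAlgebraic
  have hcF : CharZero F := charZero_of_injective_algebraMap (algebraMap K F).injective
  have hcΩ : CharZero Ω :=
    charZero_of_injective_algebraMap (algebraMap F Ω).injective
  set A := toSAct s with hA
  have hfinV : ∀ x, FinVal A pl x := by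
    refine finVal_of_alg A pl (t := t) ht0 htv (fun x hx => ?_)
    exact (alg_adjoin_of_dim hF x hx).isAlgebraic _
  obtain ⟨z, hz, -⟩ := id hF
  obtain ⟨R, hR⟩ := hfinV (algebraMap F Ω z)
  set q : K[X] := ∏ β ∈ R, minpoly K β with hq
  have hq0 : q ≠ 0 := Finset.prod_ne_zero_iff.2
    (fun β _ => minpoly.ne_zero (Algebra.IsIntegral.isIntegral β))
  have hval : ∀ v, algebraMap F Ω z ∈ (pl v).W →
      (pl v).val (aeval (algebraMap F Ω z) q) 0 := by
    intro v hv
    obtain ⟨β, hβ, hc⟩ := hR v hv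
    have h1 : aeval β q = 0 := by
      rw [hq, map_prod]
      exact Finset.prod_eq_zero hβ (minpoly.aeval K β)
    have h2 : (pl v).val (aeval (algebraMap F Ω z) q) (aeval ((pl v).iot A.j β) q) := by
      rw [aeval_eq_sum_range, aeval_eq_sum_range]
      refine Plc.val_sum _ (fun i _ => ?_)
      rw [Algebra.smul_def, Algebra.smul_def]
      exact (Plc.val_alg _).mul (hc.pow i)
    have h3 : aeval ((pl v).iot A.j β) q = 0 := by
      rw [aeval_algHom_apply, h1, map_zero]
    rwa [h3] at h2
  obtain ⟨e, he⟩ : ∃ e : K, q.eval e ≠ 0 := by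
    by_contra hcon
    push Not at hcon
    exact hq0 (Polynomial.funext (fun r => by rw [hcon r, eval_zero]))
  have hze : z - algebraMap K F e ≠ 0 := by
    intro h0
    apply hz
    rw [sub_eq_zero.1 h0]
    exact isAlgebraic_algebraMap e
  have hqz0 : aeval z q ≠ 0 := fun h0 => hz ⟨q, hq0, h0⟩
  set t' : F := aeval z q / (z - algebraMap K F e) ^ (q.natDegree + 1) with ht'
  have ht0' : t' ≠ 0 := div_ne_zero hqz0 (pow_ne_zero _ hze)
  have htΩ : algebraMap F Ω t' = aeval (algebraMap F Ω z) q /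
      (algebraMap F Ω z - algebraMap K Ω e) ^ (q.natDegree + 1) := by
    rw [ht', map_div₀, map_pow, map_sub, aeval_algebraMap_apply,
      ← IsScalarTower.algebraMap_apply K F Ω]
  have htv' : ∀ v, (pl v).val (algebraMap F Ω t') 0 := by
    intro v
    rw [htΩ]
    exact val_quot q e he (hval v)
  obtain ⟨O, hO1, -, hO3⟩ := geometric_of_zero hobs hN0 hr0 hroot
    hF s pl hpl t' ht0' htv'
  exact ⟨O, hO1, hO3⟩

end zero

/-- an automorphism fixes the field generated by fixed elements -/
lemma fix_adjoin {F L : Type} [Field F] [Field L] [Algebra F L] (σ : L ≃ₐ[F] L) {T : Set L}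
    (h : ∀ z ∈ T, σ z = z) {x : L} (hx : x ∈ IntermediateField.adjoin F T) : σ x = x := by
  have h6 : IntermediateField.adjoin F T ≤
      IntermediateField.fixedField (Subgroup.zpowers σ) := by
    rw [IntermediateField.adjoin_le_iff]
    intro z hz
    rw [SetLike.mem_coe, IntermediateField.mem_fixedField_iff]
    intro g hg
    have h7 : Subgroup.zpowers σ ≤ MulAction.stabilizer _ z := by
      rw [Subgroup.zpowers_le]
      exact h z hz
    exact h7 hg
  exact (IntermediateField.mem_fixedField_iff _ _).1 (h6 hx) σ (Subgroup.mem_zpowers σ)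

/-- a finite extension which is a field of rational functions gives a level -/
theorem exists_lvl {k Ω : Type} [Field k] [CharZero k] [Field Ω] [Algebra k Ω]
    (jj : AlgebraicClosure k →ₐ[k] Ω) (k' : IntermediateField k Ω) [FiniteDimensional k k']
    (K : Type) [Field K] [CharZero K] [Algebra K Ω] (S : Ω) (hS : Transcendental K S)
    (hk' : k'.toSubfield = Subfield.closure (Set.range (algebraMap K Ω) ∪ {S})) :
    ∃ (κ : RatFunc K →+* AlgebraicClosure k) (m : k →+* RatFunc K) (α : AlgebraicClosure k),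
      (∀ c, κ (m c) = algebraMap k (AlgebraicClosure k) c) ∧
      (∀ τ : AlgebraicClosure k ≃ₐ[k] AlgebraicClosure k, τ α = α → ∀ c, τ (κ c) = κ c) ∧
      (∀ c : K, jj (κ (algebraMap K (RatFunc K) c)) = algebraMap K Ω c) ∧
      ∀ z ∈ k', ∃ r, jj (κ r) = z := by
  set κΩ : RatFunc K →ₐ[K] Ω := embF hS with hκΩ
  have hX : κΩ RatFunc.X = S := by
    rw [hκΩ, ← RatFunc.algebraMap_X, embF_algebraMap, aeval_X]
  have hmem : ∀ z : Ω, z ∈ k' ↔ z ∈ Subfield.closure (Set.range (algebraMap K Ω) ∪ {S}) := by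
    intro z
    rw [← hk']
    rfl
  have hrange : ∀ z ∈ k', ∃ r, κΩ r = z := by
    intro z hz
    rw [hmem] at hz
    have h1 : Subfield.closure (Set.range (algebraMap K Ω) ∪ {S}) ≤
        (κΩ : RatFunc K →+* Ω).fieldRange := by
      rw [Subfield.closure_le]
      rintro w (⟨c, rfl⟩ | hw)
      · exact ⟨algebraMap K (RatFunc K) c, κΩ.commutes c⟩
      · rw [Set.mem_singleton_iff] at hw
        rw [hw]
        exact ⟨RatFunc.X, hX⟩
    exact h1 hz
  have hKk : ∀ c : K, algebraMap K Ω c ∈ k' := fun c => by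
    rw [hmem]
    exact Subfield.subset_closure (Or.inl ⟨c, rfl⟩)
  have hSk : S ∈ k' := by
    rw [hmem]
    exact Subfield.subset_closure (Or.inr rfl)
  have hpoly : ∀ p : K[X], κΩ (algebraMap K[X] (RatFunc K) p) ∈ k' := by
    intro p
    rw [hκΩ, embF_algebraMap, aeval_eq_sum_range]
    refine sum_mem (fun i _ => ?_)
    rw [Algebra.smul_def]
    exact mul_mem (hKk _) (pow_mem hSk i)
  have hin : ∀ r, κΩ r ∈ k' := by
    intro r
    rw [← RatFunc.num_div_denom r, map_div₀]
    exact div_mem (hpoly _) (hpoly _)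
  have halg : ∀ r, κΩ r ∈ jj.range := by
    intro r
    have h1 : IsAlgebraic k (κΩ r) := by
      have h2 : IsAlgebraic k (⟨κΩ r, hin r⟩ : k') := Algebra.IsAlgebraic.isAlgebraic _
      exact h2.algHom k'.val
    obtain ⟨z, hz⟩ := alg_range jj h1
    exact ⟨z, hz⟩
  let κ : RatFunc K →+* AlgebraicClosure k :=
    ((AlgEquiv.ofInjective jj jj.injective).symm : jj.range →+* AlgebraicClosure k).comp
      ((κΩ : RatFunc K →+* Ω).codRestrict jj.range halg)
  have hκ : ∀ r, jj (κ r) = κΩ r := by
    intro r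
    have h2 := AlgEquiv.apply_symm_apply (AlgEquiv.ofInjective jj jj.injective)
      ((κΩ : RatFunc K →+* Ω).codRestrict jj.range halg r)
    exact congrArg Subtype.val h2
  have hkr : ∀ c : k, algebraMap k Ω c ∈ κΩ.range := by
    intro c
    obtain ⟨r, hr⟩ := hrange _ (k'.algebraMap_mem c)
    exact ⟨r, hr⟩
  let m : k →+* RatFunc K :=
    ((AlgEquiv.ofInjective κΩ κΩ.injective).symm : κΩ.range →+* RatFunc K).comp
      ((algebraMap k Ω).codRestrict κΩ.range hkr)
  have hm : ∀ c, κΩ (m c) = algebraMap k Ω c := by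
    intro c
    have h2 := AlgEquiv.apply_symm_apply (AlgEquiv.ofInjective κΩ κΩ.injective)
      ((algebraMap k Ω).codRestrict κΩ.range hkr c)
    exact congrArg Subtype.val h2
  obtain ⟨α', hα'⟩ := Field.exists_primitive_element k k'
  obtain ⟨α, hα⟩ : ∃ α, jj α = (α' : Ω) := by
    apply alg_range jj
    have h2 : IsAlgebraic k α' := Algebra.IsAlgebraic.isAlgebraic _
    exact h2.algHom k'.val
  refine ⟨κ, m, α, fun c => ?_, fun τ hτ c => ?_, fun c => ?_, fun z hz => ?_⟩
  · apply jj.injective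
    change jj (κ (m c)) = jj (algebraMap k (AlgebraicClosure k) c)
    rw [hκ, hm, jj.commutes]
  · have h1 : κ c ∈ IntermediateField.adjoin k {α} := by
      have h3 : (⟨κΩ c, hin c⟩ : k') ∈ IntermediateField.adjoin k {α'} := by
        rw [hα']
        exact IntermediateField.mem_top
      have h4 : κΩ c ∈ IntermediateField.adjoin k {(α' : Ω)} := by
        have h5 := IntermediateField.adjoin_map k {α'} k'.val
        rw [Set.image_singleton] at h5
        change κΩ c ∈ IntermediateField.adjoin k {k'.val α'}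
        rw [← h5]
        exact ⟨_, h3, rfl⟩
      have h6 := IntermediateField.adjoin_map k {α} jj
      rw [Set.image_singleton, hα] at h6
      rw [← h6] at h4
      obtain ⟨w, hw, hwc⟩ := h4
      have h7 : w = κ c := by
        apply jj.injective
        change jj w = jj (κ c)
        rw [hκ]
        exact hwc
      rwa [← h7]
    refine fix_adjoin τ (T := {α}) (fun z hz => ?_) h1
    rw [Set.mem_singleton_iff] at hz
    rw [hz, hτ]
  · rw [hκ]
    exact κΩ.commutes c
  · obtain ⟨r, hr⟩ := hrange z hz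
    exact ⟨r, by rw [hκ, hr]⟩

/-- sections of isotrivial curves -/
theorem iso_main (hEmb : S_EmbFG) (hObs : S_ObsFG) (hD : S_Dgen) (hT : S_TypesL)
    (hExt : S_LvlExt) {k : Type} [Field k] [CharZero k] (hk : Algebra.EssFiniteType ℚ k)
    {F Ω B : Type} [Field F] [Field Ω] [Field B] [Algebra k F] [Algebra F Ω]
    [Algebra k Ω] [Algebra k B] [IsScalarTower k F Ω]
    [IsAlgClosure F Ω] [IsAlgClosure k B]
    (hF : ∃ t : F, Transcendental k t ∧
      Algebra.IsAlgebraic (IntermediateField.adjoin k {t}) F)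
    (k' : IntermediateField k Ω) [FiniteDimensional k k']
    (K : Type) [Field K] [CharZero K] (hK : Algebra.EssFiniteType ℚ K) [Algebra K Ω]
    (S : Ω) (hS : Transcendental K S)
    (hk' : k'.toSubfield = Subfield.closure (Set.range (algebraMap K Ω) ∪ {S}))
    (l : ℕ) (hl : l.Prime) (f : K[X]) (hf : f.Separable)
    (hdeg : 2 ≤ f.natDegree) (hld : ¬ (l = 2 ∧ f.natDegree = 2))
    (x y : Ω) (hx : x ∈ IntermediateField.adjoin F (k' : Set Ω))
    (hy : y ∈ IntermediateField.adjoin F (k' : Set Ω)) (hxt : Transcendental k x)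
    (hxy : y ^ l = aeval x f)
    (g : Ω ≃ₐ[F] Ω) (hg : ∀ z : Ω, IsAlgebraic K z → g z = z) (hne : ¬ (g x = x ∧ g y = y))
    (s : GalSection k F Ω B)
    (hloc : ∀ i : PlF k, s.GeometricOver i.Lv (AlgebraicClosure i.Lv)) :
    ∃! O : ValuationSubring F, s.ArisesFrom O := by
  have hΩ1 : IsAlgClosed Ω := IsAlgClosure.isAlgClosed F
  have hΩ2 : Algebra.IsAlgebraic F Ω := IsAlgClosure.isAlgebraic
  have hcF : CharZero F := charZero_of_injective_algebraMap (algebraMap k F).injective
  have hcΩ : CharZero Ω := charZero_of_injective_algebraMap (algebraMap F Ω).injective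
  set A := toSAct s with hA
  choose pl hpl using fun i : PlF k => toSAct_geo s (hloc i)
  obtain ⟨κ, m, α, hκ, hα, hκc, hκk⟩ := exists_lvl A.j k' K S hS hk'
  let E : Lvl k :=
    { K := K
      ess := hK
      κ := κ
      m := m
      hκ := hκ
      α := α
      hα := hα }
  have hcst : ∀ c : K, A.j (E.cst c) = algebraMap K Ω c := hκc
  -- the automorphism of `Ω` given by an automorphism of the algebraic closure
  let σ : (AlgebraicClosure k ≃ₐ[k] AlgebraicClosure k) → (Ω ≃ₐ[F] Ω) := fun τ =>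
    s.s ((eqv k B).autCongr τ)
  have hσ : ∀ τ z, A.s τ z = σ τ z := fun τ z => rfl
  have hfixed : ∀ z ∈ IntermediateField.adjoin F (k' : Set Ω), E.Fixed A z := by
    intro z hz τ hτ
    rw [hσ]
    refine fix_adjoin (σ τ) (fun w hw => ?_) hz
    obtain ⟨r, rfl⟩ := hκk w hw
    rw [← hσ, A.hj]
    congr 1
    exact hτ r
  -- the automorphism of the algebraic closure given by `g`
  obtain ⟨γ, hγ⟩ := exists_aut A.j (((g : Ω →ₐ[F] Ω).restrictScalars k).comp A.j)
  have hγ' : ∀ z, A.j (γ z) = g (A.j z) := fun z => hγ z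
  have hγC : ∀ w, E.IsCst w → γ w = w := by
    rintro w ⟨p, hp0, hp⟩
    apply A.j.injective
    change A.j (γ w) = A.j w
    rw [hγ']
    apply hg
    refine ⟨p, hp0, ?_⟩
    have h1 := Polynomial.hom_eval₂ p E.cst (A.j : AlgebraicClosure k →+* Ω) w
    rw [hp, map_zero] at h1
    have h2 : (A.j : AlgebraicClosure k →+* Ω).comp E.cst = algebraMap K Ω := by
      apply RingHom.ext
      exact hcst
    rw [h2] at h1
    exact h1.symm
  have hgs : ∀ z ∈ IntermediateField.adjoin F (k' : Set Ω), A.s γ z = g z := by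
    intro z hz
    have h1 : (g⁻¹ * σ γ) z = z := by
      refine fix_adjoin (g⁻¹ * σ γ) (fun w hw => ?_) hz
      obtain ⟨r, rfl⟩ := hκk w hw
      change g.symm (A.s γ (A.j (κ r))) = _
      rw [A.hj, hγ', AlgEquiv.symm_apply_apply]
    have h2 : g.symm (A.s γ z) = z := h1
    rw [AlgEquiv.symm_apply_eq] at h2
    exact h2
  have hxc : ∀ w : AlgebraicClosure k, x ≠ A.j w := by
    intro w hw
    apply hxt
    rw [hw]
    exact (Algebra.IsAlgebraic.isAlgebraic (R := k) w).algHom A.j
  have hxy' : y ^ l = eval₂ ((A.j : AlgebraicClosure k →+* Ω).comp E.cst) x f := by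
    have h2 : (A.j : AlgebraicClosure k →+* Ω).comp E.cst = algebraMap K Ω := by
      apply RingHom.ext
      exact hcst
    rw [hxy, h2]
    rfl
  obtain ⟨t, ht0, htv⟩ := supL hD hT hExt k Ω A pl hpl E γ hγC l hl f hf hdeg hld x y
    (hfixed x hx) (hfixed y hy) hxc hxy' (by rw [hgs x hx, hgs y hy]; exact hne)
  obtain ⟨N, r, hN0, hr0, hroot⟩ := exists_nonpow hEmb k hk
  have hcL : ∀ i : PlF k, CharZero i.Lv := fun i => charZero_compl i.v
  exact geometric_of_zero' (hObs k hk) hN0 hr0 hroot hF s pl hpl t ht0 htv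

end Pool.Agent.Y791.BF
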