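import Pool.Agent.Y791.BF.Div

/-!
# Statements of independent pieces (not results), second part
-/

set_option autoImplicit false

open Polynomial IsDedekindDomain NumberField

namespace Pool.Agent.Y791.BF

open Pool.Agent.TH954 Pool.Agent.Y791.BS

/-- A field `K(S)` of rational functions, `K` finitely generated, inside the algebraic closure of
`k` and containing `k`. -/
structure Lvl (k : Type) [Field k] where
  K : Type
  [fld : Field K]
  [chz : CharZero K]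
  ess : Algebra.EssFiniteType ℚ K
  κ : RatFunc K →+* AlgebraicClosure k
  m : k →+* RatFunc K
  hκ : ∀ c, κ (m c) = algebraMap k (AlgebraicClosure k) c
  α : AlgebraicClosure k
  hα : ∀ τ : AlgebraicClosure k ≃ₐ[k] AlgebraicClosure k, τ α = α → ∀ c, τ (κ c) = κ c

attribute [instance] Lvl.fld Lvl.chz

variable {k : Type} [Field k]

/-- the constants -/
noncomputable def Lvl.cst (E : Lvl k) : E.K →+* AlgebraicClosure k :=
  E.κ.comp (algebraMap E.K (RatFunc E.K))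

/-- the variable -/
noncomputable def Lvl.S (E : Lvl k) : AlgebraicClosure k := E.κ RatFunc.X

/-- `w` is algebraic over the constants -/
def Lvl.IsCst (E : Lvl k) (w : AlgebraicClosure k) : Prop :=
  ∃ p : E.K[X], p ≠ 0 ∧ eval₂ E.cst w p = 0

/-- an automorphism which fixes the algebraic constants and multiplies the variable by `ω` -/
def Lvl.IsTw (E : Lvl k) (γ : AlgebraicClosure k ≃ₐ[k] AlgebraicClosure k) (ω : E.K) : Prop :=
  (∀ w, E.IsCst w → γ w = w) ∧ γ E.S = E.cst ω * E.S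

/-- an element is fixed by the automorphisms over the level -/
def Lvl.Fixed (E : Lvl k) {M : Type} [Field M] [Algebra k M] (A : SAct k M) (x : M) : Prop :=
  ∀ τ : AlgebraicClosure k ≃ₐ[k] AlgebraicClosure k, (∀ c, τ (E.κ c) = E.κ c) → A.s τ x = x

/-- extension of the constants such that a given polynomial splits -/
def S_LvlExt : Prop :=
  ∀ (k : Type) [Field k] [CharZero k] (E : Lvl k) (g : E.K[X]), g ≠ 0 →
    ∃ (E' : Lvl k) (j : E.K →+* E'.K), (∀ c, E'.cst (j c) = E.cst c) ∧ E'.S = E.S ∧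
      (g.map j).Splits ∧ (∀ w, E'.IsCst w → E.IsCst w) ∧ (∀ w, E.IsCst w → E'.IsCst w) ∧
      ∀ τ : AlgebraicClosure k ≃ₐ[k] AlgebraicClosure k,
        (∀ c, τ (E'.κ c) = E'.κ c) → ∀ c, τ (E.κ c) = E.κ c

/-- the field generated by an `m`-th root of the variable -/
def S_LvlInit : Prop :=
  ∀ (K : Type) [Field K] [CharZero K], Algebra.EssFiniteType ℚ K → ∀ m : ℕ, 1 ≤ m →
    ∃ (E : Lvl (RatFunc K)) (j : K →+* E.K) (ω : E.K) (γ : Kb K ≃ₐ[RatFunc K] Kb K),
      (∀ c, E.cst (j c) = algebraMap (RatFunc K) (Kb K) (cc c)) ∧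
      E.S ^ m = algebraMap (RatFunc K) (Kb K) RatFunc.X ∧ IsPrimitiveRoot ω m ∧ E.IsTw γ ω

/-- Kummer classes of the differences `x - θ`, for the action over `K(S)` -/
def S_Types : Prop :=
  ∀ (K : Type) [Field K] [CharZero K], Algebra.EssFiniteType ℚ K →
  ∀ (M : Type) [Field M] [CharZero M] [IsAlgClosed M] [Algebra (RatFunc K) M]
    (A : SAct (RatFunc K) M)
    (pl : ∀ i : PlF (RatFunc K), Plc (RatFunc K) M (AlgebraicClosure i.Lv)),
    (∀ i, GeoPlc A (pl i)) →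
  ∀ (l : ℕ), l.Prime → ∀ (R : Finset K) (c : K), c ≠ 0 → ¬ l ∣ R.card →
  ∀ (x y : M), (∀ τ, A.s τ x = x) → (∀ τ, A.s τ y = y) →
    (∀ θ ∈ R, x ≠ algebraMap (RatFunc K) M (cc θ)) →
    y ^ l = algebraMap (RatFunc K) M (cc c) * ∏ θ ∈ R, (x - algebraMap (RatFunc K) M (cc θ)) →
  ∀ θ ∈ R, ∃ (d : K) (g : M), d ≠ 0 ∧ (∀ τ, A.s τ g = g) ∧
    x - algebraMap (RatFunc K) M (cc θ) = algebraMap (RatFunc K) M (cc d) * g ^ l

/-- the same at a level -/
def S_TypesL : Prop :=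
  ∀ (k : Type) [Field k] [CharZero k] (M : Type) [Field M] [CharZero M] [IsAlgClosed M]
    [Algebra k M] (A : SAct k M)
    (pl : ∀ i : PlF k, Plc k M (AlgebraicClosure i.Lv)), (∀ i, GeoPlc A (pl i)) →
  ∀ (E : Lvl k) (l : ℕ), l.Prime → ∀ (R : Finset E.K) (c : E.K), c ≠ 0 → ¬ l ∣ R.card →
  ∀ (x y : M), E.Fixed A x → E.Fixed A y → (∀ θ ∈ R, x ≠ A.j (E.cst θ)) →
    y ^ l = A.j (E.cst c) * ∏ θ ∈ R, (x - A.j (E.cst θ)) →
  ∀ θ ∈ R, ∃ (d : E.K) (g : M), d ≠ 0 ∧ E.Fixed A g ∧ x - A.j (E.cst θ) = A.j (E.cst d) * g ^ l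

/-- points of hyperelliptic curves over a level have the same values as their conjugates -/
def S_Dthm : Prop :=
  ∀ (k : Type) [Field k] [CharZero k] (M : Type) [Field M] [CharZero M] [IsAlgClosed M]
    [Algebra k M] (A : SAct k M)
    (pl : ∀ i : PlF k, Plc k M (AlgebraicClosure i.Lv)), (∀ i, GeoPlc A (pl i)) →
  ∀ (E : Lvl k) (γ : AlgebraicClosure k ≃ₐ[k] AlgebraicClosure k) (ω : E.K), E.IsTw γ ω →
  ∀ (f : E.K[X]), f.Separable → 3 ≤ f.natDegree →
  ∀ (x y : M), E.Fixed A x → E.Fixed A y → y ≠ 0 →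
    y ^ 2 = eval₂ ((A.j : AlgebraicClosure k →+* M).comp E.cst) x f →
  ∀ i : PlF k,
    (x ∈ (pl i).W → ∃ c, (pl i).val x c ∧ (pl i).val (A.s γ x) c) ∧
    (x ∉ (pl i).W → A.s γ x ∉ (pl i).W) ∧
    (A.s γ x = x → A.s γ y = -y → x ∈ (pl i).W → (pl i).val y 0)

/-- superelliptic curves `T y ^ m = f x` -/
def S_Super : Prop :=
  ∀ (K : Type) [Field K] [CharZero K], Algebra.EssFiniteType ℚ K →
  ∀ (M : Type) [Field M] [CharZero M] [IsAlgClosed M] [Algebra (RatFunc K) M]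
    (A : SAct (RatFunc K) M)
    (pl : ∀ i : PlF (RatFunc K), Plc (RatFunc K) M (AlgebraicClosure i.Lv)),
    (∀ i, GeoPlc A (pl i)) →
  ∀ (f : K[X]), f.Separable → 2 ≤ f.natDegree → ∀ m : ℕ, 2 ≤ m →
    ¬ (m = 2 ∧ f.natDegree = 2) →
  ∀ (x y : M), (∀ τ, A.s τ x = x) → (∀ τ, A.s τ y = y) → Transcendental (RatFunc K) x →
    algebraMap (RatFunc K) M RatFunc.X * y ^ m = aeval x (f.map (algebraMap K (RatFunc K))) →
  ∀ i : PlF (RatFunc K), x ∈ (pl i).W →
    (pl i).val (aeval x (f.map (algebraMap K (RatFunc K)))) 0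

end Pool.Agent.Y791.BF
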