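import Pool.Agent.Y791.BF.Base
import Pool.Agent.Y791.BF.Tasks2

/-!
# Kummer classes at a level
-/

set_option autoImplicit false
set_option linter.unusedSectionVars false

open Polynomial IsDedekindDomain NumberField

namespace Pool.Agent.Y791.BF

open Pool.Agent.TH954 Pool.Agent.Y791.BS

lemma fixed_iff {k : Type} [Field k] {M : Type} [Field M] [Algebra k M] (A : SAct k M) (E : Lvl k)
    [Algebra (RatFunc E.K) M]
    (A1 : SAct (RatFunc E.K) M) (g : AlgebraicClosure (RatFunc E.K) ≃+* AlgebraicClosure k)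
    (hg : ∀ c, g (algebraMap (RatFunc E.K) (AlgebraicClosure (RatFunc E.K)) c) = E.κ c)
    (h1 : ∀ τ1, ∃ τ0 : AlgebraicClosure k ≃ₐ[k] AlgebraicClosure k, (∀ z, g (τ1 z) = τ0 (g z)) ∧
        ∀ x, A1.s τ1 x = A.s τ0 x)
    (h2 : ∀ τ0 : AlgebraicClosure k ≃ₐ[k] AlgebraicClosure k, (∀ c, τ0 (E.κ c) = E.κ c) →
        ∃ τ1 : AlgebraicClosure (RatFunc E.K) ≃ₐ[RatFunc E.K] AlgebraicClosure (RatFunc E.K),
          (∀ z, g (τ1 z) = τ0 (g z)) ∧ ∀ x, A1.s τ1 x = A.s τ0 x) (x : M) :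
    E.Fixed A x ↔ ∀ τ1, A1.s τ1 x = x := by
  constructor
  · intro h τ1
    obtain ⟨τ0, e1, e2⟩ := h1 τ1
    rw [e2]
    apply h
    intro c
    rw [← hg, ← e1, τ1.commutes]
  · intro h τ0 hτ0
    obtain ⟨τ1, e1, e2⟩ := h2 τ0 hτ0
    rw [← e2]
    exact h τ1

theorem typesL (hT : S_Types) : S_TypesL := by
  intro k _ _ M _ _ _ _ A pl hpl E l hl R c hc hR x y hx hy hθ hxy
  let inst : Algebra (RatFunc E.K) M := ((A.j : AlgebraicClosure k →+* M).comp E.κ).toAlgebra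
  have hM : ∀ c : RatFunc E.K, algebraMap (RatFunc E.K) M c = A.j (E.κ c) := fun c => rfl
  obtain ⟨A1, g, hg, hj, h1, h2⟩ := exists_base A E.m E.κ E.hκ hM
  choose pl1 hpl1 using exists_places A pl hpl E.m E.κ E.hκ hM A1 g hj h1
  have hf := fixed_iff A E A1 g hg h1 h2
  have key := hT E.K E.ess M A1 pl1 hpl1 l hl R c hc hR x y ((hf x).1 hx) ((hf y).1 hy) hθ hxy
  intro θ hθR
  obtain ⟨d, w, hd, hw, e⟩ := key θ hθR
  exact ⟨d, w, hd, (hf w).2 hw, e⟩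

end Pool.Agent.Y791.BF
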