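import Pool.Agent.Y791.BF.Base
import Pool.Agent.Y791.BF.TypesL

/-!
# Conjugates of points of elliptic curves over `K(S)`
-/

set_option autoImplicit false
set_option linter.unusedSectionVars false

open Polynomial WeierstrassCurve IsDedekindDomain NumberField

namespace Pool.Agent.Y791.BF

open Pool.Agent.TH942 Pool.Agent.TH954 Pool.Agent.Y791.BS

section ptmap

variable {M : Type} [Field M] {k : Type} [Field k] [Algebra k M] {a b : k}

open scoped Classical in
/-- the homomorphism on points given by a homomorphism of the field which fixes the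
coefficients -/
lemma exists_ptmap (ψ : M →+* M) (ha : ψ (algebraMap k M a) = algebraMap k M a)
    (hb : ψ (algebraMap k M b) = algebraMap k M b) :
    ∃ Ψ : ((sw a b).baseChange M).toAffine.Point →+ ((sw a b).baseChange M).toAffine.Point,
      ∀ x y h, ∃ h', Ψ (.some x y h) = .some (ψ x) (ψ y) h' := by
  let F0 : Subfield M := RingHom.eqLocusField ψ (RingHom.id M)
  let a0 : F0 := ⟨algebraMap k M a, ha⟩
  let b0 : F0 := ⟨algebraMap k M b, hb⟩
  let ψ0 : M →ₐ[F0] M := { ψ with commutes' := fun c => c.2 }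
  have e : (sw a0 b0).baseChange M = (sw a b).baseChange M := by
    rw [base_eq, base_eq]
    rfl
  have key : ∀ W : WeierstrassCurve M, (sw a0 b0).baseChange M = W →
      ∃ Ψ : W.toAffine.Point →+ W.toAffine.Point,
        ∀ x y h, ∃ h', Ψ (.some x y h) = .some (ψ x) (ψ y) h' := by
    rintro _ rfl
    exact ⟨pm (sw a0 b0) ψ0, fun x y h => pm_some (E := sw a0 b0) ψ0 h⟩
  exact key _ e

end ptmap

section div

variable {K : Type} [Field K] [CharZero K] [Algebra.EssFiniteType ℚ K] {M : Type} [Field M]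
  [CharZero M] [IsAlgClosed M] [Algebra (RatFunc K) M] (A : SAct (RatFunc K) M) (fr : Frame K)
  {a b : K}

/-- `ψ` fixes the constants and is compatible with the automorphisms which fix `S` and `V` -/
structure IsPsi (V : Kb K) (ψ : M →+* M) : Prop where
  cst : ∀ z, ψ (A.j (fr.e z)) = A.j (fr.e z)
  conj : ∀ τ : Kb K ≃ₐ[RatFunc K] Kb K, τ fr.S = fr.S → τ V = V →
    ∃ τ' : Kb K ≃ₐ[RatFunc K] Kb K, τ' fr.S = fr.S ∧ (∀ z, τ' (fr.e z) = τ (fr.e z)) ∧
      ∀ x, A.s τ (ψ x) = ψ (A.s τ' x)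

open scoped Classical in
/-- the difference of a point and its conjugate is divisible by points over the field of `S` -/
theorem exists_divPsi (hEmb : S_EmbFG) (hUnr : S_Unr) (hD : 4 * a ^ 3 + 27 * b ^ 2 ≠ 0)
    (pl : ∀ i : PlF (RatFunc K), Plc (RatFunc K) M (AlgebraicClosure i.Lv))
    (hpl : ∀ i, GeoPlc A (pl i)) {V : Kb K} {ψ : M →+* M} (hψ : IsPsi A fr V ψ)
    (Ψ : PM M a b →+ PM M a b)
    (hΨ : ∀ x y h, ∃ h', Ψ (.some x y h) = .some (ψ x) (ψ y) h') {P : PM M a b}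
    (hP : ∀ τ : Kb K ≃ₐ[RatFunc K] Kb K, τ fr.S = fr.S → A.pt (cc a) (cc b) τ P = P)
    (n : ℕ) (hn : 1 ≤ n) :
    ∃ R : PM M a b, n • R = P - Ψ P ∧
      ∀ τ : Kb K ≃ₐ[RatFunc K] Kb K, τ fr.S = fr.S → τ V = V →
        A.pt (cc a) (cc b) τ R = R := by
  have hch : CharZero (RatFunc K) :=
    charZero_of_injective_algebraMap (algebraMap K (RatFunc K)).injective
  obtain ⟨Q, hQ⟩ := exists_nsmul_base (cc_disc hD) M hn P
  have hall := all_divF A fr hEmb hUnr hD pl hpl hP n hn Q hQ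
  obtain ⟨Z, hZ⟩ := exists_tor_set A fr (M := M) hD hn
  -- `ψ` fixes the torsion points
  have hΨt : ∀ t : PM M a b, n • t = 0 → Ψ t = t := by
    intro t ht
    rcases t with _ | ⟨x, y, h⟩
    · exact map_zero _
    · obtain ⟨z, hz, w, hw, rfl, rfl⟩ := hZ x y h ht
      obtain ⟨h', e⟩ := hΨ _ _ h
      rw [e, Affine.Point.some.injEq]
      exact ⟨hψ.cst z, hψ.cst w⟩
  refine ⟨Q - Ψ Q, ?_, fun τ hτ hτV => ?_⟩
  · rw [smul_sub, hQ, ← map_nsmul, hQ]
  · set t : PM M a b := A.pt (cc a) (cc b) τ Q - Q with ht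
    have ht0 : n • t = 0 := by
      rw [ht, smul_sub, ← map_nsmul, hQ, hP τ hτ, sub_self]
    have e1 : A.pt (cc a) (cc b) τ Q = Q + t := (add_sub_cancel Q _).symm
    obtain ⟨τ', h1, h2, h3⟩ := hψ.conj τ hτ hτV
    have hH : τ⁻¹ * τ' ∈ fr.HZ Set.univ := by
      refine ⟨fun z _ => ?_, ?_⟩
      · change τ.symm (τ' (fr.e z)) = fr.e z
        rw [h2, τ.symm_apply_apply]
      · change τ.symm (τ' fr.S) = fr.S
        rw [h1, AlgEquiv.symm_apply_eq, hτ]
    have e2 : A.pt (cc a) (cc b) τ' Q = Q + t := by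
      have e3 : τ' = τ * (τ⁻¹ * τ') := by group
      rw [e3, A.pt_mul, hall _ hH, e1]
    have e4 : ∀ T : PM M a b, A.pt (cc a) (cc b) τ (Ψ T) = Ψ (A.pt (cc a) (cc b) τ' T) := by
      intro T
      rcases T with _ | ⟨x, y, h⟩
      · have f1 : Ψ (Affine.Point.zero : PM M a b) = 0 := map_zero Ψ
        have f2 : A.pt (cc a) (cc b) τ' (Affine.Point.zero : PM M a b) = 0 := map_zero _
        rw [f1, f2, map_zero, map_zero]
      · obtain ⟨g1, f1⟩ := hΨ x y h
        obtain ⟨g2, f2⟩ := pm_some (E := sw (cc a) (cc b))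
          ((A.s τ' : M ≃ₐ[RatFunc K] M) : M →ₐ[RatFunc K] M) h
        obtain ⟨g3, f3⟩ := pm_some (E := sw (cc a) (cc b))
          ((A.s τ : M ≃ₐ[RatFunc K] M) : M →ₐ[RatFunc K] M) g1
        obtain ⟨g4, f4⟩ := hΨ _ _ g2
        rw [f1]
        unfold SAct.pt
        rw [f2, f3, f4, Affine.Point.some.injEq]
        exact ⟨h3 x, h3 y⟩
    rw [map_sub, e4, e2, e1, map_add, hΨt t ht0]
    abel

end div

section val

variable (hInter : S_Inter2) {k M : Type} [Field k] [CharZero k] [Field M]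
    [Algebra k M] {L : Type} [NontriviallyNormedField L] [IsUltrametricDist L] [ProperSpace L]
    [CharZero L] [Algebra k (AlgebraicClosure L)] (pl : Plc k M (AlgebraicClosure L)) {a b : k}
    (hD : 4 * a ^ 3 + 27 * b ^ 2 ≠ 0) (z : AlgebraicClosure L) (Fx : Set M)
    (hFx : ∀ σ : AlgebraicClosure L ≃ₐ[L] AlgebraicClosure L, σ z = z →
      (∀ x ∈ Fx, ∀ c, pl.val x c → σ c = c) ∧
      (∀ c : k, σ (algebraMap k (AlgebraicClosure L) c) = algebraMap k (AlgebraicClosure L) c))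

include hInter hD hFx in
open scoped Classical in
/-- a divisible point reduces to zero -/
theorem red_div {D : ((sw a b).baseChange M).toAffine.Point}
    (hdiv : ∀ n : ℕ, 1 ≤ n → ∃ R : ((sw a b).baseChange M).toAffine.Point,
      n • R = D ∧ ∀ x' y' h', R = .some x' y' h' → x' ∈ Fx ∧ y' ∈ Fx)
    {red : ((sw a b).baseChange M).toAffine.Point →+
      ((sw a b).baseChange (AlgebraicClosure L)).toAffine.Point}
    (h1 : ∀ x y h, x ∉ pl.W → red (.some x y h) = 0)
    (h2 : ∀ x y h (hx : x ∈ pl.W), ∃ (hy : y ∈ pl.W)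
      (h' : ((sw a b).baseChange (AlgebraicClosure L)).toAffine.Nonsingular
        (pl.ρ ⟨x, hx⟩) (pl.ρ ⟨y, hy⟩)), red (.some x y h) = .some _ _ h') : red D = 0 := by
  apply hInter L k a b hD z (fun σ hσ => ⟨(hFx σ hσ).2 a, (hFx σ hσ).2 b⟩)
  intro n hn
  obtain ⟨R, hR, hRF⟩ := hdiv n hn
  refine ⟨red R, by rw [← map_nsmul, hR], fun σ hσ x' y' h' e => ?_⟩
  rcases R with _ | ⟨x1, y1, hxy1⟩
  · have h0 : red (.zero : ((sw a b).baseChange M).toAffine.Point) = 0 := map_zero red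
    rw [h0] at e
    exact absurd e.symm (Affine.Point.some_ne_zero _)
  · obtain ⟨hF1, hF2⟩ := hRF x1 y1 hxy1 rfl
    by_cases hx1 : x1 ∈ pl.W
    · obtain ⟨hy1, g, e'⟩ := h2 x1 y1 hxy1 hx1
      rw [e', Affine.Point.some.injEq] at e
      rw [← e.1, ← e.2]
      exact ⟨(hFx σ hσ).1 x1 hF1 _ ⟨hx1, rfl⟩, (hFx σ hσ).1 y1 hF2 _ ⟨hy1, rfl⟩⟩
    · rw [h1 x1 y1 hxy1 hx1] at e
      exact absurd e.symm (Affine.Point.some_ne_zero _)

include hInter hD hFx in
open scoped Classical in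
/-- the first coordinate of a divisible point has no finite value -/
theorem notMem_of_div {D : ((sw a b).baseChange M).toAffine.Point}
    (hdiv : ∀ n : ℕ, 1 ≤ n → ∃ R : ((sw a b).baseChange M).toAffine.Point,
      n • R = D ∧ ∀ x' y' h', R = .some x' y' h' → x' ∈ Fx ∧ y' ∈ Fx)
    {x y : M} {h : ((sw a b).baseChange M).toAffine.Nonsingular x y} (hDx : D = .some x y h) :
    x ∉ pl.W := by
  have hchC : CharZero (AlgebraicClosure L) :=
    charZero_of_injective_algebraMap (algebraMap L _).injective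
  obtain ⟨red, h1, h2⟩ := exists_redM pl hD
  have h3 := red_div hInter pl hD z Fx hFx hdiv h1 h2
  intro hx
  obtain ⟨hy, g, e⟩ := h2 x y h hx
  rw [hDx, e] at h3
  exact absurd h3 (Affine.Point.some_ne_zero _)

include hInter hD hFx in
open scoped Classical in
/-- the values of two points whose difference is divisible agree -/
theorem val_psi
    {x y x' y' : M} (h : ((sw a b).baseChange M).toAffine.Nonsingular x y)
    (h' : ((sw a b).baseChange M).toAffine.Nonsingular x' y')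
    (hdiv : ∀ n : ℕ, 1 ≤ n → ∃ R : ((sw a b).baseChange M).toAffine.Point,
      n • R = (.some x y h : ((sw a b).baseChange M).toAffine.Point) - .some x' y' h' ∧
      ∀ x' y' h', R = .some x' y' h' → x' ∈ Fx ∧ y' ∈ Fx) :
    (x ∈ pl.W → ∃ c d, pl.val x c ∧ pl.val x' c ∧ pl.val y d ∧ pl.val y' d) ∧
      (x ∉ pl.W → x' ∉ pl.W) := by
  have hchC : CharZero (AlgebraicClosure L) :=
    charZero_of_injective_algebraMap (algebraMap L _).injective
  obtain ⟨red, h1, h2⟩ := exists_redM pl hD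
  have h3 := red_div hInter pl hD z Fx hFx hdiv h1 h2
  rw [map_sub, sub_eq_zero] at h3
  constructor
  · intro hx
    obtain ⟨hy, g, e⟩ := h2 x y h hx
    by_cases hx' : x' ∈ pl.W
    · obtain ⟨hy', g', e'⟩ := h2 x' y' h' hx'
      rw [e, e', Affine.Point.some.injEq] at h3
      exact ⟨_, _, ⟨hx, rfl⟩, ⟨hx', h3.1.symm⟩, ⟨hy, rfl⟩, ⟨hy', h3.2.symm⟩⟩
    · rw [e, h1 x' y' h' hx'] at h3
      exact absurd h3 (Affine.Point.some_ne_zero _)
  · intro hx hx'
    obtain ⟨hy', g', e'⟩ := h2 x' y' h' hx'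
    rw [h1 x y h hx, e'] at h3
    exact absurd h3.symm (Affine.Point.some_ne_zero _)

end val

end Pool.Agent.Y791.BF
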