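import Pool.Agent.Y791.BF.Good
import Pool.Agent.TH954.SVal

/-!
# Extension of the base field of an action
-/

set_option autoImplicit false
set_option linter.unusedSectionVars false

open Polynomial IsDedekindDomain NumberField

namespace Pool.Agent.Y791.BF

open Pool.Agent.TH954 Pool.Agent.Y791.BS

section base

variable {k : Type} [Field k] [CharZero k] {M : Type} [Field M] [Algebra k M]

/-- an automorphism fixes the elements generated by a fixed element -/
lemma fix_of_primitive {A : Type} [Field A] [Algebra k A] (F : IntermediateField k A)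
    (α : F) (hα : IntermediateField.adjoin k {α} = ⊤) (τ : A ≃ₐ[k] A)
    (h1 : τ (α : A) = α) {z : A} (hz : z ∈ F) : τ z = z := by
  have h3 : (⟨z, hz⟩ : F) ∈ IntermediateField.adjoin k {α} := by
    rw [hα]
    exact IntermediateField.mem_top
  have h4 : F.val (⟨z, hz⟩ : F) ∈ IntermediateField.adjoin k {(α : A)} := by
    have h5 := IntermediateField.adjoin_map k {α} F.val
    rw [Set.image_singleton] at h5
    change F.val (⟨z, hz⟩ : F) ∈ IntermediateField.adjoin k {F.val α}
    rw [← h5]
    exact ⟨_, h3, rfl⟩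
  have h6 : IntermediateField.adjoin k {(α : A)} ≤
      IntermediateField.fixedField (Subgroup.zpowers τ) := by
    rw [IntermediateField.adjoin_simple_le_iff, IntermediateField.mem_fixedField_iff]
    intro σ hσ
    have h7 : Subgroup.zpowers τ ≤ MulAction.stabilizer _ (α : A) := by
      rw [Subgroup.zpowers_le]
      exact h1
    exact h7 hσ
  exact (IntermediateField.mem_fixedField_iff _ _).1 (h6 h4) τ (Subgroup.mem_zpowers τ)

/-- extension of the base field of an action -/
theorem exists_base (A : SAct k M) {k1 : Type} [Field k1] (m : k →+* k1)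
    (κ : k1 →+* AlgebraicClosure k) (hκm : ∀ c, κ (m c) = algebraMap k (AlgebraicClosure k) c)
    [Algebra k1 M] (hM : ∀ c : k1, algebraMap k1 M c = A.j (κ c)) :
    ∃ (A1 : SAct k1 M) (g : AlgebraicClosure k1 ≃+* AlgebraicClosure k),
      (∀ c, g (algebraMap k1 (AlgebraicClosure k1) c) = κ c) ∧
      (∀ z, A1.j z = A.j (g z)) ∧
      (∀ τ1, ∃ τ0 : AlgebraicClosure k ≃ₐ[k] AlgebraicClosure k, (∀ z, g (τ1 z) = τ0 (g z)) ∧
        ∀ x, A1.s τ1 x = A.s τ0 x) ∧
      (∀ τ0 : AlgebraicClosure k ≃ₐ[k] AlgebraicClosure k, (∀ c, τ0 (κ c) = κ c) →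
        ∃ τ1 : AlgebraicClosure k1 ≃ₐ[k1] AlgebraicClosure k1, (∀ z, g (τ1 z) = τ0 (g z)) ∧
          ∀ x, A1.s τ1 x = A.s τ0 x) := by
  let instm : Algebra k k1 := m.toAlgebra
  let instκ : Algebra k1 (AlgebraicClosure k) := κ.toAlgebra
  have tow : IsScalarTower k k1 (AlgebraicClosure k) :=
    IsScalarTower.of_algebraMap_eq (fun c => (hκm c).symm)
  have halg : Algebra.IsAlgebraic k1 (AlgebraicClosure k) :=
    Algebra.IsAlgebraic.tower_top (K := k) k1
  have hcl : IsAlgClosure k1 (AlgebraicClosure k) := ⟨inferInstance, halg⟩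
  let g : AlgebraicClosure k1 ≃ₐ[k1] AlgebraicClosure k :=
    IsAlgClosure.equiv k1 (AlgebraicClosure k1) (AlgebraicClosure k)
  have hg : ∀ c, g (algebraMap k1 (AlgebraicClosure k1) c) = κ c := fun c => g.commutes c
  -- conjugation
  let cj : (AlgebraicClosure k1 ≃ₐ[k1] AlgebraicClosure k1) →*
      (AlgebraicClosure k ≃ₐ[k] AlgebraicClosure k) :=
    { toFun := fun τ => ((g.symm.trans τ).trans g).restrictScalars k
      map_one' := by
        apply AlgEquiv.ext
        intro x
        exact g.apply_symm_apply x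
      map_mul' := fun τ τ' => by
        apply AlgEquiv.ext
        intro x
        change g (τ (τ' (g.symm x))) = g (τ (g.symm (g (τ' (g.symm x)))))
        rw [g.symm_apply_apply] }
  have hcj : ∀ τ z, cj τ (g z) = g (τ z) := by
    intro τ z
    change g (τ (g.symm (g z))) = g (τ z)
    rw [g.symm_apply_apply]
  have hcjκ : ∀ τ c, cj τ (κ c) = κ c := by
    intro τ c
    rw [← hg, hcj, τ.commutes]
  let A1 : SAct k1 M :=
    { j := { (A.j : AlgebraicClosure k →+* M).comp
          (g : AlgebraicClosure k1 →+* AlgebraicClosure k) with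
        commutes' := fun c => by
          change A.j (g (algebraMap k1 (AlgebraicClosure k1) c)) = algebraMap k1 M c
          rw [hg, hM] }
      s := { toFun := fun τ => { A.s (cj τ) with
               commutes' := fun c => by
                 change A.s (cj τ) (algebraMap k1 M c) = algebraMap k1 M c
                 rw [hM, A.hj, hcjκ] }
             map_one' := by
               apply AlgEquiv.ext
               intro x
               change A.s (cj 1) x = x
               rw [map_one, map_one]
               rfl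
             map_mul' := fun τ τ' => by
               apply AlgEquiv.ext
               intro x
               change A.s (cj (τ * τ')) x = A.s (cj τ) (A.s (cj τ') x)
               rw [map_mul, map_mul]
               rfl }
      hj := by
        intro τ z
        change A.s (cj τ) (A.j (g z)) = A.j (g (τ z))
        rw [A.hj, hcj]
      cont := by
        intro x
        obtain ⟨F, hF, h⟩ := A.cont x
        obtain ⟨α, hα⟩ := Field.exists_primitive_element k F
        refine ⟨IntermediateField.adjoin k1 {g.symm (α : AlgebraicClosure k)},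
          IntermediateField.adjoin.finiteDimensional (Algebra.IsIntegral.isIntegral _), ?_⟩
        intro τ hτ
        change A.s (cj τ) x = x
        apply h
        have h1 : cj τ (α : AlgebraicClosure k) = α := by
          have h2 := hτ _ (IntermediateField.mem_adjoin_simple_self k1
            (g.symm (α : AlgebraicClosure k)))
          rw [← g.apply_symm_apply (α : AlgebraicClosure k), hcj, h2]
        exact fun z hz => fix_of_primitive F α hα (cj τ) h1 hz }
  refine ⟨A1, g.toRingEquiv, hg, fun z => rfl, ?_, ?_⟩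
  · intro τ1
    exact ⟨cj τ1, fun z => (hcj τ1 z).symm, fun x => rfl⟩
  · intro τ0 hτ0
    let τ1 : AlgebraicClosure k1 ≃ₐ[k1] AlgebraicClosure k1 :=
      { ((g.toRingEquiv.trans τ0.toRingEquiv).trans g.symm.toRingEquiv) with
        commutes' := fun c => by
          change g.symm (τ0 (g (algebraMap k1 (AlgebraicClosure k1) c))) = _
          rw [hg, hτ0, ← hg, g.symm_apply_apply] }
    have h1 : ∀ z, g (τ1 z) = τ0 (g z) := fun z => g.apply_symm_apply _
    refine ⟨τ1, h1, fun x => ?_⟩
    change A.s (cj τ1) x = A.s τ0 x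
    congr 2
    apply AlgEquiv.ext
    intro z
    obtain ⟨w, rfl⟩ := g.surjective z
    rw [hcj, h1]

/-- places of the action over the extension -/
theorem exists_places (A : SAct k M)
    (pl : ∀ i : PlF k, Plc k M (AlgebraicClosure i.Lv)) (hpl : ∀ i, GeoPlc A (pl i))
    {k1 : Type} [Field k1] (m : k →+* k1)
    (κ : k1 →+* AlgebraicClosure k) (hκm : ∀ c, κ (m c) = algebraMap k (AlgebraicClosure k) c)
    [Algebra k1 M] (hM : ∀ c : k1, algebraMap k1 M c = A.j (κ c)) (A1 : SAct k1 M)
    (g : AlgebraicClosure k1 ≃+* AlgebraicClosure k)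
    (hA1 : ∀ z, A1.j z = A.j (g z))
    (hτ : ∀ τ1, ∃ τ0 : AlgebraicClosure k ≃ₐ[k] AlgebraicClosure k, (∀ z, g (τ1 z) = τ0 (g z)) ∧
        ∀ x, A1.s τ1 x = A.s τ0 x) (i1 : PlF k1) :
    ∃ pl1 : Plc k1 M (AlgebraicClosure i1.Lv), GeoPlc A1 pl1 := by
  let i0 : PlF k := ⟨i1.L, i1.v, i1.φ.comp m⟩
  let instm : Algebra k k1 := m.toAlgebra
  let instκ : Algebra k1 (AlgebraicClosure k) := κ.toAlgebra
  have tow : IsScalarTower k k1 (AlgebraicClosure k) :=
    IsScalarTower.of_algebraMap_eq (fun c => (hκm c).symm)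
  have halg : Algebra.IsAlgebraic k1 (AlgebraicClosure k) :=
    Algebra.IsAlgebraic.tower_top (K := k) k1
  let ι1 : AlgebraicClosure k →ₐ[k1] AlgebraicClosure i1.Lv := IsAlgClosed.lift
  let ι : AlgebraicClosure k →ₐ[k] AlgebraicClosure i0.Lv :=
    { (ι1 : AlgebraicClosure k →+* AlgebraicClosure i1.Lv) with
      commutes' := fun c => by
        change ι1 (algebraMap k (AlgebraicClosure k) c) = _
        rw [← hκm]
        exact ι1.commutes (m c) }
  obtain ⟨pl', hpl', hiot⟩ := exists_twist A (hpl i0) ι
  let pl1 : Plc k1 M (AlgebraicClosure i1.Lv) :=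
    { W := pl'.W
      ρ := pl'.ρ
      loc := pl'.loc
      comm := fun c => by
        obtain ⟨h, e⟩ := pl'.iot_spec A.j (κ c)
        rw [hiot] at e
        have e2 : ι (κ c) = algebraMap k1 (AlgebraicClosure i1.Lv) c := ι1.commutes c
        rw [e2] at e
        have h' : algebraMap k1 M c ∈ pl'.W := by
          rw [hM]
          exact h
        refine ⟨h', ?_⟩
        rw [← e]
        congr 1
        exact Subtype.ext (hM c) }
  refine ⟨pl1, ?_⟩
  have hiot1 : ∀ z, pl1.iot A1.j z = pl'.iot A.j (g z) := by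
    intro z
    obtain ⟨h, e⟩ := pl1.iot_spec A1.j z
    obtain ⟨h', e'⟩ := pl'.iot_spec A.j (g z)
    rw [← e, ← e']
    change pl'.ρ _ = pl'.ρ _
    congr 1
    exact Subtype.ext (hA1 z)
  intro σ τ1 hσ x
  obtain ⟨τ0, hτ0, hs⟩ := hτ τ1
  have hC : Compat (pl'.iot A.j) σ τ0 := by
    intro z
    obtain ⟨w, rfl⟩ := g.surjective z
    rw [← hτ0, ← hiot1, ← hiot1]
    exact hσ w
  obtain ⟨h, e⟩ := hpl' σ τ0 hC x
  have h' : A1.s τ1 (x : M) ∈ pl1.W := by
    rw [hs]
    exact h
  refine ⟨h', ?_⟩
  change _ = σ (pl'.ρ x)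
  rw [← e]
  change pl'.ρ _ = pl'.ρ _
  congr 1
  exact Subtype.ext (hs x)

end base

end Pool.Agent.Y791.BF
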