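import Pool.Agent.TH954.Descent
import Mathlib.Analysis.Normed.Unbundled.SpectralNorm
import Mathlib.RingTheory.EssentialFiniteness
import Mathlib.Analysis.Normed.Ring.Ultra

/-!
# Embeddings of fields in completions of number fields (definitions, not results)
-/

set_option autoImplicit false

open IsDedekindDomain NumberField

namespace Pool.Agent.Y791.BF

/-- an embedding of the field `k` in the completion of a number field `L` at a finite place -/
structure PlF (k : Type) [Field k] : Type 1 where
  L : Type
  [fld : Field L]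
  [nf : NumberField L]
  v : HeightOneSpectrum (𝓞 L)
  φ : k →+* v.adicCompletion L

attribute [instance] PlF.fld PlF.nf

variable {k : Type} [Field k]

/-- the completion -/
abbrev PlF.Lv (i : PlF k) : Type := i.v.adicCompletion i.L

noncomputable instance PlF.instAlg (i : PlF k) : Algebra k i.Lv := i.φ.toAlgebra

lemma PlF.algebraMap_eq (i : PlF k) (c : k) : algebraMap k i.Lv c = i.φ c := rfl

/-- the closed unit ball -/
def ball1 (L : Type) [NormedField L] [IsUltrametricDist L] : Subring L where
  carrier := {x | ‖x‖ ≤ 1}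
  mul_mem' := fun {x y} hx hy => by
    change ‖x * y‖ ≤ 1
    rw [norm_mul]
    exact mul_le_one₀ hx (norm_nonneg _) hy
  one_mem' := by
    change ‖(1 : L)‖ ≤ 1
    rw [norm_one]
  add_mem' := fun {x y} hx hy => by
    change ‖x + y‖ ≤ 1
    exact (IsUltrametricDist.norm_add_le_max x y).trans (max_le hx hy)
  zero_mem' := by
    change ‖(0 : L)‖ ≤ 1
    rw [norm_zero]
    exact zero_le_one
  neg_mem' := fun {x} hx => by
    change ‖-x‖ ≤ 1
    rw [norm_neg]
    exact hx

/-- Finite Galois stable sets without rational elements are obstructed by power residue conditions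
in the extensions `L i` of `K`. -/
def Obs (K : Type) [Field K] {I : Type*} (L : I → Type) [∀ i, Field (L i)] [∀ i, Algebra K (L i)] :
    Prop :=
  ∀ T : Finset (AlgebraicClosure K),
    (∀ σ : AlgebraicClosure K ≃ₐ[K] AlgebraicClosure K, ∀ θ ∈ T, σ θ ∈ T) →
    (∀ θ ∈ T, ∃ σ : AlgebraicClosure K ≃ₐ[K] AlgebraicClosure K, σ θ ≠ θ) →
    ∃ (l : ℕ) (a : K), 1 ≤ l ∧ ∀ c : K, c ≠ 0 → ∃ v : I,
      ∀ (ι : AlgebraicClosure K →ₐ[K] AlgebraicClosure (L v)), ∀ θ ∈ T,
      ∀ z : L v, ι (θ - algebraMap K (AlgebraicClosure K) a) ≠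
        algebraMap (L v) (AlgebraicClosure (L v)) (algebraMap K (L v) c * z ^ l)

end Pool.Agent.Y791.BF
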