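import Pool.Agent.Y791.BF.Good
import Pool.Agent.Y791.BF.GBir
import Pool.Agent.Y791.BS.Par2

/-!
# Division points and values of order two, `K` finitely generated
-/

set_option autoImplicit false
set_option linter.unusedSectionVars false

open Polynomial WeierstrassCurve IsDedekindDomain NumberField

namespace Pool.Agent.Y791.BF

open Pool.Agent.TH942 Pool.Agent.TH954 Pool.Agent.Y791.BS

section main

variable {K : Type} [Field K] [CharZero K] [Algebra.EssFiniteType ℚ K] {M : Type} [Field M]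
  [CharZero M] [IsAlgClosed M] [Algebra (RatFunc K) M] (A : SAct (RatFunc K) M) (fr : Frame K)
  {a b : K}

open scoped Classical in
/-- points which have a multiple of prime order over the rational functions of `S` are themselves
defined there -/
theorem fixed_divF (hEmb : S_EmbFG) (hUnr : S_Unr) (hD : 4 * a ^ 3 + 27 * b ^ 2 ≠ 0)
    (pl : ∀ i : PlF (RatFunc K), Plc (RatFunc K) M (AlgebraicClosure i.Lv))
    (hpl : ∀ i, GeoPlc A (pl i)) {l : ℕ} (hl : l.Prime) {Q Q' : PM M a b}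
    (hQ : l • Q = Q') (hQ' : ∀ h ∈ fr.HZ Set.univ, A.pt (cc a) (cc b) h Q' = Q') :
    ∀ h ∈ fr.HZ Set.univ, A.pt (cc a) (cc b) h Q = Q := by
  intro h0 hh0
  by_contra hne
  obtain ⟨Z0, β, g, c, m, ζ, hcZ0, hgZ0, hgcZ0, hζZ0, hζ, hDZ0, htor0, hgc, hm, hβl, hQZ0, hβZ0⟩ :=
    exists_glob A fr hD hl hQ hQ' hh0 hne
  set Z : Finset (AlgebraicClosure K) := Z0 ∪ {algebraMap K (AlgebraicClosure K) a,
    algebraMap K (AlgebraicClosure K) b} with hZdef
  have hZZ : Z0 ⊆ Z := Finset.subset_union_left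
  have hHZ : fr.HZ (Z : Set (AlgebraicClosure K)) ≤ fr.HZ (Z0 : Set (AlgebraicClosure K)) :=
    fr.HZ_mono (by exact_mod_cast hZZ)
  have haZ : algebraMap K (AlgebraicClosure K) a ∈ Z := by simp [hZdef]
  have hbZ : algebraMap K (AlgebraicClosure K) b ∈ Z := by simp [hZdef]
  obtain ⟨i, ι, cv, ε, hZι, hcv, hS, hε0, hε1, hεn⟩ := exists_goodF hEmb fr Z c (hZZ hcZ0)
  obtain ⟨pl', hpl', hiot⟩ := exists_twist A (hpl i) ι
  let inst1 : NontriviallyNormedField i.Lv := nnf i.v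
  have inst2 : IsUltrametricDist i.Lv := ultra i.v
  have inst3 : ProperSpace i.Lv := proper i.v
  have inst4 : CharZero i.Lv := charZero_compl i.v
  have hle : ∀ z ∈ Z, ∃ y : i.Lv,
      algebraMap i.Lv (AlgebraicClosure i.Lv) y = ι (fr.e z) ∧ ‖y‖ ≤ 1 := by
    intro z hz
    obtain ⟨y, hy, hy1⟩ := hZι z hz
    refine ⟨y, hy, ?_⟩
    by_cases hz0 : z = 0
    · subst hz0
      rw [map_zero, map_zero] at hy
      rw [(_root_.map_eq_zero _).1 hy, norm_zero]
      exact zero_le_one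
    · exact (hy1 hz0).le
  have hle' : ∀ z ∈ Z, ∀ y : i.Lv,
      algebraMap i.Lv (AlgebraicClosure i.Lv) y = ι (fr.e z) → ‖y‖ ≤ 1 := by
    intro z hz y hy
    obtain ⟨y', hy', hy1⟩ := hle z hz
    have e : y = y' := (algebraMap i.Lv (AlgebraicClosure i.Lv)).injective (hy.trans hy'.symm)
    rw [e]
    exact hy1
  have hone : ∀ z ∈ Z, z ≠ 0 → ∀ y : i.Lv,
      algebraMap i.Lv (AlgebraicClosure i.Lv) y = ι (fr.e z) → ‖y‖ = 1 := by
    intro z hz hz0 y hy
    obtain ⟨y', hy', hy1⟩ := hZι z hz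
    have e : y = y' := (algebraMap i.Lv (AlgebraicClosure i.Lv)).injective (hy.trans hy'.symm)
    rw [e]
    exact hy1 hz0
  have hcv1 : ‖cv‖ ≤ 1 := hle' c (hZZ hcZ0) cv hcv
  obtain ⟨wg, hwg, hwg1⟩ := exists_eval (L := i.Lv)
    ((ι : Kb K →+* AlgebraicClosure i.Lv).comp (fr.e : AlgebraicClosure K →+* Kb K))
    (algebraMap i.Lv (AlgebraicClosure i.Lv)) g
    (fun n => hle _ (hZZ (hgZ0 n))) hcv hcv1 hε1 (hone _ (hZZ hgcZ0) hgc)
  have hιe : ∀ x : K, ι (fr.e (algebraMap K (AlgebraicClosure K) x)) =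
      algebraMap i.Lv (AlgebraicClosure i.Lv) (algebraMap (RatFunc K) i.Lv (cc x)) := by
    intro x
    rw [fr.e.commutes, IsScalarTower.algebraMap_apply K (RatFunc K) (Kb K), ι.commutes,
      IsScalarTower.algebraMap_apply (RatFunc K) i.Lv (AlgebraicClosure i.Lv)]
  have hD2 : algebraMap K (AlgebraicClosure K) (2 * (4 * a ^ 3 + 27 * b ^ 2)) ≠ 0 :=
    (_root_.map_ne_zero _).2 (mul_ne_zero two_ne_zero hD)
  have hDL : ‖algebraMap (RatFunc K) i.Lv (2 * (4 * cc a ^ 3 + 27 * cc b ^ 2))‖ = 1 := by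
    apply hone _ (hZZ hDZ0) hD2
    rw [hιe]
    congr 2
    simp only [map_add, map_mul, map_pow, map_ofNat]
  obtain ⟨w, hw⟩ := local_rad A fr hUnr (L := i.Lv) (a := a) (b := b) hD
    (hle' _ haZ _ (hιe a).symm) (hle' _ hbZ _ (hιe b).symm) hDL hpl' hl
    (Z := (Z : Set (AlgebraicClosure K))) (fun z hz => by
      obtain ⟨y, hy, hy1⟩ := hle z hz
      exact ⟨y, by rw [hiot]; exact hy, hy1⟩) ⟨cv + ε, by rw [hiot]; exact hS⟩ (hZZ hζZ0) hζ
    (fun x y h hh => by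
      obtain ⟨z, hz, w, hw, e⟩ := htor0 x y h hh
      exact ⟨z, hZZ hz, w, hZZ hw, e⟩) (fun h hh => hQZ0 h (hHZ hh))
    (fun h hh => hβZ0 h (hHZ hh)) (u := ε ^ m * wg) (by
      rw [hiot, ← map_pow, hβl, map_mul, map_pow, map_sub, ← hS, ← hcv, map_mul, map_pow, hwg,
        ← map_sub, add_sub_cancel_left]
      congr 1
      have h1 := Polynomial.hom_eval₂ g (fr.e : AlgebraicClosure K →+* Kb K)
        (ι : Kb K →+* AlgebraicClosure i.Lv) fr.S
      rw [hS]
      exact h1)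
  have hw' : ‖w‖ ^ l = ‖ε‖ ^ m := by
    rw [hw, norm_mul, norm_pow, hwg1, mul_one]
  have hε0' : 0 < ‖ε‖ := norm_pos_iff.2 hε0
  have hw0 : w ≠ 0 := by
    rintro rfl
    rw [norm_zero, zero_pow hl.ne_zero] at hw'
    exact (pow_pos hε0' m).ne hw'
  obtain ⟨n, hn⟩ := hεn w hw0
  have hn' : ‖w‖ = ‖ε‖ ^ n := hn
  rw [hn', ← zpow_natCast, ← zpow_mul, ← zpow_natCast] at hw'
  have h2 : n * l = m := zpow_right_injective₀ hε0' hε1.ne hw'
  apply hm
  have h3 : (l : ℤ) ∣ m := ⟨n, by rw [← h2, mul_comm]⟩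
  exact_mod_cast h3

open scoped Classical in
/-- all division points are defined over the rational functions of `S` -/
theorem all_divF (hEmb : S_EmbFG) (hUnr : S_Unr) (hD : 4 * a ^ 3 + 27 * b ^ 2 ≠ 0)
    (pl : ∀ i : PlF (RatFunc K), Plc (RatFunc K) M (AlgebraicClosure i.Lv))
    (hpl : ∀ i, GeoPlc A (pl i)) {P : PM M a b}
    (hP : ∀ τ : Kb K ≃ₐ[RatFunc K] Kb K, τ fr.S = fr.S → A.pt (cc a) (cc b) τ P = P) :
    ∀ (n : ℕ), 1 ≤ n → ∀ Q : PM M a b, n • Q = P →
      ∀ h ∈ fr.HZ Set.univ, A.pt (cc a) (cc b) h Q = Q := by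
  intro n
  induction n using Nat.strong_induction_on with
  | _ n ih =>
    intro hn Q hQ
    by_cases h1 : n = 1
    · subst h1
      rw [one_smul] at hQ
      rw [hQ]
      exact fun h hh => hP h hh.2
    · have hl := Nat.minFac_prime h1
      obtain ⟨m, hm⟩ := Nat.minFac_dvd n
      have hm1 : 1 ≤ m := by
        rcases Nat.eq_zero_or_pos m with h | h
        · rw [h, mul_zero] at hm
          omega
        · exact h
      have hmn : m < n := by
        have := hl.two_le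
        nlinarith
      have hQ' := ih m hmn hm1 (n.minFac • Q) (by
        rw [← mul_smul, mul_comm, ← hm, hQ])
      exact fixed_divF A fr hEmb hUnr hD pl hpl hl rfl hQ'

open scoped Classical in
/-- twice the point is divisible by points defined over the field of `S` -/
theorem exists_divF (hEmb : S_EmbFG) (hUnr : S_Unr) (hD : 4 * a ^ 3 + 27 * b ^ 2 ≠ 0)
    (pl : ∀ i : PlF (RatFunc K), Plc (RatFunc K) M (AlgebraicClosure i.Lv))
    (hpl : ∀ i, GeoPlc A (pl i)) {P : PM M a b}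
    (hP : ∀ τ : Kb K ≃ₐ[RatFunc K] Kb K, τ fr.S = fr.S → A.pt (cc a) (cc b) τ P = P)
    (hP' : ∀ τ : Kb K ≃ₐ[RatFunc K] Kb K, τ fr.S = -fr.S → A.pt (cc a) (cc b) τ P = -P)
    (n : ℕ) (hn : 1 ≤ n) :
    ∃ R : PM M a b, n • R = 2 • P ∧
      ∀ τ : Kb K ≃ₐ[RatFunc K] Kb K, τ fr.S = fr.S → A.pt (cc a) (cc b) τ R = R := by
  have hch : CharZero (RatFunc K) :=
    charZero_of_injective_algebraMap (algebraMap K (RatFunc K)).injective
  obtain ⟨Q, hQ⟩ := exists_nsmul_base (cc_disc hD) M hn P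
  have hall := all_divF A fr hEmb hUnr hD pl hpl hP n hn Q hQ
  obtain ⟨γ, hγ1, hγ2⟩ := fr.exists_γ
  obtain ⟨Z, hZ⟩ := exists_tor_set A fr (M := M) hD hn
  -- `γ` fixes the torsion points
  have hγt : ∀ t : PM M a b, n • t = 0 → A.pt (cc a) (cc b) γ t = t := by
    intro t ht
    rcases t with _ | ⟨x, y, h⟩
    · exact map_zero _
    · obtain ⟨z, hz, w, hw, rfl, rfl⟩ := hZ x y h ht
      obtain ⟨h', e⟩ := pm_some (E := sw (cc a) (cc b))
        ((A.s γ : M ≃ₐ[RatFunc K] M) : M →ₐ[RatFunc K] M) h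
      unfold SAct.pt
      rw [e, Affine.Point.some.injEq]
      constructor
      · change A.s γ (A.j (fr.e z)) = _
        rw [A.hj, hγ1]
      · change A.s γ (A.j (fr.e w)) = _
        rw [A.hj, hγ1]
  refine ⟨Q - A.pt (cc a) (cc b) γ Q, ?_, fun τ hτ => ?_⟩
  · rw [smul_sub, hQ, ← map_nsmul, hQ, hP' γ hγ2, sub_neg_eq_add, two_smul]
  · set t : PM M a b := A.pt (cc a) (cc b) τ Q - Q with ht
    have ht0 : n • t = 0 := by
      rw [ht, smul_sub, ← map_nsmul, hQ, hP τ hτ, sub_self]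
    have e1 : A.pt (cc a) (cc b) τ Q = Q + t := (add_sub_cancel Q _).symm
    have hH : γ⁻¹ * (τ⁻¹ * (γ * τ)) ∈ fr.HZ Set.univ := by
      refine ⟨fun z _ => ?_, ?_⟩
      · change γ.symm (τ.symm (γ (τ (fr.e z)))) = fr.e z
        obtain ⟨z', hz'⟩ : ∃ z', fr.e z' = τ (fr.e z) := by
          apply alg_range fr.e
          have h1 : IsAlgebraic K (fr.e z) :=
            (Algebra.IsAlgebraic.isAlgebraic (R := K) z).algHom fr.e
          exact h1.algHom ((τ : Kb K →ₐ[RatFunc K] Kb K).restrictScalars K)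
        rw [← hz', hγ1, hz', τ.symm_apply_apply, AlgEquiv.symm_apply_eq, hγ1]
      · change γ.symm (τ.symm (γ (τ fr.S))) = fr.S
        rw [hτ, hγ2]
        rw [AlgEquiv.symm_apply_eq, hγ2, AlgEquiv.symm_apply_eq, map_neg, hτ]
    have e2 : A.pt (cc a) (cc b) τ (A.pt (cc a) (cc b) γ Q) = A.pt (cc a) (cc b) γ Q + t := by
      have e3 : γ * τ = τ * γ * (γ⁻¹ * (τ⁻¹ * (γ * τ))) := by group
      have e4 : A.pt (cc a) (cc b) (γ * τ) Q = A.pt (cc a) (cc b) γ Q + t := by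
        rw [A.pt_mul, e1, map_add, hγt t ht0]
      rw [← e4, e3, A.pt_mul, hall _ hH, A.pt_mul]
    rw [map_sub, e1, e2]
    abel

end main

section gen

open scoped Classical in
/-- the values of the point are of order two -/
theorem two_red_gen (hInter : S_Inter2) {k M : Type} [Field k] [CharZero k] [Field M]
    [Algebra k M] {L : Type} [NontriviallyNormedField L] [IsUltrametricDist L] [ProperSpace L]
    [CharZero L] [Algebra k (AlgebraicClosure L)] (pl : Plc k M (AlgebraicClosure L)) {a b : k}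
    (hD : 4 * a ^ 3 + 27 * b ^ 2 ≠ 0) (z : AlgebraicClosure L) (Fx : Set M)
    (hFx : ∀ σ : AlgebraicClosure L ≃ₐ[L] AlgebraicClosure L, σ z = z →
      (∀ x ∈ Fx, ∀ c, pl.val x c → σ c = c) ∧
      (∀ c : k, σ (algebraMap k (AlgebraicClosure L) c) = algebraMap k (AlgebraicClosure L) c))
    {x y : M} (h : ((sw a b).baseChange M).toAffine.Nonsingular x y)
    (hdiv : ∀ n : ℕ, 1 ≤ n → ∃ R : ((sw a b).baseChange M).toAffine.Point,
      n • R = 2 • (.some x y h : ((sw a b).baseChange M).toAffine.Point) ∧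
      ∀ x' y' h', R = .some x' y' h' → x' ∈ Fx ∧ y' ∈ Fx) (hx : x ∈ pl.W) : pl.val y 0 := by
  have hchC : CharZero (AlgebraicClosure L) :=
    charZero_of_injective_algebraMap (algebraMap L _).injective
  obtain ⟨red, h1, h2⟩ := exists_redM pl hD
  have h3 : red (2 • (.some x y h : ((sw a b).baseChange M).toAffine.Point)) = 0 := by
    apply hInter L k a b hD z (fun σ hσ => ⟨(hFx σ hσ).2 a, (hFx σ hσ).2 b⟩)
    intro n hn
    obtain ⟨R, hR, hRF⟩ := hdiv n hn
    refine ⟨red R, by rw [← map_nsmul, hR], fun σ hσ x' y' h' e => ?_⟩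
    rcases R with _ | ⟨x1, y1, hxy1⟩
    · have h0 : red (.zero : ((sw a b).baseChange M).toAffine.Point) = 0 := map_zero red
      rw [h0] at e
      exact absurd e.symm (Affine.Point.some_ne_zero _)
    · obtain ⟨hF1, hF2⟩ := hRF x1 y1 hxy1 rfl
      by_cases hx1 : x1 ∈ pl.W
      · obtain ⟨hy1, g, e'⟩ := h2 x1 y1 hxy1 hx1
        rw [e', Affine.Point.some.injEq] at e
        rw [← e.1, ← e.2]
        exact ⟨(hFx σ hσ).1 x1 hF1 _ ⟨hx1, rfl⟩, (hFx σ hσ).1 y1 hF2 _ ⟨hy1, rfl⟩⟩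
      · rw [h1 x1 y1 hxy1 hx1] at e
        exact absurd e.symm (Affine.Point.some_ne_zero _)
  obtain ⟨hy, h', e⟩ := h2 x y h hx
  rw [map_nsmul, e, two_smul, add_eq_zero_iff_eq_neg, Affine.Point.neg_some,
    Affine.Point.some.injEq] at h3
  refine ⟨hy, ?_⟩
  have h4 := h3.2
  have h5 : ((sw a b).baseChange (AlgebraicClosure L)).toAffine.negY
      (pl.ρ ⟨x, hx⟩) (pl.ρ ⟨y, hy⟩) = -pl.ρ ⟨y, hy⟩ := by
    have e1 : ((sw a b).baseChange (AlgebraicClosure L)).a₁ = 0 := map_zero _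
    have e3 : ((sw a b).baseChange (AlgebraicClosure L)).a₃ = 0 := map_zero _
    rw [Affine.negY, e1, e3]
    ring
  rw [h5] at h4
  have h6 : 2 * pl.ρ ⟨y, hy⟩ = 0 := by
    rw [two_mul]
    nth_rewrite 1 [h4]
    ring
  exact (mul_eq_zero.1 h6).resolve_left two_ne_zero

end gen

end Pool.Agent.Y791.BF
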