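import Pool.Agent.Y791.BF.GVal

/-!
# The limit valuation ring
-/

set_option autoImplicit false
set_option linter.unusedSectionVars false

namespace Pool.Agent.Y791.BF

open Pool.Agent.TH954

variable {K : Type} [Field K] [CharZero K]
variable {I : Type*} {L : I → Type} [∀ i, Field (L i)] [∀ i, Algebra K (L i)]
variable {M : Type} [Field M] [Algebra K M] (A : SAct K M)
  (pl : ∀ v : I, Plc K M (AlgebraicClosure (L v)))
  (U : Ultrafilter (I))

/-- the limit of the valuation rings -/
def limW : ValuationSubring M where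
  carrier := {x | ∀ᶠ v in (U : Filter (I)), x ∈ (pl v).W}
  mul_mem' := fun {x y} hx hy => by
    filter_upwards [hx, hy] with v h1 h2
    exact mul_mem h1 h2
  one_mem' := Filter.Eventually.of_forall (fun _ => one_mem _)
  add_mem' := fun {x y} hx hy => by
    filter_upwards [hx, hy] with v h1 h2
    exact add_mem h1 h2
  zero_mem' := Filter.Eventually.of_forall (fun v => zero_mem _)
  neg_mem' := fun {x} hx => by
    filter_upwards [hx] with v h1
    exact neg_mem h1
  mem_or_inv_mem' := fun x => by
    rcases U.eventually_or.1 (Filter.Eventually.of_forall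
      (fun v => (pl v).W.mem_or_inv_mem x)) with h | h
    · exact Or.inl h
    · exact Or.inr h

variable {A pl U}

lemma mem_limW {x : M} : x ∈ limW pl U ↔
    ∀ᶠ v in (U : Filter (I)), x ∈ (pl v).W := Iff.rfl

lemma alg_mem_limW (c : K) : algebraMap K M c ∈ limW pl U :=
  Filter.Eventually.of_forall (fun v => (pl v).alg_mem c)

lemma j_mem_limW (z : AlgebraicClosure K) : A.j z ∈ limW pl U :=
  Filter.Eventually.of_forall (fun _ => (Plc.val_j A.j z).mem)

/-- elements of the limit ring which are fixed and have finitely many values have a rational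
value -/
theorem exists_value (hU : ∀ u, DSet A pl u →
      ∀ᶠ v in (U : Filter (I)), Rat pl u v)
    {x : M} (hx : x ∈ A.fix) (hfin : FinVal A pl x) (hxW : x ∈ limW pl U) :
    ∃ c : K, ∀ᶠ v in (U : Filter (I)),
      (pl v).val x (algebraMap K (AlgebraicClosure (L v)) c) := by
  classical
  obtain ⟨R, hR⟩ := hfin
  obtain ⟨a, ha⟩ : ∃ a : ℕ, (a : AlgebraicClosure K) ∉ R := by
    have h3 : (Set.range (Nat.cast : ℕ → AlgebraicClosure K)).Infinite :=
      Set.infinite_range_of_injective Nat.cast_injective
    obtain ⟨x, ⟨B, rfl⟩, hx⟩ := h3.exists_notMem_finset R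
    exact ⟨B, hx⟩
  have hxa : x ≠ (a : M) := by
    intro h
    obtain ⟨v, hv⟩ := hxW.exists
    obtain ⟨β, hβ, h1⟩ := hR v hv
    rw [h] at h1
    have h2 := h1.unique (Plc.val_natCast a)
    rw [← map_natCast ((pl v).iot A.j)] at h2
    apply ha
    rw [← ((pl v).iot A.j).injective h2]
    exact hβ
  have hxa0 : x - (a : M) ≠ 0 := sub_ne_zero.2 hxa
  have hval : ∀ v, (x ∉ (pl v).W ∧ (pl v).val (x - (a : M))⁻¹ 0) ∨
      ∃ β ∈ R, (pl v).val x ((pl v).iot A.j β) ∧
        (pl v).val (x - (a : M))⁻¹ ((pl v).iot A.j (β - (a : AlgebraicClosure K))⁻¹) := by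
    intro v
    by_cases hv : x ∈ (pl v).W
    · right
      obtain ⟨β, hβ, h1⟩ := hR v hv
      refine ⟨β, hβ, h1, ?_⟩
      rw [map_inv₀, map_sub, map_natCast]
      refine (h1.sub (Plc.val_natCast a)).inv ?_
      rw [← map_natCast ((pl v).iot A.j), ← map_sub]
      refine (map_ne_zero _).2 (sub_ne_zero.2 ?_)
      rintro rfl
      exact ha hβ
    · left
      refine ⟨hv, Plc.val_inv_of_notMem (fun h => hv ?_)⟩
      have := add_mem h (natCast_mem (pl v).W a)
      rwa [sub_add_cancel] at this
  have hu : DSet A pl (x - (a : M))⁻¹ := by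
    refine ⟨inv_mem (sub_mem hx (natCast_mem A.fix a)), fun v => ?_, insert 0
      (R.image (fun β => (β - (a : AlgebraicClosure K))⁻¹)), fun v _ => ?_⟩
    · rcases hval v with ⟨-, h⟩ | ⟨β, -, -, h⟩
      · exact h.mem
      · exact h.mem
    · rcases hval v with ⟨-, h⟩ | ⟨β, hβ, -, h⟩
      · refine ⟨0, Finset.mem_insert_self _ _, ?_⟩
        rw [map_zero]
        exact h
      · exact ⟨_, Finset.mem_insert_of_mem (Finset.mem_image_of_mem _ hβ), h⟩
  have h1 : ∀ᶠ v in (U : Filter (I)), ∃ β ∈ R,
      (∃ c : K, algebraMap K (AlgebraicClosure K) c = β) ∧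
      (pl v).val x ((pl v).iot A.j β) := by
    filter_upwards [hU _ hu, hxW] with v h1 h2
    rcases hval v with ⟨h3, -⟩ | ⟨β, hβ, h3, h4⟩
    · exact absurd h2 h3
    · refine ⟨β, hβ, ?_, h3⟩
      obtain ⟨c, hc⟩ := h1
      have h5 := h4.unique hc
      have h6 : (β - (a : AlgebraicClosure K))⁻¹ = algebraMap K (AlgebraicClosure K) c := by
        have h7 : (pl v).iot A.j (β - (a : AlgebraicClosure K))⁻¹ =
            (pl v).iot A.j (algebraMap K (AlgebraicClosure K) c) := by
          rw [h5, ((pl v).iot A.j).commutes c]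
        exact ((pl v).iot A.j).injective h7
      refine ⟨(a : K) + c⁻¹, ?_⟩
      rw [map_add, map_natCast, map_inv₀, ← h6, inv_inv]
      ring
  obtain ⟨β, hβ, h2⟩ : ∃ β ∈ R, ∀ᶠ v in (U : Filter (I)),
      ((∃ c : K, algebraMap K (AlgebraicClosure K) c = β) ∧
      (pl v).val x ((pl v).iot A.j β)) := by
    have h3 : (⋃ β ∈ (R : Set (AlgebraicClosure K)), {v |
        (∃ c : K, algebraMap K (AlgebraicClosure K) c = β) ∧
        (pl v).val x ((pl v).iot A.j β)}) ∈ U := by
      filter_upwards [h1] with v hv
      obtain ⟨β, hβ, h⟩ := hv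
      exact Set.mem_iUnion₂.2 ⟨β, hβ, h⟩
    obtain ⟨β, hβ, h4⟩ := (Ultrafilter.finite_biUnion_mem_iff R.finite_toSet).1 h3
    exact ⟨β, hβ, h4⟩
  obtain ⟨v0, ⟨c, hc⟩, -⟩ := h2.exists
  refine ⟨c, ?_⟩
  filter_upwards [h2] with v hv
  have h4 := hv.2
  rw [← hc, ((pl v).iot A.j).commutes c] at h4
  exact h4

/-- the limit ring is stable under the action -/
theorem limW_stable (hU : ∀ u, DSet A pl u →
      ∀ᶠ v in (U : Filter (I)), Rat pl u v)
    (hfin : ∀ x : M, FinVal A pl x) (τ : AlgebraicClosure K ≃ₐ[K] AlgebraicClosure K) {x : M}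
    (hx : x ∈ limW pl U) : A.s τ x ∈ limW pl U := by
  classical
  obtain ⟨θ, y, hy, hxy⟩ := A.descend x
  have hint : IsIntegral K θ := (Algebra.IsAlgebraic.isAlgebraic θ).isIntegral
  have hd : 0 < (minpoly K θ).natDegree := minpoly.natDegree_pos hint
  have : Nonempty (Fin (minpoly K θ).natDegree) := ⟨⟨0, hd⟩⟩
  have hyW : ∀ i, y i ∈ limW pl U := by
    obtain ⟨i0, hi0⟩ := Finite.exists_max (fun i => (limW pl U).valuation (y i))
    by_cases h0 : y i0 = 0
    · intro i
      have h1 := hi0 i
      change (limW pl U).valuation (y i) ≤ (limW pl U).valuation (y i0) at h1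
      rw [h0, map_zero] at h1
      have h2 : (limW pl U).valuation (y i) = 0 := le_antisymm h1 zero_le
      rw [(map_eq_zero _).1 h2]
      exact zero_mem _
    · have hz : ∀ i, y i / y i0 ∈ limW pl U := by
        intro i
        rw [← ValuationSubring.valuation_le_one_iff, map_div₀]
        exact div_le_one_of_le₀ (hi0 i) zero_le
      have hzf : ∀ i, y i / y i0 ∈ A.fix := fun i => div_mem (hy i) (hy i0)
      choose c hc using fun i => exists_value hU (hzf i) (hfin _) (hz i)
      have hc0 : c i0 = 1 := by
        obtain ⟨v, hv⟩ := (hc i0).exists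
        rw [div_self h0] at hv
        have := hv.unique Plc.val_one
        rw [← map_one (algebraMap K (AlgebraicClosure (L v)))] at this
        exact (algebraMap K (AlgebraicClosure (L v))).injective this
      have hlin : ∑ i, algebraMap K (AlgebraicClosure K) (c i) * θ ^ (i : ℕ) ≠ 0 := by
        intro hs
        have hli := linearIndependent_pow (K := K) θ
        rw [Fintype.linearIndependent_iff] at hli
        have := hli c (by
          simp only [Algebra.smul_def]
          exact hs) i0
        rw [hc0] at this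
        exact one_ne_zero this
      have hxz : (x / y i0)⁻¹ ∈ limW pl U := by
        have h1 : ∀ᶠ v in (U : Filter (I)), ∀ i,
            (pl v).val (y i / y i0)
              (algebraMap K (AlgebraicClosure (L v)) (c i)) :=
          Filter.eventually_all.2 hc
        rw [mem_limW]
        filter_upwards [h1] with v hv
        have h2 : (pl v).val (x / y i0)
            ((pl v).iot A.j (∑ i, algebraMap K (AlgebraicClosure K) (c i) * θ ^ (i : ℕ))) := by
          have e : x / y i0 = ∑ i, (y i / y i0) * A.j (θ ^ (i : ℕ)) := by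
            rw [hxy, Finset.sum_div]
            exact Finset.sum_congr rfl (fun i _ => by ring)
          rw [e, map_sum]
          refine Plc.val_sum _ (fun i _ => ?_)
          rw [map_mul, ((pl v).iot A.j).commutes]
          exact (hv i).mul (Plc.val_j A.j _)
        exact (h2.inv ((map_ne_zero _).2 hlin)).mem
      have hy0 : y i0 ∈ limW pl U := by
        by_cases hx0 : x = 0
        · exfalso
          -- the inverse of zero is in the ring, use linear independence directly
          have h1 : ∀ᶠ v in (U : Filter (I)), ∀ i,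
              (pl v).val (y i / y i0)
                (algebraMap K (AlgebraicClosure (L v)) (c i)) :=
            Filter.eventually_all.2 hc
          obtain ⟨v, hv⟩ := h1.exists
          have h2 : (pl v).val (x / y i0)
              ((pl v).iot A.j (∑ i, algebraMap K (AlgebraicClosure K) (c i) * θ ^ (i : ℕ))) := by
            have e : x / y i0 = ∑ i, (y i / y i0) * A.j (θ ^ (i : ℕ)) := by
              rw [hxy, Finset.sum_div]
              exact Finset.sum_congr rfl (fun i _ => by ring)
            rw [e, map_sum]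
            refine Plc.val_sum _ (fun i _ => ?_)
            rw [map_mul, ((pl v).iot A.j).commutes]
            exact (hv i).mul (Plc.val_j A.j _)
          rw [hx0, zero_div] at h2
          exact (map_ne_zero ((pl v).iot A.j)).2 hlin (h2.unique Plc.val_zero)
        · have h3 := mul_mem hx hxz
          have e : x * (x / y i0)⁻¹ = y i0 := by
            field_simp
          rwa [e] at h3
      intro i
      have h3 := mul_mem (hz i) hy0
      rwa [div_mul_cancel₀ _ h0] at h3
  rw [hxy, map_sum]
  refine sum_mem (fun i _ => ?_)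
  rw [map_mul, hy i τ, A.hj]
  exact mul_mem (hyW i) (j_mem_limW _)

end Pool.Agent.Y791.BF
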