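import Pool.Agent.TH954.SFinV
import Pool.Agent.Y791.BF.Defs

/-!
# Values at a family of places, and the set of elements with few values

The arguments of `Pool.Agent.TH954.SVal`, `SUlt`, `SFinV` and `SUni` for arbitrary base fields and
families of places.
-/

set_option autoImplicit false
set_option linter.unusedSectionVars false

namespace Pool.Agent.Y791.BF

open Pool.Agent.TH954
open scoped IntermediateField.algebraAdjoinAdjoin

section

variable {K : Type} [Field K] [CharZero K]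

/-- a Galois stable finite set containing a given one -/
lemma exists_stable (R : Finset (AlgebraicClosure K)) :
    ∃ R' : Finset (AlgebraicClosure K), R ⊆ R' ∧
      ∀ σ : AlgebraicClosure K ≃ₐ[K] AlgebraicClosure K, ∀ θ ∈ R', σ θ ∈ R' := by
  classical
  refine ⟨R.biUnion (fun β => ((minpoly K β).aroots (AlgebraicClosure K)).toFinset), ?_, ?_⟩
  · intro β hβ
    rw [Finset.mem_biUnion]
    refine ⟨β, hβ, ?_⟩
    rw [Multiset.mem_toFinset, Polynomial.mem_aroots]
    exact ⟨minpoly.ne_zero (Algebra.IsIntegral.isIntegral β), minpoly.aeval K β⟩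
  · intro σ θ hθ
    rw [Finset.mem_biUnion] at hθ ⊢
    obtain ⟨β, hβ, h⟩ := hθ
    refine ⟨β, hβ, ?_⟩
    rw [Multiset.mem_toFinset, Polynomial.mem_aroots] at h ⊢
    refine ⟨h.1, ?_⟩
    have h1 : Polynomial.aeval (σ θ) (minpoly K β) =
        σ (Polynomial.aeval θ (minpoly K β)) := Polynomial.aeval_algHom_apply
          (σ : AlgebraicClosure K →ₐ[K] AlgebraicClosure K) θ _
    rw [h1, h.2, map_zero]

variable {I : Type*} {L : I → Type} [∀ i, Field (L i)] [∀ i, Algebra K (L i)]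
variable {M : Type} [Field M] [Algebra K M] (A : SAct K M)
  (pl : ∀ v : I, Plc K M (AlgebraicClosure (L v)))

/-- elements with finitely many values, which are algebraic over `K` -/
def FinVal (x : M) : Prop := ∃ R : Finset (AlgebraicClosure K), ∀ v, x ∈ (pl v).W →
  ∃ β ∈ R, (pl v).val x ((pl v).iot A.j β)

/-- elements of the fixed field which are everywhere integral and have finitely many values -/
def DSet (u : M) : Prop := u ∈ A.fix ∧ (∀ v, u ∈ (pl v).W) ∧ FinVal A pl u

/-- the value is in `K` -/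
def Rat (u : M) (v : I) : Prop :=
  ∃ c : K, (pl v).val u (algebraMap K (AlgebraicClosure (L v)) c)

variable {A pl}

/-- elements of `DSet` have a rational value -/
theorem DSet.exists_rat [IsAlgClosed M] (hobs : Obs K L) (hpl : ∀ v, GeoPlc A (pl v)) {u : M} (hu : DSet A pl u) :
    ∃ v, Rat pl u v := by
  classical
  obtain ⟨huf, huW, R, hR⟩ := hu
  obtain ⟨R', hRR', hR'⟩ := exists_stable R
  obtain ⟨l, a, hl, hob⟩ := hobs (R'.filter (fun θ =>
    ∃ σ : AlgebraicClosure K ≃ₐ[K] AlgebraicClosure K, σ θ ≠ θ)) (by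
      intro σ θ hθ
      rw [Finset.mem_filter] at hθ ⊢
      obtain ⟨h1, σ', h2⟩ := hθ
      refine ⟨hR' σ θ h1, σ * σ' * σ⁻¹, fun h3 => h2 ?_⟩
      have h4 : (σ * σ' * σ⁻¹) (σ θ) = σ (σ' θ) := by
        change σ (σ' (σ.symm (σ θ))) = _
        rw [σ.symm_apply_apply]
      rw [h4] at h3
      exact σ.injective h3) (fun θ hθ => (Finset.mem_filter.1 hθ).2)
  by_cases hua : u = algebraMap K M a
  · obtain ⟨v, -⟩ := hob 1 one_ne_zero
    refine ⟨v, a, ?_⟩
    rw [hua]
    exact Plc.val_alg a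
  · obtain ⟨c, hc, g, hg, hfg⟩ := A.kummer (f := u - algebraMap K M a)
      (sub_mem huf (A.fix.algebraMap_mem a)) (sub_ne_zero.2 hua) (n := l) (by omega)
    obtain ⟨v, hv⟩ := hob c hc
    refine ⟨v, ?_⟩
    have : CharZero (L v) :=
      charZero_of_injective_algebraMap (algebraMap K (L v)).injective
    obtain ⟨β, hβ, hval⟩ := hR v (huW v)
    by_cases hfix : ∀ σ : AlgebraicClosure K ≃ₐ[K] AlgebraicClosure K, σ β = β
    · obtain ⟨c', hc'⟩ := base_of_fixed hfix
      refine ⟨c', ?_⟩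
      rw [← hc'] at hval
      rw [← ((pl v).iot A.j).commutes c']
      exact hval
    · exfalso
      push Not at hfix
      have hgl : g ^ l = (u - algebraMap K M a) * algebraMap K M c⁻¹ := by
        rw [hfg, map_inv₀]
        field_simp [(map_ne_zero (algebraMap K M)).2 hc]
      have hgW : g ∈ (pl v).W := by
        apply Plc.mem_of_pow_mem (n := l) (by omega)
        rw [hgl]
        exact mul_mem (sub_mem (huW v) ((pl v).alg_mem a)) ((pl v).alg_mem _)
      obtain ⟨z, hz⟩ := value_base A (hpl v) hg hgW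
      refine hv ((pl v).iot A.j) β (Finset.mem_filter.2 ⟨hRR' hβ, hfix⟩) z ?_
      have h1 : (pl v).val (u - algebraMap K M a)
          ((pl v).iot A.j β - algebraMap K (AlgebraicClosure (L v)) a) :=
        hval.sub (Plc.val_alg a)
      have h2 : (pl v).val (algebraMap K M c * g ^ l)
          (algebraMap K (AlgebraicClosure (L v)) c *
            (algebraMap (L v) (AlgebraicClosure (L v)) z) ^ l) :=
        (Plc.val_alg c).mul (Plc.val.pow ⟨hgW, hz.symm⟩ l)
      rw [← hfg] at h2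
      have h3 := h1.unique h2
      rw [map_sub, ((pl v).iot A.j).commutes a, h3, map_mul, map_pow,
        ← IsScalarTower.algebraMap_apply]

/-- two elements of `DSet` can be combined -/
theorem DSet.combine {u1 u2 : M} (h1 : DSet A pl u1) (h2 : DSet A pl u2) :
    ∃ u, DSet A pl u ∧ ∀ v, Rat pl u v → Rat pl u1 v ∧ Rat pl u2 v := by
  classical
  obtain ⟨hf1, hW1, R1, hR1⟩ := h1
  obtain ⟨hf2, hW2, R2, hR2⟩ := h2
  obtain ⟨R1', hRR1, hs1⟩ := exists_stable R1
  obtain ⟨R2', hRR2, hs2⟩ := exists_stable R2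
  obtain ⟨B, hB⟩ : ∃ B : ℕ, (B : AlgebraicClosure K) ∉
      ((R1' ×ˢ R1') ×ˢ (R2' ×ˢ R2')).image
        (fun p => -((p.1.1 - p.1.2) / (p.2.1 - p.2.2))) := by
    have h3 : (Set.range (Nat.cast : ℕ → AlgebraicClosure K)).Infinite :=
      Set.infinite_range_of_injective Nat.cast_injective
    obtain ⟨x, ⟨B, rfl⟩, hx⟩ := h3.exists_notMem_finset
      (((R1' ×ˢ R1') ×ˢ (R2' ×ˢ R2')).image
        (fun p => -((p.1.1 - p.1.2) / (p.2.1 - p.2.2))))
    exact ⟨B, hx⟩
  refine ⟨u1 + (B : M) * u2, ⟨?_, ?_, ?_⟩, ?_⟩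
  · exact add_mem hf1 (mul_mem (natCast_mem A.fix B) hf2)
  · intro v
    exact add_mem (hW1 v) (mul_mem (natCast_mem (pl v).W B) (hW2 v))
  · refine ⟨(R1 ×ˢ R2).image (fun p => p.1 + (B : AlgebraicClosure K) * p.2), fun v _ => ?_⟩
    obtain ⟨β1, hβ1, hv1⟩ := hR1 v (hW1 v)
    obtain ⟨β2, hβ2, hv2⟩ := hR2 v (hW2 v)
    refine ⟨_, Finset.mem_image.2 ⟨(β1, β2), Finset.mem_product.2 ⟨hβ1, hβ2⟩, rfl⟩, ?_⟩
    rw [map_add, map_mul, map_natCast]
    exact hv1.add ((Plc.val_natCast B).mul hv2)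
  · rintro v ⟨c, hc⟩
    obtain ⟨β1, hβ1, hv1⟩ := hR1 v (hW1 v)
    obtain ⟨β2, hβ2, hv2⟩ := hR2 v (hW2 v)
    have h3 := (hv1.add ((Plc.val_natCast (pl := pl v) B).mul hv2)).unique hc
    have h4 : β1 + (B : AlgebraicClosure K) * β2 = algebraMap K (AlgebraicClosure K) c := by
      have h4' : (pl v).iot A.j (β1 + (B : AlgebraicClosure K) * β2) =
          (pl v).iot A.j (algebraMap K (AlgebraicClosure K) c) := by
        rw [map_add, map_mul, map_natCast, h3, ((pl v).iot A.j).commutes c]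
      exact ((pl v).iot A.j).injective h4'
    have h5 : ∀ σ : AlgebraicClosure K ≃ₐ[K] AlgebraicClosure K, σ β2 = β2 := by
      intro σ
      by_contra hne
      apply hB
      refine Finset.mem_image.2 ⟨((σ β1, β1), (σ β2, β2)), ?_, ?_⟩
      · simp only [Finset.mem_product]
        exact ⟨⟨hs1 σ _ (hRR1 hβ1), hRR1 hβ1⟩, ⟨hs2 σ _ (hRR2 hβ2), hRR2 hβ2⟩⟩
      · have h6 := congrArg σ h4
        rw [map_add, map_mul, map_natCast, σ.commutes, ← h4] at h6
        have h7 : σ β2 - β2 ≠ 0 := sub_ne_zero.2 hne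
        change -((σ β1 - β1) / (σ β2 - β2)) = (B : AlgebraicClosure K)
        rw [neg_eq_iff_eq_neg, div_eq_iff h7]
        linear_combination h6
    have h6 : ∀ σ : AlgebraicClosure K ≃ₐ[K] AlgebraicClosure K, σ β1 = β1 := by
      intro σ
      have h6 := congrArg σ h4
      rw [map_add, map_mul, map_natCast, σ.commutes, ← h4, h5 σ] at h6
      exact add_right_cancel h6
    obtain ⟨c1, hc1⟩ := base_of_fixed h6
    obtain ⟨c2, hc2⟩ := base_of_fixed h5
    refine ⟨⟨c1, ?_⟩, ⟨c2, ?_⟩⟩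
    · rw [← ((pl v).iot A.j).commutes c1, hc1]
      exact hv1
    · rw [← ((pl v).iot A.j).commutes c2, hc2]
      exact hv2

lemma DSet.zero : DSet A pl (0 : M) := by
  refine ⟨zero_mem _, fun v => zero_mem _, {0}, fun v _ => ⟨0, Finset.mem_singleton_self _, ?_⟩⟩
  rw [map_zero]
  exact Plc.val_zero

/-- the ultrafilter -/
theorem exists_ultra [IsAlgClosed M] (hobs : Obs K L) (hpl : ∀ v, GeoPlc A (pl v)) :
    ∃ U : Ultrafilter (I), ∀ u, DSet A pl u →
      ∀ᶠ v in (U : Filter (I)), Rat pl u v := by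
  have : Nonempty {u : M // DSet A pl u} := ⟨⟨0, DSet.zero⟩⟩
  let f : {u : M // DSet A pl u} → Filter (I) :=
    fun u => Filter.principal {v | Rat pl u.1 v}
  have hne : (⨅ u, f u).NeBot := by
    apply Filter.iInf_neBot_of_directed'
    · rintro ⟨u1, h1⟩ ⟨u2, h2⟩
      obtain ⟨u, hu, h⟩ := h1.combine h2
      refine ⟨⟨u, hu⟩, ?_, ?_⟩
      · exact Filter.principal_mono.2 (fun v hv => (h v hv).1)
      · exact Filter.principal_mono.2 (fun v hv => (h v hv).2)
    · rintro ⟨u, hu⟩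
      obtain ⟨v, hv⟩ := hu.exists_rat hobs hpl
      exact Filter.principal_neBot_iff.2 ⟨v, hv⟩
  refine ⟨Ultrafilter.of (⨅ u, f u), fun u hu => ?_⟩
  have h1 : (Ultrafilter.of (⨅ u, f u) : Filter (I)) ≤ f ⟨u, hu⟩ :=
    (Ultrafilter.of_le _).trans (iInf_le f ⟨u, hu⟩)
  exact h1 (Filter.mem_principal_self _)

end

end Pool.Agent.Y791.BF
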