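import Pool.Agent.Y791.BF.Lev
import Pool.Agent.Y791.BS.Short

/-!
# Values of points of hyperelliptic curves over a level and of their conjugates
-/

set_option autoImplicit false
set_option linter.unusedSectionVars false

open Polynomial WeierstrassCurve IsDedekindDomain NumberField

namespace Pool.Agent.Y791.BF

open Pool.Agent.TH942 Pool.Agent.TH954 Pool.Agent.Y791.BS

section three

variable (hEmb : S_EmbFG) (hUnr : S_Unr) (hInter : S_Inter2)
    {k : Type} [Field k] [CharZero k] {M : Type} [Field M] [CharZero M] [IsAlgClosed M]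
    [Algebra k M] (A : SAct k M) (pl : ∀ i : PlF k, Plc k M (AlgebraicClosure i.Lv))
    (hpl : ∀ i, GeoPlc A (pl i)) (E : Lvl k)
    (γ : AlgebraicClosure k ≃ₐ[k] AlgebraicClosure k) (hγ : ∀ w, E.IsCst w → γ w = w)

/-- the image of a constant -/
noncomputable def jc (c : E.K) : M := A.j (E.cst c)

lemma jc_add (c d : E.K) : jc A E (c + d) = jc A E c + jc A E d := by simp [jc]
lemma jc_mul (c d : E.K) : jc A E (c * d) = jc A E c * jc A E d := by simp [jc]
lemma jc_sub (c d : E.K) : jc A E (c - d) = jc A E c - jc A E d := by simp [jc]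
lemma jc_pow (c : E.K) (n : ℕ) : jc A E (c ^ n) = jc A E c ^ n := by simp [jc]
lemma jc_inv (c : E.K) : jc A E c⁻¹ = (jc A E c)⁻¹ := by simp [jc]
lemma jc_zero : jc A E 0 = 0 := by simp [jc]
lemma jc_ne {c : E.K} (hc : c ≠ 0) : jc A E c ≠ 0 := by
  unfold jc
  exact (_root_.map_ne_zero _).2 ((_root_.map_ne_zero _).2 hc)
lemma jc_inj {c d : E.K} (h : jc A E c = jc A E d) : c = d :=
  E.cst.injective (A.j.injective h)

include hγ in
lemma s_jc (c : E.K) : A.s γ (jc A E c) = jc A E c := by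
  unfold jc
  rw [A.hj, tw_cst hγ]

lemma fixed_jc (c : E.K) : E.Fixed A (jc A E c) := by
  intro τ hτ
  unfold jc
  rw [A.hj]
  congr 1
  exact hτ _

lemma jc_mem (i : PlF k) (c : E.K) : jc A E c ∈ (pl i).W :=
  ((pl i).iot_spec A.j (E.cst c)).1

lemma Fixed.mul {A : SAct k M} {E : Lvl k} {x y : M} (hx : E.Fixed A x) (hy : E.Fixed A y) :
    E.Fixed A (x * y) := fun τ hτ => by rw [map_mul, hx τ hτ, hy τ hτ]

lemma Fixed.add {A : SAct k M} {E : Lvl k} {x y : M} (hx : E.Fixed A x) (hy : E.Fixed A y) :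
    E.Fixed A (x + y) := fun τ hτ => by rw [map_add, hx τ hτ, hy τ hτ]

lemma Fixed.sub {A : SAct k M} {E : Lvl k} {x y : M} (hx : E.Fixed A x) (hy : E.Fixed A y) :
    E.Fixed A (x - y) := fun τ hτ => by rw [map_sub, hx τ hτ, hy τ hτ]

lemma Fixed.inv {A : SAct k M} {E : Lvl k} {x : M} (hx : E.Fixed A x) :
    E.Fixed A x⁻¹ := fun τ hτ => by rw [map_inv₀, hx τ hτ]

lemma Fixed.pow {A : SAct k M} {E : Lvl k} {x : M} (hx : E.Fixed A x) (n : ℕ) :
    E.Fixed A (x ^ n) := fun τ hτ => by rw [map_pow, hx τ hτ]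

/-- a cubic polynomial with three given roots -/
lemma cubic_sep {F : Type} [Field F] {d t1 t2 t3 : F} (hd : d ≠ 0) (h12 : t1 ≠ t2) (h13 : t1 ≠ t3)
    (h23 : t2 ≠ t3) :
    (C d * ((X - C t1) * (X - C t2) * (X - C t3)) : F[X]).Separable ∧
      (C d * ((X - C t1) * (X - C t2) * (X - C t3)) : F[X]).natDegree = 3 := by
  have hc : ∀ {s t : F}, s ≠ t → IsCoprime (X - C s : F[X]) (X - C t) := fun h =>
    isCoprime_X_sub_C_of_isUnit_sub (sub_ne_zero.2 h).isUnit
  constructor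
  · refine Separable.unit_mul (isUnit_C.2 hd.isUnit) ?_
    refine (separable_X_sub_C.mul separable_X_sub_C (hc h12)).mul separable_X_sub_C ?_
    exact (hc h13).mul_left (hc h23)
  · rw [natDegree_C_mul hd, natDegree_mul (mul_ne_zero (X_sub_C_ne_zero _) (X_sub_C_ne_zero _))
      (X_sub_C_ne_zero _), natDegree_mul (X_sub_C_ne_zero _) (X_sub_C_ne_zero _),
      natDegree_X_sub_C, natDegree_X_sub_C, natDegree_X_sub_C]

variable (i : PlF k)

lemma val_jc (c : E.K) : (pl i).val (jc A E c) ((pl i).iot A.j (E.cst c)) :=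
  Plc.val_j A.j (E.cst c)

lemma iot_ne {c : E.K} (hc : c ≠ 0) : (pl i).iot A.j (E.cst c) ≠ 0 :=
  (_root_.map_ne_zero _).2 ((_root_.map_ne_zero _).2 hc)

/-- values after a linear substitution -/
lemma val_lin {p q : E.K} (hp : p ≠ 0) {x : M} {c : AlgebraicClosure i.Lv}
    (h : (pl i).val (jc A E p * x + jc A E q) c) :
    (pl i).val x ((c - (pl i).iot A.j (E.cst q)) * ((pl i).iot A.j (E.cst p))⁻¹) := by
  have h1 := (h.sub (val_jc A pl E i q)).mul
    ((val_jc A pl E i p).inv (iot_ne A pl E i hp))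
  have e : (jc A E p * x + jc A E q - jc A E q) * (jc A E p)⁻¹ = x := by
    rw [add_sub_cancel_right, mul_comm, ← mul_assoc, inv_mul_cancel₀ (jc_ne A E hp), one_mul]
  rwa [e] at h1

lemma mem_lin {p q : E.K} (hp : p ≠ 0) {x : M} :
    jc A E p * x + jc A E q ∈ (pl i).W ↔ x ∈ (pl i).W := by
  constructor
  · intro h
    obtain ⟨c, hc⟩ := Plc.val_of_mem h
    exact (val_lin A pl E i hp hc).mem
  · intro h
    exact add_mem (mul_mem (jc_mem A pl E i p) h) (jc_mem A pl E i q)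

include hEmb hUnr hInter hpl hγ in
/-- three differences with constant classes -/
theorem three {x : M} (hx : E.Fixed A x) {t1 t2 t3 d1 d2 d3 : E.K} (h12 : t1 ≠ t2)
    (h13 : t1 ≠ t3) (h23 : t2 ≠ t3) (hd1 : d1 ≠ 0) (hd2 : d2 ≠ 0) (hd3 : d3 ≠ 0) {g1 g2 g3 : M}
    (hg1 : E.Fixed A g1) (hg2 : E.Fixed A g2) (hg3 : E.Fixed A g3)
    (e1 : x - jc A E t1 = jc A E d1 * g1 ^ 2) (e2 : x - jc A E t2 = jc A E d2 * g2 ^ 2)
    (e3 : x - jc A E t3 = jc A E d3 * g3 ^ 2) :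
    (∀ i, (x ∈ (pl i).W → ∃ c, (pl i).val x c ∧ (pl i).val (A.s γ x) c) ∧
    (x ∉ (pl i).W → A.s γ x ∉ (pl i).W) ∧
    (x ∈ (pl i).W → ∃ d, (pl i).val (g1 * g2 * g3) d ∧
      (pl i).val (A.s γ (g1 * g2 * g3)) d)) ∧
    (¬ (A.s γ x = x ∧ A.s γ (g1 * g2 * g3) = g1 * g2 * g3) →
      ∃ t : M, t ≠ 0 ∧ ∀ i, (pl i).val t 0) := by
  have hd : (d1 * d2 * d3)⁻¹ ≠ 0 := inv_ne_zero (mul_ne_zero (mul_ne_zero hd1 hd2) hd3)
  obtain ⟨hsep, hdeg⟩ := cubic_sep hd h12 h13 h23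
  obtain ⟨a, b, p, q, hD, hp, hid⟩ := exists_short0 _ hsep hdeg
  have hid' : (jc A E p * x + jc A E q) ^ 3 + jc A E a * (jc A E p * x + jc A E q) + jc A E b =
      jc A E p ^ 2 * (jc A E (d1 * d2 * d3)⁻¹ *
        ((x - jc A E t1) * (x - jc A E t2) * (x - jc A E t3))) := by
    have h := congrArg (eval₂ ((A.j : AlgebraicClosure k →+* M).comp E.cst) x) hid
    simp only [eval₂_add, eval₂_mul, eval₂_pow, eval₂_sub, eval₂_X, eval₂_C, map_pow] at h
    exact h
  have hxy : (jc A E p * (g1 * g2 * g3)) ^ 2 = (jc A E p * x + jc A E q) ^ 3 +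
      jc A E a * (jc A E p * x + jc A E q) + jc A E b := by
    have n1 := jc_ne A E hd1
    have n2 := jc_ne A E hd2
    have n3 := jc_ne A E hd3
    rw [hid', e1, e2, e3, jc_inv, jc_mul, jc_mul]
    field_simp
  have hX : E.Fixed A (jc A E p * x + jc A E q) :=
    Fixed.add (Fixed.mul (fixed_jc A E p) hx) (fixed_jc A E q)
  have hY : E.Fixed A (jc A E p * (g1 * g2 * g3)) :=
    Fixed.mul (fixed_jc A E p) (Fixed.mul (Fixed.mul hg1 hg2) hg3)
  obtain ⟨k12, k0⟩ := level_point hEmb hUnr hInter A pl hpl E γ hγ hD hX hY hxy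
  have es : A.s γ (jc A E p * x + jc A E q) = jc A E p * A.s γ x + jc A E q := by
    rw [map_add, map_mul, s_jc A E γ hγ, s_jc A E γ hγ]
  have es2 : A.s γ (jc A E p * (g1 * g2 * g3)) = jc A E p * A.s γ (g1 * g2 * g3) := by
    rw [map_mul, s_jc A E γ hγ]
  refine ⟨fun i => ?_, fun hne => k0 (fun hh => hne ?_)⟩
  swap
  · rw [es, es2] at hh
    exact ⟨mul_left_cancel₀ (jc_ne A E hp) (add_right_cancel hh.1),
      mul_left_cancel₀ (jc_ne A E hp) hh.2⟩
  obtain ⟨k1, k2⟩ := k12 i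
  rw [es] at k1 k2
  rw [es2] at k1
  rw [mem_lin A pl E i hp] at k1 k2
  rw [mem_lin A pl E i hp] at k2
  refine ⟨fun h => ?_, k2, fun h => ?_⟩
  · obtain ⟨c, d, v1, v2, -, -⟩ := k1 h
    exact ⟨_, val_lin A pl E i hp v1, val_lin A pl E i hp v2⟩
  · obtain ⟨c, d, -, -, v1, v2⟩ := k1 h
    have hz : jc A E 0 = 0 := jc_zero A E
    have f1 : ∀ z : M, jc A E p * z = jc A E p * z + jc A E 0 := fun z => by rw [hz, add_zero]
    rw [f1] at v1 v2
    exact ⟨_, val_lin A pl E i hp v1, val_lin A pl E i hp v2⟩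

/-- three signs with product `-1` -/
lemma exists_signs {ι : Type} (R : Finset ι) (s : ι → M)
    (hs : ∀ t ∈ R, s t = 1 ∨ s t = -1) (hR : 3 ≤ R.card) (hprod : ∏ t ∈ R, s t = -1) :
    ∃ t1 ∈ R, ∃ t2 ∈ R, ∃ t3 ∈ R, t1 ≠ t2 ∧ t1 ≠ t3 ∧ t2 ≠ t3 ∧ s t1 * s t2 * s t3 = -1 := by
  classical
  set N := R.filter (fun t => s t = -1) with hN
  have h1 : ∏ t ∈ R, s t = (-1) ^ N.card := by
    rw [← Finset.prod_filter_mul_prod_filter_not R (fun t => s t = -1)]
    have e1 : ∏ t ∈ R.filter (fun t => s t = -1), s t = (-1) ^ N.card := by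
      rw [Finset.prod_congr rfl (fun t ht => (Finset.mem_filter.1 ht).2), Finset.prod_const]
    have e2 : ∏ t ∈ R.filter (fun t => ¬ s t = -1), s t = 1 := by
      apply Finset.prod_eq_one
      intro t ht
      rw [Finset.mem_filter] at ht
      exact (hs t ht.1).resolve_right ht.2
    rw [e1, e2, mul_one]
  have hodd : ¬ Even N.card := by
    intro he
    rw [h1, he.neg_one_pow] at hprod
    have : (2 : M) = 0 := by linear_combination hprod
    exact two_ne_zero this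
  rw [Nat.not_even_iff_odd] at hodd
  by_cases h3 : 2 < N.card
  · obtain ⟨a, ha, b, hb, c, hc, hab, hac, hbc⟩ := Finset.two_lt_card.1 h3
    rw [hN, Finset.mem_filter] at ha hb hc
    refine ⟨a, ha.1, b, hb.1, c, hc.1, hab, hac, hbc, ?_⟩
    rw [ha.2, hb.2, hc.2]
    ring
  · have h4 : N.card = 1 := by
      obtain ⟨m, hm⟩ := hodd
      omega
    obtain ⟨a, ha⟩ := Finset.card_eq_one.1 h4
    have haN : a ∈ N := by rw [ha]; exact Finset.mem_singleton_self a
    have haN' := haN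
    rw [hN, Finset.mem_filter] at haN'
    have h5 : 1 < (R.erase a).card := by
      rw [Finset.card_erase_of_mem haN'.1]
      omega
    obtain ⟨b, hb, c, hc, hbc⟩ := Finset.one_lt_card.1 h5
    rw [Finset.mem_erase] at hb hc
    have hN1 : ∀ t ∈ R, t ≠ a → s t = 1 := by
      intro t ht hta
      refine (hs t ht).resolve_right (fun h => hta ?_)
      have : t ∈ N := by rw [hN, Finset.mem_filter]; exact ⟨ht, h⟩
      rw [ha, Finset.mem_singleton] at this
      exact this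
    refine ⟨a, haN'.1, b, hb.2, c, hc.2, hb.1.symm, hc.1.symm, hbc, ?_⟩
    rw [haN'.2, hN1 b hb.2 hb.1, hN1 c hc.2 hc.1]
    ring

include hEmb hUnr hInter hpl hγ in
/-- the case of an odd number of roots -/
theorem odd_case (hT : S_TypesL) (R : Finset E.K) (c : E.K) (hc : c ≠ 0) (hodd : ¬ 2 ∣ R.card)
    (h3 : 3 ≤ R.card) {x y : M} (hx : E.Fixed A x) (hy : E.Fixed A y)
    (hθ : ∀ t ∈ R, x ≠ jc A E t) (hxy : y ^ 2 = jc A E c * ∏ t ∈ R, (x - jc A E t)) :
    (∀ i, (x ∈ (pl i).W → ∃ c, (pl i).val x c ∧ (pl i).val (A.s γ x) c) ∧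
    (x ∉ (pl i).W → A.s γ x ∉ (pl i).W) ∧
    (A.s γ x = x → A.s γ y = -y → x ∈ (pl i).W → (pl i).val y 0)) ∧
    (¬ (A.s γ x = x ∧ A.s γ y = y) → ∃ t : M, t ≠ 0 ∧ ∀ i, (pl i).val t 0) := by
  classical
  have hcls : ∀ t : E.K, ∃ (d : E.K) (g : M), t ∈ R → d ≠ 0 ∧ E.Fixed A g ∧
      x - jc A E t = jc A E d * g ^ 2 := by
    intro t
    by_cases ht : t ∈ R
    · obtain ⟨d, g, h⟩ := hT k M A pl hpl E 2 Nat.prime_two R c hc hodd x y hx hy hθ hxy t ht
      exact ⟨d, g, fun _ => h⟩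
    · exact ⟨0, 0, fun h => absurd h ht⟩
  choose d g hdg using hcls
  have hthree : ∀ {t1 t2 t3 : E.K}, t1 ∈ R → t2 ∈ R → t3 ∈ R → t1 ≠ t2 → t1 ≠ t3 → t2 ≠ t3 →
      (∀ i, (x ∈ (pl i).W → ∃ c, (pl i).val x c ∧ (pl i).val (A.s γ x) c) ∧
      (x ∉ (pl i).W → A.s γ x ∉ (pl i).W) ∧
      (x ∈ (pl i).W → ∃ d, (pl i).val (g t1 * g t2 * g t3) d ∧
        (pl i).val (A.s γ (g t1 * g t2 * g t3)) d)) ∧
      (¬ (A.s γ x = x ∧ A.s γ (g t1 * g t2 * g t3) = g t1 * g t2 * g t3) →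
        ∃ t : M, t ≠ 0 ∧ ∀ i, (pl i).val t 0) := by
    intro t1 t2 t3 m1 m2 m3 h12 h13 h23
    obtain ⟨a1, b1, c1⟩ := hdg t1 m1
    obtain ⟨a2, b2, c2⟩ := hdg t2 m2
    obtain ⟨a3, b3, c3⟩ := hdg t3 m3
    exact three hEmb hUnr hInter A pl hpl E γ hγ hx h12 h13 h23 a1 a2 a3 b1 b2 b3 c1 c2 c3
  obtain ⟨t1, m1, t2, m2, t3, m3, h12, h13, h23⟩ :=
    Finset.two_lt_card.1 (show 2 < R.card from h3)
  obtain ⟨k12, k0⟩ := hthree m1 m2 m3 h12 h13 h23
  have hg0 : ∀ t ∈ R, g t ≠ 0 := by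
    intro t ht h0
    obtain ⟨-, -, e⟩ := hdg t ht
    rw [h0, zero_pow two_ne_zero, mul_zero, sub_eq_zero] at e
    exact hθ t ht e
  -- a triple with a change of sign
  have htri : A.s γ x = x → A.s γ y = -y → ∃ r1 ∈ R, ∃ r2 ∈ R, ∃ r3 ∈ R, r1 ≠ r2 ∧ r1 ≠ r3 ∧
      r2 ≠ r3 ∧ A.s γ (g r1 * g r2 * g r3) = -(g r1 * g r2 * g r3) := by
    intro hsx hsy
    -- signs
    have hsg : ∀ t ∈ R, A.s γ (g t) = g t ∨ A.s γ (g t) = -g t := by
      intro t ht
      obtain ⟨a1, -, e⟩ := hdg t ht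
      have h1 := congrArg (A.s γ) e
      rw [map_sub, hsx, s_jc A E γ hγ, map_mul, s_jc A E γ hγ, map_pow, e] at h1
      have h2 := mul_left_cancel₀ (jc_ne A E a1) h1
      exact sq_eq_sq_iff_eq_or_eq_neg.1 h2.symm
    set s : E.K → M := fun t => A.s γ (g t) / g t with hs
    have hs1 : ∀ t ∈ R, A.s γ (g t) = s t * g t := by
      intro t ht
      rw [hs]
      simp only
      rw [div_mul_cancel₀ _ (hg0 t ht)]
    have hs2 : ∀ t ∈ R, s t = 1 ∨ s t = -1 := by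
      intro t ht
      rw [hs]
      simp only
      rcases hsg t ht with h | h
      · left
        rw [h, div_self (hg0 t ht)]
      · right
        rw [h, neg_div, div_self (hg0 t ht)]
    -- the product of the signs
    set G : M := ∏ t ∈ R, g t with hG
    have hG0 : G ≠ 0 := Finset.prod_ne_zero_iff.2 hg0
    have hy2 : y ^ 2 = jc A E (c * ∏ t ∈ R, d t) * G ^ 2 := by
      rw [hxy, jc_mul, hG, ← Finset.prod_pow, mul_assoc]
      congr 1
      have e1 : jc A E (∏ t ∈ R, d t) = ∏ t ∈ R, jc A E (d t) := by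
        simp only [jc, map_prod]
      rw [e1, ← Finset.prod_mul_distrib]
      exact Finset.prod_congr rfl (fun t ht => (hdg t ht).2.2)
    have hc2 : c * ∏ t ∈ R, d t ≠ 0 :=
      mul_ne_zero hc (Finset.prod_ne_zero_iff.2 (fun t ht => (hdg t ht).1))
    have hy0 : y ≠ 0 := by
      rintro rfl
      rw [zero_pow two_ne_zero] at hy2
      exact mul_ne_zero (jc_ne A E hc2) (pow_ne_zero _ hG0) hy2.symm
    obtain ⟨w, hw⟩ := IsAlgClosed.exists_pow_nat_eq (E.cst (c * ∏ t ∈ R, d t)) (n := 2) (by norm_num)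
    have hwC : γ w = w := by
      apply hγ
      refine ⟨X ^ 2 - C (c * ∏ t ∈ R, d t), ?_, ?_⟩
      · exact X_pow_sub_C_ne_zero (by norm_num) _
      · rw [eval₂_sub, eval₂_pow, eval₂_X, eval₂_C, hw, sub_self]
    obtain ⟨v, hv, hyv⟩ : ∃ v : M, A.s γ v = v ∧ y = v * G := by
      have e1 : y ^ 2 = (A.j w * G) ^ 2 := by
        rw [hy2, mul_pow, ← map_pow, hw]
        rfl
      rcases sq_eq_sq_iff_eq_or_eq_neg.1 e1 with h | h
      · exact ⟨A.j w, by rw [A.hj, hwC], h⟩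
      · exact ⟨-A.j w, by rw [map_neg, A.hj, hwC], by rw [h, neg_mul]⟩
    have hsG : A.s γ G = (∏ t ∈ R, s t) * G := by
      rw [hG, map_prod, ← Finset.prod_mul_distrib]
      exact Finset.prod_congr rfl hs1
    have hprod : ∏ t ∈ R, s t = -1 := by
      rw [hyv, map_mul, hv, hsG] at hsy
      have hv0 : v ≠ 0 := by
        rintro rfl
        rw [zero_mul] at hyv
        exact hy0 hyv
      have h4 : (∏ t ∈ R, s t) * (v * G) = (-1) * (v * G) := by
        linear_combination hsy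
      exact mul_right_cancel₀ (mul_ne_zero hv0 hG0) h4
    obtain ⟨r1, n1, r2, n2, r3, n3, h12, h13, h23, hsp⟩ := exists_signs R s hs2 h3 hprod
    refine ⟨r1, n1, r2, n2, r3, n3, h12, h13, h23, ?_⟩
    rw [map_mul, map_mul, hs1 r1 n1, hs1 r2 n2, hs1 r3 n3]
    linear_combination (g r1 * g r2 * g r3) * hsp
  have hy0 : y ≠ 0 := by
    rintro rfl
    rw [zero_pow two_ne_zero] at hxy
    exact mul_ne_zero (jc_ne A E hc) (Finset.prod_ne_zero_iff.2 (fun t ht =>
      sub_ne_zero.2 (hθ t ht))) hxy.symm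
  refine ⟨fun i => ?_, fun hne => ?_⟩
  swap
  · by_cases hsx : A.s γ x = x
    · have hsy : A.s γ y = -y := by
        have h1 := congrArg (A.s γ) hxy
        rw [map_mul, map_prod, s_jc A E γ hγ, map_pow] at h1
        have h2 : ∏ t ∈ R, A.s γ (x - jc A E t) = ∏ t ∈ R, (x - jc A E t) := by
          refine Finset.prod_congr rfl (fun t _ => ?_)
          rw [map_sub, s_jc A E γ hγ, hsx]
        rw [h2, ← hxy] at h1
        rcases sq_eq_sq_iff_eq_or_eq_neg.1 h1 with h | h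
        · exact absurd ⟨hsx, h⟩ hne
        · exact h
      obtain ⟨r1, n1, r2, n2, r3, n3, h12, h13, h23, hneg⟩ := htri hsx hsy
      refine (hthree n1 n2 n3 h12 h13 h23).2 (fun hh => ?_)
      have h4 := hh.2
      rw [hneg] at h4
      have h5 : g r1 * g r2 * g r3 ≠ 0 := mul_ne_zero (mul_ne_zero (hg0 r1 n1) (hg0 r2 n2))
        (hg0 r3 n3)
      have h6 : 2 * (g r1 * g r2 * g r3) = 0 := by linear_combination -h4
      exact h5 ((mul_eq_zero.1 h6).resolve_left two_ne_zero)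
    · exact k0 (fun hh => hsx hh.1)
  obtain ⟨k1, k2, -⟩ := k12 i
  refine ⟨k1, k2, fun hsx hsy hxW => ?_⟩
  obtain ⟨r1, n1, r2, n2, r3, n3, h12, h13, h23, hneg⟩ := htri hsx hsy
  obtain ⟨-, -, k3⟩ := (hthree n1 n2 n3 h12 h13 h23).1 i
  obtain ⟨e, v1, v2⟩ := k3 hxW
  rw [hneg] at v2
  have hch : CharZero (AlgebraicClosure i.Lv) := by
    have := charZero_compl i.v
    exact charZero_of_injective_algebraMap (algebraMap i.Lv (AlgebraicClosure i.Lv)).injective
  have he0 : e = 0 := by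
    have h5 := v1.add v2
    rw [add_neg_cancel] at h5
    have h6 := h5.unique Plc.val_zero
    have h7 : 2 * e = 0 := by linear_combination h6
    exact (mul_eq_zero.1 h7).resolve_left two_ne_zero
  rw [he0] at v1
  -- the product of the three differences vanishes
  have hsub : ({r1, r2, r3} : Finset E.K) ⊆ R := by
    intro t ht
    simp only [Finset.mem_insert, Finset.mem_singleton] at ht
    rcases ht with rfl | rfl | rfl <;> assumption
  have hthr : ∏ t ∈ ({r1, r2, r3} : Finset E.K), (x - jc A E t) =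
      jc A E (d r1 * d r2 * d r3) * (g r1 * g r2 * g r3) ^ 2 := by
    rw [Finset.prod_insert (by simp [h12, h13]), Finset.prod_insert (by simp [h23]),
      Finset.prod_singleton, (hdg r1 n1).2.2, (hdg r2 n2).2.2, (hdg r3 n3).2.2, jc_mul, jc_mul]
    ring
  have hrest : (∏ t ∈ R \ {r1, r2, r3}, (x - jc A E t)) ∈ (pl i).W :=
    prod_mem (fun t _ => sub_mem hxW (jc_mem A pl E i t))
  obtain ⟨c', hc'⟩ := Plc.val_of_mem (mul_mem (jc_mem A pl E i (c * (d r1 * d r2 * d r3))) hrest)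
  have h8 := hc'.mul (v1.pow 2)
  rw [zero_pow two_ne_zero, mul_zero] at h8
  have h9 : y ^ 2 = jc A E (c * (d r1 * d r2 * d r3)) *
      (∏ t ∈ R \ {r1, r2, r3}, (x - jc A E t)) * (g r1 * g r2 * g r3) ^ 2 := by
    rw [hxy, ← Finset.prod_sdiff hsub, hthr]
    simp only [jc_mul]
    ring
  rw [← h9] at h8
  have hyW : y ∈ (pl i).W := Plc.mem_of_pow_mem two_pos h8.mem
  obtain ⟨cy, hcy⟩ := Plc.val_of_mem hyW
  have h10 := (hcy.pow 2).unique h8
  rw [sq_eq_zero_iff] at h10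
  rwa [h10] at hcy

end three

end Pool.Agent.Y791.BF
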