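import Mathlib

set_option autoImplicit false

open Polynomial

namespace Pool.Agent.Y791.BF.Types

lemma rootMult_pow {A : Type} [Field A] (p : A[X]) (n : ℕ) (a : A) :
    (p ^ n).rootMultiplicity a = n * p.rootMultiplicity a := by
  classical
  rw [← count_roots, roots_pow, Multiset.count_nsmul, count_roots]

/-- a polynomial all of whose roots have multiplicity divisible by `l` is an `l`-th power up to a
constant -/
lemma pow_const {K : Type} [Field K] [CharZero K] {l : ℕ} :
    ∀ (n : ℕ) (p : K[X]), p ≠ 0 → p.natDegree = n →
      (∀ ρ : AlgebraicClosure K,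
        l ∣ (p.map (algebraMap K (AlgebraicClosure K))).rootMultiplicity ρ) →
      ∃ (d : K) (h : K[X]), d ≠ 0 ∧ p = C d * h ^ l := by
  intro n
  induction n using Nat.strong_induction_on with
  | _ n ih =>
    intro p hp hn hdvd
    by_cases h0 : n = 0
    · subst h0
      refine ⟨p.coeff 0, 1, ?_, ?_⟩
      · intro h
        apply hp
        rw [eq_C_of_natDegree_eq_zero hn, h, C_0]
      · rw [one_pow, mul_one]
        exact eq_C_of_natDegree_eq_zero hn
    · have hpm : p.map (algebraMap K (AlgebraicClosure K)) ≠ 0 :=
        (Polynomial.map_ne_zero_iff (algebraMap K (AlgebraicClosure K)).injective).2 hp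
      obtain ⟨ρ, hρ⟩ : ∃ ρ, IsRoot (p.map (algebraMap K (AlgebraicClosure K))) ρ := by
        apply IsAlgClosed.exists_root
        rw [degree_map, degree_eq_natDegree hp, hn]
        exact_mod_cast h0
      have hint : IsIntegral K ρ := Algebra.IsIntegral.isIntegral ρ
      set q := minpoly K ρ with hq
      have hqirr : Irreducible q := minpoly.irreducible hint
      have hqm : q.Monic := minpoly.monic hint
      have hqdeg : 0 < q.natDegree := minpoly.natDegree_pos hint
      have hqp : q ∣ p := by
        apply minpoly.dvd
        rw [IsRoot.def, eval_map_algebraMap] at hρ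
        exact hρ
      have hfin : FiniteMultiplicity q p := by
        apply finiteMultiplicity_of_degree_pos_of_monic _ hqm hp
        rw [degree_eq_natDegree hqm.ne_zero]
        exact_mod_cast hqdeg
      obtain ⟨p', hp', hnd⟩ := hfin.exists_eq_pow_mul_and_not_dvd
      set m := multiplicity q p with hm
      have hp'0 : p' ≠ 0 := by
        rintro rfl
        rw [mul_zero] at hp'
        exact hp hp'
      have hm1 : m ≠ 0 := by
        intro h
        rw [h, pow_zero, one_mul] at hp'
        rw [← hp'] at hnd
        exact hnd hqp
      have hqmap0 : q.map (algebraMap K (AlgebraicClosure K)) ≠ 0 :=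
        (Polynomial.map_ne_zero_iff (algebraMap K (AlgebraicClosure K)).injective).2 hqm.ne_zero
      have hp'map0 : p'.map (algebraMap K (AlgebraicClosure K)) ≠ 0 :=
        (Polynomial.map_ne_zero_iff (algebraMap K (AlgebraicClosure K)).injective).2 hp'0
      have hmul : ∀ r : AlgebraicClosure K,
          (p.map (algebraMap K (AlgebraicClosure K))).rootMultiplicity r =
          m * (q.map (algebraMap K (AlgebraicClosure K))).rootMultiplicity r +
            (p'.map (algebraMap K (AlgebraicClosure K))).rootMultiplicity r := by
        intro r
        conv_lhs => rw [hp']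
        rw [Polynomial.map_mul, Polynomial.map_pow, rootMultiplicity_mul
          (mul_ne_zero (pow_ne_zero _ hqmap0) hp'map0), rootMult_pow]
      have hρq : (q.map (algebraMap K (AlgebraicClosure K))).rootMultiplicity ρ = 1 := by
        apply le_antisymm
        · apply rootMultiplicity_le_one_of_separable
          exact (hqirr.separable).map
        · rw [Nat.one_le_iff_ne_zero, ← Nat.pos_iff_ne_zero, rootMultiplicity_pos hqmap0,
            IsRoot.def, eval_map_algebraMap]
          exact minpoly.aeval K ρ
      have hρp' : (p'.map (algebraMap K (AlgebraicClosure K))).rootMultiplicity ρ = 0 := by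
        apply rootMultiplicity_eq_zero
        intro h
        apply hnd
        apply minpoly.dvd
        rw [IsRoot.def, eval_map_algebraMap] at h
        exact h
      have hlm : l ∣ m := by
        have h := hdvd ρ
        rw [hmul, hρq, hρp', mul_one, add_zero] at h
        exact h
      obtain ⟨m', hm'⟩ := hlm
      have hdeg' : p'.natDegree < n := by
        have h := congrArg natDegree hp'
        rw [natDegree_mul (pow_ne_zero _ hqm.ne_zero) hp'0, natDegree_pow, hn] at h
        have : 0 < m * q.natDegree := Nat.mul_pos (Nat.pos_of_ne_zero hm1) hqdeg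
        omega
      obtain ⟨d, h, hd, hh⟩ := ih _ hdeg' p' hp'0 rfl (by
        intro r
        have h1 := hdvd r
        rw [hmul] at h1
        exact (Nat.dvd_add_right ((Dvd.intro _ hm'.symm).mul_right _)).1 h1)
      refine ⟨d, q ^ m' * h, hd, ?_⟩
      rw [hp', hh, mul_pow, ← pow_mul, hm', mul_comm l m']
      ring

end Pool.Agent.Y791.BF.Types
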