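import Pool.Agent.Y791.BF.Tasks2
import Pool.Agent.Y791.BF.TypesPow

/-!
# Kummer classes of the differences `x - θ` for the action over `K(S)` (job 1273)
-/

set_option autoImplicit false
set_option linter.unusedSectionVars false

open Polynomial IsDedekindDomain NumberField

namespace Pool.Agent.Y791.BF.Types

open Pool.Agent.TH954 Pool.Agent.Y791.BS Pool.Agent.Y791.BF

section near

variable {K : Type} [Field K] [CharZero K]

/-- finitely many constants, one of which is near the variable, in a completion -/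
theorem exists_near (hEmb : S_EmbFG) [Algebra.EssFiniteType ℚ K] (fr : Frame K)
    (Z : Finset (AlgebraicClosure K)) (c : AlgebraicClosure K) (hc : c ∈ Z) :
    ∃ (i : PlF (RatFunc K)) (ι : Kb K →ₐ[RatFunc K] AlgebraicClosure i.Lv) (cv ε : i.Lv),
      (∀ z ∈ Z, ∃ y : i.Lv,
        algebraMap i.Lv (AlgebraicClosure i.Lv) y = ι (fr.e z) ∧ (z ≠ 0 → ‖y‖ = 1)) ∧
      algebraMap i.Lv (AlgebraicClosure i.Lv) cv = ι (fr.e c) ∧
      i.φ RatFunc.X = cv + ε ∧
      ε ≠ 0 ∧ ‖ε‖ < 1 ∧ ∀ w : i.Lv, w ≠ 0 → ∃ n : ℤ, ‖w‖ = ‖ε‖ ^ n := by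
  obtain ⟨p, _, iK, ι₀, -, -, -, hv⟩ := hEmb K inferInstance Z 0
  have hu := ultra iK.v
  obtain ⟨cv, hcv, -⟩ := hv c hc
  obtain ⟨π, hπ0, hπ1, hπ⟩ := exists_unif iK.v
  have hπ0' : algebraMap iK.L iK.Lv π ≠ 0 := (_root_.map_ne_zero _).2 hπ0
  -- a transcendental element near `c + π`
  obtain ⟨y, hy, hyn⟩ : ∃ y : iK.Lv,
      Transcendental K (cv + (algebraMap iK.L iK.Lv π + y)) ∧
      ‖y‖ < ‖algebraMap iK.L iK.Lv π‖ := by
    by_cases h1 : Transcendental K (cv + algebraMap iK.L iK.Lv π)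
    · refine ⟨0, by rwa [add_zero], ?_⟩
      rw [norm_zero]
      exact norm_pos_iff.2 hπ0'
    · obtain ⟨y, hy, hyn⟩ := exists_transcendental' iK (norm_pos_iff.2 hπ0')
      refine ⟨y, fun h => hy ?_, hyn⟩
      have e : y = (cv + (algebraMap iK.L iK.Lv π + y)) - (cv + algebraMap iK.L iK.Lv π) := by
        ring
      rw [e]
      exact h.sub (not_not.1 h1)
  set ε : iK.Lv := algebraMap iK.L iK.Lv π + y with hε
  have hεn : ‖ε‖ = ‖algebraMap iK.L iK.Lv π‖ := by
    rw [hε, IsUltrametricDist.norm_add_eq_max_of_norm_ne_norm hyn.ne']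
    exact max_eq_left hyn.le
  have hε0 : ε ≠ 0 := by
    rw [← norm_ne_zero_iff, hεn, norm_ne_zero_iff]
    exact hπ0'
  have hX : embF hy RatFunc.X = cv + ε := by
    rw [← RatFunc.algebraMap_X, embF_algebraMap, aeval_X]
  obtain ⟨i, hi⟩ : ∃ i : PlF (RatFunc K), i = ⟨iK.L, iK.v, (embF hy : RatFunc K →+* iK.Lv)⟩ :=
    ⟨_, rfl⟩
  obtain ⟨σ, hσ⟩ := IsAlgClosed.exists_pow_nat_eq
    (algebraMap iK.Lv (AlgebraicClosure iK.Lv) (cv + ε)) (n := 2) (by norm_num)
  have hcomm : ∀ r : RatFunc K,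
      algebraMap (RatFunc K) (AlgebraicClosure
        (PlF.Lv ⟨iK.L, iK.v, (embF hy : RatFunc K →+* iK.Lv)⟩)) r =
      algebraMap iK.Lv (AlgebraicClosure iK.Lv) (embF hy r) :=
    fun r => IsScalarTower.algebraMap_apply (RatFunc K)
      (PlF.Lv ⟨iK.L, iK.v, (embF hy : RatFunc K →+* iK.Lv)⟩) _ r
  obtain ⟨ι, h1, h2, -⟩ := fr.exists_hom
    (algebraMap (RatFunc K) (AlgebraicClosure
        (PlF.Lv ⟨iK.L, iK.v, (embF hy : RatFunc K →+* iK.Lv)⟩)))
    (ι₀ : AlgebraicClosure K →+* AlgebraicClosure iK.Lv) (fun c => by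
      have e1 : embF hy (algebraMap K (RatFunc K) c) = algebraMap K iK.Lv c :=
        (embF hy).commutes c
      rw [hcomm, e1]
      change ι₀ (algebraMap K (AlgebraicClosure K) c) = _
      rw [ι₀.commutes]
      rfl) σ (by rw [hcomm, hX]; exact hσ)
  refine ⟨⟨iK.L, iK.v, (embF hy : RatFunc K →+* iK.Lv)⟩, { ι with commutes' := h1 }, cv, ε,
    ?_, ?_, hX, hε0, ?_, ?_⟩
  · intro z hz
    obtain ⟨y, hy1, hy2⟩ := hv z hz
    exact ⟨y, hy1.trans (h2 z).symm, hy2⟩
  · exact hcv.trans (h2 c).symm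
  · exact hεn.trans_lt hπ1
  · intro w hw
    obtain ⟨n, hn⟩ := hπ w hw
    exact ⟨n, by rw [hn]; exact congrArg (· ^ n) hεn.symm⟩

end near

section main

variable {K : Type} [Field K] [CharZero K] [Algebra.EssFiniteType ℚ K] {M : Type} [Field M]
  [CharZero M] [IsAlgClosed M] [Algebra (RatFunc K) M] (A : SAct (RatFunc K) M)

/-- multiplicity of a root in the closure of the constants -/
noncomputable def mu (p : K[X]) (ρ : AlgebraicClosure K) : ℕ :=
  (p.map (algebraMap K (AlgebraicClosure K))).rootMultiplicity ρ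

/-- the local statement: at each `ρ` all exponents are congruent modulo `l`, or all but at most
one are divisible by `l` -/
theorem types_at (hEmb : S_EmbFG)
    (pl : ∀ i : PlF (RatFunc K), Plc (RatFunc K) M (AlgebraicClosure i.Lv))
    (hpl : ∀ i, GeoPlc A (pl i)) {l : ℕ} (hl : 0 < l) (R : Finset K) (x : M) (hx : x ∈ A.fix)
    (P : K → K[X]) (hP : ∀ θ ∈ R, P θ ≠ 0) (g : K → M) (hg : ∀ θ ∈ R, g θ ∈ A.fix)
    (hne : ∀ θ ∈ R, x ≠ algebraMap (RatFunc K) M (cc θ))
    (hxg : ∀ θ ∈ R, x - algebraMap (RatFunc K) M (cc θ) =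
      algebraMap (RatFunc K) M (algebraMap K[X] (RatFunc K) (P θ)) * g θ ^ l)
    (ρ : AlgebraicClosure K) :
    (∀ θ ∈ R, ∀ θ' ∈ R, (l : ℤ) ∣ (mu (P θ) ρ : ℤ) - mu (P θ') ρ) ∨
      ∃ θ0, ∀ θ ∈ R, θ ≠ θ0 → l ∣ mu (P θ) ρ := by
  classical
  obtain ⟨fr⟩ := exists_frame (K := K)
  have hq : ∀ θ : K, ∃ q : (AlgebraicClosure K)[X], θ ∈ R →
      (P θ).map (algebraMap K (AlgebraicClosure K)) = (X - C ρ) ^ (mu (P θ) ρ) * q ∧
      q.eval ρ ≠ 0 := by
    intro θ
    by_cases hθ : θ ∈ R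
    · obtain ⟨q, hq, hqc⟩ :=
        ((P θ).map (algebraMap K (AlgebraicClosure K))).exists_eq_pow_rootMultiplicity_mul_and_not_dvd
          ((Polynomial.map_ne_zero_iff (algebraMap K (AlgebraicClosure K)).injective).2
            (hP θ hθ)) ρ
      refine ⟨q, fun _ => ⟨hq, ?_⟩⟩
      rw [dvd_iff_isRoot] at hqc
      exact hqc
    · exact ⟨0, fun h => absurd h hθ⟩
  choose q hq using hq
  set Z : Finset (AlgebraicClosure K) := {ρ} ∪ R.image (algebraMap K (AlgebraicClosure K)) ∪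
    (R ×ˢ R).image (fun p => algebraMap K (AlgebraicClosure K) (p.1 - p.2)) ∪
    R.biUnion (fun θ => (Finset.range ((q θ).natDegree + 1)).image (q θ).coeff) ∪
    R.image (fun θ => (q θ).eval ρ) with hZdef
  have hρZ : ρ ∈ Z := by simp [hZdef]
  have hθZ : ∀ θ ∈ R, algebraMap K (AlgebraicClosure K) θ ∈ Z := by
    intro θ hθ
    simp only [hZdef, Finset.mem_union, Finset.mem_image]
    exact Or.inl (Or.inl (Or.inl (Or.inr ⟨θ, hθ, rfl⟩)))
  have hθθZ : ∀ θ ∈ R, ∀ θ' ∈ R, algebraMap K (AlgebraicClosure K) (θ - θ') ∈ Z := by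
    intro θ hθ θ' hθ'
    simp only [hZdef, Finset.mem_union, Finset.mem_image]
    exact Or.inl (Or.inl (Or.inr ⟨(θ, θ'), Finset.mem_product.2 ⟨hθ, hθ'⟩, rfl⟩))
  have hcZ : ∀ θ ∈ R, ∀ n, (q θ).coeff n = 0 ∨ (q θ).coeff n ∈ Z := by
    intro θ hθ n
    by_cases hn : n < (q θ).natDegree + 1
    · right
      simp only [hZdef, Finset.mem_union, Finset.mem_biUnion, Finset.mem_image]
      exact Or.inl (Or.inr ⟨θ, hθ, n, Finset.mem_range.2 hn, rfl⟩)
    · left
      exact coeff_eq_zero_of_natDegree_lt (by omega)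
  have heZ : ∀ θ ∈ R, (q θ).eval ρ ∈ Z := by
    intro θ hθ
    simp only [hZdef, Finset.mem_union, Finset.mem_image]
    exact Or.inr ⟨θ, hθ, rfl⟩
  obtain ⟨i, ι, ρv, ε, hZι, hρv, hX, hε0, hε1, hεn⟩ := exists_near hEmb fr Z ρ hρZ
  obtain ⟨pl', hpl', hiot⟩ := exists_twist A (hpl i) ι
  have inst2 : IsUltrametricDist i.Lv := ultra i.v
  have inst4 : CharZero i.Lv := charZero_compl i.v
  have hle : ∀ z ∈ Z, ∃ y : i.Lv,
      algebraMap i.Lv (AlgebraicClosure i.Lv) y = ι (fr.e z) ∧ ‖y‖ ≤ 1 := by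
    intro z hz
    obtain ⟨y, hy, hy1⟩ := hZι z hz
    refine ⟨y, hy, ?_⟩
    by_cases hz0 : z = 0
    · subst hz0
      rw [map_zero, map_zero] at hy
      rw [(_root_.map_eq_zero _).1 hy, norm_zero]
      exact zero_le_one
    · exact (hy1 hz0).le
  have hle' : ∀ z ∈ Z, ∀ y : i.Lv,
      algebraMap i.Lv (AlgebraicClosure i.Lv) y = ι (fr.e z) → ‖y‖ ≤ 1 := by
    intro z hz y hy
    obtain ⟨y', hy', hy1⟩ := hle z hz
    have e : y = y' := (algebraMap i.Lv (AlgebraicClosure i.Lv)).injective (hy.trans hy'.symm)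
    rw [e]
    exact hy1
  have hone : ∀ z ∈ Z, z ≠ 0 → ∀ y : i.Lv,
      algebraMap i.Lv (AlgebraicClosure i.Lv) y = ι (fr.e z) → ‖y‖ = 1 := by
    intro z hz hz0 y hy
    obtain ⟨y', hy', hy1⟩ := hZι z hz
    have e : y = y' := (algebraMap i.Lv (AlgebraicClosure i.Lv)).injective (hy.trans hy'.symm)
    rw [e]
    exact hy1 hz0
  have hFL : ∀ r : RatFunc K, algebraMap (RatFunc K) (AlgebraicClosure i.Lv) r =
      algebraMap i.Lv (AlgebraicClosure i.Lv) (i.φ r) :=
    fun r => IsScalarTower.algebraMap_apply (RatFunc K) i.Lv (AlgebraicClosure i.Lv) r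
  have hιe : ∀ a : K, ι (fr.e (algebraMap K (AlgebraicClosure K) a)) =
      algebraMap i.Lv (AlgebraicClosure i.Lv) (i.φ (cc a)) := by
    intro a
    rw [fr.e.commutes, IsScalarTower.algebraMap_apply K (RatFunc K) (Kb K), ι.commutes, hFL]
  -- the constants
  have hθn : ∀ θ ∈ R, ‖i.φ (cc θ)‖ ≤ 1 := fun θ hθ => hle' _ (hθZ θ hθ) _ (hιe θ).symm
  have hθθn : ∀ θ ∈ R, ∀ θ' ∈ R, θ ≠ θ' → ‖i.φ (cc θ) - i.φ (cc θ')‖ = 1 := by
    intro θ hθ θ' hθ' hne'
    have h := hone _ (hθθZ θ hθ θ' hθ')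
      ((_root_.map_ne_zero _).2 (sub_ne_zero.2 hne')) _ (hιe (θ - θ')).symm
    rwa [cc, map_sub, map_sub] at h
  -- the coefficients
  have hε0' : 0 < ‖ε‖ := norm_pos_iff.2 hε0
  have hPn : ∀ θ ∈ R, ‖i.φ (algebraMap K[X] (RatFunc K) (P θ))‖ = ‖ε‖ ^ (mu (P θ) ρ) := by
    intro θ hθ
    obtain ⟨w, hw, hw1⟩ := exists_eval (L := i.Lv)
      ((ι : Kb K →+* AlgebraicClosure i.Lv).comp (fr.e : AlgebraicClosure K →+* Kb K))
      (algebraMap i.Lv (AlgebraicClosure i.Lv)) (q θ)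
      (fun n => by
        rcases hcZ θ hθ n with h0 | h0
        · exact ⟨0, by rw [h0, map_zero, map_zero], by rw [norm_zero]; exact zero_le_one⟩
        · exact hle _ h0) hρv (hle' _ hρZ _ hρv) hε1
      (hone _ (heZ θ hθ) (hq θ hθ).2)
    have h1 : ∀ p : K[X], algebraMap i.Lv (AlgebraicClosure i.Lv)
        (i.φ (algebraMap K[X] (RatFunc K) p)) =
        eval₂ ((ι : Kb K →+* AlgebraicClosure i.Lv).comp (fr.e : AlgebraicClosure K →+* Kb K))
          (algebraMap i.Lv (AlgebraicClosure i.Lv) (ρv + ε))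
          (p.map (algebraMap K (AlgebraicClosure K))) := by
      intro p
      rw [eval₂_map]
      have e : (algebraMap i.Lv (AlgebraicClosure i.Lv)).comp
          (i.φ.comp (algebraMap K[X] (RatFunc K))) =
          eval₂RingHom (((ι : Kb K →+* AlgebraicClosure i.Lv).comp
            (fr.e : AlgebraicClosure K →+* Kb K)).comp (algebraMap K (AlgebraicClosure K)))
            (algebraMap i.Lv (AlgebraicClosure i.Lv) (ρv + ε)) := by
        apply Polynomial.ringHom_ext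
        · intro a
          rw [coe_eval₂RingHom, eval₂_C]
          change algebraMap i.Lv (AlgebraicClosure i.Lv)
            (i.φ (algebraMap K[X] (RatFunc K) (C a))) =
            ι (fr.e (algebraMap K (AlgebraicClosure K) a))
          rw [hιe, RatFunc.algebraMap_C]
          rfl
        · rw [coe_eval₂RingHom, eval₂_X]
          change algebraMap i.Lv (AlgebraicClosure i.Lv)
            (i.φ (algebraMap K[X] (RatFunc K) X)) = _
          rw [RatFunc.algebraMap_X, hX]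
      exact congrArg (fun f : K[X] →+* AlgebraicClosure i.Lv => f p) e
    have h2 : i.φ (algebraMap K[X] (RatFunc K) (P θ)) = ε ^ (mu (P θ) ρ) * w := by
      apply (algebraMap i.Lv (AlgebraicClosure i.Lv)).injective
      rw [h1, (hq θ hθ).1, eval₂_mul, eval₂_pow, eval₂_sub, eval₂_X, eval₂_C, ← hw, map_mul,
        map_pow]
      congr 2
      rw [RingHom.comp_apply]
      change _ - ι (fr.e ρ) = _
      rw [← hρv, ← map_sub, add_sub_cancel_left]
    rw [h2, norm_mul, hw1, mul_one, norm_pow]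
  have hP0 : ∀ θ ∈ R, i.φ (algebraMap K[X] (RatFunc K) (P θ)) ≠ 0 := by
    intro θ hθ
    rw [← norm_ne_zero_iff, hPn θ hθ]
    exact (pow_pos hε0' _).ne'
  have hPF : ∀ θ ∈ R, algebraMap (RatFunc K) M (algebraMap K[X] (RatFunc K) (P θ)) ≠ 0 := by
    intro θ hθ
    exact (_root_.map_ne_zero _).2 ((map_ne_zero_iff _ (RatFunc.algebraMap_injective K)).2
      (hP θ hθ))
  -- values of rational functions
  have hvalF : ∀ r : RatFunc K, pl'.val (algebraMap (RatFunc K) M r)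
      (algebraMap i.Lv (AlgebraicClosure i.Lv) (i.φ r)) := by
    intro r
    rw [← hFL]
    exact Plc.val_alg r
  -- comparison of exponents
  have hexp : ∀ (u t : i.Lv) (a b : ℕ), u ≠ 0 → ‖u‖ ^ l * ‖ε‖ ^ a = ‖ε‖ ^ b →
      (l : ℤ) ∣ (b : ℤ) - a := by
    intro u _ a b hu h
    obtain ⟨n, hn⟩ := hεn u hu
    refine ⟨n, ?_⟩
    have hn' : ‖u‖ = ‖ε‖ ^ n := hn
    have h2 : ‖ε‖ ^ (n * l + a) = ‖ε‖ ^ (b : ℤ) := by
      rw [zpow_add₀ hε0'.ne', zpow_mul, zpow_natCast, zpow_natCast, zpow_natCast, ← hn']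
      exact h
    have h3 := zpow_right_injective₀ hε0' hε1.ne h2
    rw [← h3]
    ring
  by_cases hxW : x ∈ pl'.W
  · obtain ⟨xv, hxv⟩ := value_base A hpl' hx hxW
    have hxval : pl'.val x (algebraMap i.Lv (AlgebraicClosure i.Lv) xv) := ⟨hxW, hxv.symm⟩
    -- the exponent of a nonzero value
    have key : ∀ θ ∈ R, xv ≠ i.φ (cc θ) → ∃ u : i.Lv, u ≠ 0 ∧
        ‖u‖ ^ l * ‖ε‖ ^ (mu (P θ) ρ) = ‖xv - i.φ (cc θ)‖ := by
      intro θ hθ hne'
      have hv1 : pl'.val (x - algebraMap (RatFunc K) M (cc θ))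
          (algebraMap i.Lv (AlgebraicClosure i.Lv) (xv - i.φ (cc θ))) := by
        rw [map_sub]
        exact hxval.sub (hvalF _)
      have hP0' : algebraMap i.Lv (AlgebraicClosure i.Lv)
          (i.φ (algebraMap K[X] (RatFunc K) (P θ))) ≠ 0 := (_root_.map_ne_zero _).2 (hP0 θ hθ)
      have hv2 := hv1.mul ((hvalF (algebraMap K[X] (RatFunc K) (P θ))).inv hP0')
      have e : (x - algebraMap (RatFunc K) M (cc θ)) *
          (algebraMap (RatFunc K) M (algebraMap K[X] (RatFunc K) (P θ)))⁻¹ = g θ ^ l := by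
        rw [hxg θ hθ, mul_comm, ← mul_assoc, inv_mul_cancel₀ (hPF θ hθ), one_mul]
      rw [e] at hv2
      have hgW : g θ ∈ pl'.W := Plc.mem_of_pow_mem hl hv2.mem
      obtain ⟨u, hu⟩ := value_base A hpl' (hg θ hθ) hgW
      have hv3 : pl'.val (g θ ^ l) ((algebraMap i.Lv (AlgebraicClosure i.Lv) u) ^ l) :=
        Plc.val.pow ⟨hgW, hu.symm⟩ l
      have h4 := hv3.unique hv2
      rw [← map_inv₀, ← map_mul, ← map_pow] at h4
      have h5 : u ^ l = (xv - i.φ (cc θ)) * (i.φ (algebraMap K[X] (RatFunc K) (P θ)))⁻¹ :=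
        (algebraMap i.Lv (AlgebraicClosure i.Lv)).injective h4
      have h6 : u ^ l * i.φ (algebraMap K[X] (RatFunc K) (P θ)) = xv - i.φ (cc θ) := by
        rw [h5, mul_assoc, inv_mul_cancel₀ (hP0 θ hθ), mul_one]
      refine ⟨u, ?_, ?_⟩
      · rintro rfl
        rw [zero_pow hl.ne', zero_mul] at h6
        exact sub_ne_zero.2 hne' h6.symm
      · rw [← h6, norm_mul, norm_pow, hPn θ hθ]
    by_cases hxv1 : ‖xv‖ ≤ 1
    · right
      by_cases hex : ∃ θ0 ∈ R, ‖xv - i.φ (cc θ0)‖ < 1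
      · obtain ⟨θ0, hθ0, hθ0n⟩ := hex
        refine ⟨θ0, fun θ hθ hne' => ?_⟩
        have h1 : ‖xv - i.φ (cc θ)‖ = 1 := by
          have e : xv - i.φ (cc θ) = (xv - i.φ (cc θ0)) + (i.φ (cc θ0) - i.φ (cc θ)) := by ring
          have h2 := hθθn θ0 hθ0 θ hθ (Ne.symm hne')
          rw [e, IsUltrametricDist.norm_add_eq_max_of_norm_ne_norm (by rw [h2]; exact hθ0n.ne),
            h2]
          exact max_eq_right hθ0n.le
        obtain ⟨u, hu, hu1⟩ := key θ hθ (by
          intro h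
          rw [h, sub_self, norm_zero] at h1
          exact zero_ne_one h1)
        rw [h1] at hu1
        have h3 := hexp u 0 (mu (P θ) ρ) 0 hu (by rw [pow_zero]; exact hu1)
        rw [Nat.cast_zero, zero_sub, dvd_neg] at h3
        exact_mod_cast h3
      · push Not at hex
        refine ⟨0, fun θ hθ _ => ?_⟩
        have h1 : ‖xv - i.φ (cc θ)‖ = 1 := by
          apply le_antisymm _ (hex θ hθ)
          rw [sub_eq_add_neg]
          refine (IsUltrametricDist.norm_add_le_max _ _).trans (max_le hxv1 ?_)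
          rw [norm_neg]
          exact hθn θ hθ
        obtain ⟨u, hu, hu1⟩ := key θ hθ (by
          intro h
          rw [h, sub_self, norm_zero] at h1
          exact zero_ne_one h1)
        rw [h1] at hu1
        have h3 := hexp u 0 (mu (P θ) ρ) 0 hu (by rw [pow_zero]; exact hu1)
        rw [Nat.cast_zero, zero_sub, dvd_neg] at h3
        exact_mod_cast h3
    · left
      push Not at hxv1
      have h1 : ∀ θ ∈ R, ‖xv - i.φ (cc θ)‖ = ‖xv‖ := by
        intro θ hθ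
        rw [sub_eq_add_neg, IsUltrametricDist.norm_add_eq_max_of_norm_ne_norm (by
          rw [norm_neg]
          exact ((hθn θ hθ).trans_lt hxv1).ne'), norm_neg]
        exact max_eq_left ((hθn θ hθ).trans hxv1.le)
      intro θ hθ θ' hθ'
      have hne1 : ∀ θ ∈ R, xv ≠ i.φ (cc θ) := by
        intro θ hθ h
        have h2 := hθn θ hθ
        rw [← h] at h2
        exact absurd h2 (not_le.2 hxv1)
      obtain ⟨u, hu, hu1⟩ := key θ hθ (hne1 θ hθ)
      obtain ⟨u', hu', hu1'⟩ := key θ' hθ' (hne1 θ' hθ')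
      rw [h1 θ hθ, ← h1 θ' hθ', ← hu1'] at hu1
      apply hexp (u' / u) 0 (mu (P θ') ρ) (mu (P θ) ρ) (div_ne_zero hu' hu)
      have hun : ‖u‖ ^ l ≠ 0 := pow_ne_zero _ (norm_ne_zero_iff.2 hu)
      rw [norm_div, div_pow, div_mul_eq_mul_div, ← hu1, mul_comm, mul_div_assoc, div_self hun,
        mul_one]
  · left
    intro θ hθ θ' hθ'
    have hv0 : pl'.val x⁻¹ 0 := Plc.val_inv_of_notMem hxW
    have hx0 : x ≠ 0 := by
      rintro rfl
      exact hxW (zero_mem _)
    have hv1 : ∀ θ : K, pl'.val ((x - algebraMap (RatFunc K) M (cc θ)) * x⁻¹) 1 := by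
      intro θ
      have h := (Plc.val_one (pl := pl')).sub ((hvalF (cc θ)).mul hv0)
      rw [mul_zero, sub_zero] at h
      have e : (x - algebraMap (RatFunc K) M (cc θ)) * x⁻¹ =
          1 - algebraMap (RatFunc K) M (cc θ) * x⁻¹ := by
        rw [sub_mul, mul_inv_cancel₀ hx0]
      rw [e]
      exact h
    have hPθ : algebraMap i.Lv (AlgebraicClosure i.Lv)
          (i.φ (algebraMap K[X] (RatFunc K) (P θ))) ≠ 0 := (_root_.map_ne_zero _).2 (hP0 θ hθ)
    have hPθ' : algebraMap i.Lv (AlgebraicClosure i.Lv)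
          (i.φ (algebraMap K[X] (RatFunc K) (P θ'))) ≠ 0 := (_root_.map_ne_zero _).2 (hP0 θ' hθ')
    have hv2 := ((hv1 θ').mul ((hv1 θ).inv one_ne_zero)).mul
      ((hvalF (algebraMap K[X] (RatFunc K) (P θ))).mul
        ((hvalF (algebraMap K[X] (RatFunc K) (P θ'))).inv hPθ'))
    have hsubne : x - algebraMap (RatFunc K) M (cc θ) ≠ 0 := sub_ne_zero.2 (hne θ hθ)
    have hg0 : g θ ^ l ≠ 0 := by
      intro h
      apply hsubne
      rw [hxg θ hθ, h, mul_zero]
    have e : (x - algebraMap (RatFunc K) M (cc θ')) * x⁻¹ *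
        ((x - algebraMap (RatFunc K) M (cc θ)) * x⁻¹)⁻¹ *
        (algebraMap (RatFunc K) M (algebraMap K[X] (RatFunc K) (P θ)) *
          (algebraMap (RatFunc K) M (algebraMap K[X] (RatFunc K) (P θ')))⁻¹) =
        (g θ' / g θ) ^ l := by
      have h1 := hxg θ hθ
      have h2 := hxg θ' hθ'
      have h3 := hPF θ hθ
      have h4 := hPF θ' hθ'
      rw [h1, h2, div_pow]
      field_simp
    rw [e] at hv2
    have hgW : g θ' / g θ ∈ pl'.W := Plc.mem_of_pow_mem hl hv2.mem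
    obtain ⟨u, hu⟩ := value_base A hpl' (div_mem (hg θ' hθ') (hg θ hθ)) hgW
    have hv3 : pl'.val ((g θ' / g θ) ^ l) ((algebraMap i.Lv (AlgebraicClosure i.Lv) u) ^ l) :=
      Plc.val.pow ⟨hgW, hu.symm⟩ l
    have h4 := hv3.unique hv2
    rw [inv_one, mul_one, one_mul, ← map_inv₀, ← map_mul, ← map_pow] at h4
    have h5 : u ^ l = i.φ (algebraMap K[X] (RatFunc K) (P θ)) *
        (i.φ (algebraMap K[X] (RatFunc K) (P θ')))⁻¹ :=
      (algebraMap i.Lv (AlgebraicClosure i.Lv)).injective h4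
    have h6 : u ^ l * i.φ (algebraMap K[X] (RatFunc K) (P θ')) =
        i.φ (algebraMap K[X] (RatFunc K) (P θ)) := by
      rw [h5, mul_assoc, inv_mul_cancel₀ (hP0 θ' hθ'), mul_one]
    have hu0 : u ≠ 0 := by
      rintro rfl
      rw [zero_pow hl.ne', zero_mul] at h6
      exact hP0 θ hθ h6.symm
    apply hexp u 0 (mu (P θ') ρ) (mu (P θ) ρ) hu0
    rw [← hPn θ hθ, ← h6, norm_mul, norm_pow, hPn θ' hθ']

end main

theorem main (hE : S_EmbFG) : S_Types := by
  intro K _ _ hess M _ _ _ _ A pl hpl l hl R c hc hcard x y hx hy hne hxy θ₁ hθ₁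
  classical
  have hch : CharZero (RatFunc K) :=
    charZero_of_injective_algebraMap (algebraMap K (RatFunc K)).injective
  have hl0 : 0 < l := hl.pos
  -- Kummer classes
  have hkum : ∀ θ : K, ∃ (P : K[X]) (g : M), θ ∈ R → P ≠ 0 ∧ g ∈ A.fix ∧
      x - algebraMap (RatFunc K) M (cc θ) =
        algebraMap (RatFunc K) M (algebraMap K[X] (RatFunc K) P) * g ^ l := by
    intro θ
    by_cases hθ : θ ∈ R
    · obtain ⟨r, hr, g, hg, h⟩ := A.kummer (f := x - algebraMap (RatFunc K) M (cc θ))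
        (sub_mem (show x ∈ A.fix from hx) (A.fix.algebraMap_mem _))
        (sub_ne_zero.2 (hne θ hθ)) hl0
      have hd0 : r.denom ≠ 0 := r.denom_ne_zero
      have hd0' : algebraMap K[X] (RatFunc K) r.denom ≠ 0 :=
        (map_ne_zero_iff _ (RatFunc.algebraMap_injective K)).2 hd0
      have hd0'' : algebraMap (RatFunc K) M (algebraMap K[X] (RatFunc K) r.denom) ≠ 0 :=
        (_root_.map_ne_zero _).2 hd0'
      refine ⟨r.num * r.denom ^ (l - 1),
        g / algebraMap (RatFunc K) M (algebraMap K[X] (RatFunc K) r.denom), fun _ => ⟨?_, ?_, ?_⟩⟩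
      · exact mul_ne_zero (RatFunc.num_ne_zero hr) (pow_ne_zero _ hd0)
      · exact div_mem hg (A.fix.algebraMap_mem _)
      · rw [h, div_pow]
        have e1 : algebraMap K[X] (RatFunc K) (r.num * r.denom ^ (l - 1)) =
            r * (algebraMap K[X] (RatFunc K) r.denom) ^ l := by
          have h1 := RatFunc.num_div_denom r
          rw [div_eq_iff hd0'] at h1
          rw [map_mul, map_pow, h1, mul_assoc, ← pow_succ', Nat.sub_add_cancel hl0]
        rw [e1, map_mul, map_pow]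
        field_simp
    · exact ⟨0, 0, fun h => absurd h hθ⟩
  choose P g hPg using hkum
  have hP : ∀ θ ∈ R, P θ ≠ 0 := fun θ hθ => (hPg θ hθ).1
  have hg : ∀ θ ∈ R, g θ ∈ A.fix := fun θ hθ => (hPg θ hθ).2.1
  have hxg := fun θ hθ => (hPg θ hθ).2.2
  have hg0 : ∀ θ ∈ R, g θ ≠ 0 := by
    intro θ hθ h
    apply sub_ne_zero.2 (hne θ hθ)
    rw [hxg θ hθ, h, zero_pow hl0.ne', mul_zero]
  -- the relation
  have hprod0 : ∏ θ ∈ R, g θ ≠ 0 := Finset.prod_ne_zero_iff.2 hg0
  set w : M := y / ∏ θ ∈ R, g θ with hw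
  have hwfix : w ∈ A.fix := div_mem (show y ∈ A.fix from hy) (prod_mem hg)
  have hwl : w ^ l = algebraMap (RatFunc K) M
      (algebraMap K[X] (RatFunc K) (C c * ∏ θ ∈ R, P θ)) := by
    rw [hw, div_pow, hxy, Finset.prod_congr rfl hxg, Finset.prod_mul_distrib,
      ← Finset.prod_pow, map_mul, map_mul, map_prod, map_prod, RatFunc.algebraMap_C]
    have h1 : ∏ θ ∈ R, g θ ^ l ≠ 0 := by
      rw [Finset.prod_pow]
      exact pow_ne_zero _ hprod0
    rw [← mul_assoc, mul_div_assoc, div_self h1, mul_one]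
    rfl
  have hwalg : IsAlgebraic (RatFunc K) w := by
    apply IsAlgebraic.of_pow hl0
    rw [hwl]
    exact isAlgebraic_algebraMap _
  obtain ⟨z, hz⟩ := alg_range A.j hwalg
  obtain ⟨w', hw'⟩ := A.fix_j (z := z) (by rw [hz]; exact hwfix)
  have hww : algebraMap (RatFunc K) M w' = w := by
    rw [← hz, ← hw', A.j.commutes]
  have hw'l : w' ^ l = algebraMap K[X] (RatFunc K) (C c * ∏ θ ∈ R, P θ) := by
    apply (algebraMap (RatFunc K) M).injective
    rw [map_pow, hww, hwl]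
  obtain ⟨Q, hQ⟩ := IsIntegrallyClosed.exists_algebraMap_eq_of_isIntegral_pow (R := K[X])
    (x := w') hl0 (by
      rw [hw'l]
      exact isIntegral_algebraMap)
  have hQl : Q ^ l = C c * ∏ θ ∈ R, P θ := by
    apply RatFunc.algebraMap_injective K
    rw [map_pow, hQ, hw'l]
  have hCP0 : ∀ S ⊆ R, (∏ θ ∈ S, P θ).map (algebraMap K (AlgebraicClosure K)) ≠ 0 := by
    intro S hS
    rw [Polynomial.map_ne_zero_iff (algebraMap K (AlgebraicClosure K)).injective]
    exact Finset.prod_ne_zero_iff.2 (fun θ hθ => hP θ (hS hθ))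
  have hmuprod : ∀ (ρ : AlgebraicClosure K) (S : Finset K), S ⊆ R →
      mu (∏ θ ∈ S, P θ) ρ = ∑ θ ∈ S, mu (P θ) ρ := by
    intro ρ S
    induction S using Finset.induction_on with
    | empty =>
      intro _
      rw [Finset.prod_empty, Finset.sum_empty, mu, Polynomial.map_one]
      exact rootMultiplicity_eq_zero (by simp)
    | insert θ S hθ ih =>
      intro hS
      have h1 : S ⊆ R := (Finset.subset_insert _ _).trans hS
      rw [Finset.prod_insert hθ, Finset.sum_insert hθ, ← ih h1, mu, Polynomial.map_mul,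
        rootMultiplicity_mul]
      · rfl
      · refine mul_ne_zero ?_ (hCP0 S h1)
        rw [Polynomial.map_ne_zero_iff (algebraMap K (AlgebraicClosure K)).injective]
        exact hP θ (hS (Finset.mem_insert_self _ _))
  have hsum : ∀ ρ : AlgebraicClosure K, l ∣ ∑ θ ∈ R, mu (P θ) ρ := by
    intro ρ
    have h1 : mu (Q ^ l) ρ = l * mu Q ρ := by
      rw [mu, Polynomial.map_pow, rootMult_pow]
      rfl
    have h2 : mu (C c * ∏ θ ∈ R, P θ) ρ = ∑ θ ∈ R, mu (P θ) ρ := by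
      rw [← hmuprod ρ R (Finset.Subset.refl _), mu, Polynomial.map_mul, rootMultiplicity_mul]
      · rw [Polynomial.map_C, rootMultiplicity_C, zero_add]
        rfl
      · refine mul_ne_zero ?_ (hCP0 R (Finset.Subset.refl _))
        rw [Polynomial.map_C, Ne, C_eq_zero]
        exact (_root_.map_ne_zero _).2 hc
    rw [← h2, ← hQl, h1]
    exact dvd_mul_right _ _
  -- all multiplicities are divisible by `l`
  have hall : ∀ ρ : AlgebraicClosure K, ∀ θ ∈ R, l ∣ mu (P θ) ρ := by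
    intro ρ
    rcases types_at A hE pl hpl hl0 R x hx P hP g hg hne hxg ρ with h | ⟨θ0, h⟩
    · intro θ hθ
      have h1 : (l : ℤ) ∣ (R.card : ℤ) * mu (P θ) ρ := by
        have h2 : (l : ℤ) ∣ ∑ θ' ∈ R, ((mu (P θ) ρ : ℤ) - mu (P θ') ρ) :=
          Finset.dvd_sum (fun θ' hθ' => h θ hθ θ' hθ')
        rw [Finset.sum_sub_distrib, Finset.sum_const, nsmul_eq_mul] at h2
        have h3 : (l : ℤ) ∣ ∑ θ' ∈ R, (mu (P θ') ρ : ℤ) := by
          have h4 := hsum ρ
          have h5 : ((∑ θ' ∈ R, mu (P θ') ρ : ℕ) : ℤ) = ∑ θ' ∈ R, (mu (P θ') ρ : ℤ) := by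
            push_cast
            rfl
          rw [← h5]
          exact_mod_cast h4
        exact (dvd_sub_left h3).1 h2
      have h2 : l ∣ R.card * mu (P θ) ρ := by exact_mod_cast h1
      exact (hl.dvd_mul.1 h2).resolve_left hcard
    · intro θ hθ
      by_cases hθ0 : θ = θ0
      · subst hθ0
        have h1 := hsum ρ
        rw [← Finset.add_sum_erase R _ hθ] at h1
        have h2 : l ∣ ∑ θ' ∈ R.erase θ, mu (P θ') ρ :=
          Finset.dvd_sum (fun θ' hθ' => h θ' (Finset.mem_of_mem_erase hθ')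
            (Finset.ne_of_mem_erase hθ'))
        exact (Nat.dvd_add_left h2).1 h1
      · exact h θ hθ hθ0
  obtain ⟨d, h, hd, hh⟩ := pow_const (l := l) _ (P θ₁) (hP θ₁ hθ₁) rfl (fun ρ => hall ρ θ₁ hθ₁)
  refine ⟨d, algebraMap (RatFunc K) M (algebraMap K[X] (RatFunc K) h) * g θ₁, hd, ?_, ?_⟩
  · exact mul_mem (A.fix.algebraMap_mem _) (hg θ₁ hθ₁)
  · rw [hxg θ₁ hθ₁, hh, map_mul, map_mul, map_pow, map_pow, RatFunc.algebraMap_C, mul_pow]
    rw [mul_assoc]
    rfl

end Pool.Agent.Y791.BF.Types
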