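import Pool.Agent.Y791.BF.Final2
import Pool.Agent.Y791.BF.FrobRes
import Pool.Agent.Y791.BF.EmbFG
import Pool.Agent.Y791.BF.ObsFG
import Pool.Agent.Y791.BF.Level
import Pool.Agent.Y791.BF.Types
import Pool.Agent.Y46.BF.Inter2
import Pool.Agent.Y791.BS.Unr

/-!
# The birational section conjecture for curves over twists of constant superelliptic curves

Let `k` be a field finitely generated over `ℚ` and `X` a curve over `k` with function field `F`.
Let `k'` be a finite extension of `k` which is a field `K(S)` of rational functions, and let `C` be
a superelliptic curve `y ^ l = f(x)` of genus at least one over the field of constants `K` (`l` prime,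
`f` separable).  Suppose that `X` has, over `k'`, a nonconstant map `(x, y)` to `C` which is not
defined over `k` and the algebraic closure of `K`: it is moved by some automorphism of the algebraic
closure `Ω` of `F` over `F` and the algebraic closure of `K`.  Then every section of
`Gal(Ω/F) → Gal(B/k)`, where `B` is an algebraic closure of `k`, arises from exactly one `k`-rational
point of `X`.  Here `s` is assumed to be given by rational points over the completions `L_v` of the
number fields `L` at their finite places, for all the embeddings of `k` in `L_v`; by the theorem of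
Koenigsmann on birational sections over `p`-adically closed fields this holds for every section.

For instance `k = K(T)`, `k' = K(S)` with `S ^ l = T`, and `X` any curve over `T y ^ l = f(x)`.
-/

set_option autoImplicit false

open Polynomial IsDedekindDomain NumberField Pool.Agent.TH954 Pool.Agent.Y791.BF

namespace Pool.Agent.Y791.BF.IsotrivialCurves

/-- The section `s` is given by a rational point over the extension `L` of `k` along `φ`, with the
algebraic closure of `L` as field of values. -/
def GeometricAlong {k F Ω B : Type} [Field k] [Field F] [Field Ω] [Field B] [Algebra F Ω]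
    [Algebra k Ω] [Algebra k B] (s : GalSection k F Ω B) {L : Type} [Field L] (φ : k →+* L) :
    Prop :=
  letI := φ.toAlgebra
  s.GeometricOver L (AlgebraicClosure L)

/-- **Theorem.** The birational section conjecture over a finitely generated field `k` for the curves
which have, over a finite extension `k' = K(S)` of `k`, a nonconstant map to a superelliptic curve
over `K` of genus at least one which is not defined over `k` and the algebraic closure of `K`. -/
theorem result (k : Type) [Field k] [CharZero k] [Algebra.EssFiniteType ℚ k]
    (F Ω B : Type) [Field F] [Field Ω] [Field B]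
    [Algebra k F] [Algebra F Ω] [Algebra k Ω] [Algebra k B]
    [IsScalarTower k F Ω] [IsAlgClosure F Ω] [IsAlgClosure k B]
    (hF : ∃ t : F, Transcendental k t ∧
      Algebra.IsAlgebraic (IntermediateField.adjoin k {t}) F)
    (k' : IntermediateField k Ω) [FiniteDimensional k k']
    (K : Type) [Field K] [CharZero K] [Algebra.EssFiniteType ℚ K] [Algebra K Ω]
    (S : Ω) (hS : Transcendental K S)
    (hk' : k'.toSubfield = Subfield.closure (Set.range (algebraMap K Ω) ∪ {S}))
    (l : ℕ) (hl : l.Prime) (f : K[X]) (hf : f.Separable) (hdeg : 2 ≤ f.natDegree)
    (hld : ¬ (l = 2 ∧ f.natDegree = 2))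
    (x y : Ω) (hx : x ∈ IntermediateField.adjoin F (k' : Set Ω))
    (hy : y ∈ IntermediateField.adjoin F (k' : Set Ω)) (hxt : Transcendental k x)
    (hxy : y ^ l = aeval x f)
    (g : Ω ≃ₐ[F] Ω) (hg : ∀ z : Ω, IsAlgebraic K z → g z = z) (hne : ¬ (g x = x ∧ g y = y))
    (s : GalSection k F Ω B)
    (hloc : ∀ (L : Type) [Field L] [NumberField L] (v : HeightOneSpectrum (𝓞 L))
      (φ : k →+* v.adicCompletion L), GeometricAlong s φ) :
    ∃! O : ValuationSubring F, s.ArisesFrom O := by
  have hE : S_EmbFG := EmbFG.main FrobRes.main
  have hT : S_TypesL := typesL (Types.main hE)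
  have hD : S_Dgen := by
    intro k _ _ M _ _ _ _ A pl hpl E γ hγ f hf hdeg x y hx hy hy0 hxy
    exact (dgen hE Pool.Agent.Y791.BS.Unr.main Pool.Agent.Y46.BF4.main Level.ext hT k M A pl hpl E
      γ hγ f hf hdeg x y hx hy hy0 hxy).2
  exact iso_main hE (ObsFG.main FrobRes.main hE) hD hT Level.ext inferInstance hF k' K inferInstance
    S hS hk' l hl f hf hdeg hld x y hx hy hxt hxy g hg hne s
    (fun i => hloc i.L i.v i.φ)

end Pool.Agent.Y791.BF.IsotrivialCurves
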