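import Pool.Agent.Y791.BF.Psi
import Pool.Agent.Y791.BS.Fin

/-!
# Values of points of elliptic curves over a level and of their conjugates
-/

set_option autoImplicit false
set_option linter.unusedSectionVars false

open Polynomial WeierstrassCurve IsDedekindDomain NumberField

namespace Pool.Agent.Y791.BF

open Pool.Agent.TH942 Pool.Agent.TH954 Pool.Agent.Y791.BS

lemma isCst_cst {k : Type} [Field k] (E : Lvl k) (c : E.K) : E.IsCst (E.cst c) := by
  refine ⟨X - C c, X_sub_C_ne_zero c, ?_⟩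
  rw [eval₂_sub, eval₂_X, eval₂_C, sub_self]

lemma tw_cst {k : Type} [Field k] {E : Lvl k}
    {γ : AlgebraicClosure k ≃ₐ[k] AlgebraicClosure k} (hγ : ∀ w, E.IsCst w → γ w = w)
    (c : E.K) : γ (E.cst c) = E.cst c := hγ _ (isCst_cst E c)

open scoped Classical in
theorem level_point (hEmb : S_EmbFG) (hUnr : S_Unr) (hInter : S_Inter2)
    {k : Type} [Field k] [CharZero k] {M : Type} [Field M] [CharZero M] [IsAlgClosed M]
    [Algebra k M] (A : SAct k M) (pl : ∀ i : PlF k, Plc k M (AlgebraicClosure i.Lv))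
    (hpl : ∀ i, GeoPlc A (pl i)) (E : Lvl k)
    (γ : AlgebraicClosure k ≃ₐ[k] AlgebraicClosure k) (hγ : ∀ w, E.IsCst w → γ w = w)
    {a b : E.K} (hD : 4 * a ^ 3 + 27 * b ^ 2 ≠ 0) {x y : M}
    (hx : E.Fixed A x) (hy : E.Fixed A y)
    (hxy : y ^ 2 = x ^ 3 + A.j (E.cst a) * x + A.j (E.cst b)) :
    (∀ i, (x ∈ (pl i).W → ∃ c d, (pl i).val x c ∧ (pl i).val (A.s γ x) c ∧ (pl i).val y d ∧
      (pl i).val (A.s γ y) d) ∧ (x ∉ (pl i).W → A.s γ x ∉ (pl i).W)) ∧
    (¬ (A.s γ x = x ∧ A.s γ y = y) → ∃ t : M, t ≠ 0 ∧ ∀ i, (pl i).val t 0) := by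
  have hess := E.ess
  let inst : Algebra (RatFunc E.K) M := ((A.j : AlgebraicClosure k →+* M).comp E.κ).toAlgebra
  have hM : ∀ c : RatFunc E.K, algebraMap (RatFunc E.K) M c = A.j (E.κ c) := fun c => rfl
  have hchR : CharZero (RatFunc E.K) :=
    charZero_of_injective_algebraMap (algebraMap E.K (RatFunc E.K)).injective
  obtain ⟨A1, g, hg, hj, h1, h2⟩ := exists_base A E.m E.κ E.hκ hM
  choose pl1 hpl1 using exists_places A pl hpl E.m E.κ E.hκ hM A1 g hj h1
  have hf := fixed_iff A E A1 g hg h1 h2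
  obtain ⟨fr⟩ := exists_frame (K := E.K)
  let ψ : M →+* M := (A.s γ : M →+* M)
  have hψa : ∀ z, ψ z = A.s γ z := fun z => rfl
  have hge : ∀ c : E.K, g (fr.e (algebraMap E.K (AlgebraicClosure E.K) c)) = E.cst c := by
    intro c
    rw [fr.e.commutes, IsScalarTower.algebraMap_apply E.K (RatFunc E.K) (Kb E.K), hg]
    rfl
  have hC : ∀ z : AlgebraicClosure E.K, γ (g (fr.e z)) = g (fr.e z) := by
    intro z
    apply hγ
    refine ⟨minpoly E.K z, minpoly.ne_zero (Algebra.IsIntegral.isIntegral z), ?_⟩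
    have e1 : E.cst = ((g : Kb E.K →+* AlgebraicClosure k).comp
        (fr.e : AlgebraicClosure E.K →+* Kb E.K)).comp (algebraMap E.K (AlgebraicClosure E.K)) := by
      apply RingHom.ext
      intro c
      exact (hge c).symm
    have e2 := Polynomial.hom_eval₂ (minpoly E.K z) (algebraMap E.K (AlgebraicClosure E.K))
      ((g : Kb E.K →+* AlgebraicClosure k).comp
        (fr.e : AlgebraicClosure E.K →+* Kb E.K)) z
    rw [← aeval_def, minpoly.aeval, map_zero] at e2
    rw [e1]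
    exact e2.symm
  have hCs : ∀ z : AlgebraicClosure E.K, γ.symm (g (fr.e z)) = g (fr.e z) := by
    intro z
    rw [AlgEquiv.symm_apply_eq, hC]
  have hU : (g fr.S) ^ 2 = E.S := by
    rw [← map_pow, fr.sq, hg]
    rfl
  set V : Kb E.K := g.symm (γ (g fr.S)) with hVd
  have hV : g V = γ (g fr.S) := g.apply_symm_apply _
  have hτκ : ∀ (τ1 : Kb E.K ≃ₐ[RatFunc E.K] Kb E.K)
      (τ0 : AlgebraicClosure k ≃ₐ[k] AlgebraicClosure k), (∀ z, g (τ1 z) = τ0 (g z)) →
      ∀ c, τ0 (E.κ c) = E.κ c := by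
    intro τ1 τ0 h c
    rw [← hg, ← h, τ1.commutes]
  have hψ : IsPsi A1 fr V ψ := by
    refine ⟨fun z => ?_, fun τ1 hτ1 hτV => ?_⟩
    · rw [hψa, hj, A.hj, hC]
    · obtain ⟨τ0, e1, e2⟩ := h1 τ1
      have hκ0 := hτκ τ1 τ0 e1
      have hτU : τ0 (γ (g fr.S)) = γ (g fr.S) := by rw [← hV, ← e1, hτV]
      have hτc : ∀ c : E.K, τ0 (E.cst c) = E.cst c := fun c => hκ0 _
      set τ0' : AlgebraicClosure k ≃ₐ[k] AlgebraicClosure k := γ⁻¹ * (τ0 * γ) with hτ0'
      have happ : ∀ z, τ0' z = γ.symm (τ0 (γ z)) := fun z => rfl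
      have hκ' : ∀ c, τ0' (E.κ c) = E.κ c := by
        have e3 : (τ0' : AlgebraicClosure k →+* AlgebraicClosure k).comp E.κ = E.κ := by
          apply ratFunc_hom_ext
          · intro c
            change τ0' (E.cst c) = E.cst c
            rw [happ, tw_cst hγ, hτc, AlgEquiv.symm_apply_eq, tw_cst hγ]
          · change τ0' E.S = E.S
            rw [happ, ← hU, map_pow, map_pow, hτU, ← map_pow, AlgEquiv.symm_apply_eq]
        intro c
        exact congrArg (fun f : RatFunc E.K →+* AlgebraicClosure k => f c) e3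
      obtain ⟨τ1', e4, e5⟩ := h2 τ0' hκ'
      refine ⟨τ1', ?_, fun z => ?_, fun x => ?_⟩
      · apply g.injective
        rw [e4, happ, hτU, AlgEquiv.symm_apply_eq]
      · apply g.injective
        obtain ⟨z', hz'⟩ : ∃ z', fr.e z' = τ1 (fr.e z) := by
          apply alg_range fr.e
          have h1 : IsAlgebraic E.K (fr.e z) :=
            (Algebra.IsAlgebraic.isAlgebraic (R := E.K) z).algHom fr.e
          exact h1.algHom ((τ1 : Kb E.K →ₐ[RatFunc E.K] Kb E.K).restrictScalars E.K)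
        rw [e4, happ, hC, ← e1, ← hz', hCs]
      · rw [hψa, hψa, e2, e5]
        have e6 : (A.s τ0 * A.s γ) x = (A.s γ * A.s τ0') x := by
          rw [← map_mul, ← map_mul, hτ0']
          congr 2
          group
        exact e6
  have hψc : ∀ c : E.K, ψ (algebraMap (RatFunc E.K) M (cc c)) =
      algebraMap (RatFunc E.K) M (cc c) := by
    intro c
    rw [hM, hψa, A.hj]
    congr 1
    exact tw_cst hγ c
  obtain ⟨Ψ, hΨ⟩ := exists_ptmap ψ (hψc a) (hψc b)
  have hns := nonsing_base (M := M) (cc_disc hD) (x := x) (y := y) hxy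
  have hP : ∀ τ : Kb E.K ≃ₐ[RatFunc E.K] Kb E.K, τ fr.S = fr.S →
      A1.pt (cc a) (cc b) τ (.some _ _ hns) = .some _ _ hns := by
    intro τ _
    obtain ⟨h', e⟩ := pm_some (E := sw (cc a) (cc b))
      ((A1.s τ : M ≃ₐ[RatFunc E.K] M) : M →ₐ[RatFunc E.K] M) hns
    unfold SAct.pt
    rw [e, Affine.Point.some.injEq]
    exact ⟨(hf x).1 hx τ, (hf y).1 hy τ⟩
  have hdiv := exists_divPsi A1 fr hEmb hUnr hD pl1 hpl1 hψ Ψ hΨ hP
  obtain ⟨hns', eΨ⟩ := hΨ _ _ hns
  -- the local statements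
  have hloc : ∀ i : PlF k, ∃ (inst : Algebra (RatFunc E.K) (AlgebraicClosure i.Lv))
      (pl' : Plc (RatFunc E.K) M (AlgebraicClosure i.Lv)) (z : AlgebraicClosure i.Lv),
      pl'.W = (pl i).W ∧ (∀ x c, pl'.val x c ↔ (pl i).val x c) ∧
      ∀ σ : AlgebraicClosure i.Lv ≃ₐ[i.Lv] AlgebraicClosure i.Lv, σ z = z →
      (∀ x ∈ {x : M | ∀ τ : Kb E.K ≃ₐ[RatFunc E.K] Kb E.K, τ fr.S = fr.S → τ V = V →
        A1.s τ x = x}, ∀ c, pl'.val x c → σ c = c) ∧
      (∀ c : RatFunc E.K, σ (algebraMap (RatFunc E.K) (AlgebraicClosure i.Lv) c) =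
        algebraMap (RatFunc E.K) (AlgebraicClosure i.Lv) c) := by
    intro i
    let instC : Algebra (RatFunc E.K) (AlgebraicClosure i.Lv) :=
      (((pl i).iot A.j : AlgebraicClosure k →+* AlgebraicClosure i.Lv).comp E.κ).toAlgebra
    have hCa : ∀ c : RatFunc E.K, algebraMap (RatFunc E.K) (AlgebraicClosure i.Lv) c =
        (pl i).iot A.j (E.κ c) := fun c => rfl
    let pl' : Plc (RatFunc E.K) M (AlgebraicClosure i.Lv) :=
      { W := (pl i).W
        ρ := (pl i).ρ
        loc := (pl i).loc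
        comm := fun c => by
          obtain ⟨h, e⟩ := (pl i).iot_spec A.j (E.κ c)
          exact ⟨h, e⟩ }
    -- a primitive element
    set F : IntermediateField k (AlgebraicClosure k) :=
      IntermediateField.adjoin k {E.α, g fr.S, g V} with hF
    have hFfin : FiniteDimensional k F :=
      IntermediateField.finiteDimensional_adjoin
        (fun x _ => (Algebra.IsAlgebraic.isAlgebraic (R := k) x).isIntegral)
    obtain ⟨α, hα⟩ := Field.exists_primitive_element k F
    have hαF : E.α ∈ F := IntermediateField.subset_adjoin _ _ (by simp)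
    have hUF : g fr.S ∈ F := IntermediateField.subset_adjoin _ _ (by simp)
    have hVF : g V ∈ F := IntermediateField.subset_adjoin _ _ (by simp)
    refine ⟨instC, pl', (pl i).iot A.j (α : AlgebraicClosure k), rfl, fun _ _ => Iff.rfl, ?_⟩
    intro σ hσ
    obtain ⟨τ0, hτ0⟩ := exists_compat ((pl i).iot A.j) σ
    have hτα : τ0 (α : AlgebraicClosure k) = α := by
      apply ((pl i).iot A.j).injective
      have := hτ0 (α : AlgebraicClosure k)
      rw [hσ] at this
      exact this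
    have hτκ0 : ∀ c, τ0 (E.κ c) = E.κ c :=
      E.hα τ0 (fix_of_primitive F α hα τ0 hτα hαF)
    have hτU : τ0 (g fr.S) = g fr.S := fix_of_primitive F α hα τ0 hτα hUF
    have hτV : τ0 (g V) = g V := fix_of_primitive F α hα τ0 hτα hVF
    obtain ⟨τ1, e1, e2⟩ := h2 τ0 hτκ0
    have hτ1 : τ1 fr.S = fr.S := by
      apply g.injective
      rw [e1, hτU]
    have hτ2 : τ1 V = V := by
      apply g.injective
      rw [e1, hτV]
    refine ⟨fun x hx c hc => ?_, fun c => ?_⟩
    · obtain ⟨hxW, hc⟩ := hc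
      obtain ⟨h, e⟩ := hpl i σ τ0 hτ0 ⟨x, hxW⟩
      have hxx : A.s τ0 x = x := by
        rw [← e2]
        exact hx τ1 hτ1 hτ2
      have hc' : (pl i).ρ ⟨x, hxW⟩ = c := hc
      rw [← hc', ← e]
      congr 1
      exact Subtype.ext hxx
    · rw [hCa, ← hτ0, hτκ0]
  have hdivF : ∀ n : ℕ, 1 ≤ n → ∃ R : PM M a b,
      n • R = (.some _ _ hns : PM M a b) - .some _ _ hns' ∧
      ∀ x' y' h', R = .some x' y' h' →
        x' ∈ {x : M | ∀ τ : Kb E.K ≃ₐ[RatFunc E.K] Kb E.K, τ fr.S = fr.S → τ V = V →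
          A1.s τ x = x} ∧
        y' ∈ {x : M | ∀ τ : Kb E.K ≃ₐ[RatFunc E.K] Kb E.K, τ fr.S = fr.S → τ V = V →
          A1.s τ x = x} := by
    intro n hn
    obtain ⟨R, hR, hRfix⟩ := hdiv n hn
    refine ⟨R, by rw [hR, eΨ], fun x' y' h' e => ?_⟩
    constructor
    · intro τ hτ hτV
      have h3 := hRfix τ hτ hτV
      rw [e] at h3
      obtain ⟨h4, e4⟩ := pm_some (E := sw (cc a) (cc b))
        ((A1.s τ : M ≃ₐ[RatFunc E.K] M) : M →ₐ[RatFunc E.K] M) h'
      unfold SAct.pt at h3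
      rw [e4, Affine.Point.some.injEq] at h3
      exact h3.1
    · intro τ hτ hτV
      have h3 := hRfix τ hτ hτV
      rw [e] at h3
      obtain ⟨h4, e4⟩ := pm_some (E := sw (cc a) (cc b))
        ((A1.s τ : M ≃ₐ[RatFunc E.K] M) : M →ₐ[RatFunc E.K] M) h'
      unfold SAct.pt at h3
      rw [e4, Affine.Point.some.injEq] at h3
      exact h3.2
  refine ⟨fun i => ?_, fun hne => ?_⟩
  · let inst1 : NontriviallyNormedField i.Lv := nnf i.v
    have inst2 : IsUltrametricDist i.Lv := ultra i.v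
    have inst3 : ProperSpace i.Lv := proper i.v
    have inst4 : CharZero i.Lv := charZero_compl i.v
    obtain ⟨instC, pl', z, hW, hv, hσ⟩ := hloc i
    have key := val_psi hInter pl' (cc_disc hD) z _ hσ hns hns' hdivF
    simp only [hW, hv] at key
    exact key
  · rcases hDD : (.some _ _ hns : PM M a b) - .some _ _ hns' with _ | ⟨xD, yD, hxyD⟩
    · exfalso
      have h0 : (.some _ _ hns : PM M a b) - .some _ _ hns' = 0 := hDD
      rw [sub_eq_zero, Affine.Point.some.injEq] at h0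
      exact hne ⟨h0.1.symm, h0.2.symm⟩
    · have hnot : ∀ i, xD ∉ (pl i).W := by
        intro i
        let inst1 : NontriviallyNormedField i.Lv := nnf i.v
        have inst2 : IsUltrametricDist i.Lv := ultra i.v
        have inst3 : ProperSpace i.Lv := proper i.v
        have inst4 : CharZero i.Lv := charZero_compl i.v
        obtain ⟨instC, pl', z, hW, hv, hσ⟩ := hloc i
        have key := notMem_of_div hInter pl' (cc_disc hD) z _ hσ hdivF hDD
        rw [hW] at key
        exact key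
      by_cases hxD0 : xD = 0
      · refine ⟨1, one_ne_zero, fun i => ?_⟩
        exact absurd (by rw [hxD0]; exact zero_mem _) (hnot i)
      · exact ⟨xD⁻¹, inv_ne_zero hxD0, fun i => Plc.val_inv_of_notMem (hnot i)⟩

end Pool.Agent.Y791.BF
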