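import Pool.Agent.Y791.BF.Tasks
import Pool.Agent.Y791.BS.Good

/-!
# Power residue obstruction over finitely generated fields: choice of the exponent (helper809)
-/

set_option autoImplicit false

open IsDedekindDomain NumberField

namespace Pool.Agent.Y791.BF.ObsFG

open Pool.Agent.TH954

variable {k : Type} [Field k] [CharZero k]

lemma pair_step (hE : S_EmbFG) (hk : Algebra.EssFiniteType ℚ k)
    (T : Finset (AlgebraicClosure k)) {θ θ' : AlgebraicClosure k} (hθ : θ ∈ T) (hθ' : θ' ∈ T)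
    (hne : θ ≠ θ') (n0 : ℕ) :
    ∃ p A e : ℕ, n0 < p ∧ p.Prime ∧ ∀ a : ℕ, a ≡ A [MOD p ^ 2] → ∀ l : ℕ, e < l →
      ∀ w ∈ IntermediateField.adjoin k (T : Set (AlgebraicClosure k)),
        θ - (a : AlgebraicClosure k) ≠ w ^ l * (θ' - (a : AlgebraicClosure k)) := by
  classical
  obtain ⟨p, hp, i, ι, hn0, hpn, hres, hZ⟩ := hE k hk (insert (θ - θ') T) n0
  have hpp : p.Prime := hp.out
  have hch : CharZero i.Lv :=
    charZero_of_injective_algebraMap (algebraMap i.L i.Lv).injective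
  have hp0 : (p : i.Lv) ≠ 0 := by exact_mod_cast hpp.ne_zero
  obtain ⟨y, hy, hy1⟩ := hZ θ (Finset.mem_insert_of_mem hθ)
  obtain ⟨y', hy', -⟩ := hZ θ' (Finset.mem_insert_of_mem hθ')
  obtain ⟨y'', hy'', hy1''⟩ := hZ (θ - θ') (Finset.mem_insert_self _ _)
  have hinj := (algebraMap i.Lv (AlgebraicClosure i.Lv)).injective
  have e0 : y'' = y - y' := by
    apply hinj
    rw [map_sub, hy, hy', hy'', map_sub]
  have hyy : ‖y - y'‖ = 1 := by
    rw [← e0]
    exact hy1'' (sub_ne_zero.2 hne)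
  have hyle : ‖y‖ ≤ 1 := by
    by_cases h0 : θ = 0
    · rw [h0, map_zero] at hy
      have : y = 0 := by
        apply hinj
        rw [hy, map_zero]
      rw [this, norm_zero]
      exact zero_le_one
    · exact (hy1 h0).le
  obtain ⟨π, hπ0, hπ1, hπ⟩ := Pool.Agent.Y791.BS.exists_unif i.v
  set P : i.Lv := algebraMap i.L i.Lv π with hP
  have hP0 : 0 < ‖P‖ := norm_pos_iff.2 ((_root_.map_ne_zero _).2 hπ0)
  obtain ⟨e, he⟩ := hπ (p : i.Lv) hp0
  have he' : ‖(p : i.Lv)‖ = ‖P‖ ^ e := he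
  have hπ' : ∀ w : i.Lv, w ≠ 0 → ∃ n : ℤ, ‖w‖ = ‖P‖ ^ n := hπ
  have hpn0 : 0 < ‖(p : i.Lv)‖ := norm_pos_iff.2 hp0
  obtain ⟨n, hn⟩ := hres y hyle
  -- the choice of A
  obtain ⟨A, hA1, hA2⟩ : ∃ A : ℕ, ‖(p : i.Lv)‖ ≤ ‖y - A‖ ∧ ‖y - A‖ < 1 := by
    by_cases h1 : ‖(p : i.Lv)‖ ≤ ‖y - n‖
    · exact ⟨n, h1, hn⟩
    · rw [not_le] at h1
      have e1 : ‖y - ((n + p : ℕ) : i.Lv)‖ = ‖(p : i.Lv)‖ := by
        have e2 : y - ((n + p : ℕ) : i.Lv) = (y - n) + (-(p : i.Lv)) := by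
          push_cast
          ring
        rw [e2, IsUltrametricDist.norm_add_eq_max_of_norm_ne_norm (by
          rw [norm_neg]
          exact h1.ne), norm_neg]
        exact max_eq_right h1.le
      exact ⟨n + p, e1.ge, by rw [e1]; exact hpn⟩
  refine ⟨p, A, e.toNat, hn0, hpp, fun a ha l hl w hw heq => ?_⟩
  -- norms
  have haA : ‖((A : i.Lv) - (a : i.Lv))‖ < ‖(p : i.Lv)‖ := by
    obtain ⟨m, hm⟩ : ((p ^ 2 : ℕ) : ℤ) ∣ (A : ℤ) - (a : ℤ) := (Nat.modEq_iff_dvd).1 ha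
    have e1 : (A : i.Lv) - (a : i.Lv) = (p : i.Lv) ^ 2 * (m : i.Lv) := by
      have h2 := congrArg (fun x : ℤ => (x : i.Lv)) hm
      push_cast at h2
      exact h2
    have hm1 : ‖(m : i.Lv)‖ ≤ 1 := IsUltrametricDist.norm_intCast_le_one i.Lv m
    rw [e1, norm_mul, norm_pow]
    calc ‖(p : i.Lv)‖ ^ 2 * ‖(m : i.Lv)‖ ≤ ‖(p : i.Lv)‖ ^ 2 * 1 :=
          mul_le_mul_of_nonneg_left hm1 (by positivity)
      _ = ‖(p : i.Lv)‖ * ‖(p : i.Lv)‖ := by ring
      _ < ‖(p : i.Lv)‖ * 1 := mul_lt_mul_of_pos_left hpn hpn0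
      _ = ‖(p : i.Lv)‖ := mul_one _
  have hya : ‖y - a‖ = ‖y - A‖ := by
    have e1 : y - a = (y - A) + ((A : i.Lv) - a) := by ring
    rw [e1, IsUltrametricDist.norm_add_eq_max_of_norm_ne_norm (haA.trans_le hA1).ne']
    exact max_eq_left (haA.trans_le hA1).le
  have hya' : ‖y' - a‖ = 1 := by
    have e1 : y' - a = -(y - y') + (y - a) := by ring
    have h1 : ‖y - a‖ < 1 := by rw [hya]; exact hA2
    rw [e1, IsUltrametricDist.norm_add_eq_max_of_norm_ne_norm (by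
      rw [norm_neg, hyy]
      exact h1.ne'), norm_neg, hyy]
    exact max_eq_left h1.le
  -- the element w in the completion
  have hwr : ∃ w0 : i.Lv, algebraMap i.Lv (AlgebraicClosure i.Lv) w0 = ι w := by
    have hle : IntermediateField.adjoin k (T : Set (AlgebraicClosure k)) ≤
        ((IsScalarTower.toAlgHom k i.Lv (AlgebraicClosure i.Lv)).fieldRange.comap ι) := by
      rw [IntermediateField.adjoin_le_iff]
      intro t ht
      obtain ⟨yt, hyt, -⟩ := hZ t (Finset.mem_insert_of_mem ht)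
      exact ⟨yt, hyt⟩
    obtain ⟨w0, hw0⟩ := hle hw
    exact ⟨w0, hw0⟩
  obtain ⟨w0, hw0⟩ := hwr
  have heq' : y - a = w0 ^ l * (y' - a) := by
    apply hinj
    rw [map_sub, map_mul, map_pow, map_sub, map_natCast, hy, hy', hw0, ← map_natCast ι, ← map_sub,
      ← map_sub, ← map_pow, ← map_mul, heq]
  have hn1 : ‖y - A‖ = ‖w0‖ ^ l := by
    rw [← hya, heq', norm_mul, norm_pow, hya', mul_one]
  have hA0 : 0 < ‖y - A‖ := hpn0.trans_le hA1
  have hl0 : l ≠ 0 := by omega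
  have hw00 : w0 ≠ 0 := by
    intro h0
    rw [h0, norm_zero, zero_pow hl0] at hn1
    exact hA0.ne' hn1
  obtain ⟨t, ht⟩ := hπ' w0 hw00
  have hn2 : ‖y - A‖ = ‖P‖ ^ (t * l) := by
    rw [hn1, ht, zpow_mul, zpow_natCast]
  have hanti : StrictAnti (fun n : ℤ => ‖P‖ ^ n) := zpow_right_strictAnti₀ hP0 hπ1
  have h1 : (0 : ℤ) < t * l := by
    apply hanti.lt_iff_gt.1
    show ‖P‖ ^ (t * l) < ‖P‖ ^ (0 : ℤ)
    rw [← hn2, zpow_zero]
    exact hA2
  have h2 : t * l ≤ e := by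
    apply hanti.le_iff_ge.1
    show ‖P‖ ^ e ≤ ‖P‖ ^ (t * l)
    rw [← hn2, ← he']
    exact hA1
  have h3 : (0 : ℤ) < t := by
    by_contra h
    push Not at h
    have : t * l ≤ 0 := mul_nonpos_of_nonpos_of_nonneg h (by positivity)
    omega
  have h4 : (l : ℤ) ≤ t * l := by nlinarith
  have h5 : (e.toNat : ℤ) < l := by exact_mod_cast hl
  have h6 := Int.self_le_toNat e
  omega

lemma pairs_step (hE : S_EmbFG) (hk : Algebra.EssFiniteType ℚ k)
    (T : Finset (AlgebraicClosure k)) (S : Finset (AlgebraicClosure k × AlgebraicClosure k))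
    (hS : ∀ z ∈ S, z.1 ∈ T ∧ z.2 ∈ T ∧ z.1 ≠ z.2) :
    ∃ N A e : ℕ, 0 < N ∧ ∀ a : ℕ, a ≡ A [MOD N] → ∀ l : ℕ, e < l → ∀ z ∈ S,
      ∀ w ∈ IntermediateField.adjoin k (T : Set (AlgebraicClosure k)),
        z.1 - (a : AlgebraicClosure k) ≠ w ^ l * (z.2 - (a : AlgebraicClosure k)) := by
  classical
  induction S using Finset.induction_on with
  | empty => exact ⟨1, 0, 0, one_pos, fun a _ l _ z hz => absurd hz (Finset.notMem_empty z)⟩
  | insert z0 S h0 ih =>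
    obtain ⟨N, A, e, hN, h⟩ := ih (fun z hz => hS z (Finset.mem_insert_of_mem hz))
    obtain ⟨h1, h2, h3⟩ := hS z0 (Finset.mem_insert_self _ _)
    obtain ⟨p, A', e', hpN, hp, h'⟩ := pair_step hE hk T h1 h2 h3 N
    have hco : Nat.Coprime N (p ^ 2) := by
      refine Nat.Coprime.pow_right 2 ?_
      rw [Nat.coprime_comm, hp.coprime_iff_not_dvd]
      exact fun hd => absurd (Nat.le_of_dvd hN hd) (by omega)
    obtain ⟨A'', hA1, hA2⟩ := Nat.chineseRemainder hco A A'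
    refine ⟨N * p ^ 2, A'', max e e', Nat.mul_pos hN (pow_pos hp.pos 2),
      fun a ha l hl z hz w hw => ?_⟩
    have hl1 : e < l := lt_of_le_of_lt (le_max_left _ _) hl
    have hl2 : e' < l := lt_of_le_of_lt (le_max_right _ _) hl
    rcases Finset.mem_insert.1 hz with rfl | hz
    · exact h' a ((ha.of_dvd (Dvd.intro_left _ rfl)).trans hA2) l hl2 w hw
    · exact h a ((ha.of_dvd (Dvd.intro _ rfl)).trans hA1) l hl1 z hz w hw

end Pool.Agent.Y791.BF.ObsFG
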