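import Pool.Agent.Y791.BF.Hyp2

/-!
# Points of superelliptic curves over a level
-/

set_option autoImplicit false
set_option linter.unusedSectionVars false

open Polynomial WeierstrassCurve IsDedekindDomain NumberField

namespace Pool.Agent.Y791.BF

open Pool.Agent.TH942 Pool.Agent.TH954 Pool.Agent.Y791.BS

/-- functions vanishing at all places from points of hyperelliptic curves -/
def S_Dgen : Prop :=
  ∀ (k : Type) [Field k] [CharZero k] (M : Type) [Field M] [CharZero M] [IsAlgClosed M]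
    [Algebra k M] (A : SAct k M)
    (pl : ∀ i : PlF k, Plc k M (AlgebraicClosure i.Lv)), (∀ i, GeoPlc A (pl i)) →
  ∀ (E : Lvl k) (γ : AlgebraicClosure k ≃ₐ[k] AlgebraicClosure k),
    (∀ w, E.IsCst w → γ w = w) →
  ∀ (f : E.K[X]), f.Separable → 3 ≤ f.natDegree →
  ∀ (x y : M), E.Fixed A x → E.Fixed A y → y ≠ 0 →
    y ^ 2 = eval₂ ((A.j : AlgebraicClosure k →+* M).comp E.cst) x f →
    ¬ (A.s γ x = x ∧ A.s γ y = y) → ∃ t : M, t ≠ 0 ∧ ∀ i, (pl i).val t 0

section core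

variable (hD : S_Dgen) (hT : S_TypesL)
    {k : Type} [Field k] [CharZero k] {M : Type} [Field M] [CharZero M] [IsAlgClosed M]
    [Algebra k M] (A : SAct k M) (pl : ∀ i : PlF k, Plc k M (AlgebraicClosure i.Lv))
    (hpl : ∀ i, GeoPlc A (pl i)) (E : Lvl k)
    (γ : AlgebraicClosure k ≃ₐ[k] AlgebraicClosure k) (hγ : ∀ w, E.IsCst w → γ w = w)

include hD hpl hγ in
/-- a pair of differences with constant classes -/
theorem pair {l : ℕ} (hl : 3 ≤ l) {x : M} (hx : E.Fixed A x)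
    (hxc : ∀ w : AlgebraicClosure k, x ≠ A.j w) {t1 t2 d1 d2 : E.K} (h12 : t1 ≠ t2)
    (hd1 : d1 ≠ 0) (hd2 : d2 ≠ 0) {g1 g2 : M} (hg1 : E.Fixed A g1) (hg2 : E.Fixed A g2)
    (e1 : x - jc A E t1 = jc A E d1 * g1 ^ l) (e2 : x - jc A E t2 = jc A E d2 * g2 ^ l)
    (hne : ¬ (A.s γ x = x ∧ A.s γ (g1 * g2) = g1 * g2)) :
    ∃ t : M, t ≠ 0 ∧ ∀ i, (pl i).val t 0 := by
  have h4 : (4 : E.K) ≠ 0 := by norm_num
  set a : E.K := 4 * d1 * d2 with ha
  have ha0 : a ≠ 0 := mul_ne_zero (mul_ne_zero h4 hd1) hd2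
  set b : E.K := -(t1 - t2) ^ 2 / a with hb
  have hb0 : b ≠ 0 := div_ne_zero (neg_ne_zero.2 (pow_ne_zero _ (sub_ne_zero.2 h12))) ha0
  set f : E.K[X] := C a * (X ^ l - C b) with hf
  have hl0 : (l : E.K) ≠ 0 := Nat.cast_ne_zero.2 (by omega)
  have hsep : f.Separable := Separable.unit_mul (isUnit_C.2 ha0.isUnit)
    (separable_X_pow_sub_C b hl0 hb0)
  have hdeg : f.natDegree = l := by
    rw [hf, natDegree_C_mul ha0, natDegree_X_pow_sub_C]
  set u : M := 2 * x - jc A E t1 - jc A E t2 with hu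
  have h2M : (2 : M) ≠ 0 := two_ne_zero
  have hu0 : u ≠ 0 := by
    intro h0
    apply hxc ((E.cst t1 + E.cst t2) / 2)
    have h1 : jc A E t1 = A.j (E.cst t1) := rfl
    have h2 : jc A E t2 = A.j (E.cst t2) := rfl
    rw [map_div₀, map_add, map_ofNat, ← h1, ← h2, eq_div_iff h2M]
    linear_combination h0
  have h2j : jc A E 2 = 2 := by
    unfold jc
    rw [map_ofNat E.cst 2, map_ofNat A.j 2]
  have h4j : jc A E 4 = 4 := by
    unfold jc
    rw [map_ofNat E.cst 4, map_ofNat A.j 4]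
  have hZ : E.Fixed A (g1 * g2) := Fixed.mul hg1 hg2
  have huF : E.Fixed A u := by
    refine Fixed.sub (Fixed.sub ?_ (fixed_jc A E t1)) (fixed_jc A E t2)
    rw [← h2j]
    exact Fixed.mul (fixed_jc A E 2) hx
  have heq : u ^ 2 = eval₂ ((A.j : AlgebraicClosure k →+* M).comp E.cst) (g1 * g2) f := by
    rw [hf, eval₂_mul, eval₂_sub, eval₂_pow, eval₂_X, eval₂_C, eval₂_C]
    change u ^ 2 = jc A E a * ((g1 * g2) ^ l - jc A E b)
    have e3 : jc A E a * jc A E b = -(jc A E t1 - jc A E t2) ^ 2 := by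
      rw [← jc_mul, hb, mul_div_cancel₀ _ ha0]
      simp [jc]
    have e4 : jc A E a = 4 * jc A E d1 * jc A E d2 := by
      rw [ha, jc_mul, jc_mul, h4j]
    rw [mul_sub, e3, e4, mul_pow]
    have e5 : 4 * jc A E d1 * jc A E d2 * (g1 ^ l * g2 ^ l) =
        4 * ((jc A E d1 * g1 ^ l) * (jc A E d2 * g2 ^ l)) := by ring
    rw [e5, ← e1, ← e2, hu]
    ring
  refine hD k M A pl hpl E γ hγ f hsep (by rw [hdeg]; exact hl) _ u hZ huF hu0 heq
    (fun hh => hne ⟨?_, hh.1⟩)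
  have h5 := hh.2
  rw [hu, map_sub, map_sub, map_mul, map_ofNat, s_jc A E γ hγ, s_jc A E γ hγ] at h5
  have h6 : 2 * A.s γ x = 2 * x := by linear_combination h5
  exact mul_left_cancel₀ h2M h6

include hD hT hpl hγ in
/-- the case of a number of roots prime to the exponent -/
theorem core {l : ℕ} (hl : l.Prime) (hl3 : 3 ≤ l) (R : Finset E.K) (c : E.K) (hc : c ≠ 0)
    (hR2 : 2 ≤ R.card) (hlR : ¬ l ∣ R.card) {x y : M} (hx : E.Fixed A x) (hy : E.Fixed A y)
    (hxc : ∀ w : AlgebraicClosure k, x ≠ A.j w)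
    (hxy : y ^ l = jc A E c * ∏ t ∈ R, (x - jc A E t))
    (hne : ¬ (A.s γ x = x ∧ A.s γ y = y)) :
    ∃ t : M, t ≠ 0 ∧ ∀ i, (pl i).val t 0 := by
  classical
  have hθ : ∀ t ∈ R, x ≠ jc A E t := fun t _ => hxc _
  have hcls : ∀ t : E.K, ∃ (d : E.K) (g : M), t ∈ R → d ≠ 0 ∧ E.Fixed A g ∧
      x - jc A E t = jc A E d * g ^ l := by
    intro t
    by_cases ht : t ∈ R
    · obtain ⟨d, g, h⟩ := hT k M A pl hpl E l hl R c hc hlR x y hx hy hθ hxy t ht
      exact ⟨d, g, fun _ => h⟩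
    · exact ⟨0, 0, fun h => absurd h ht⟩
  choose d g hdg using hcls
  have hpair : ∀ {t1 t2 : E.K}, t1 ∈ R → t2 ∈ R → t1 ≠ t2 →
      ¬ (A.s γ x = x ∧ A.s γ (g t1 * g t2) = g t1 * g t2) →
      ∃ t : M, t ≠ 0 ∧ ∀ i, (pl i).val t 0 := by
    intro t1 t2 m1 m2 h12 hn
    obtain ⟨a1, b1, c1⟩ := hdg t1 m1
    obtain ⟨a2, b2, c2⟩ := hdg t2 m2
    exact pair hD A pl hpl E γ hγ hl3 hx hxc h12 a1 a2 b1 b2 c1 c2 hn
  obtain ⟨r1, m1, r2, m2, h12⟩ := Finset.one_lt_card.1 (show 1 < R.card from hR2)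
  by_cases hsx : A.s γ x = x
  swap
  · exact hpair m1 m2 h12 (fun hh => hsx hh.1)
  have hsy : A.s γ y ≠ y := fun h => hne ⟨hsx, h⟩
  have hg0 : ∀ t ∈ R, g t ≠ 0 := by
    intro t ht h0
    obtain ⟨-, -, e⟩ := hdg t ht
    rw [h0, zero_pow hl.ne_zero, mul_zero, sub_eq_zero] at e
    exact hθ t ht e
  set s : E.K → M := fun t => A.s γ (g t) / g t with hs
  have hs1 : ∀ t ∈ R, A.s γ (g t) = s t * g t := by
    intro t ht
    rw [hs]
    simp only
    rw [div_mul_cancel₀ _ (hg0 t ht)]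
  have hsl : ∀ t ∈ R, s t ^ l = 1 := by
    intro t ht
    obtain ⟨a1, -, e⟩ := hdg t ht
    have h1 := congrArg (A.s γ) e
    rw [map_sub, hsx, s_jc A E γ hγ, map_mul, s_jc A E γ hγ, map_pow, e] at h1
    have h2 := mul_left_cancel₀ (jc_ne A E a1) h1
    rw [hs]
    simp only
    rw [div_pow, ← h2, div_self (pow_ne_zero _ (hg0 t ht))]
  set G : M := ∏ t ∈ R, g t with hG
  have hG0 : G ≠ 0 := Finset.prod_ne_zero_iff.2 hg0
  have hy2 : y ^ l = jc A E (c * ∏ t ∈ R, d t) * G ^ l := by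
    rw [hxy, jc_mul, hG, ← Finset.prod_pow, mul_assoc]
    congr 1
    have e1 : jc A E (∏ t ∈ R, d t) = ∏ t ∈ R, jc A E (d t) := by
      simp only [jc, map_prod]
    rw [e1, ← Finset.prod_mul_distrib]
    exact Finset.prod_congr rfl (fun t ht => (hdg t ht).2.2)
  obtain ⟨z, hz⟩ := Pool.Agent.W620.SC.root_mem (A.j : AlgebraicClosure k →+* M) hl.pos
    (h := y / G) (b := E.cst (c * ∏ t ∈ R, d t)) (by
      rw [div_pow, hy2, mul_div_assoc, div_self (pow_ne_zero _ hG0), mul_one]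
      rfl)
  have hz' : A.j z = y / G := hz
  have hyz : y = A.j z * G := by rw [hz', div_mul_cancel₀ _ hG0]
  have hzl : z ^ l = E.cst (c * ∏ t ∈ R, d t) := by
    have h1 : A.j (z ^ l) = A.j (E.cst (c * ∏ t ∈ R, d t)) := by
      rw [map_pow, hz', div_pow, hy2, mul_div_assoc, div_self (pow_ne_zero _ hG0), mul_one]
      rfl
    exact A.j.injective h1
  have hzC : γ z = z := by
    apply hγ
    refine ⟨X ^ l - C (c * ∏ t ∈ R, d t), ?_, ?_⟩
    · exact X_pow_sub_C_ne_zero hl.pos _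
    · rw [eval₂_sub, eval₂_pow, eval₂_X, eval₂_C, hzl, sub_self]
  have hsG : A.s γ G = (∏ t ∈ R, s t) * G := by
    rw [hG, map_prod, ← Finset.prod_mul_distrib]
    exact Finset.prod_congr rfl hs1
  have hprod : ∏ t ∈ R, s t ≠ 1 := by
    intro h1
    apply hsy
    rw [hyz, map_mul, A.hj, hzC, hsG, h1, one_mul]
  obtain ⟨t1, n1, t2, n2, hn12, hst⟩ : ∃ t1 ∈ R, ∃ t2 ∈ R, t1 ≠ t2 ∧ s t1 * s t2 ≠ 1 := by
    by_contra hcon
    push Not at hcon
    by_cases hc2 : R.card = 2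
    · obtain ⟨a, b, hab, hRab⟩ := Finset.card_eq_two.1 hc2
      apply hprod
      rw [hRab, Finset.prod_pair hab]
      exact hcon a (by rw [hRab]; simp) b (by rw [hRab]; simp) hab
    · have hs1 : ∀ t ∈ R, s t = 1 := by
        intro t ht
        have h3 : 1 < (R.erase t).card := by
          rw [Finset.card_erase_of_mem ht]
          omega
        obtain ⟨a, ha, b, hb, hab⟩ := Finset.one_lt_card.1 h3
        rw [Finset.mem_erase] at ha hb
        have q1 := hcon t ht a ha.2 ha.1.symm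
        have q2 := hcon t ht b hb.2 hb.1.symm
        have q3 := hcon a ha.2 b hb.2 hab
        have q4 : s t ^ 2 = 1 := by
          have q5 : s t ^ 2 * (s a * s b) = 1 := by
            have : s t ^ 2 * (s a * s b) = (s t * s a) * (s t * s b) := by ring
            rw [this, q1, q2, one_mul]
          rwa [q3, mul_one] at q5
        obtain ⟨m, hm⟩ : Odd l := hl.odd_of_ne_two (by omega)
        have q6 := hsl t ht
        rw [hm, pow_succ, pow_mul, q4, one_pow, one_mul] at q6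
        exact q6
      exact hprod (Finset.prod_eq_one hs1)
  refine hpair n1 n2 hn12 (fun hh => hst ?_)
  have h5 := hh.2
  rw [map_mul, hs1 t1 n1, hs1 t2 n2] at h5
  have h6 : (s t1 * s t2) * (g t1 * g t2) = 1 * (g t1 * g t2) := by
    linear_combination h5
  exact mul_right_cancel₀ (mul_ne_zero (hg0 t1 n1) (hg0 t2 n2)) h6

include hD hT hpl hγ in
/-- points of superelliptic curves whose equation splits -/
theorem sup_split {l : ℕ} (hl : l.Prime) (hl3 : 3 ≤ l) (R : Finset E.K) (c : E.K) (hc : c ≠ 0)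
    (hR2 : 2 ≤ R.card) {x y : M} (hx : E.Fixed A x) (hy : E.Fixed A y)
    (hxc : ∀ w : AlgebraicClosure k, x ≠ A.j w)
    (hxy : y ^ l = jc A E c * ∏ t ∈ R, (x - jc A E t))
    (hne : ¬ (A.s γ x = x ∧ A.s γ y = y)) :
    ∃ t : M, t ≠ 0 ∧ ∀ i, (pl i).val t 0 := by
  classical
  by_cases hlR : l ∣ R.card
  swap
  · exact core hD hT A pl hpl E γ hγ hl hl3 R c hc hR2 hlR hx hy hxc hxy hne
  obtain ⟨n, hn⟩ := hlR
  have hR3 : 3 ≤ R.card := by
    have := Nat.le_of_dvd (by omega) (Dvd.intro n hn.symm)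
    omega
  obtain ⟨t1, ht1⟩ : R.Nonempty := Finset.card_pos.1 (by omega)
  have hxt : x - jc A E t1 ≠ 0 := sub_ne_zero.2 (hxc _)
  have hinj : Set.InjOn (fun t : E.K => (t - t1)⁻¹) (R.erase t1 : Finset E.K) := by
    intro a _ b _ hab
    have h1 := inv_injective hab
    exact sub_left_injective h1
  have hcard : ((R.erase t1).image (fun t => (t - t1)⁻¹)).card = R.card - 1 := by
    rw [Finset.card_image_of_injOn hinj, Finset.card_erase_of_mem ht1]
  have hx1 : E.Fixed A (x - jc A E t1)⁻¹ := Fixed.inv (Fixed.sub hx (fixed_jc A E t1))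
  have hy1 : E.Fixed A (y * ((x - jc A E t1)⁻¹) ^ n) := Fixed.mul hy (Fixed.pow hx1 n)
  have hc1 : c * ∏ t ∈ R.erase t1, (t1 - t) ≠ 0 := by
    refine mul_ne_zero hc (Finset.prod_ne_zero_iff.2 (fun t ht => ?_))
    rw [Finset.mem_erase] at ht
    exact sub_ne_zero.2 ht.1.symm
  have hxy1 := move E A hn.symm (fun t _ => hxc _) hxy ht1
  refine core hD hT A pl hpl E γ hγ hl hl3 _ _ hc1 (by rw [hcard]; omega) ?_ hx1 hy1 ?_ hxy1 ?_
  · rw [hcard, hn]
    intro hdiv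
    have h1 : l ∣ l * n := Dvd.intro n rfl
    have h2 : l ∣ l * n - (l * n - 1) := Nat.dvd_sub h1 hdiv
    have h3 : l * n - (l * n - 1) = 1 := by omega
    rw [h3] at h2
    exact hl.one_lt.ne' (Nat.dvd_one.1 h2)
  · intro w hw
    apply hxc (w⁻¹ + E.cst t1)
    rw [map_add, map_inv₀, ← hw, inv_inv]
    change x = x - jc A E t1 + jc A E t1
    ring
  · rintro ⟨e1, e2⟩
    apply hne
    rw [map_inv₀, map_sub, s_jc A E γ hγ, inv_inj, sub_left_inj] at e1
    refine ⟨e1, ?_⟩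
    rw [map_mul, map_pow, map_inv₀, map_sub, s_jc A E γ hγ, e1] at e2
    exact mul_right_cancel₀ (pow_ne_zero n (inv_ne_zero hxt)) e2

end core

/-- points of superelliptic curves over a level -/
theorem supL (hD : S_Dgen) (hT : S_TypesL) (hExt : S_LvlExt) (k : Type) [Field k] [CharZero k]
    (M : Type) [Field M] [CharZero M]
    [IsAlgClosed M] [Algebra k M] (A : SAct k M)
    (pl : ∀ i : PlF k, Plc k M (AlgebraicClosure i.Lv)) (hpl : ∀ i, GeoPlc A (pl i))
    (E : Lvl k) (γ : AlgebraicClosure k ≃ₐ[k] AlgebraicClosure k)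
    (hγ : ∀ w, E.IsCst w → γ w = w) (l : ℕ) (hl : l.Prime) (f : E.K[X]) (hf : f.Separable)
    (hdeg : 2 ≤ f.natDegree) (hld : ¬ (l = 2 ∧ f.natDegree = 2))
    (x y : M) (hx : E.Fixed A x) (hy : E.Fixed A y) (hxc : ∀ w : AlgebraicClosure k, x ≠ A.j w)
    (hxy : y ^ l = eval₂ ((A.j : AlgebraicClosure k →+* M).comp E.cst) x f)
    (hne : ¬ (A.s γ x = x ∧ A.s γ y = y)) : ∃ t : M, t ≠ 0 ∧ ∀ i, (pl i).val t 0 := by
  classical
  have hf0 : f ≠ 0 := hf.ne_zero
  obtain ⟨E', j, hj1, hj2, hs1, hcst1, -, hfix⟩ := hExt k E f hf0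
  have hγ' : ∀ w, E'.IsCst w → γ w = w := fun w hw => hγ w (hcst1 w hw)
  set R : Finset E'.K := (f.map j).roots.toFinset with hR
  have hsepj : (f.map j).Separable := hf.map
  have hnd : (f.map j).roots.Nodup := nodup_roots hsepj
  have hcard : R.card = f.natDegree := by
    rw [hR, Multiset.toFinset_card_of_nodup hnd, ← hs1.natDegree_eq_card_roots,
      natDegree_map]
  set c : E'.K := (f.map j).leadingCoeff with hc
  have hc0 : c ≠ 0 := by
    rw [hc, Ne, leadingCoeff_eq_zero]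
    exact (Polynomial.map_ne_zero_iff j.injective).2 hf0
  have hfac : f.map j = C c * ∏ t ∈ R, (X - C t) := by
    conv_lhs => rw [hs1.eq_prod_roots]
    rw [hR, Finset.prod, Multiset.toFinset_val, hnd.dedup]
  have hxy' : y ^ l = jc A E' c * ∏ t ∈ R, (x - jc A E' t) := by
    have e1 : ((A.j : AlgebraicClosure k →+* M).comp E.cst) =
        ((A.j : AlgebraicClosure k →+* M).comp E'.cst).comp j := by
      apply RingHom.ext
      intro a
      change A.j (E.cst a) = A.j (E'.cst (j a))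
      rw [hj1]
    rw [hxy, e1, ← eval₂_map, hfac, eval₂_mul, eval₂_C, eval₂_finsetProd]
    simp only [eval₂_sub, eval₂_X, eval₂_C]
    rfl
  by_cases hl2 : l = 2
  · subst hl2
    have hy0 : y ≠ 0 := by
      rintro rfl
      rw [zero_pow two_ne_zero] at hxy'
      exact mul_ne_zero (jc_ne A E' hc0) (Finset.prod_ne_zero_iff.2 (fun t _ =>
        sub_ne_zero.2 (hxc _))) hxy'.symm
    exact hD k M A pl hpl E γ hγ f hf (by
      by_contra hcon
      exact hld ⟨rfl, by omega⟩) x y hx hy hy0 hxy hne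
  · have hl3 : 3 ≤ l := by
      have := hl.two_le
      omega
    exact sup_split hD hT A pl hpl E' γ hγ' hl hl3 R c hc0 (by rw [hcard]; exact hdeg)
      (fun τ hτ => hx τ (hfix τ hτ)) (fun τ hτ => hy τ (hfix τ hτ)) hxc hxy' hne

end Pool.Agent.Y791.BF
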