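import Pool.Agent.Y791.BF.Tasks2

/-!
# Superelliptic twists: values at places
-/

set_option autoImplicit false
set_option linter.unusedSectionVars false

open Polynomial IsDedekindDomain NumberField

namespace Pool.Agent.Y791.BF.Super

open Pool.Agent.TH954 Pool.Agent.Y791.BS Pool.Agent.Y791.BF

/-- roots of unity of odd order whose product is not one -/
lemma exists_pair {α M : Type} [Field M] (R : Finset α) (hR : 2 ≤ R.card) (r : α → M)
    {l : ℕ} (hl : l % 2 = 1) (hr : ∀ a ∈ R, r a ^ l = 1) (hp : ∏ a ∈ R, r a ≠ 1) :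
    ∃ a ∈ R, ∃ b ∈ R, a ≠ b ∧ r a * r b ≠ 1 := by
  classical
  by_contra hcon
  push Not at hcon
  apply hp
  by_cases h2 : R.card = 2
  · obtain ⟨a, b, hab, rfl⟩ := Finset.card_eq_two.1 h2
    rw [Finset.prod_pair hab]
    exact hcon a (by simp) b (by simp) hab
  · apply Finset.prod_eq_one
    intro a ha
    have h3 : 1 < (R.erase a).card := by
      rw [Finset.card_erase_of_mem ha]
      omega
    obtain ⟨b, hb, c, hc, hbc⟩ := Finset.one_lt_card.1 h3
    rw [Finset.mem_erase] at hb hc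
    have e1 := hcon a ha b hb.2 hb.1.symm
    have e2 := hcon a ha c hc.2 hc.1.symm
    have e3 := hcon b hb.2 c hc.2 hbc
    have e4 : r a ^ 2 = 1 := by
      calc r a ^ 2 = r a ^ 2 * (r b * r c) := by rw [e3, mul_one]
        _ = (r a * r b) * (r a * r c) := by ring
        _ = 1 := by rw [e1, e2, one_mul]
    have e5 := hr a ha
    have e6 : l = 2 * (l / 2) + 1 := by omega
    rw [e6, pow_succ, pow_mul, e4, one_pow, one_mul] at e5
    exact e5

/-- binomials are separable -/
lemma sep_binom {K : Type} [Field K] [CharZero K] {a b : K} (ha : a ≠ 0) (hb : b ≠ 0) {n : ℕ}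
    (hn : 0 < n) : (C a * X ^ n + C b : K[X]).Separable := by
  have h : (C a * X ^ n + C b : K[X]) = C a * (X ^ n - C (-b / a)) := by
    rw [mul_sub, ← C_mul]
    have e : a * (-b / a) = -b := by field_simp
    rw [e, C_neg, sub_neg_eq_add]
  rw [h]
  apply Separable.unit_mul (isUnit_C.2 ha.isUnit)
  apply separable_X_pow_sub_C
  · exact_mod_cast hn.ne'
  · exact div_ne_zero (neg_ne_zero.2 hb) ha

lemma deg_binom {K : Type} [Field K] {a b : K} (ha : a ≠ 0) {n : ℕ} :
    (C a * X ^ n + C b : K[X]).natDegree = n := by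
  rw [natDegree_add_C, natDegree_C_mul_X_pow n a ha]

section gen

variable {k : Type} [Field k] {M : Type} [Field M] [Algebra k M] (A : SAct k M) (E : Lvl k)

/-- the constants in `M` -/
noncomputable def ct : E.K →+* M := (A.j : AlgebraicClosure k →+* M).comp E.cst

lemma ct_apply (c : E.K) : ct A E c = A.j (E.cst c) := rfl

lemma isCst_cst (c : E.K) : E.IsCst (E.cst c) :=
  ⟨X - C c, X_sub_C_ne_zero c, by rw [eval₂_sub, eval₂_X, eval₂_C, sub_self]⟩

lemma isCst_root {l : ℕ} (hl : 0 < l) {w : AlgebraicClosure k} {c : E.K}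
    (h : w ^ l = E.cst c) : E.IsCst w :=
  ⟨X ^ l - C c, X_pow_sub_C_ne_zero hl c, by
    rw [eval₂_sub, eval₂_pow, eval₂_X, eval₂_C, h, sub_self]⟩

variable {A E}

lemma fixed_mul {x y : M} (hx : E.Fixed A x) (hy : E.Fixed A y) : E.Fixed A (x * y) :=
  fun τ hτ => by rw [map_mul, hx τ hτ, hy τ hτ]

lemma fixed_add {x y : M} (hx : E.Fixed A x) (hy : E.Fixed A y) : E.Fixed A (x + y) :=
  fun τ hτ => by rw [map_add, hx τ hτ, hy τ hτ]

lemma fixed_sub {x y : M} (hx : E.Fixed A x) (hy : E.Fixed A y) : E.Fixed A (x - y) :=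
  fun τ hτ => by rw [map_sub, hx τ hτ, hy τ hτ]

lemma fixed_pow {x : M} (hx : E.Fixed A x) (n : ℕ) : E.Fixed A (x ^ n) :=
  fun τ hτ => by rw [map_pow, hx τ hτ]

lemma fixed_inv {x : M} (hx : E.Fixed A x) : E.Fixed A x⁻¹ :=
  fun τ hτ => by rw [map_inv₀, hx τ hτ]

lemma fixed_ct (c : E.K) : E.Fixed A (ct A E c) := fun τ hτ => by
  rw [ct_apply, A.hj]
  exact congrArg A.j (hτ _)

lemma γ_ct {γ : AlgebraicClosure k ≃ₐ[k] AlgebraicClosure k} {ω : E.K} (hγ : E.IsTw γ ω)
    (c : E.K) : A.s γ (ct A E c) = ct A E c := by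
  rw [ct_apply, A.hj, hγ.1 _ (isCst_cst E c)]

variable {Ω : Type} [Field Ω] [Algebra k Ω] (pl : Plc k M Ω)

/-- the values of the constants -/
noncomputable def vc (A : SAct k M) (E : Lvl k) (pl : Plc k M Ω) : E.K →+* Ω :=
  (pl.iot A.j : AlgebraicClosure k →+* Ω).comp E.cst

lemma val_ct (c : E.K) : pl.val (ct A E c) (vc A E pl c) := Plc.val_j A.j _

lemma val_eval₂ {x : M} {c : Ω} (hx : pl.val x c) (Q : E.K[X]) :
    pl.val (eval₂ (ct A E) x Q) (eval₂ (vc A E pl) c Q) := by
  induction Q using Polynomial.induction_on' with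
  | add p q hp hq =>
    rw [eval₂_add, eval₂_add]
    exact hp.add hq
  | monomial n a =>
    rw [eval₂_monomial, eval₂_monomial]
    exact (val_ct pl a).mul (hx.pow n)

/-- values which are multiplied by a nontrivial constant -/
lemma zero_of_twist {γ : AlgebraicClosure k ≃ₐ[k] AlgebraicClosure k} {Z : M}
    {z : AlgebraicClosure k} (hz : z ≠ 1) (hZ : A.s γ Z = A.j z * Z) {c : Ω}
    (h1 : pl.val Z c) (h2 : pl.val (A.s γ Z) c) : c = 0 := by
  have h3 : pl.val (A.s γ Z) (pl.iot A.j z * c) := by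
    rw [hZ]
    exact (Plc.val_j A.j z).mul h1
  have h4 := h2.unique h3
  by_contra hc
  have h5 : pl.iot A.j z = 1 := by
    have h6 : (pl.iot A.j z - 1) * c = 0 := by
      rw [sub_mul, one_mul, ← h4, sub_self]
    rcases mul_eq_zero.1 h6 with h | h
    · exact sub_eq_zero.1 h
    · exact absurd h hc
  apply hz
  have h6 : pl.iot A.j z = pl.iot A.j 1 := by rw [h5, map_one]
  exact (pl.iot A.j).toRingHom.injective h6

/-- multiplication with a nonzero constant -/
lemma mem_of_ct_mul {a : E.K} (ha : a ≠ 0) {x : M} (h : ct A E a * x ∈ pl.W) : x ∈ pl.W := by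
  have h1 : ct A E a⁻¹ * (ct A E a * x) ∈ pl.W := mul_mem (val_ct pl _).mem h
  rwa [← mul_assoc, ← map_mul, inv_mul_cancel₀ ha, map_one, one_mul] at h1

end gen

section main

variable {k : Type} [Field k] [CharZero k] {M : Type} [Field M] [CharZero M] [IsAlgClosed M]
  [Algebra k M]

/-- curves with a product of linear factors whose number is prime to the exponent -/
theorem claim (h3 : S_TypesL) (h4 : S_Dthm) (A : SAct k M)
    (pl : ∀ i : PlF k, Plc k M (AlgebraicClosure i.Lv)) (hpl : ∀ i, GeoPlc A (pl i))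
    (E : Lvl k) (γ : AlgebraicClosure k ≃ₐ[k] AlgebraicClosure k) (ω : E.K) (hγ : E.IsTw γ ω)
    (l : ℕ) (hl : l.Prime) (hl2 : l ≠ 2) (ζ : E.K) (hζ : ζ ≠ 1)
    (R : Finset E.K) (hR : 2 ≤ R.card) (hR' : ¬ l ∣ R.card) (c : E.K) (hc : c ≠ 0)
    (x Y : M) (hx : E.Fixed A x) (hY : E.Fixed A Y) (hxc : ∀ c : E.K, x ≠ ct A E c)
    (hγx : A.s γ x = x) (hγY : A.s γ Y = ct A E ζ * Y)
    (heq : Y ^ l = ct A E c * ∏ θ ∈ R, (x - ct A E θ)) (i : PlF k) (hi : x ∈ (pl i).W) :
    ∃ θ ∈ R, (pl i).val (x - ct A E θ) 0 := by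
  classical
  have hl0 : 0 < l := hl.pos
  have hodd : l % 2 = 1 := Nat.odd_iff.1 (hl.odd_of_ne_two hl2)
  have hxθ : ∀ θ, x - ct A E θ ≠ 0 := fun θ => sub_ne_zero.2 (hxc θ)
  have hY0 : Y ≠ 0 := by
    rintro rfl
    rw [zero_pow hl0.ne'] at heq
    exact (mul_ne_zero ((_root_.map_ne_zero _).2 hc) (Finset.prod_ne_zero_iff.2 fun θ _ => hxθ θ))
      heq.symm
  have H : ∀ θ : E.K, ∃ (d : E.K) (g : M), θ ∈ R → d ≠ 0 ∧ E.Fixed A g ∧
      x - ct A E θ = ct A E d * g ^ l := by
    intro θ
    by_cases hθ : θ ∈ R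
    · obtain ⟨d, g, h⟩ := h3 k M A pl hpl E l hl R c hc hR' x Y hx hY (fun θ _ => hxc θ) heq θ hθ
      exact ⟨d, g, fun _ => h⟩
    · exact ⟨0, 0, fun h => absurd h hθ⟩
  choose d g hdg using H
  have hg0 : ∀ θ ∈ R, g θ ≠ 0 := by
    intro θ hθ h0
    have h := (hdg θ hθ).2.2
    rw [h0, zero_pow hl0.ne', mul_zero] at h
    exact hxθ θ h
  have hd0 : ∀ θ ∈ R, ct A E (d θ) ≠ 0 := fun θ hθ => (_root_.map_ne_zero _).2 (hdg θ hθ).1
  set r : E.K → M := fun θ => A.s γ (g θ) / g θ with hr
  have hrg : ∀ θ ∈ R, A.s γ (g θ) = r θ * g θ := by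
    intro θ hθ
    rw [hr]
    exact (div_mul_cancel₀ _ (hg0 θ hθ)).symm
  have hrl : ∀ θ ∈ R, r θ ^ l = 1 := by
    intro θ hθ
    have h1 : A.s γ (g θ) ^ l = g θ ^ l := by
      have h2 := congrArg (A.s γ) (hdg θ hθ).2.2
      rw [map_sub, map_mul, map_pow, hγx, γ_ct hγ, γ_ct hγ, (hdg θ hθ).2.2] at h2
      exact (mul_left_cancel₀ (hd0 θ hθ) h2).symm
    rw [hr]
    change (A.s γ (g θ) / g θ) ^ l = 1
    rw [div_pow, h1, div_self (pow_ne_zero _ (hg0 θ hθ))]
  -- the product of the roots of unity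
  have hG0 : ∏ θ ∈ R, g θ ≠ 0 := Finset.prod_ne_zero_iff.2 hg0
  obtain ⟨w, hw⟩ := Pool.Agent.W620.SC.root_mem (A.j : AlgebraicClosure k →+* M) hl0
    (h := Y / ∏ θ ∈ R, g θ) (b := E.cst (c * ∏ θ ∈ R, d θ)) (by
      have e1 : ∏ θ ∈ R, (x - ct A E θ) = ct A E (∏ θ ∈ R, d θ) * (∏ θ ∈ R, g θ) ^ l := by
        rw [map_prod, ← Finset.prod_pow, ← Finset.prod_mul_distrib]
        exact Finset.prod_congr rfl fun θ hθ => (hdg θ hθ).2.2
      change _ = ct A E (c * ∏ θ ∈ R, d θ)
      rw [div_pow, heq, e1, map_mul, ← mul_assoc, mul_div_assoc, div_self (pow_ne_zero _ hG0),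
        mul_one])
  have hwl : w ^ l = E.cst (c * ∏ θ ∈ R, d θ) := by
    apply A.j.injective
    have e1 : ∏ θ ∈ R, (x - ct A E θ) = ct A E (∏ θ ∈ R, d θ) * (∏ θ ∈ R, g θ) ^ l := by
      rw [map_prod, ← Finset.prod_pow, ← Finset.prod_mul_distrib]
      exact Finset.prod_congr rfl fun θ hθ => (hdg θ hθ).2.2
    change _ = ct A E (c * ∏ θ ∈ R, d θ)
    rw [map_pow]
    change (A.j w) ^ l = _
    have hw' : A.j w = Y / ∏ θ ∈ R, g θ := hw
    rw [hw', div_pow, heq, e1, map_mul, ← mul_assoc, mul_div_assoc,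
      div_self (pow_ne_zero _ hG0), mul_one]
  have hγw : A.s γ (A.j w) = A.j w := by
    rw [A.hj, hγ.1 w (isCst_root E hl0 hwl)]
  have hYw : Y = A.j w * ∏ θ ∈ R, g θ := by
    have hw' : A.j w = Y / ∏ θ ∈ R, g θ := hw
    rw [hw', div_mul_cancel₀ _ hG0]
  have hprod : ∏ θ ∈ R, r θ = ct A E ζ := by
    have h1 : A.s γ Y = (∏ θ ∈ R, r θ) * Y := by
      conv_lhs => rw [hYw]
      rw [map_mul, hγw, map_prod, Finset.prod_congr rfl hrg, Finset.prod_mul_distrib]
      rw [hYw]
      ring
    rw [hγY] at h1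
    exact (mul_right_cancel₀ hY0 h1).symm
  obtain ⟨a, ha, b, hb, hab, hrab⟩ := exists_pair R hR r hodd hrl (by
    rw [hprod]
    intro h
    apply hζ
    apply (ct A E).injective
    rw [h, map_one])
  -- the product of the two functions
  set Z : M := g a * g b with hZ
  have hZγ : A.s γ Z = (r a * r b) * Z := by
    rw [hZ, map_mul, hrg a ha, hrg b hb]
    ring
  obtain ⟨z, hz⟩ := Pool.Agent.W620.SC.root_mem (A.j : AlgebraicClosure k →+* M) hl0
    (h := r a * r b) (b := 1) (by rw [mul_pow, hrl a ha, hrl b hb, map_one, one_mul])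
  have hz' : A.j z = r a * r b := hz
  have hz1 : z ≠ 1 := by
    rintro rfl
    rw [map_one] at hz'
    exact hrab hz'.symm
  have hZf : E.Fixed A Z := fixed_mul (hdg a ha).2.1 (hdg b hb).2.1
  have hprodZ : (x - ct A E a) * (x - ct A E b) = ct A E (d a * d b) * Z ^ l := by
    rw [(hdg a ha).2.2, (hdg b hb).2.2, hZ, map_mul]
    ring
  have hd4 : (4 * d a * d b : E.K) ≠ 0 :=
    mul_ne_zero (mul_ne_zero (by norm_num) (hdg a ha).1) (hdg b hb).1
  have hab2 : ((a - b) ^ 2 : E.K) ≠ 0 := pow_ne_zero _ (sub_ne_zero.2 hab)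
  have hu0 : 2 * x - ct A E a - ct A E b ≠ 0 := by
    intro h
    apply hxc ((a + b) / 2)
    rw [map_div₀, map_add, map_ofNat]
    have h2 : (2 : M) ≠ 0 := two_ne_zero
    field_simp
    linear_combination h
  obtain ⟨D1, D2, -⟩ := h4 k M A pl hpl E γ ω hγ (C (4 * d a * d b) * X ^ l + C ((a - b) ^ 2))
    (sep_binom hd4 hab2 hl0) (by
      rw [deg_binom hd4]
      have := hl.two_le
      omega) Z (2 * x - ct A E a - ct A E b) hZf (by
      refine fixed_sub (fixed_sub ?_ (fixed_ct a)) (fixed_ct b)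
      have h2 : E.Fixed A (2 : M) := fun τ _ => map_ofNat _ 2
      exact fixed_mul h2 hx) hu0 (by
      change _ = eval₂ (ct A E) Z _
      rw [eval₂_add, eval₂_mul, eval₂_C, eval₂_C, eval₂_pow, eval₂_X]
      have e1 : ct A E (4 * d a * d b) = 4 * ct A E (d a * d b) := by
        rw [mul_assoc, map_mul, map_ofNat]
      rw [e1, mul_assoc, ← hprodZ, map_pow, map_sub]
      ring) i
  by_cases hZW : Z ∈ (pl i).W
  · obtain ⟨c0, hc1, hc2⟩ := D1 hZW
    have hc0 : c0 = 0 := zero_of_twist (pl i) hz1 (by rw [hZγ, hz']) hc1 hc2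
    rw [hc0] at hc1
    have h1 := (val_ct (A := A) (E := E) (pl i) (d a * d b)).mul (hc1.pow l)
    rw [← hprodZ, zero_pow hl0.ne', mul_zero] at h1
    obtain ⟨v, hv⟩ := Plc.val_of_mem hi
    have ha' := hv.sub (val_ct (A := A) (E := E) (pl i) a)
    have hb' := hv.sub (val_ct (A := A) (E := E) (pl i) b)
    have h2 := (ha'.mul hb').unique h1
    rcases mul_eq_zero.1 h2 with h | h
    · rw [h] at ha'
      exact ⟨a, ha, ha'⟩
    · rw [h] at hb'
      exact ⟨b, hb, hb'⟩
  · exfalso
    apply hZW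
    apply Plc.mem_of_pow_mem hl0
    apply mem_of_ct_mul (pl i) (mul_ne_zero (hdg a ha).1 (hdg b hb).1)
    rw [← hprodZ]
    exact mul_mem (sub_mem hi (val_ct (pl i) a).mem) (sub_mem hi (val_ct (pl i) b).mem)

end main

/-- product formula -/
lemma eval₂_prod {K M : Type} [Field K] [Field M] (φ : K →+* M) (F : K[X]) (hs : F.Splits)
    (hF : F.Separable) (x : M) [DecidableEq K] :
    eval₂ φ x F = φ F.leadingCoeff * ∏ θ ∈ F.roots.toFinset, (x - φ θ) := by
  conv_lhs => rw [hs.eq_prod_roots]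
  rw [eval₂_mul, eval₂_C]
  congr 1
  have h1 : F.roots.toFinset.val = F.roots := by
    rw [Multiset.toFinset_val, Multiset.dedup_eq_self]
    exact nodup_roots hF
  rw [Finset.prod, h1, ← Polynomial.coe_eval₂RingHom, map_multiset_prod, Multiset.map_map]
  congr 1
  apply Multiset.map_congr rfl
  intro θ _
  simp

theorem main (h1 : S_LvlExt) (h2 : S_LvlInit) (h3 : S_TypesL) (h4 : S_Dthm) : S_Super := by
  intro K _ _ hess M _ _ _ _ A pl hpl f hf hd m hm hmd x y hx hy hxt heq i hi
  classical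
  have hchz : CharZero (RatFunc K) :=
    charZero_of_injective_algebraMap (algebraMap K (RatFunc K)).injective
  obtain ⟨E0, j0, ω0, γ, hc0, hS0, hω0, hγ0⟩ := h2 K hess m (by omega)
  have hf0 : f ≠ 0 := by
    rintro rfl
    rw [natDegree_zero] at hd
    omega
  obtain ⟨E, j, hcj, hSE, hsp, hc1, hc2, -⟩ := h1 (RatFunc K) E0 (f.map j0)
    ((Polynomial.map_ne_zero_iff j0.injective).2 hf0)
  set J : K →+* E.K := j.comp j0 with hJdef
  set F : E.K[X] := f.map J with hF
  have hFs : F.Separable := hf.map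
  have hFd : F.natDegree = f.natDegree := natDegree_map_eq_of_injective J.injective f
  have hFsp : F.Splits := by
    rw [hF, hJdef, ← Polynomial.map_map]
    exact hsp
  have hF0 : F ≠ 0 := (Polynomial.map_ne_zero_iff J.injective).2 hf0
  set ω : E.K := j ω0 with hωdef
  have hω : IsPrimitiveRoot ω m := hω0.map_of_injective j.injective
  have hγ : E.IsTw γ ω := ⟨fun w hw => hγ0.1 w (hc1 w hw), by rw [hSE, hγ0.2, hcj]⟩
  have hJ : (ct A E).comp J = (algebraMap (RatFunc K) M).comp (algebraMap K (RatFunc K)) := by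
    apply RingHom.ext
    intro c
    change A.j (E.cst (j (j0 c))) = _
    rw [hcj, hc0, A.j.commutes]
    rfl
  have hv : aeval x (f.map (algebraMap K (RatFunc K))) = eval₂ (ct A E) x F := by
    rw [aeval_def, eval₂_map, hF, eval₂_map, hJ]
  have hv0 : eval₂ (ct A E) x F ≠ 0 := by
    rw [← hv]
    intro h
    exact hxt ⟨_, (Polynomial.map_ne_zero_iff (algebraMap K (RatFunc K)).injective).2 hf0, h⟩
  rw [hv] at heq ⊢
  set v : M := eval₂ (ct A E) x F with hvdef
  set Y : M := A.j E.S * y with hY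
  have hYm : Y ^ m = v := by rw [hY, mul_pow, ← map_pow, hSE, hS0, A.j.commutes, heq]
  have hxf : E.Fixed A x := fun τ _ => hx τ
  have hYf : E.Fixed A Y := fun τ hτ => by
    rw [hY, map_mul, hy τ, A.hj]
    exact congrArg (fun z => A.j z * y) (hτ RatFunc.X)
  have hγY : A.s γ Y = ct A E ω * Y := by
    rw [hY, map_mul, hy γ, A.hj, hγ.2, map_mul, mul_assoc]
    rfl
  have hxc : ∀ c : E.K, x ≠ ct A E c := by
    intro c h
    apply hxt
    rw [h, ct_apply]
    exact (Algebra.IsAlgebraic.isAlgebraic (R := RatFunc K) (E.cst c)).algHom A.j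
  have hY0 : Y ≠ 0 := by
    rintro h
    rw [h, zero_pow (by omega)] at hYm
    exact hv0 hYm.symm
  obtain ⟨xv, hxv⟩ := Plc.val_of_mem hi
  have hvW : v ∈ (pl i).W := (val_eval₂ (pl i) hxv F).mem
  -- the roots
  set R : Finset E.K := F.roots.toFinset with hR
  have hRc : R.card = f.natDegree := by
    rw [hR, Multiset.toFinset_card_of_nodup (nodup_roots hFs), ← hFsp.natDegree_eq_card_roots, hFd]
  set a : E.K := F.leadingCoeff with ha
  have ha0 : a ≠ 0 := leadingCoeff_ne_zero.2 hF0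
  have hvp : v = ct A E a * ∏ θ ∈ R, (x - ct A E θ) := eval₂_prod (ct A E) F hFsp hFs x
  -- a root with value zero is sufficient
  have hfin : (∃ θ ∈ R, (pl i).val (x - ct A E θ) 0) → (pl i).val v 0 := by
    rintro ⟨θ, hθ, hval⟩
    have e1 : (pl i).val x (vc A E (pl i) θ) := by
      have e2 := hval.add (val_ct (A := A) (E := E) (pl i) θ)
      rwa [sub_add_cancel, zero_add] at e2
    have e3 := val_eval₂ (A := A) (pl i) e1 F
    rw [eval₂_at_apply] at e3
    have e4 : F.eval θ = 0 := by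
      rw [hR, Multiset.mem_toFinset, mem_roots hF0] at hθ
      exact hθ
    rwa [e4, map_zero] at e3
  have hω1 : ω ≠ 1 := hω.ne_one (by omega)
  by_cases hd2 : f.natDegree = 2
  · -- quadratic polynomials
    have hm3 : 3 ≤ m := by
      rcases Nat.lt_or_ge 2 m with h | h
      · exact h
      · exact absurd ⟨by omega, hd2⟩ hmd
    rw [hd2] at hRc
    obtain ⟨θ1, θ2, hne, hR2⟩ := Finset.card_eq_two.1 hRc
    rw [hR2, Finset.prod_pair hne] at hvp
    have ha4 : (4 / a : E.K) ≠ 0 := div_ne_zero (by norm_num) ha0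
    have hab2 : ((θ1 - θ2) ^ 2 : E.K) ≠ 0 := pow_ne_zero _ (sub_ne_zero.2 hne)
    obtain ⟨D1, D2, -⟩ := h4 (RatFunc K) M A pl hpl E γ ω hγ
      (C (4 / a) * X ^ m + C ((θ1 - θ2) ^ 2)) (sep_binom ha4 hab2 (by omega)) (by
        rw [deg_binom ha4]
        exact hm3) Y (2 * x - ct A E θ1 - ct A E θ2) hYf (by
        refine fixed_sub (fixed_sub ?_ (fixed_ct θ1)) (fixed_ct θ2)
        have h2 : E.Fixed A (2 : M) := fun τ _ => map_ofNat _ 2
        exact fixed_mul h2 hxf) (by
        intro h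
        apply hxc ((θ1 + θ2) / 2)
        rw [map_div₀, map_add, map_ofNat]
        have h2 : (2 : M) ≠ 0 := two_ne_zero
        field_simp
        linear_combination h) (by
        change _ = eval₂ (ct A E) Y _
        rw [eval₂_add, eval₂_mul, eval₂_C, eval₂_C, eval₂_pow, eval₂_X, hYm, hvp, map_div₀,
          map_ofNat, map_pow, map_sub]
        have h2 : ct A E a ≠ 0 := (_root_.map_ne_zero _).2 ha0
        field_simp
        ring) i
    by_cases hYW : Y ∈ (pl i).W
    · obtain ⟨c0, hv1, hv2⟩ := D1 hYW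
      have hc0 : c0 = 0 := zero_of_twist (pl i) (z := E.cst ω) (fun h => hω1 (by
        apply E.cst.injective
        rw [h, map_one])) hγY hv1 hv2
      rw [hc0] at hv1
      have h5 := hv1.pow m
      rwa [hYm, zero_pow (by omega)] at h5
    · exfalso
      apply hYW
      apply Plc.mem_of_pow_mem (n := m) (by omega)
      rw [hYm]
      exact hvW
  · have hd3 : 3 ≤ f.natDegree := by omega
    rcases Nat.even_or_odd m with hev | hodd
    · -- even exponents
      obtain ⟨n, hn⟩ := hev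
      have hn0 : 0 < n := by omega
      have hωn : ω ^ n = -1 := by
        have e1 : (ω ^ n) ^ 2 = 1 := by
          rw [← pow_mul, ← hω.pow_eq_one]
          congr 1
          omega
        rcases (sq_eq_sq_iff_eq_or_eq_neg.1 (e1.trans (one_pow 2).symm)) with h | h
        · exact absurd h (hω.pow_ne_one_of_pos_of_lt (by omega) (by omega))
        · exact h
      have hY2 : (Y ^ n) ^ 2 = v := by
        rw [← pow_mul, ← hYm]
        congr 1
        omega
      obtain ⟨-, -, D3⟩ := h4 (RatFunc K) M A pl hpl E γ ω hγ F hFs (by rw [hFd]; exact hd3)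
        x (Y ^ n) hxf (fixed_pow hYf n) (pow_ne_zero _ hY0) hY2 i
      have h5 := (D3 (hx γ) (by
        rw [map_pow, hγY, mul_pow, ← map_pow, hωn, map_neg, map_one, neg_one_mul]) hi).pow 2
      rwa [hY2, zero_pow two_ne_zero] at h5
    · -- odd exponents
      have hl : m.minFac.Prime := Nat.minFac_prime (by omega)
      set l : ℕ := m.minFac with hldef
      obtain ⟨n, hn⟩ : l ∣ m := Nat.minFac_dvd m
      have hl2 : l ≠ 2 := by
        intro h
        rw [h] at hn
        rw [hn] at hodd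
        exact (Nat.not_odd_iff_even.2 ⟨n, by ring⟩) hodd
      have hlp := hl.two_le
      have hn0 : 0 < n := by
        rcases Nat.eq_zero_or_pos n with h | h
        · rw [h] at hn
          omega
        · exact h
      have hnm : n < m := by
        rw [hn]
        nlinarith
      have hζ : ω ^ n ≠ 1 := hω.pow_ne_one_of_pos_of_lt hn0.ne' hnm
      have hY3 : (Y ^ n) ^ l = v := by
        rw [← pow_mul, mul_comm n l, ← hn, hYm]
      have hγY3 : A.s γ (Y ^ n) = ct A E (ω ^ n) * Y ^ n := by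
        rw [map_pow, hγY, mul_pow, map_pow]
      apply hfin
      by_cases hld : l ∣ f.natDegree
      · -- one root is moved to infinity
        have hRne : R.Nonempty := by
          rw [← Finset.card_pos, hRc]
          omega
        obtain ⟨θ1, hθ1⟩ := hRne
        obtain ⟨q, hq⟩ := hld
        have hxθ : x - ct A E θ1 ≠ 0 := sub_ne_zero.2 (hxc θ1)
        set x' : M := (x - ct A E θ1)⁻¹ with hx'
        have hx'0 : x' ≠ 0 := inv_ne_zero hxθ
        have hxx' : (x - ct A E θ1) * x' = 1 := mul_inv_cancel₀ hxθ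
        set R1 : Finset E.K := R.erase θ1 with hR1
        have hR1c : R1.card = f.natDegree - 1 := by
          rw [hR1, Finset.card_erase_of_mem hθ1, hRc]
        have hinj : Set.InjOn (fun θ : E.K => (θ - θ1)⁻¹) (R1 : Set E.K) := by
          intro s _ t _ hst
          have := inv_injective hst
          exact sub_left_injective this
        set R' : Finset E.K := R1.image (fun θ => (θ - θ1)⁻¹) with hR'
        have hR'c : R'.card = f.natDegree - 1 := by
          rw [hR', Finset.card_image_of_injOn hinj, hR1c]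
        have hprod : (Y ^ n * x' ^ q) ^ l = ct A E (a * ∏ θ ∈ R1, (θ1 - θ)) *
            ∏ θ ∈ R', (x' - ct A E θ) := by
          have e1 : (Y ^ n * x' ^ q) ^ l = v * x' ^ f.natDegree := by
            rw [mul_pow, hY3, ← pow_mul, mul_comm q l, ← hq]
          have e2 : ∏ θ ∈ R, (x - ct A E θ) = (x - ct A E θ1) * ∏ θ ∈ R1, (x - ct A E θ) :=
            (Finset.mul_prod_erase R _ hθ1).symm
          have e3 : x' ^ f.natDegree = x' * ∏ θ ∈ R1, x' := by
            rw [Finset.prod_const, hR1c, ← pow_succ']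
            congr 1
            omega
          have e4 : ∏ θ ∈ R', (x' - ct A E θ) = ∏ θ ∈ R1, (x' - ct A E ((θ - θ1)⁻¹)) :=
            Finset.prod_image hinj
          have e5 : (∏ θ ∈ R1, (x - ct A E θ)) * ∏ θ ∈ R1, x' =
              ct A E (∏ θ ∈ R1, (θ1 - θ)) * ∏ θ ∈ R1, (x' - ct A E ((θ - θ1)⁻¹)) := by
            rw [map_prod, ← Finset.prod_mul_distrib, ← Finset.prod_mul_distrib]
            apply Finset.prod_congr rfl
            intro θ hθ
            have hθne : θ - θ1 ≠ 0 := sub_ne_zero.2 (Finset.ne_of_mem_erase hθ)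
            have e6 : ct A E (θ1 - θ) * ct A E ((θ - θ1)⁻¹) = -1 := by
              rw [← map_mul]
              have : (θ1 - θ) * (θ - θ1)⁻¹ = -1 := by
                field_simp
                ring
              rw [this, map_neg, map_one]
            rw [mul_sub, e6, map_sub]
            linear_combination hxx'
          rw [e1, hvp, e2, e3, e4, map_mul]
          calc _ = ct A E a * ((x - ct A E θ1) * x') * ((∏ θ ∈ R1, (x - ct A E θ)) *
                ∏ θ ∈ R1, x') := by ring
            _ = _ := by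
              rw [hxx', e5]
              ring
        have hx'c : ∀ c : E.K, x' ≠ ct A E c := by
          intro c h
          apply hxc (θ1 + c⁻¹)
          have e1 : x - ct A E θ1 = (ct A E c)⁻¹ := by
            rw [← h, hx', inv_inv]
          rw [map_add, map_inv₀, ← e1]
          ring
        have hprod0 : (∏ θ ∈ R1, (θ1 - θ)) ≠ 0 := Finset.prod_ne_zero_iff.2
          (fun θ hθ => sub_ne_zero.2 (Finset.ne_of_mem_erase hθ).symm)
        have hx'f : E.Fixed A x' := fixed_inv (fixed_sub hxf (fixed_ct θ1))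
        have hγx' : A.s γ x' = x' := by
          rw [hx', map_inv₀, map_sub, hx γ, γ_ct hγ]
        by_cases hx'W : x' ∈ (pl i).W
        · obtain ⟨θ', hθ', hval⟩ := claim h3 h4 A pl hpl E γ ω hγ l hl hl2 (ω ^ n) hζ R'
            (by rw [hR'c]; omega) (by
              rw [hR'c]
              intro h
              have h5 : l ∣ f.natDegree := ⟨q, hq⟩
              have h6 := (Nat.dvd_sub h5 h)
              have h7 : f.natDegree - (f.natDegree - 1) = 1 := by omega
              rw [h7] at h6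
              exact hl.one_lt.ne' (Nat.dvd_one.1 h6)) (a * ∏ θ ∈ R1, (θ1 - θ))
            (mul_ne_zero ha0 hprod0) x' (Y ^ n * x' ^ q) hx'f
            (fixed_mul (fixed_pow hYf n) (fixed_pow hx'f q)) hx'c hγx' (by
              rw [map_mul, hγY3, map_pow (A.s γ) x' q, hγx']
              ring) hprod i hx'W
          rw [hR', Finset.mem_image] at hθ'
          obtain ⟨θ, hθ, rfl⟩ := hθ'
          have hθne : θ - θ1 ≠ 0 := sub_ne_zero.2 (Finset.ne_of_mem_erase hθ)
          refine ⟨θ, Finset.mem_of_mem_erase hθ, ?_⟩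
          have e1 : (pl i).val x' (vc A E (pl i) ((θ - θ1)⁻¹)) := by
            have e2 := hval.add (val_ct (A := A) (E := E) (pl i) ((θ - θ1)⁻¹))
            rwa [sub_add_cancel, zero_add] at e2
          have e3 := e1.inv ((_root_.map_ne_zero _).2 (inv_ne_zero hθne))
          rw [hx', inv_inv, map_inv₀, inv_inv] at e3
          have e4 := e3.sub (val_ct (A := A) (E := E) (pl i) (θ - θ1))
          rw [sub_self] at e4
          have e5 : x - ct A E θ1 - ct A E (θ - θ1) = x - ct A E θ := by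
            rw [map_sub]
            ring
          rwa [e5] at e4
        · refine ⟨θ1, hθ1, ?_⟩
          have e1 := Plc.val_inv_of_notMem hx'W
          rwa [hx', inv_inv] at e1
      · exact claim h3 h4 A pl hpl E γ ω hγ l hl hl2 (ω ^ n) hζ R (by omega)
          (by rw [hRc]; exact hld) a ha0 x (Y ^ n) hxf (fixed_pow hYf n) hxc (hx γ) hγY3
          (by rw [hY3, hvp]) i hi

end Pool.Agent.Y791.BF.Super
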